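import Mathlib
import Pool.Agent.Work.MP_787500_nt.H67_Defs
import Pool.Agent.Work.MP_787500_nt.H10_Defs

/-!
Definitions for the statement in all codimensions. Do not change.
-/

set_option autoImplicit false

namespace Pool.Agent.Work.MP_787500_nt.AC

open IsDedekindDomain NumberField WeierstrassCurve WeierstrassCurve.Affine
open Pool.Agent.Work.MP_787500_nt
open Pool.Agent.Work.MP_787500_nt.OddP (AbsGal cocycles cobLin locally)
open scoped Pointwise

universe u

section tate

variable {A : Type*} [AddCommGroup A]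

/-- `t 0` and `t 1` are a basis of the 2-adic Tate module of `A`: `t j 0 = 0`,
`2 • t j (n + 1) = t j n`, and every element of `A` killed by `2 ^ n` is a combination of `t 0 n` and
`t 1 n` with integer coefficients, which are unique modulo `2 ^ n`. -/
structure IsTateBasis (t : Fin 2 → ℕ → A) : Prop where
  zero : ∀ j, t j 0 = 0
  dbl : ∀ j n, 2 • t j (n + 1) = t j n
  span : ∀ (n : ℕ) (Q : A), (2 ^ n) • Q = 0 → ∃ m : Fin 2 → ℤ, Q = m 0 • t 0 n + m 1 • t 1 n
  indep : ∀ (n : ℕ) (m : Fin 2 → ℤ), m 0 • t 0 n + m 1 • t 1 n = 0 → ∀ j, (2 : ℤ) ^ n ∣ m j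

/-- The combination of `t 0 n` and `t 1 n` with the 2-adic coefficients `c 0` and `c 1` (modulo
`2 ^ n`). -/
noncomputable def ev (t : Fin 2 → ℕ → A) (c : Fin 2 → ℤ_[2]) (n : ℕ) : A :=
  (c 0).appr n • t 0 n + (c 1).appr n • t 1 n

end tate

section curve

variable {F : Type u} [Field F]

open scoped Classical in
/-- `t` is a basis of the Tate module of `W`, and `ρ` gives the action of the absolute Galois group
in this basis. -/
def IsTateRep (W : WeierstrassCurve.Affine F) (t : Fin 2 → ℕ → (W⁄(AlgebraicClosure F)).Point)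
    (ρ : AbsGal F →* Matrix (Fin 2) (Fin 2) ℤ_[2]) : Prop :=
  IsTateBasis t ∧
    ∀ (σ : AbsGal F) (j : Fin 2) (n : ℕ), gact W σ (t j n) = ev t (fun i => ρ σ i j) n

open scoped Classical in
/-- `t` is a basis of the Tate module of `W`, and the absolute Galois group acts on `t j` by the
character `ψ j`. -/
def IsTateEigen (W : WeierstrassCurve.Affine F) (t : Fin 2 → ℕ → (W⁄(AlgebraicClosure F)).Point)
    (ψ : Fin 2 → AbsGal F →* ℤ_[2]ˣ) : Prop :=
  IsTateBasis t ∧
    ∀ (σ : AbsGal F) (j : Fin 2) (n : ℕ), gact W σ (t j n) = (ψ j σ : ℤ_[2]).appr n • t j n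

/-- The tensor product of the representation `ρ` with the character `χ`. -/
noncomputable def twist {n : ℕ} (χ : AbsGal F →* ℤ_[2]ˣ)
    (ρ : AbsGal F →* Matrix (Fin n) (Fin n) ℤ_[2]) : AbsGal F →* Matrix (Fin n) (Fin n) ℤ_[2] where
  toFun σ := (χ σ : ℤ_[2]) • ρ σ
  map_one' := by simp
  map_mul' σ τ := by
    rw [map_mul, map_mul, Units.val_mul, smul_mul_smul_comm]

/-- Every continuous cocycle that becomes a coboundary on the inertia groups of all primes not
containing 2, and on the decomposition group (the stabilizer) of one prime containing 2, is a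
coboundary. -/
def NoSelmer {n : ℕ} (ρ : AbsGal F →* Matrix (Fin n) (Fin n) ℤ_[2]) : Prop :=
  ∀ x ∈ cocycles ρ,
    (∀ Q : Ideal (𝓞 (AlgebraicClosure F)), Q.IsPrime → (2 : 𝓞 (AlgebraicClosure F)) ∉ Q →
      x ∈ locally ρ (Q.inertia (AbsGal F))) →
    (∃ P : Ideal (𝓞 (AlgebraicClosure F)), P.IsPrime ∧ (2 : 𝓞 (AlgebraicClosure F)) ∈ P ∧
      x ∈ locally ρ (MulAction.stabilizer (AbsGal F) P)) →
    x ∈ LinearMap.range (cobLin ρ)

open scoped Classical in
/-- The local Kummer condition at all finite places: `y = 2 ^ N x` has 2-adic integral values, and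
for every `n` the cocycle `ev t (y σ) n`, with values in the points of order dividing `2 ^ n`, becomes
trivial in the points over the algebraic closure of the completion at every finite place. -/
def KumLoc [NumberField F] (W : WeierstrassCurve.Affine F)
    (t : Fin 2 → ℕ → (W⁄(AlgebraicClosure F)).Point) (x : AbsGal F → Fin 2 → ℚ_[2]) : Prop :=
  ∃ (N : ℕ) (y : AbsGal F → Fin 2 → ℤ_[2]), (∀ σ j, (y σ j : ℚ_[2]) = 2 ^ N * x σ j) ∧
    ∀ (n : ℕ) (v : HeightOneSpectrum (𝓞 F)),
      LocTriv W (v.adicCompletion F) (fun σ => ev t (y σ) n)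

open scoped Classical in
/-- `c` is a Kummer cocycle of the rational point `P`: for a sequence `d n` of points with
`d 0 = P` and `2 • d (n + 1) = d n`, the values of `c` are the coordinates of the sequences
`σ (d n) - d n`. -/
def IsKummer (W : WeierstrassCurve.Affine F) (t : Fin 2 → ℕ → (W⁄(AlgebraicClosure F)).Point)
    (P : (W⁄F).Point) (c : AbsGal F → Fin 2 → ℚ_[2]) : Prop :=
  ∃ (d : ℕ → (W⁄(AlgebraicClosure F)).Point) (y : AbsGal F → Fin 2 → ℤ_[2]),
    d 0 = Point.map (W' := W) (Algebra.ofId F (AlgebraicClosure F)) P ∧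
    (∀ n, 2 • d (n + 1) = d n) ∧ (∀ σ n, gact W σ (d n) - d n = ev t (y σ) n) ∧
    ∀ σ j, c σ j = (y σ j : ℚ_[2])

/-- The space of functions spanned by the Kummer cocycles of all rational points and by the
coboundaries. -/
noncomputable def kummerSpace (W : WeierstrassCurve.Affine F)
    (t : Fin 2 → ℕ → (W⁄(AlgebraicClosure F)).Point)
    (ρ : AbsGal F →* Matrix (Fin 2) (Fin 2) ℤ_[2]) :
    Submodule ℚ_[2] (AbsGal F → Fin 2 → ℚ_[2]) :=
  Submodule.span ℚ_[2] {c | ∃ P, IsKummer W t P c} ⊔ LinearMap.range (cobLin ρ)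

/-- The continuous cocycles that satisfy the local Kummer conditions are the elements of the space
spanned by the Kummer cocycles and the coboundaries, and this space modulo the coboundaries has
dimension `r`. -/
def KummerOnto [NumberField F] (W : WeierstrassCurve.Affine F)
    (t : Fin 2 → ℕ → (W⁄(AlgebraicClosure F)).Point)
    (ρ : AbsGal F →* Matrix (Fin 2) (Fin 2) ℤ_[2]) (r : ℕ) : Prop :=
  (∀ x, x ∈ cocycles ρ ∧ KumLoc W t x ↔ x ∈ kummerSpace W t ρ) ∧
    Module.rank ℚ_[2] (kummerSpace W t ρ ⧸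
      (LinearMap.range (cobLin ρ)).submoduleOf (kummerSpace W t ρ)) = r

/-- The statement for the field `F`, `s ^ 2 = -7`: `E` is the curve `y ^ 2 = x ^ 3 - x`, and `E0` is
the curve `y ^ 2 = x (x - 1) (x - (1 - 3 s) / 2)`. -/
structure AllCodim [NumberField F] (s : F) (r : ℕ) : Prop where
  exE : ∃ t ρ, IsTateRep (legendre (0 : F) 1 (-1)) t ρ
  exE0 : ∃ t ψ, IsTateEigen (legendre 0 1 ((1 - 3 * s) / 2)) t ψ
  onto : ∀ t ρ, IsTateRep (legendre (0 : F) 1 (-1)) t ρ →
    KummerOnto (legendre (0 : F) 1 (-1)) t ρ r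
  zero : ∀ t ρ t' ψ, IsTateRep (legendre (0 : F) 1 (-1)) t ρ →
    IsTateEigen (legendre 0 1 ((1 - 3 * s) / 2)) t' ψ →
    ∀ k : ℤ, NoSelmer (twist ((ψ 0 / ψ 1) ^ k) ρ)
  zero' : ∀ t' ψ, IsTateEigen (legendre 0 1 ((1 - 3 * s) / 2)) t' ψ →
    ∀ k : ℤ, NoSelmer (twist (ψ 0 ^ (k + 1) * ψ 1 ^ (-k)) (1 : AbsGal F →* Matrix (Fin 1) (Fin 1) ℤ_[2]))

end curve

end Pool.Agent.Work.MP_787500_nt.AC
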