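import Mathlib
import Pool.Agent.Work.MP_787500_nt.AC.Defs

/-!
Definitions for the exterior powers of the Tate module of the product of an elliptic curve `E` and
the power `E0 ^ (2 i)` of an elliptic curve `E0` with complex multiplication. Do not change.
-/

set_option autoImplicit false

namespace Pool.Agent.Work.MP_787500_nt.AC

open IsDedekindDomain NumberField WeierstrassCurve WeierstrassCurve.Affine
open Pool.Agent.Work.MP_787500_nt
open Pool.Agent.Work.MP_787500_nt.OddP (AbsGal cocycles cobLin locally)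
open scoped Pointwise

universe u

/-- The rational Tate module of `E × E0 ^ (2 i)`: the coordinates `inl j` are those of the Tate module
of `E`, the coordinates `inr (a, b)` those of the Tate module of the factor `E0` with index `a`. -/
abbrev VX (i : ℕ) : Type := Fin 2 ⊕ Fin (2 * i) × Fin 2 → ℚ_[2]

/-- The exterior algebra of the rational Tate module of `E × E0 ^ (2 i)`. -/
abbrev LX (i : ℕ) : Type := ExteriorAlgebra ℚ_[2] (VX i)

/-- The vector of `VX i` with coordinate 1 at `k` and all other coordinates 0. -/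
noncomputable def vec (i : ℕ) (k : Fin 2 ⊕ Fin (2 * i) × Fin 2) : LX i :=
  ExteriorAlgebra.ι ℚ_[2] (Pi.single k 1 : VX i)

/-- The span in the exterior algebra of the Tate module of `E`. -/
noncomputable def spE (i : ℕ) : Submodule ℚ_[2] (LX i) :=
  Submodule.span ℚ_[2] (Set.range fun j : Fin 2 => vec i (.inl j))

/-- The span in the exterior algebra of the vectors with index `b` in the bases of the Tate modules of
the factors `E0`. -/
noncomputable def spU (i : ℕ) (b : Fin 2) : Submodule ℚ_[2] (LX i) :=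
  Submodule.span ℚ_[2] (Set.range fun a : Fin (2 * i) => vec i (.inr (a, b)))

/-- The products of `c` elements of `spE`, `a` elements of `spU 0` and `b` elements of `spU 1`. -/
noncomputable def piece (i c a b : ℕ) : Submodule ℚ_[2] (LX i) :=
  spE i ^ c * spU i 0 ^ a * spU i 1 ^ b

section action

variable {F : Type u} [Field F]

/-- The action on the rational Tate module of `E × E0 ^ (2 i)`, if `ρ` gives the action on the Tate
module of `E` and the Tate module of `E0` is the sum of the characters `ψ 0` and `ψ 1`. -/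
noncomputable def actX (i : ℕ) (ρ : AbsGal F →* Matrix (Fin 2) (Fin 2) ℤ_[2])
    (ψ : Fin 2 → AbsGal F →* ℤ_[2]ˣ) (σ : AbsGal F) : VX i →ₗ[ℚ_[2]] VX i :=
  LinearMap.pi fun k => Sum.elim
    (fun j => ∑ l, (ρ σ j l : ℚ_[2]) • LinearMap.proj (Sum.inl l))
    (fun ab => (((ψ ab.2 σ : ℤ_[2]ˣ) : ℤ_[2]) : ℚ_[2]) • LinearMap.proj (Sum.inr ab)) k

/-- The action on the exterior algebra, twisted by the power `-i` of the determinant of the Tate
module of `E0`. -/
noncomputable def act (i : ℕ) (ρ : AbsGal F →* Matrix (Fin 2) (Fin 2) ℤ_[2])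
    (ψ : Fin 2 → AbsGal F →* ℤ_[2]ˣ) (σ : AbsGal F) : LX i →ₗ[ℚ_[2]] LX i :=
  ((((ψ 0 σ * ψ 1 σ) ^ (-(i : ℤ)) : ℤ_[2]ˣ) : ℤ_[2]) : ℚ_[2]) •
    (ExteriorAlgebra.map (actX i ρ ψ σ)).toLinearMap

/-- The functions which on the subgroup `D` are equal to the coboundary of an element of `M`. -/
def cobOn (i : ℕ) (ρ : AbsGal F →* Matrix (Fin 2) (Fin 2) ℤ_[2])
    (ψ : Fin 2 → AbsGal F →* ℤ_[2]ˣ) (M : Submodule ℚ_[2] (LX i)) (D : Subgroup (AbsGal F)) :
    Submodule ℚ_[2] (AbsGal F → LX i) where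
  carrier := {x | ∃ v ∈ M, ∀ σ ∈ D, x σ = act i ρ ψ σ v - v}
  add_mem' := by
    rintro x y ⟨v, hv, h⟩ ⟨w, hw, h'⟩
    refine ⟨v + w, M.add_mem hv hw, fun σ hσ => ?_⟩
    rw [Pi.add_apply, h σ hσ, h' σ hσ, map_add]
    abel
  zero_mem' := ⟨0, M.zero_mem, fun σ _ => by simp⟩
  smul_mem' := by
    rintro a x ⟨v, hv, h⟩
    refine ⟨a • v, M.smul_mem a hv, fun σ hσ => ?_⟩
    rw [Pi.smul_apply, h σ hσ, map_smul, smul_sub]

/-- The continuous 1-cocycles with values in `M`. -/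
def cocIn (i : ℕ) (ρ : AbsGal F →* Matrix (Fin 2) (Fin 2) ℤ_[2])
    (ψ : Fin 2 → AbsGal F →* ℤ_[2]ˣ) (M : Submodule ℚ_[2] (LX i)) :
    Submodule ℚ_[2] (AbsGal F → LX i) where
  carrier := {x | (∀ σ, x σ ∈ M) ∧ (∀ f : LX i →ₗ[ℚ_[2]] ℚ_[2], Continuous fun σ => f (x σ)) ∧
    ∀ σ τ, x (σ * τ) = x σ + act i ρ ψ σ (x τ)}
  add_mem' := by
    rintro x y ⟨h1, h2, h3⟩ ⟨k1, k2, k3⟩
    refine ⟨fun σ => M.add_mem (h1 σ) (k1 σ), fun f => ?_, fun σ τ => ?_⟩
    · exact ((h2 f).add (k2 f)).congr fun σ => (map_add f (x σ) (y σ)).symm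
    · simp only [Pi.add_apply, h3 σ τ, k3 σ τ, map_add]
      abel
  zero_mem' := ⟨fun _ => M.zero_mem, fun f => by simpa using continuous_const,
    fun σ τ => by simp⟩
  smul_mem' := by
    rintro a x ⟨h1, h2, h3⟩
    refine ⟨fun σ => M.smul_mem a (h1 σ), fun f => ?_, fun σ τ => ?_⟩
    · exact ((h2 f).const_mul a).congr fun σ => (map_smul f a (x σ)).symm
    · simp only [Pi.smul_apply, h3 σ τ, map_smul, smul_add]

/-- The continuous cocycles with values in `M` that are coboundaries on the inertia groups of all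
primes not containing 2 and on the decomposition group of `P`. -/
noncomputable def strict (i : ℕ) (ρ : AbsGal F →* Matrix (Fin 2) (Fin 2) ℤ_[2])
    (ψ : Fin 2 → AbsGal F →* ℤ_[2]ˣ) (M : Submodule ℚ_[2] (LX i))
    (P : Ideal (𝓞 (AlgebraicClosure F))) : Submodule ℚ_[2] (AbsGal F → LX i) :=
  cocIn i ρ ψ M ⊓ cobOn i ρ ψ M (MulAction.stabilizer (AbsGal F) P) ⊓
    ⨅ (Q : Ideal (𝓞 (AlgebraicClosure F))) (_ : Q.IsPrime) (_ : (2 : 𝓞 (AlgebraicClosure F)) ∉ Q),
      cobOn i ρ ψ M (Q.inertia (AbsGal F))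

/-- The span of the functions `y ∧ ω`, for `y` in the set `Y` of functions with values in the Tate
module of `E`, and `ω` in `spU 0 ^ i * spU 1 ^ i`. -/
noncomputable def wedge (i : ℕ) (Y : Set (AbsGal F → Fin 2 → ℚ_[2])) :
    Submodule ℚ_[2] (AbsGal F → LX i) :=
  Submodule.span ℚ_[2] {x | ∃ y ∈ Y, ∃ ω ∈ spU i 0 ^ i * spU i 1 ^ i,
    ∀ σ, x σ = (∑ j, y σ j • vec i (.inl j)) * ω}

open scoped Classical in
/-- The sum of the coboundaries, of all `y ∧ ω` for continuous cocycles `y` with values in the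
rational Tate module of `E` that satisfy the local Kummer conditions at all places, and of the strict
cocycles with values in the pieces, for all primes `P` containing 2. -/
noncomputable def selX [NumberField F] (i : ℕ) (W : WeierstrassCurve.Affine F)
    (t : Fin 2 → ℕ → (W⁄(AlgebraicClosure F)).Point)
    (ρ : AbsGal F →* Matrix (Fin 2) (Fin 2) ℤ_[2]) (ψ : Fin 2 → AbsGal F →* ℤ_[2]ˣ) :
    Submodule ℚ_[2] (AbsGal F → LX i) :=
  cobOn i ρ ψ (⋀[ℚ_[2]]^(2 * i + 1) (VX i)) ⊤ ⊔ wedge i {y | y ∈ cocycles ρ ∧ KumLoc W t y} ⊔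
    ⨆ (P : Ideal (𝓞 (AlgebraicClosure F))) (_ : P.IsPrime) (_ : (2 : 𝓞 (AlgebraicClosure F)) ∈ P)
      (c : ℕ) (a : ℕ) (b : ℕ) (_ : c ≤ 2 ∧ c + a + b = 2 * i + 1), strict i ρ ψ (piece i c a b) P

open scoped Classical in
/-- The sum of the coboundaries and of all `κ ∧ ω` for the Kummer cocycles `κ` of the points of `E`
over `F`. -/
noncomputable def ajX (i : ℕ) (W : WeierstrassCurve.Affine F)
    (t : Fin 2 → ℕ → (W⁄(AlgebraicClosure F)).Point)
    (ρ : AbsGal F →* Matrix (Fin 2) (Fin 2) ℤ_[2]) (ψ : Fin 2 → AbsGal F →* ℤ_[2]ˣ) :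
    Submodule ℚ_[2] (AbsGal F → LX i) :=
  cobOn i ρ ψ (⋀[ℚ_[2]]^(2 * i + 1) (VX i)) ⊤ ⊔ wedge i {y | ∃ P, IsKummer W t P y}

end action

end Pool.Agent.Work.MP_787500_nt.AC
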