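import Mathlib
import Pool.Agent.Work.MP_787500_nt.AC.EXDefs

/-!
The action on the pieces.
-/

set_option autoImplicit false

namespace Pool.Agent.Work.MP_787500_nt.AC

open Pool.Agent.Work.MP_787500_nt.OddP (AbsGal)

universe u

variable {F : Type u} [Field F] {i : ℕ} {ρ : AbsGal F →* Matrix (Fin 2) (Fin 2) ℤ_[2]}
  {ψ : Fin 2 → AbsGal F →* ℤ_[2]ˣ}

/-- the action without the twist -/
noncomputable def mapX (i : ℕ) (ρ : AbsGal F →* Matrix (Fin 2) (Fin 2) ℤ_[2])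
    (ψ : Fin 2 → AbsGal F →* ℤ_[2]ˣ) (σ : AbsGal F) : LX i →ₐ[ℚ_[2]] LX i :=
  ExteriorAlgebra.map (actX i ρ ψ σ)

/-- the value of a character, as a 2-adic number -/
noncomputable def cv (χ : AbsGal F →* ℤ_[2]ˣ) (σ : AbsGal F) : ℚ_[2] := ((χ σ : ℤ_[2]) : ℚ_[2])

theorem cv_mul (χ χ' : AbsGal F →* ℤ_[2]ˣ) (σ : AbsGal F) :
    cv (χ * χ') σ = cv χ σ * cv χ' σ := by
  simp [cv]

theorem cv_pow (χ : AbsGal F →* ℤ_[2]ˣ) (n : ℕ) (σ : AbsGal F) :
    cv (χ ^ n) σ = cv χ σ ^ n := by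
  simp [cv]

theorem act_eq (σ : AbsGal F) (x : LX i) :
    act i ρ ψ σ x = cv ((ψ 0 * ψ 1) ^ (-(i : ℤ))) σ • mapX i ρ ψ σ x := rfl

theorem mapX_inl (σ : AbsGal F) (k : Fin 2) :
    mapX i ρ ψ σ (vec i (.inl k)) = ∑ j, (ρ σ j k : ℚ_[2]) • vec i (.inl j) := by
  have h1 : actX i ρ ψ σ (Pi.single (.inl k) 1) =
      ∑ j, (ρ σ j k : ℚ_[2]) • (Pi.single (.inl j) 1 : VX i) := by
    ext m
    rcases m with j | ab
    · simp only [actX, LinearMap.pi_apply, Sum.elim_inl, LinearMap.sum_apply, LinearMap.smul_apply,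
        LinearMap.proj_apply, Finset.sum_apply, Pi.smul_apply, smul_eq_mul]
      rw [Finset.sum_eq_single k, Finset.sum_eq_single j]
      · simp
      · intro l _ hl
        rw [Pi.single_eq_of_ne, mul_zero]
        simpa using hl.symm
      · simp
      · intro l _ hl
        rw [Pi.single_eq_of_ne, mul_zero]
        simpa using hl
      · simp
    · simp only [actX, LinearMap.pi_apply, Sum.elim_inr, LinearMap.smul_apply,
        LinearMap.proj_apply, Finset.sum_apply, Pi.smul_apply, smul_eq_mul]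
      rw [Pi.single_eq_of_ne (by simp), mul_zero, Finset.sum_eq_zero]
      intro l _
      rw [Pi.single_eq_of_ne (by simp), mul_zero]
  rw [mapX, vec, ExteriorAlgebra.map_apply_ι, h1, map_sum]
  exact Finset.sum_congr rfl fun j _ => by rw [map_smul]; rfl

theorem mapX_inr (σ : AbsGal F) (a : Fin (2 * i)) (b : Fin 2) :
    mapX i ρ ψ σ (vec i (.inr (a, b))) = cv (ψ b) σ • vec i (.inr (a, b)) := by
  have h1 : actX i ρ ψ σ (Pi.single (.inr (a, b)) 1) =
      cv (ψ b) σ • (Pi.single (.inr (a, b)) 1 : VX i) := by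
    ext m
    rcases m with j | ab
    · simp only [actX, LinearMap.pi_apply, Sum.elim_inl, LinearMap.sum_apply, LinearMap.smul_apply,
        LinearMap.proj_apply, Pi.smul_apply, smul_eq_mul]
      rw [Pi.single_eq_of_ne (by simp), mul_zero, Finset.sum_eq_zero]
      intro l _
      rw [Pi.single_eq_of_ne (by simp), mul_zero]
    · simp only [actX, LinearMap.pi_apply, Sum.elim_inr, LinearMap.smul_apply,
        LinearMap.proj_apply, Pi.smul_apply, smul_eq_mul]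
      by_cases hab : ab = (a, b)
      · subst hab
        rfl
      · rw [Pi.single_eq_of_ne (by simpa using hab), mul_zero, mul_zero]
  rw [mapX, vec, ExteriorAlgebra.map_apply_ι, h1, map_smul]

/-- scalar action on a submodule gives scalar action on its powers -/
theorem smul_pow_mem {A : Type*} [Ring A] [Algebra ℚ_[2] A] (f : A →ₐ[ℚ_[2]] A)
    {M : Submodule ℚ_[2] A} {c : ℚ_[2]} (h : ∀ x ∈ M, f x = c • x) (n : ℕ) :
    ∀ x ∈ M ^ n, f x = c ^ n • x := by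
  induction n with
  | zero =>
    intro x hx
    rw [pow_zero] at hx
    obtain ⟨r, rfl⟩ := Submodule.mem_one.1 hx
    rw [AlgHom.commutes, pow_zero, one_smul]
  | succ n ih =>
    intro x hx
    rw [pow_succ] at hx
    refine Submodule.mul_induction_on hx (fun y hy z hz => ?_) (fun y z hy hz => ?_)
    · rw [map_mul, ih y hy, h z hz, smul_mul_smul_comm, pow_succ]
    · rw [map_add, hy, hz, smul_add]

theorem smul_mul_mem {A : Type*} [Ring A] [Algebra ℚ_[2] A] (f : A →ₐ[ℚ_[2]] A)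
    {M N : Submodule ℚ_[2] A} {c d : ℚ_[2]} (h : ∀ x ∈ M, f x = c • x)
    (h' : ∀ x ∈ N, f x = d • x) : ∀ x ∈ M * N, f x = (c * d) • x := by
  intro x hx
  refine Submodule.mul_induction_on hx (fun y hy z hz => ?_) (fun y z hy hz => ?_)
  · rw [map_mul, h y hy, h' z hz, smul_mul_smul_comm]
  · rw [map_add, hy, hz, smul_add]

theorem mapX_U (σ : AbsGal F) (b : Fin 2) : ∀ x ∈ spU i b, mapX i ρ ψ σ x = cv (ψ b) σ • x := by
  intro x hx
  induction hx using Submodule.span_induction with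
  | mem x h =>
    obtain ⟨a, rfl⟩ := h
    exact mapX_inr σ a b
  | zero => rw [map_zero, smul_zero]
  | add x y _ _ hx hy => rw [map_add, hx, hy, smul_add]
  | smul c x _ hx => rw [map_smul, hx, smul_comm]

theorem mapX_UU (σ : AbsGal F) {a b : ℕ} {ω : LX i} (h : ω ∈ spU i 0 ^ a * spU i 1 ^ b) :
    mapX i ρ ψ σ ω = (cv (ψ 0) σ ^ a * cv (ψ 1) σ ^ b) • ω :=
  smul_mul_mem _ (smul_pow_mem _ (mapX_U σ 0) a) (smul_pow_mem _ (mapX_U σ 1) b) ω h

theorem vec_sq (k : Fin 2 ⊕ Fin (2 * i) × Fin 2) : vec i k * vec i k = 0 :=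
  ExteriorAlgebra.ι_sq_zero _

theorem vec_comm (k l : Fin 2 ⊕ Fin (2 * i) × Fin 2) : vec i k * vec i l = -(vec i l * vec i k) := by
  have h := ExteriorAlgebra.ι_add_mul_swap (R := ℚ_[2]) (Pi.single k 1 : VX i)
    (Pi.single l 1 : VX i)
  exact eq_neg_of_add_eq_zero_left h

theorem spE_sq : spE i ^ 2 = Submodule.span ℚ_[2] {vec i (.inl 0) * vec i (.inl 1)} := by
  rw [pow_two, spE, Submodule.span_mul_span]
  apply le_antisymm
  · rw [Submodule.span_le]
    rintro _ ⟨_, ⟨j, rfl⟩, _, ⟨k, rfl⟩, rfl⟩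
    show vec i (.inl j) * vec i (.inl k) ∈
      Submodule.span ℚ_[2] {vec i (.inl 0) * vec i (.inl 1)}
    obtain rfl | rfl : j = 0 ∨ j = 1 := by
      revert j
      decide
    · obtain rfl | rfl : k = 0 ∨ k = 1 := by
        revert k
        decide
      · rw [vec_sq]
        exact Submodule.zero_mem _
      · exact Submodule.mem_span_singleton_self _
    · obtain rfl | rfl : k = 0 ∨ k = 1 := by
        revert k
        decide
      · rw [vec_comm (.inl 1) (.inl 0)]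
        exact Submodule.neg_mem (Submodule.span ℚ_[2] {vec i (.inl 0) * vec i (.inl 1)})
          (Submodule.mem_span_singleton_self (vec i (.inl 0) * vec i (.inl 1)))
      · rw [vec_sq]
        exact Submodule.zero_mem _
  · rw [Submodule.span_le]
    rintro _ rfl
    exact Submodule.subset_span ⟨vec i (.inl 0), ⟨0, rfl⟩, vec i (.inl 1), ⟨1, rfl⟩, rfl⟩

theorem mapX_EE (σ : AbsGal F) {z : LX i} (h : z ∈ spE i ^ 2) :
    mapX i ρ ψ σ z = ((ρ σ).det : ℚ_[2]) • z := by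
  rw [spE_sq, Submodule.mem_span_singleton] at h
  obtain ⟨c, rfl⟩ := h
  rw [map_smul, map_mul, mapX_inl, mapX_inl, smul_comm]
  congr 1
  simp only [Fin.sum_univ_two, add_mul, mul_add, smul_mul_smul_comm, vec_sq, smul_zero, zero_add,
    add_zero]
  rw [vec_comm (.inl 1) (.inl 0), smul_neg, ← neg_smul, ← add_smul, Matrix.det_fin_two]
  push_cast
  congr 1
  ring

/-- the character of `spU 0 ^ a * spU 1 ^ b` -/
noncomputable def chi (i : ℕ) (ψ : Fin 2 → AbsGal F →* ℤ_[2]ˣ) (a b : ℕ) : AbsGal F →* ℤ_[2]ˣ :=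
  ψ 0 ^ ((a : ℤ) - i) * ψ 1 ^ ((b : ℤ) - i)

theorem chi_eq (a b : ℕ) (σ : AbsGal F) :
    cv (chi i ψ a b) σ = cv ((ψ 0 * ψ 1) ^ (-(i : ℤ))) σ * (cv (ψ 0) σ ^ a * cv (ψ 1) σ ^ b) := by
  rw [← cv_pow, ← cv_pow, ← cv_mul, ← cv_mul]
  have h1 : chi i ψ a b σ = ((ψ 0 * ψ 1) ^ (-(i : ℤ)) * (ψ 0 ^ a * ψ 1 ^ b)) σ := by
    show ψ 0 σ ^ ((a : ℤ) - i) * ψ 1 σ ^ ((b : ℤ) - i) =
      (ψ 0 σ * ψ 1 σ) ^ (-(i : ℤ)) * (ψ 0 σ ^ a * ψ 1 σ ^ b)
    simp only [zpow_sub, zpow_neg, zpow_natCast, mul_pow, mul_inv]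
    ac_rfl
  rw [cv, cv, h1]

theorem chi_self (σ : AbsGal F) : chi i ψ i i σ = 1 := by
  show ψ 0 σ ^ ((i : ℤ) - i) * ψ 1 σ ^ ((i : ℤ) - i) = 1
  rw [sub_self, zpow_zero, zpow_zero, mul_one]

theorem act_UU (σ : AbsGal F) {a b : ℕ} {ω : LX i} (h : ω ∈ spU i 0 ^ a * spU i 1 ^ b) :
    act i ρ ψ σ ω = cv (chi i ψ a b) σ • ω := by
  rw [act_eq, mapX_UU σ h, smul_smul, chi_eq]

end Pool.Agent.Work.MP_787500_nt.AC
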