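import Mathlib
import Pool.Agent.Work.MP_787500_nt.AC.EXA

/-!
Contraction with the coordinates of the Tate module of `E`.
-/

set_option autoImplicit false

namespace Pool.Agent.Work.MP_787500_nt.AC

open Pool.Agent.Work.MP_787500_nt.OddP (AbsGal)

universe u

/-- the contraction with the coordinate `inl j` -/
noncomputable def ctr (i : ℕ) (j : Fin 2) : LX i →ₗ[ℚ_[2]] LX i :=
  CliffordAlgebra.contractLeft (Q := (0 : QuadraticForm ℚ_[2] (VX i)))
    (LinearMap.proj (Sum.inl j) : VX i →ₗ[ℚ_[2]] ℚ_[2])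

variable {i : ℕ}

theorem ctr_ι_mul (j : Fin 2) (a : VX i) (x : LX i) :
    ctr i j (ExteriorAlgebra.ι ℚ_[2] a * x) =
      a (Sum.inl j) • x - ExteriorAlgebra.ι ℚ_[2] a * ctr i j x :=
  CliffordAlgebra.contractLeft_ι_mul (Q := (0 : QuadraticForm ℚ_[2] (VX i))) _ a x

theorem ctr_algebraMap (j : Fin 2) (r : ℚ_[2]) : ctr i j (algebraMap ℚ_[2] (LX i) r) = 0 :=
  CliffordAlgebra.contractLeft_algebraMap (0 : QuadraticForm ℚ_[2] (VX i)) _ r

theorem ctr_inl_mul (j k : Fin 2) (x : LX i) :
    ctr i j (vec i (.inl k) * x) = (if j = k then x else 0) - vec i (.inl k) * ctr i j x := by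
  rw [vec, ctr_ι_mul]
  congr 1
  split_ifs with h
  · rw [h, Pi.single_eq_same, one_smul]
  · rw [Pi.single_eq_of_ne (by simpa using h), zero_smul]

theorem ctr_inr_mul (j : Fin 2) (k : Fin (2 * i) × Fin 2) (x : LX i) :
    ctr i j (vec i (.inr k) * x) = -(vec i (.inr k) * ctr i j x) := by
  rw [vec, ctr_ι_mul, Pi.single_eq_of_ne (by simp), zero_smul, zero_sub]

theorem ctr_U_mul (j b : Fin 2) {x : LX i} (hx : ctr i j x = 0) :
    ∀ u ∈ spU i b, ctr i j (u * x) = 0 := by
  intro u hu
  induction hu using Submodule.span_induction with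
  | mem y h =>
    obtain ⟨a, rfl⟩ := h
    rw [ctr_inr_mul, hx, mul_zero, neg_zero]
  | zero => rw [zero_mul, map_zero]
  | add y z _ _ hy hz => rw [add_mul, map_add, hy, hz, add_zero]
  | smul c y _ hy => rw [smul_mul_assoc, map_smul, hy, smul_zero]

theorem ctr_pow_mul (j b : Fin 2) (n : ℕ) : ∀ x : LX i, ctr i j x = 0 →
    ∀ u ∈ spU i b ^ n, ctr i j (u * x) = 0 := by
  induction n with
  | zero =>
    intro x hx u hu
    rw [pow_zero] at hu
    obtain ⟨r, rfl⟩ := Submodule.mem_one.1 hu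
    rw [← Algebra.smul_def, map_smul, hx, smul_zero]
  | succ n ih =>
    intro x hx u hu
    rw [pow_succ] at hu
    refine Submodule.mul_induction_on hu (fun y hy z hz => ?_) (fun y z hy hz => ?_)
    · rw [mul_assoc]
      exact ih _ (ctr_U_mul j b hx z hz) y hy
    · rw [add_mul, map_add, hy, hz, add_zero]

/-- the contraction kills the products of the vectors of the factors `E0` -/
theorem ctr_UU (j : Fin 2) {a b : ℕ} {ω : LX i} (h : ω ∈ spU i 0 ^ a * spU i 1 ^ b) :
    ctr i j ω = 0 := by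
  refine Submodule.mul_induction_on h (fun y hy z hz => ?_) (fun y z hy hz => ?_)
  · refine ctr_pow_mul j 0 a z ?_ y hy
    have h1 := ctr_pow_mul (i := i) j 1 b 1
      (by rw [← map_one (algebraMap ℚ_[2] (LX i)), ctr_algebraMap]) z hz
    rwa [mul_one] at h1
  · rw [map_add, hy, hz, add_zero]

/-- elements of `spE * N` -/
theorem ctr_E_mul {a b : ℕ} {z : LX i} (h : z ∈ spE i * (spU i 0 ^ a * spU i 1 ^ b)) :
    (∀ j, ctr i j z ∈ spU i 0 ^ a * spU i 1 ^ b) ∧ z = ∑ j, vec i (.inl j) * ctr i j z := by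
  have key : ∀ (ω : LX i), ω ∈ spU i 0 ^ a * spU i 1 ^ b → ∀ k j : Fin 2,
      ctr i j (vec i (.inl k) * ω) = if j = k then ω else 0 := by
    intro ω hω k j
    rw [ctr_inl_mul, ctr_UU j hω, mul_zero, sub_zero]
  refine Submodule.mul_induction_on h (fun y hy ω hω => ?_) (fun y z hy hz => ?_)
  · induction hy using Submodule.span_induction with
    | mem y h =>
      obtain ⟨k, rfl⟩ := h
      refine ⟨fun j => ?_, ?_⟩
      · show ctr i j (vec i (.inl k) * ω) ∈ _
        rw [key ω hω]
        split_ifs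
        · exact hω
        · exact Submodule.zero_mem _
      · show vec i (.inl k) * ω = ∑ j, vec i (.inl j) * ctr i j (vec i (.inl k) * ω)
        simp only [key ω hω]
        rw [Finset.sum_eq_single k]
        · rw [if_pos rfl]
        · intro j _ hj
          rw [if_neg hj, mul_zero]
        · simp
    | zero => simp
    | add y z _ _ hy hz =>
      refine ⟨fun j => ?_, ?_⟩
      · rw [add_mul, map_add]
        exact Submodule.add_mem _ (hy.1 j) (hz.1 j)
      · rw [add_mul]
        simp only [map_add, mul_add, Finset.sum_add_distrib]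
        rw [← hy.2, ← hz.2]
    | smul c y _ hy =>
      refine ⟨fun j => ?_, ?_⟩
      · rw [smul_mul_assoc, map_smul]
        exact Submodule.smul_mem _ _ (hy.1 j)
      · rw [smul_mul_assoc]
        simp only [map_smul, mul_smul_comm, ← Finset.smul_sum]
        rw [← hy.2]
  · refine ⟨fun j => ?_, ?_⟩
    · rw [map_add]
      exact Submodule.add_mem _ (hy.1 j) (hz.1 j)
    · simp only [map_add, mul_add, Finset.sum_add_distrib]
      rw [← hy.2, ← hz.2]

variable {F : Type u} [Field F] {ρ : AbsGal F →* Matrix (Fin 2) (Fin 2) ℤ_[2]}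
  {ψ : Fin 2 → AbsGal F →* ℤ_[2]ˣ}

/-- the contraction and the action -/
theorem ctr_mapX (σ : AbsGal F) (j : Fin 2) (x : LX i) :
    ctr i j (mapX i ρ ψ σ x) = ∑ k, (ρ σ j k : ℚ_[2]) • mapX i ρ ψ σ (ctr i k x) := by
  induction x using CliffordAlgebra.left_induction with
  | algebraMap r =>
    have h1 : ∀ k, ctr i k (algebraMap ℚ_[2] (LX i) r) = 0 := fun k => ctr_algebraMap k r
    have h2 : mapX i ρ ψ σ (algebraMap ℚ_[2] (LX i) r) = algebraMap ℚ_[2] (LX i) r :=
      AlgHom.commutes _ r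
    rw [h2, h1]
    symm
    exact Finset.sum_eq_zero fun k _ => by rw [h1, map_zero, smul_zero]
  | add x y hx hy =>
    simp only [map_add, smul_add, Finset.sum_add_distrib]
    rw [hx, hy]
  | ι_mul x a hx =>
    have h1 : ∀ y : LX i, mapX i ρ ψ σ (CliffordAlgebra.ι (0 : QuadraticForm ℚ_[2] (VX i)) a * y) =
        ExteriorAlgebra.ι ℚ_[2] (actX i ρ ψ σ a) * mapX i ρ ψ σ y := fun y => by
      rw [map_mul]
      congr 1
      exact ExteriorAlgebra.map_apply_ι _ _
    have h2 : ∀ k, ctr i k (CliffordAlgebra.ι (0 : QuadraticForm ℚ_[2] (VX i)) a * x) =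
      a (Sum.inl k) • x - ExteriorAlgebra.ι ℚ_[2] a * ctr i k x := fun k => ctr_ι_mul k a x
    have h3 : actX i ρ ψ σ a (Sum.inl j) = ∑ k, (ρ σ j k : ℚ_[2]) * a (Sum.inl k) := by
      simp [actX]
    rw [h1, ctr_ι_mul, hx, h3]
    simp only [h2, map_sub, map_smul, smul_sub, Finset.sum_sub_distrib]
    congr 1
    · rw [Finset.sum_smul]
      exact Finset.sum_congr rfl fun k _ => by rw [mul_smul]
    · rw [Finset.mul_sum]
      refine Finset.sum_congr rfl fun k _ => ?_
      rw [mul_smul_comm]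
      congr 1
      exact (h1 _).symm

end Pool.Agent.Work.MP_787500_nt.AC
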