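import Mathlib

/-!
Products of vectors of a basis in the exterior algebra.
-/

set_option autoImplicit false

namespace Pool.Agent.Work.MP_787500_nt.AC

open Module Set Set.powersetCard ExteriorAlgebra

variable {k V J : Type*} [Field k] [AddCommGroup V] [Module k V] [LinearOrder J]
  (b : Basis J k V)

theorem exc_empty : b.ExteriorAlgebra ∅ = 1 := by
  rw [basis_apply_ofCard b (n := 0) (Finset.card_empty), ιMulti_family, ιMulti_zero_apply]

theorem exc_singleton (j : J) : b.ExteriorAlgebra {j} = ι k (b j) := by
  rw [basis_apply_ofCard b (n := 1) (Finset.card_singleton j), ιMulti_family, ιMulti_succ_apply,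
    ιMulti_zero_apply, mul_one]
  congr 1
  show b _ = b j
  congr 1
  have h : powersetCard.ofFinEmbEquiv.symm (ofCard (Finset.card_singleton j)) 0 ∈ ({j} : Finset J) := by
    rw [powersetCard.ofFinEmbEquiv_symm_apply]
    exact Finset.orderEmbOfFin_mem _ _ _
  exact Finset.mem_singleton.1 h

theorem exc_mul {s t : Finset J} (h : Disjoint s t) :
    ∃ e : ℤˣ, b.ExteriorAlgebra s * b.ExteriorAlgebra t = e • b.ExteriorAlgebra (s ∪ t) := by
  have h1 := basis_mul_of_disjoint b (ofCard (n := s.card) rfl) (ofCard (n := t.card) rfl) h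
  refine ⟨(permOfDisjoint (s := ofCard (n := s.card) rfl) (t := ofCard (n := t.card) rfl)
    h).sign, ?_⟩
  rw [← Finset.disjUnion_eq_union _ _ h]
  exact h1

theorem exc_mul_zero {s t : Finset J} (h : ¬ Disjoint s t) :
    b.ExteriorAlgebra s * b.ExteriorAlgebra t = 0 :=
  basis_mul_of_not_disjoint b (ofCard (n := s.card) rfl) (ofCard (n := t.card) rfl) h

theorem units_smul_mem {M : Submodule k (ExteriorAlgebra k V)} (e : ℤˣ) {x : ExteriorAlgebra k V}
    (h : x ∈ M) : e • x ∈ M := by
  rcases Int.units_eq_one_or e with rfl | rfl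
  · rwa [one_smul]
  · rw [Units.neg_smul, one_smul]
    exact M.neg_mem h

theorem mem_of_units_smul {M : Submodule k (ExteriorAlgebra k V)} {e : ℤˣ}
    {x : ExteriorAlgebra k V} (h : e • x ∈ M) : x ∈ M := by
  have := units_smul_mem e⁻¹ h
  rwa [inv_smul_smul] at this

/-- the span of the vectors of color `a` -/
noncomputable def colU (c : J → Fin 2) (a : Fin 2) : Submodule k (ExteriorAlgebra k V) :=
  Submodule.span k {x | ∃ j, c j = a ∧ x = ι k (b j)}

theorem colU_pow (c : J → Fin 2) (a : Fin 2) (n : ℕ) :
    colU b c a ^ n = Submodule.span k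
      {x | ∃ T : Finset J, (∀ j ∈ T, c j = a) ∧ T.card = n ∧ x = b.ExteriorAlgebra T} := by
  induction n with
  | zero =>
    rw [pow_zero]
    apply le_antisymm
    · rw [Submodule.one_le]
      refine Submodule.subset_span ⟨∅, by simp, rfl, (exc_empty b).symm⟩
    · rw [Submodule.span_le]
      rintro _ ⟨T, -, hT, rfl⟩
      rw [Finset.card_eq_zero.1 hT, exc_empty]
      exact Submodule.mem_one.2 ⟨1, map_one _⟩
  | succ n ih =>
    rw [pow_succ, ih, colU, Submodule.span_mul_span]
    apply le_antisymm
    · rw [Submodule.span_le]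
      rintro _ ⟨_, ⟨T, hT, hc, rfl⟩, _, ⟨j, hj, rfl⟩, rfl⟩
      show b.ExteriorAlgebra T * ι k (b j) ∈ Submodule.span k _
      rw [← exc_singleton b]
      by_cases hd : Disjoint T {j}
      · obtain ⟨e, he⟩ := exc_mul b hd
        rw [he]
        refine units_smul_mem e (Submodule.subset_span ⟨T ∪ {j}, ?_, ?_, rfl⟩)
        · intro l hl
          rw [Finset.mem_union, Finset.mem_singleton] at hl
          rcases hl with hl | rfl
          · exact hT l hl
          · exact hj
        · rw [Finset.card_union_of_disjoint hd, hc, Finset.card_singleton]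
      · rw [exc_mul_zero b hd]
        exact Submodule.zero_mem _
    · rw [Submodule.span_le]
      rintro _ ⟨T, hT, hc, rfl⟩
      obtain ⟨j, hj⟩ : T.Nonempty := by
        rw [← Finset.card_pos, hc]
        exact Nat.succ_pos n
      have hd : Disjoint (T.erase j) {j} := by
        rw [Finset.disjoint_singleton_right]
        exact Finset.notMem_erase j T
      obtain ⟨e, he⟩ := exc_mul b hd
      have hu : T.erase j ∪ {j} = T := by
        rw [Finset.union_comm, ← Finset.insert_eq, Finset.insert_erase hj]
      rw [hu] at he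
      refine mem_of_units_smul (e := e) ?_
      rw [← he, exc_singleton]
      refine Submodule.subset_span ⟨_, ⟨T.erase j, fun l hl => hT l (Finset.mem_of_mem_erase hl), ?_,
        rfl⟩, _, ⟨j, hT j hj, rfl⟩, rfl⟩
      rw [Finset.card_erase_of_mem hj, hc]
      rfl

/-- the sets with `m` elements of color 0 and `n` elements of color 1 -/
def IsTyp (c : J → Fin 2) (m n : ℕ) (T : Finset J) : Prop :=
  (T.filter (c · = 0)).card = m ∧ (T.filter (c · = 1)).card = n

theorem colU_mul (c : J → Fin 2) (m n : ℕ) :
    colU b c 0 ^ m * colU b c 1 ^ n =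
      Submodule.span k {x | ∃ T : Finset J, IsTyp c m n T ∧ x = b.ExteriorAlgebra T} := by
  rw [colU_pow, colU_pow, Submodule.span_mul_span]
  apply le_antisymm
  · rw [Submodule.span_le]
    rintro _ ⟨_, ⟨T, hT, hc, rfl⟩, _, ⟨T', hT', hc', rfl⟩, rfl⟩
    show b.ExteriorAlgebra T * b.ExteriorAlgebra T' ∈ Submodule.span k _
    have hd : Disjoint T T' := by
      rw [Finset.disjoint_left]
      intro j hj hj'
      have h1 := hT j hj
      rw [hT' j hj'] at h1
      exact absurd h1 (by decide)
    obtain ⟨e, he⟩ := exc_mul b hd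
    rw [he]
    refine units_smul_mem e (Submodule.subset_span ⟨T ∪ T', ⟨?_, ?_⟩, rfl⟩)
    · rw [Finset.filter_union, Finset.filter_true_of_mem hT, Finset.filter_false_of_mem,
        Finset.union_empty, hc]
      intro j hj
      rw [hT' j hj]
      decide
    · rw [Finset.filter_union, Finset.filter_true_of_mem hT', Finset.filter_false_of_mem,
        Finset.empty_union, hc']
      intro j hj
      rw [hT j hj]
      decide
  · rw [Submodule.span_le]
    rintro _ ⟨T, ⟨h0, h1⟩, rfl⟩
    have hd : Disjoint (T.filter (c · = 0)) (T.filter (c · = 1)) := by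
      rw [Finset.disjoint_left]
      intro j hj hj'
      rw [Finset.mem_filter] at hj hj'
      rw [hj.2] at hj'
      exact absurd hj'.2 (by decide)
    have hu : T.filter (c · = 0) ∪ T.filter (c · = 1) = T := by
      ext j
      simp only [Finset.mem_union, Finset.mem_filter]
      constructor
      · rintro (h | h) <;> exact h.1
      · intro h
        have : c j = 0 ∨ c j = 1 := by
          generalize c j = d
          revert d
          decide
        rcases this with h' | h'
        · exact Or.inl ⟨h, h'⟩
        · exact Or.inr ⟨h, h'⟩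
    obtain ⟨e, he⟩ := exc_mul b hd
    rw [hu] at he
    refine mem_of_units_smul (e := e) ?_
    rw [← he]
    exact Submodule.subset_span ⟨_, ⟨_, fun j hj => (Finset.mem_filter.1 hj).2, h0, rfl⟩, _,
      ⟨_, fun j hj => (Finset.mem_filter.1 hj).2, h1, rfl⟩, rfl⟩

/-- the coordinates of the image under a diagonal map -/
theorem coord_diag (g : V →ₗ[k] V) (d : J → k) (hg : ∀ j, g (b j) = d j • b j) (T : Finset J)
    (x : ExteriorAlgebra k V) :
    b.ExteriorAlgebra.coord T (ExteriorAlgebra.map g x) =
      (∏ j ∈ T, d j) * b.ExteriorAlgebra.coord T x := by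
  have key : ∀ S : Finset J, ExteriorAlgebra.map g (b.ExteriorAlgebra S) =
      (∏ j ∈ S, d j) • b.ExteriorAlgebra S := by
    intro S
    induction S using Finset.induction_on with
    | empty => rw [exc_empty, map_one, Finset.prod_empty, one_smul]
    | insert j S hj ih =>
      have hd : Disjoint ({j} : Finset J) S := by
        rw [Finset.disjoint_singleton_left]
        exact hj
      obtain ⟨e, he⟩ := exc_mul b hd
      rw [← Finset.insert_eq] at he
      have h1 : b.ExteriorAlgebra (insert j S) =
          e⁻¹ • (b.ExteriorAlgebra {j} * b.ExteriorAlgebra S) := by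
        rw [he, inv_smul_smul]
      have h2 : ∀ y : ExteriorAlgebra k V, ExteriorAlgebra.map g (e⁻¹ • y) =
          e⁻¹ • ExteriorAlgebra.map g y := by
        intro y
        rcases Int.units_eq_one_or e⁻¹ with h | h
        · rw [h, one_smul, one_smul]
        · rw [h, Units.neg_smul, one_smul, Units.neg_smul, one_smul, map_neg]
      rw [h1, h2, map_mul, ih, exc_singleton, ExteriorAlgebra.map_apply_ι, hg, map_smul,
        smul_mul_smul_comm, Finset.prod_insert hj]
      exact smul_comm _ _ _
  have h3 : (b.ExteriorAlgebra.coord T) ∘ₗ (ExteriorAlgebra.map g).toLinearMap =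
      (∏ j ∈ T, d j) • b.ExteriorAlgebra.coord T := by
    refine b.ExteriorAlgebra.ext fun S => ?_
    rw [LinearMap.comp_apply, AlgHom.toLinearMap_apply, key, map_smul, LinearMap.smul_apply,
      smul_eq_mul, smul_eq_mul]
    by_cases hST : S = T
    · rw [hST]
    · rw [Basis.coord_apply, Basis.repr_self, Finsupp.single_eq_of_ne (Ne.symm hST), mul_zero,
        mul_zero]
  have h4 := LinearMap.congr_fun h3 x
  exact h4

end Pool.Agent.Work.MP_787500_nt.AC
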