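import Mathlib
import Pool.Agent.Work.MP_787500_nt.AC.EXB
import Pool.Agent.Work.MP_787500_nt.AC.EXC

/-!
The basis of `spU 0 ^ m * spU 1 ^ n` and the coordinate functionals.
-/

set_option autoImplicit false

namespace Pool.Agent.Work.MP_787500_nt.AC

open Module
open Pool.Agent.Work.MP_787500_nt.OddP (AbsGal)

universe u

/-- the indices of the coordinates of the factors `E0` -/
abbrev JX (i : ℕ) : Type := Fin (2 * i) × Fin 2

/-- a linear order of the indices -/
noncomputable local instance (i : ℕ) : LinearOrder (JX i) :=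
  LinearOrder.lift' (toLex : Fin (2 * i) × Fin 2 → Fin (2 * i) ×ₗ Fin 2) toLex.injective

/-- the basis of the exterior algebra of the Tate module of `E0 ^ (2 i)` -/
noncomputable def BX (i : ℕ) : Basis (Finset (JX i)) ℚ_[2] (ExteriorAlgebra ℚ_[2] (JX i → ℚ_[2])) :=
  (Pi.basisFun ℚ_[2] (JX i)).ExteriorAlgebra

/-- the projection to the Tate module of `E0 ^ (2 i)` -/
noncomputable def qX (i : ℕ) : VX i →ₗ[ℚ_[2]] (JX i → ℚ_[2]) := LinearMap.funLeft ℚ_[2] ℚ_[2] Sum.inr

/-- the inclusion of the Tate module of `E0 ^ (2 i)` -/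
noncomputable def sX (i : ℕ) : (JX i → ℚ_[2]) →ₗ[ℚ_[2]] VX i :=
  LinearMap.pi fun k => Sum.elim (fun _ => 0) (fun j => LinearMap.proj j) k

theorem qX_sX (i : ℕ) : qX i ∘ₗ sX i = LinearMap.id := by
  ext j l
  rfl

/-- the basis vectors of the exterior algebra of `E0 ^ (2 i)` -/
noncomputable def beta (i : ℕ) (T : Finset (JX i)) : LX i := ExteriorAlgebra.map (sX i) (BX i T)

/-- the coordinate functionals -/
noncomputable def cf (i : ℕ) (T : Finset (JX i)) : LX i →ₗ[ℚ_[2]] ℚ_[2] :=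
  (BX i).coord T ∘ₗ (ExteriorAlgebra.map (qX i)).toLinearMap

variable {i : ℕ}

theorem cf_apply (T : Finset (JX i)) (x : LX i) :
    cf i T x = (BX i).coord T (ExteriorAlgebra.map (qX i) x) := rfl

theorem cf_beta (T S : Finset (JX i)) : cf i T (beta i S) = if S = T then 1 else 0 := by
  have h1 : ExteriorAlgebra.map (qX i) (beta i S) = BX i S := by
    rw [beta]
    have h2 : (ExteriorAlgebra.map (qX i)).comp (ExteriorAlgebra.map (sX i)) =
        AlgHom.id ℚ_[2] _ := by
      rw [ExteriorAlgebra.map_comp_map, qX_sX, ExteriorAlgebra.map_id]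
    exact AlgHom.congr_fun h2 (BX i S)
  rw [cf_apply, h1, Basis.coord_apply, Basis.repr_self, Finsupp.single_apply]

theorem sX_single (j : JX i) : sX i (Pi.single j 1) = (Pi.single (.inr j) 1 : VX i) := by
  ext k
  rcases k with a | l
  · rw [Pi.single_eq_of_ne (by simp)]
    rfl
  · show (Pi.single j 1 : JX i → ℚ_[2]) l = _
    rw [Pi.single_apply, Pi.single_apply]
    simp

theorem spU_eq (b : Fin 2) : spU i b =
    Submodule.map (ExteriorAlgebra.map (sX i)).toLinearMap
      (colU (Pi.basisFun ℚ_[2] (JX i)) (fun j => j.2) b) := by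
  rw [colU, Submodule.map_span, spU]
  congr 1
  ext x
  constructor
  · rintro ⟨a, rfl⟩
    refine ⟨ExteriorAlgebra.ι ℚ_[2] (Pi.basisFun ℚ_[2] (JX i) (a, b)), ⟨(a, b), rfl, rfl⟩, ?_⟩
    rw [AlgHom.toLinearMap_apply, ExteriorAlgebra.map_apply_ι, Pi.basisFun_apply, sX_single]
    rfl
  · rintro ⟨_, ⟨⟨a, b'⟩, hb, rfl⟩, rfl⟩
    obtain rfl : b' = b := hb
    refine ⟨a, ?_⟩
    rw [AlgHom.toLinearMap_apply, ExteriorAlgebra.map_apply_ι, Pi.basisFun_apply, sX_single]
    rfl

/-- the type of a set of indices -/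
abbrev Typ (i m n : ℕ) (T : Finset (JX i)) : Prop := IsTyp (fun j : JX i => j.2) m n T

theorem UU_eq (m n : ℕ) : spU i 0 ^ m * spU i 1 ^ n =
    Submodule.span ℚ_[2] {x | ∃ T : Finset (JX i), Typ i m n T ∧ x = beta i T} := by
  rw [spU_eq, spU_eq, ← Submodule.map_pow, ← Submodule.map_pow, ← Submodule.map_mul, colU_mul,
    Submodule.map_span]
  congr 1
  ext x
  constructor
  · rintro ⟨_, ⟨T, hT, rfl⟩, rfl⟩
    exact ⟨T, hT, rfl⟩
  · rintro ⟨T, hT, rfl⟩
    exact ⟨_, ⟨T, hT, rfl⟩, rfl⟩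

theorem beta_mem {m n : ℕ} {T : Finset (JX i)} (h : Typ i m n T) :
    beta i T ∈ spU i 0 ^ m * spU i 1 ^ n := by
  rw [UU_eq]
  exact Submodule.subset_span ⟨T, h, rfl⟩

open scoped Classical in
theorem UU_expand {m n : ℕ} {ω : LX i} (h : ω ∈ spU i 0 ^ m * spU i 1 ^ n) :
    ω = ∑ T : {T : Finset (JX i) // Typ i m n T}, cf i T.1 ω • beta i T.1 := by
  rw [UU_eq] at h
  induction h using Submodule.span_induction with
  | mem x hx =>
    obtain ⟨T, hT, rfl⟩ := hx
    rw [Finset.sum_eq_single (⟨T, hT⟩ : {T : Finset (JX i) // Typ i m n T})]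
    · rw [cf_beta, if_pos rfl, one_smul]
    · intro S _ hS
      rw [cf_beta, if_neg, zero_smul]
      intro h'
      exact hS (Subtype.ext h'.symm)
    · simp
  | zero => simp
  | add x y _ _ hx hy =>
    simp only [map_add, add_smul, Finset.sum_add_distrib]
    rw [← hx, ← hy]
  | smul c x _ hx =>
    simp only [map_smul, smul_eq_mul, mul_smul, ← Finset.smul_sum]
    rw [← hx]

variable {F : Type u} [Field F] {ρ : AbsGal F →* Matrix (Fin 2) (Fin 2) ℤ_[2]}
  {ψ : Fin 2 → AbsGal F →* ℤ_[2]ˣ}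

/-- the action on the Tate module of `E0 ^ (2 i)` -/
noncomputable def act0 (i : ℕ) (ψ : Fin 2 → AbsGal F →* ℤ_[2]ˣ) (σ : AbsGal F) :
    (JX i → ℚ_[2]) →ₗ[ℚ_[2]] (JX i → ℚ_[2]) :=
  LinearMap.pi fun j => cv (ψ j.2) σ • LinearMap.proj j

theorem qX_act (σ : AbsGal F) : qX i ∘ₗ actX i ρ ψ σ = act0 i ψ σ ∘ₗ qX i := by
  ext x j
  simp only [LinearMap.comp_apply, qX, LinearMap.funLeft_apply, actX, LinearMap.pi_apply,
    Sum.elim_inr, act0, LinearMap.smul_apply, LinearMap.proj_apply, cv]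

theorem cf_mapX (σ : AbsGal F) (T : Finset (JX i)) (x : LX i) :
    cf i T (mapX i ρ ψ σ x) = (∏ j ∈ T, cv (ψ j.2) σ) * cf i T x := by
  have h1 : ExteriorAlgebra.map (qX i) (mapX i ρ ψ σ x) =
      ExteriorAlgebra.map (act0 i ψ σ) (ExteriorAlgebra.map (qX i) x) := by
    have h2 : (ExteriorAlgebra.map (qX i)).comp (mapX i ρ ψ σ) =
        (ExteriorAlgebra.map (act0 i ψ σ)).comp (ExteriorAlgebra.map (qX i)) := by
      rw [mapX, ExteriorAlgebra.map_comp_map, ExteriorAlgebra.map_comp_map, qX_act]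
    exact AlgHom.congr_fun h2 x
  rw [cf_apply, h1, cf_apply]
  refine coord_diag (Pi.basisFun ℚ_[2] (JX i)) (act0 i ψ σ) (fun j => cv (ψ j.2) σ) ?_ T _
  intro j
  rw [Pi.basisFun_apply]
  ext l
  simp only [act0, LinearMap.pi_apply, LinearMap.smul_apply, LinearMap.proj_apply, Pi.smul_apply,
    smul_eq_mul]
  by_cases h : l = j
  · rw [h]
  · rw [Pi.single_eq_of_ne h, mul_zero, mul_zero]

theorem prod_typ {m n : ℕ} {T : Finset (JX i)} (h : Typ i m n T) (σ : AbsGal F) :
    (∏ j ∈ T, cv (ψ j.2) σ) = cv (ψ 0) σ ^ m * cv (ψ 1) σ ^ n := by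
  have h1 : ∀ j : JX i, cv (ψ j.2) σ =
      (if j.2 = 0 then cv (ψ 0) σ else 1) * (if j.2 = 1 then cv (ψ 1) σ else 1) := by
    rintro ⟨a, b⟩
    obtain rfl | rfl : b = 0 ∨ b = 1 := by
      revert b
      decide
    · simp
    · simp
  rw [Finset.prod_congr rfl fun j _ => h1 j, Finset.prod_mul_distrib, Finset.prod_ite,
    Finset.prod_ite, Finset.prod_const_one, Finset.prod_const_one, Finset.prod_const,
    Finset.prod_const, mul_one, mul_one]
  obtain ⟨h2, h3⟩ := h
  rw [← h2, ← h3]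

private theorem card_filter (T : Finset (JX i)) (b : Fin 2) :
    (T.filter (fun j => j.2 = b)).card =
      (Finset.univ.filter (fun a : Fin (2 * i) => (a, b) ∈ T)).card := by
  rw [← Finset.card_image_of_injective (Finset.univ.filter (fun a : Fin (2 * i) => (a, b) ∈ T))
    (f := fun a => ((a, b) : JX i)) (fun x y h => (Prod.ext_iff.1 h).1)]
  congr 1
  ext ⟨a, c⟩
  simp only [Finset.mem_filter, Finset.mem_image, Finset.mem_univ, true_and, Prod.mk.injEq]
  constructor
  · rintro ⟨h, rfl⟩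
    exact ⟨a, h, rfl, rfl⟩
  · rintro ⟨a', h, rfl, rfl⟩
    exact ⟨h, rfl⟩

theorem card_typ (m n : ℕ) : Nat.card {T : Finset (JX i) // Typ i m n T} =
    (2 * i).choose m * (2 * i).choose n := by
  have e0 : ∀ S0 S1 : Finset (Fin (2 * i)), (Finset.univ.filter (fun a : Fin (2 * i) => (a, (0 : Fin 2)) ∈
      (Finset.univ.filter (fun j : JX i => if j.2 = 0 then j.1 ∈ S0 else j.1 ∈ S1)))) = S0 := by
    intro S0 S1
    ext a
    simp
  have e1 : ∀ S0 S1 : Finset (Fin (2 * i)), (Finset.univ.filter (fun a : Fin (2 * i) => (a, (1 : Fin 2)) ∈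
      (Finset.univ.filter (fun j : JX i => if j.2 = 0 then j.1 ∈ S0 else j.1 ∈ S1)))) = S1 := by
    intro S0 S1
    ext a
    simp
  let e : {T : Finset (JX i) // Typ i m n T} ≃
      {S : Finset (Fin (2 * i)) // S.card = m} × {S : Finset (Fin (2 * i)) // S.card = n} :=
    { toFun := fun T => (⟨Finset.univ.filter (fun a : Fin (2 * i) => (a, (0 : Fin 2)) ∈ T.1), by
          rw [← card_filter]; exact T.2.1⟩,
        ⟨Finset.univ.filter (fun a : Fin (2 * i) => (a, (1 : Fin 2)) ∈ T.1), by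
          rw [← card_filter]; exact T.2.2⟩)
      invFun := fun S => ⟨Finset.univ.filter
          (fun j : JX i => if j.2 = 0 then j.1 ∈ S.1.1 else j.1 ∈ S.2.1), by
          constructor
          · rw [card_filter, e0]
            exact S.1.2
          · rw [card_filter, e1]
            exact S.2.2⟩
      left_inv := fun T => by
        apply Subtype.ext
        ext ⟨a, b⟩
        obtain rfl | rfl : b = 0 ∨ b = 1 := by
          revert b
          decide
        · simp
        · simp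
      right_inv := fun S => by
        refine Prod.ext (Subtype.ext ?_) (Subtype.ext ?_)
        · exact e0 _ _
        · exact e1 _ _ }
  rw [Nat.card_congr e, Nat.card_prod, Nat.card_eq_fintype_card, Nat.card_eq_fintype_card,
    Fintype.card_finset_len, Fintype.card_finset_len, Fintype.card_fin]

end Pool.Agent.Work.MP_787500_nt.AC
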