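import Mathlib
import Pool.Agent.Work.MP_787500_nt.AC.EXB

/-!
Strict cocycles with values in the pieces are coboundaries.
-/

set_option autoImplicit false

namespace Pool.Agent.Work.MP_787500_nt.AC

open IsDedekindDomain NumberField
open Pool.Agent.Work.MP_787500_nt
open Pool.Agent.Work.MP_787500_nt.OddP (AbsGal cocycles cobLin locally actLin zeroOn)
open scoped Pointwise

universe u

variable {F : Type u} [Field F]

theorem cobLin_apply {n : ℕ} (ρ : AbsGal F →* Matrix (Fin n) (Fin n) ℤ_[2]) (v : Fin n → ℚ_[2])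
    (σ : AbsGal F) : cobLin ρ v σ = actLin (ρ σ) v - v := rfl

theorem mem_locally {n : ℕ} {ρ : AbsGal F →* Matrix (Fin n) (Fin n) ℤ_[2]}
    {D : Subgroup (AbsGal F)} {y : AbsGal F → Fin n → ℚ_[2]} :
    y ∈ locally ρ D ↔ ∃ v, ∀ σ ∈ D, y σ = actLin (ρ σ) v - v := by
  rw [locally, Submodule.mem_sup]
  constructor
  · rintro ⟨_, ⟨v, rfl⟩, z, hz, rfl⟩
    refine ⟨v, fun σ hσ => ?_⟩
    rw [Pi.add_apply, hz σ hσ, add_zero, cobLin_apply]
  · rintro ⟨v, hv⟩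
    refine ⟨cobLin ρ v, ⟨v, rfl⟩, y - cobLin ρ v, fun σ hσ => ?_, by abel⟩
    rw [Pi.sub_apply, hv σ hσ, cobLin_apply, sub_self]

variable {i : ℕ} {ρ : AbsGal F →* Matrix (Fin 2) (Fin 2) ℤ_[2]}
  {ψ : Fin 2 → AbsGal F →* ℤ_[2]ˣ}

theorem finite_LX (i : ℕ) : Module.Finite ℚ_[2] (LX i) := by
  let _ : LinearOrder (Fin 2 ⊕ Fin (2 * i) × Fin 2) :=
    LinearOrder.lift' (Fintype.equivFin _) (Fintype.equivFin _).injective
  exact Module.Finite.of_basis (Pi.basisFun ℚ_[2] (Fin 2 ⊕ Fin (2 * i) × Fin 2)).ExteriorAlgebra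

/-- the coordinates of a basis of a submodule, extended to the whole space -/
theorem exists_coords (M : Submodule ℚ_[2] (LX i)) :
    ∃ (d : ℕ) (b : Fin d → LX i) (g : Fin d → LX i →ₗ[ℚ_[2]] ℚ_[2]),
      (∀ m, b m ∈ M) ∧ ∀ x ∈ M, x = ∑ m, g m x • b m := by
  have := finite_LX i
  let b := Module.finBasis ℚ_[2] M
  choose g hg using fun m => LinearMap.exists_extend (b.coord m)
  refine ⟨_, fun m => (b m : LX i), g, fun m => (b m).2, fun x hx => ?_⟩
  have h1 : ∀ m, g m x = b.repr ⟨x, hx⟩ m := by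
    intro m
    have := LinearMap.congr_fun (hg m) ⟨x, hx⟩
    exact this
  have h2 : x = M.subtype (∑ m, b.repr ⟨x, hx⟩ m • b m) := by
    rw [b.sum_repr]
    rfl
  rw [map_sum] at h2
  rw [Finset.sum_congr rfl fun m _ => by rw [h1 m]]
  exact h2

/-- the pieces on which the action is scalar -/
theorem strict_scalar {M : Submodule ℚ_[2] (LX i)} {χ : AbsGal F →* ℤ_[2]ˣ}
    (hM : ∀ σ, ∀ v ∈ M, act i ρ ψ σ v = cv χ σ • v)
    (h : NoSelmer (twist χ (1 : AbsGal F →* Matrix (Fin 1) (Fin 1) ℤ_[2])))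
    {P : Ideal (𝓞 (AlgebraicClosure F))} (hP : P.IsPrime)
    (h2 : (2 : 𝓞 (AlgebraicClosure F)) ∈ P) : strict i ρ ψ M P ≤ cobOn i ρ ψ M ⊤ := by
  rintro x ⟨⟨hx, hxP⟩, hxQ⟩
  obtain ⟨hxM, hxc, hxm⟩ := hx
  obtain ⟨d, b, g, hb, hbg⟩ := exists_coords M
  have hact : ∀ (σ : AbsGal F) (z : Fin 1 → ℚ_[2]),
      actLin (twist χ (1 : AbsGal F →* Matrix (Fin 1) (Fin 1) ℤ_[2]) σ) z = fun _ => cv χ σ * z 0 := by
    intro σ z
    ext j
    obtain rfl : j = 0 := Subsingleton.elim _ _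
    simp [actLin, twist, cv]
  have hcob : ∀ (m : Fin d) (D : Subgroup (AbsGal F)), x ∈ cobOn i ρ ψ M D →
      (fun σ (_ : Fin 1) => g m (x σ)) ∈
        locally (twist χ (1 : AbsGal F →* Matrix (Fin 1) (Fin 1) ℤ_[2])) D := by
    rintro m D ⟨v, hv, hvD⟩
    rw [mem_locally]
    refine ⟨fun _ => g m v, fun σ hσ => ?_⟩
    rw [hact]
    funext j
    simp only [Pi.sub_apply]
    rw [hvD σ hσ, map_sub, hM σ v hv, map_smul, smul_eq_mul]
  have key : ∀ m : Fin d, ∃ z : Fin 1 → ℚ_[2], ∀ σ, g m (x σ) = cv χ σ * z 0 - z 0 := by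
    intro m
    obtain ⟨z, hz⟩ := h (fun σ _ => g m (x σ)) ⟨continuous_pi fun _ => hxc (g m), fun σ τ => by
        rw [hact]
        funext j
        simp only [Pi.add_apply]
        rw [hxm σ τ, map_add, hM σ _ (hxM τ), map_smul, smul_eq_mul]⟩
      (fun Q hQ h2Q => by
        refine hcob m _ ?_
        rw [SetLike.mem_coe, Submodule.mem_iInf] at hxQ
        have h3 := hxQ Q
        rw [Submodule.mem_iInf] at h3
        have h4 := h3 hQ
        rw [Submodule.mem_iInf] at h4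
        exact h4 h2Q)
      ⟨P, hP, h2, hcob m _ hxP⟩
    refine ⟨z, fun σ => ?_⟩
    have h5 := congrFun (congrFun hz σ) 0
    rw [cobLin_apply, hact] at h5
    exact h5.symm
  choose z hz using key
  refine ⟨∑ m, z m 0 • b m, M.sum_mem fun m _ => M.smul_mem _ (hb m), fun σ _ => ?_⟩
  rw [hM σ _ (M.sum_mem fun m _ => M.smul_mem _ (hb m)), hbg _ (hxM σ), Finset.smul_sum,
    ← Finset.sum_sub_distrib]
  refine Finset.sum_congr rfl fun m _ => ?_
  rw [hz m σ, sub_smul, mul_smul]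

theorem ctr_act {a b : ℕ} (σ : AbsGal F) (j : Fin 2) {z : LX i}
    (h : z ∈ spE i * (spU i 0 ^ a * spU i 1 ^ b)) :
    ctr i j (act i ρ ψ σ z) = ∑ k, (cv (chi i ψ a b) σ * (ρ σ j k : ℚ_[2])) • ctr i k z := by
  rw [act_eq, map_smul, ctr_mapX, Finset.smul_sum]
  refine Finset.sum_congr rfl fun k _ => ?_
  rw [mapX_UU σ ((ctr_E_mul h).1 k), chi_eq, smul_smul, smul_smul]
  congr 1
  ring

theorem ctr_vec {a b : ℕ} {ω : LX i} (h : ω ∈ spU i 0 ^ a * spU i 1 ^ b) (j k : Fin 2) :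
    ctr i j (vec i (.inl k) * ω) = if j = k then ω else 0 := by
  rw [ctr_inl_mul, ctr_UU j h, mul_zero, sub_zero]

theorem vec_mem {N : Submodule ℚ_[2] (LX i)} {ω : LX i} (h : ω ∈ N) (k : Fin 2) :
    vec i (.inl k) * ω ∈ spE i * N :=
  Submodule.mul_mem_mul (Submodule.subset_span ⟨k, rfl⟩) h

theorem act_mem {a b : ℕ} (σ : AbsGal F) {z : LX i}
    (h : z ∈ spE i * (spU i 0 ^ a * spU i 1 ^ b)) :
    act i ρ ψ σ z ∈ spE i * (spU i 0 ^ a * spU i 1 ^ b) := by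
  rw [(ctr_E_mul h).2, map_sum]
  refine Submodule.sum_mem _ fun j _ => ?_
  rw [act_eq, map_mul, mapX_inl, mapX_UU σ ((ctr_E_mul h).1 j), Finset.sum_mul]
  refine Submodule.smul_mem _ _ (Submodule.sum_mem _ fun k _ => ?_)
  rw [smul_mul_smul_comm]
  exact Submodule.smul_mem _ _ (vec_mem ((ctr_E_mul h).1 j) k)

theorem eq_of_ctr {a b : ℕ} {z w : LX i} (hz : z ∈ spE i * (spU i 0 ^ a * spU i 1 ^ b))
    (hw : w ∈ spE i * (spU i 0 ^ a * spU i 1 ^ b)) (h : ∀ j, ctr i j z = ctr i j w) : z = w := by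
  rw [(ctr_E_mul hz).2, (ctr_E_mul hw).2]
  exact Finset.sum_congr rfl fun j _ => by rw [h]

/-- the pieces with one factor from `E` -/
theorem strict_one {a b : ℕ} (h : NoSelmer (twist (chi i ψ a b) ρ))
    {P : Ideal (𝓞 (AlgebraicClosure F))} (hP : P.IsPrime)
    (h2 : (2 : 𝓞 (AlgebraicClosure F)) ∈ P) :
    strict i ρ ψ (spE i * (spU i 0 ^ a * spU i 1 ^ b)) P ≤
      cobOn i ρ ψ (spE i * (spU i 0 ^ a * spU i 1 ^ b)) ⊤ := by
  rintro x ⟨⟨hx, hxP⟩, hxQ⟩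
  obtain ⟨hxM, hxc, hxm⟩ := hx
  obtain ⟨d, n, g, hn, hng⟩ := exists_coords (spU i 0 ^ a * spU i 1 ^ b)
  set χ := chi i ψ a b with hχ
  have hact : ∀ (σ : AbsGal F) (z : Fin 2 → ℚ_[2]),
      actLin (twist χ ρ σ) z = fun j => ∑ k, (cv χ σ * (ρ σ j k : ℚ_[2])) * z k := by
    intro σ z
    ext j
    show ∑ k, ((((χ σ : ℤ_[2]) • ρ σ) j k : ℤ_[2]) : ℚ_[2]) * z k = _
    refine Finset.sum_congr rfl fun k _ => ?_
    rw [Matrix.smul_apply, smul_eq_mul, PadicInt.coe_mul, cv]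
  have hcob : ∀ (m : Fin d) (D : Subgroup (AbsGal F)),
      x ∈ cobOn i ρ ψ (spE i * (spU i 0 ^ a * spU i 1 ^ b)) D →
      (fun σ j => g m (ctr i j (x σ))) ∈ locally (twist χ ρ) D := by
    rintro m D ⟨v, hv, hvD⟩
    rw [mem_locally]
    refine ⟨fun j => g m (ctr i j v), fun σ hσ => ?_⟩
    rw [hact]
    funext j
    simp only [Pi.sub_apply]
    rw [hvD σ hσ, map_sub, ctr_act σ j hv, map_sub, map_sum]
    congr 1
    exact Finset.sum_congr rfl fun k _ => by rw [map_smul, smul_eq_mul]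
  have key : ∀ m : Fin d, ∃ z : Fin 2 → ℚ_[2], ∀ σ j, g m (ctr i j (x σ)) =
      ∑ k, (cv χ σ * (ρ σ j k : ℚ_[2])) * z k - z j := by
    intro m
    obtain ⟨z, hz⟩ := h (fun σ j => g m (ctr i j (x σ)))
      ⟨continuous_pi fun j => hxc ((g m) ∘ₗ ctr i j), fun σ τ => by
        rw [hact]
        funext j
        simp only [Pi.add_apply]
        rw [hxm σ τ, map_add, map_add, ctr_act σ j (hxM τ), map_sum]
        congr 1
        exact Finset.sum_congr rfl fun k _ => by rw [map_smul, smul_eq_mul]⟩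
      (fun Q hQ h2Q => by
        refine hcob m _ ?_
        rw [SetLike.mem_coe, Submodule.mem_iInf] at hxQ
        have h3 := hxQ Q
        rw [Submodule.mem_iInf] at h3
        have h4 := h3 hQ
        rw [Submodule.mem_iInf] at h4
        exact h4 h2Q)
      ⟨P, hP, h2, hcob m _ hxP⟩
    refine ⟨z, fun σ j => ?_⟩
    have h5 := congrFun (congrFun hz σ) j
    rw [cobLin_apply, hact] at h5
    exact h5.symm
  choose z hz using key
  have hNsum : ∀ k, ∑ m, z m k • n m ∈ spU i 0 ^ a * spU i 1 ^ b := fun k =>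
    Submodule.sum_mem _ fun m _ => Submodule.smul_mem _ _ (hn m)
  have hv : ∑ k, vec i (.inl k) * ∑ m, z m k • n m ∈ spE i * (spU i 0 ^ a * spU i 1 ^ b) :=
    Submodule.sum_mem _ fun k _ => vec_mem (hNsum k) k
  have hcv : ∀ j, ctr i j (∑ k, vec i (.inl k) * ∑ m, z m k • n m) = ∑ m, z m j • n m := by
    intro j
    rw [map_sum, Finset.sum_eq_single j]
    · rw [ctr_vec (hNsum j), if_pos rfl]
    · intro k _ hk
      rw [ctr_vec (hNsum k), if_neg (Ne.symm hk)]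
    · simp
  refine ⟨_, hv, fun σ _ => eq_of_ctr (hxM σ) (Submodule.sub_mem _ (act_mem σ hv) hv) fun j => ?_⟩
  rw [map_sub, ctr_act σ j hv, hcv j, hng _ ((ctr_E_mul (hxM σ)).1 j)]
  have h6 : ∀ k, (cv χ σ * (ρ σ j k : ℚ_[2])) • ctr i k (∑ k, vec i (.inl k) * ∑ m, z m k • n m) =
      ∑ m, ((cv χ σ * (ρ σ j k : ℚ_[2])) * z m k) • n m := by
    intro k
    rw [hcv k, Finset.smul_sum]
    exact Finset.sum_congr rfl fun m _ => by rw [smul_smul]
  rw [Finset.sum_congr rfl fun k _ => h6 k, Finset.sum_comm, ← Finset.sum_sub_distrib]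
  refine Finset.sum_congr rfl fun m _ => ?_
  rw [hz m σ j, sub_smul, Finset.sum_smul]

end Pool.Agent.Work.MP_787500_nt.AC
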