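import Mathlib
import Pool.Agent.Work.MP_787500_nt.AC.EXD
import Pool.Agent.Work.MP_787500_nt.AC.EXE

/-!
The sum of the local conditions is the space of the classes `y ∧ ω`.
-/

set_option autoImplicit false

namespace Pool.Agent.Work.MP_787500_nt.AC

open IsDedekindDomain NumberField WeierstrassCurve WeierstrassCurve.Affine
open Pool.Agent.Work.MP_787500_nt
open Pool.Agent.Work.MP_787500_nt.OddP (AbsGal cocycles cobLin locally actLin zeroOn)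
open scoped Pointwise

universe u

variable {F : Type u} [Field F]
variable {i : ℕ} {ρ : AbsGal F →* Matrix (Fin 2) (Fin 2) ℤ_[2]}
  {ψ : Fin 2 → AbsGal F →* ℤ_[2]ˣ}

theorem vec_mem_range (k : Fin 2 ⊕ Fin (2 * i) × Fin 2) :
    vec i k ∈ LinearMap.range (ExteriorAlgebra.ι ℚ_[2] (M := VX i)) := ⟨_, rfl⟩

theorem piece_le (c a b : ℕ) : piece i c a b ≤ ⋀[ℚ_[2]]^(c + a + b) (VX i) := by
  have hE : spE i ≤ LinearMap.range (ExteriorAlgebra.ι ℚ_[2] (M := VX i)) := by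
    rw [spE, Submodule.span_le]
    rintro _ ⟨j, rfl⟩
    exact vec_mem_range _
  have hU : ∀ d, spU i d ≤ LinearMap.range (ExteriorAlgebra.ι ℚ_[2] (M := VX i)) := by
    intro d
    rw [spU, Submodule.span_le]
    rintro _ ⟨j, rfl⟩
    exact vec_mem_range _
  rw [piece, ExteriorAlgebra.exteriorPower, pow_add, pow_add]
  exact mul_le_mul' (mul_le_mul' (pow_le_pow_left' hE c) (pow_le_pow_left' (hU 0) a))
    (pow_le_pow_left' (hU 1) b)

theorem cobOn_mono {M N : Submodule ℚ_[2] (LX i)} (h : M ≤ N) (D : Subgroup (AbsGal F)) :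
    cobOn i ρ ψ M D ≤ cobOn i ρ ψ N D := by
  rintro x ⟨v, hv, hx⟩
  exact ⟨v, h hv, hx⟩

theorem piece_zero (a b : ℕ) : piece i 0 a b = spU i 0 ^ a * spU i 1 ^ b := by
  rw [piece, pow_zero, one_mul]

theorem piece_one (a b : ℕ) : piece i 1 a b = spE i * (spU i 0 ^ a * spU i 1 ^ b) := by
  rw [piece, pow_one, mul_assoc]

theorem act_piece_two {δ : AbsGal F →* ℤ_[2]ˣ} (hδ : ∀ σ, (δ σ : ℤ_[2]) = (ρ σ).det) {a b : ℕ}
    (σ : AbsGal F) {v : LX i} (h : v ∈ piece i 2 a b) :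
    act i ρ ψ σ v = cv (chi i ψ a b * δ) σ • v := by
  rw [piece, mul_assoc] at h
  have h1 := smul_mul_mem (mapX i ρ ψ σ) (M := spE i ^ 2) (N := spU i 0 ^ a * spU i 1 ^ b)
    (fun x hx => mapX_EE σ hx) (fun x hx => mapX_UU σ hx) v h
  have h2 : cv δ σ = ((ρ σ).det : ℚ_[2]) := by rw [cv, hδ]
  rw [act_eq, h1, smul_smul, cv_mul, chi_eq, h2]
  congr 1
  ring

theorem chi_def (a b : ℕ) : chi i ψ a b = ψ 0 ^ ((a : ℤ) - i) * ψ 1 ^ ((b : ℤ) - i) := rfl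

/-- strict cocycles with values in a piece are coboundaries -/
theorem strict_le {δ : AbsGal F →* ℤ_[2]ˣ} (hδ : ∀ σ, (δ σ : ℤ_[2]) = (ρ σ).det)
    (h1 : ∀ a b : ℤ, NoSelmer (twist (ψ 0 ^ a * ψ 1 ^ b)
      (1 : AbsGal F →* Matrix (Fin 1) (Fin 1) ℤ_[2])))
    (h2 : ∀ a b : ℤ, NoSelmer (twist (ψ 0 ^ a * ψ 1 ^ b) ρ))
    (h3 : ∀ a b : ℤ, NoSelmer (twist (ψ 0 ^ a * ψ 1 ^ b * δ)
      (1 : AbsGal F →* Matrix (Fin 1) (Fin 1) ℤ_[2])))
    {P : Ideal (𝓞 (AlgebraicClosure F))} (hP : P.IsPrime)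
    (h2P : (2 : 𝓞 (AlgebraicClosure F)) ∈ P) {c a b : ℕ} (hc : c ≤ 2) :
    strict i ρ ψ (piece i c a b) P ≤ cobOn i ρ ψ (piece i c a b) ⊤ := by
  obtain rfl | rfl | rfl : c = 0 ∨ c = 1 ∨ c = 2 := by omega
  · rw [piece_zero]
    exact strict_scalar (fun σ v hv => act_UU σ hv) (h1 _ _) hP h2P
  · rw [piece_one]
    exact strict_one (h2 _ _) hP h2P
  · exact strict_scalar (fun σ v hv => act_piece_two hδ σ hv) (h3 _ _) hP h2P

theorem act_one_ii (σ : AbsGal F) (z : Fin 2 → ℚ_[2]) {ω : LX i}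
    (h : ω ∈ spU i 0 ^ i * spU i 1 ^ i) :
    act i ρ ψ σ ((∑ j, z j • vec i (.inl j)) * ω) =
      (∑ j, actLin (ρ σ) z j • vec i (.inl j)) * ω := by
  have h1 : cv ((ψ 0 * ψ 1) ^ (-(i : ℤ))) σ * (cv (ψ 0) σ ^ i * cv (ψ 1) σ ^ i) = 1 := by
    rw [← chi_eq, cv, chi_self, Units.val_one, PadicInt.coe_one]
  rw [act_eq, map_mul, mapX_UU σ h, mul_smul_comm, smul_smul, h1, one_smul, map_sum]
  congr 1
  have h2 : ∀ j : Fin 2, mapX i ρ ψ σ (z j • vec i (.inl j)) =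
      ∑ k, (z j * (ρ σ k j : ℚ_[2])) • vec i (.inl k) := by
    intro j
    rw [map_smul, mapX_inl, Finset.smul_sum]
    exact Finset.sum_congr rfl fun k _ => by rw [smul_smul]
  rw [Finset.sum_congr rfl fun j _ => h2 j, Finset.sum_comm]
  refine Finset.sum_congr rfl fun k _ => ?_
  rw [← Finset.sum_smul]
  congr 1
  show _ = ∑ j, (ρ σ k j : ℚ_[2]) * z j
  exact Finset.sum_congr rfl fun j _ => mul_comm _ _

theorem sum_mul_mem {z : Fin 2 → ℚ_[2]} {ω : LX i} (h : ω ∈ spU i 0 ^ i * spU i 1 ^ i) :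
    (∑ j, z j • vec i (.inl j)) * ω ∈ ⋀[ℚ_[2]]^(2 * i + 1) (VX i) := by
  have h1 : (∑ j, z j • vec i (.inl j)) * ω ∈ piece i 1 i i := by
    rw [piece_one, Finset.sum_mul]
    refine Submodule.sum_mem _ fun j _ => ?_
    rw [smul_mul_assoc]
    exact Submodule.smul_mem _ _ (vec_mem h j)
  have h2 := piece_le 1 i i h1
  have e : 1 + i + i = 2 * i + 1 := by ring
  rwa [e] at h2

/-- the function `y ∧ ω` -/
noncomputable def wed (i : ℕ) (ω : LX i) :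
    (AbsGal F → Fin 2 → ℚ_[2]) →ₗ[ℚ_[2]] (AbsGal F → LX i) where
  toFun y := fun σ => (∑ j, y σ j • vec i (.inl j)) * ω
  map_add' y y' := by
    funext σ
    simp only [Pi.add_apply, add_smul, Finset.sum_add_distrib, add_mul]
  map_smul' a y := by
    funext σ
    simp only [Pi.smul_apply, smul_eq_mul, mul_smul, ← Finset.smul_sum, smul_mul_assoc,
      RingHom.id_apply]

theorem wed_apply (ω : LX i) (y : AbsGal F → Fin 2 → ℚ_[2]) (σ : AbsGal F) :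
    wed i ω y σ = (∑ j, y σ j • vec i (.inl j)) * ω := rfl

/-- a function `y ∧ ω` for a coboundary `y` is a coboundary -/
theorem cob_wedge (z : Fin 2 → ℚ_[2]) {ω : LX i} (h : ω ∈ spU i 0 ^ i * spU i 1 ^ i) :
    wed i ω (cobLin ρ z) ∈ cobOn i ρ ψ (⋀[ℚ_[2]]^(2 * i + 1) (VX i)) ⊤ := by
  refine ⟨(∑ j, z j • vec i (.inl j)) * ω, sum_mul_mem h, fun σ _ => ?_⟩
  have h1 : ∑ j, cobLin ρ z σ j • vec i (.inl j) =
      ∑ j, actLin (ρ σ) z j • vec i (.inl j) - ∑ j, z j • vec i (.inl j) := by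
    rw [← Finset.sum_sub_distrib]
    refine Finset.sum_congr rfl fun j _ => ?_
    rw [cobLin_apply, Pi.sub_apply, sub_smul]
  rw [act_one_ii σ z h, ← sub_mul, ← h1, wed_apply]

theorem mem_wedge {Y : Set (AbsGal F → Fin 2 → ℚ_[2])} {y : AbsGal F → Fin 2 → ℚ_[2]}
    (hy : y ∈ Y) {ω : LX i} (h : ω ∈ spU i 0 ^ i * spU i 1 ^ i) : wed i ω y ∈ wedge i Y :=
  Submodule.subset_span ⟨y, hy, ω, h, fun _ => rfl⟩

theorem wedge_mono {Y Y' : Set (AbsGal F → Fin 2 → ℚ_[2])} (h : Y ⊆ Y') :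
    wedge i Y ≤ wedge i Y' := by
  refine Submodule.span_mono ?_
  rintro x ⟨y, hy, ω, hω, hx⟩
  exact ⟨y, h hy, ω, hω, hx⟩

/-- the span of a set and the coboundaries -/
theorem wedge_span_le {Y Z : Set (AbsGal F → Fin 2 → ℚ_[2])}
    (h : ∀ y ∈ Y, y ∈ Submodule.span ℚ_[2] Z ⊔ LinearMap.range (cobLin ρ)) :
    wedge i Y ≤ cobOn i ρ ψ (⋀[ℚ_[2]]^(2 * i + 1) (VX i)) ⊤ ⊔ wedge i Z := by
  rw [wedge, Submodule.span_le]
  rintro x ⟨y, hy, ω, hω, hx⟩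
  have hx' : x = wed i ω y := by
    funext σ
    rw [hx σ, wed_apply]
  obtain ⟨y1, hy1, y2, hy2, hyy⟩ := Submodule.mem_sup.1 (h y hy)
  obtain ⟨z, hz⟩ := hy2
  have h1 : Submodule.span ℚ_[2] Z ≤ (wedge i Z).comap (wed i ω) := by
    rw [Submodule.span_le]
    intro y' hy'
    exact mem_wedge hy' hω
  have h2 : wed i ω y1 ∈ wedge i Z := h1 hy1
  have h3 : wed i ω y2 ∈ cobOn i ρ ψ (⋀[ℚ_[2]]^(2 * i + 1) (VX i)) ⊤ := by
    rw [← hz]
    exact cob_wedge z hω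
  rw [hx', ← hyy, map_add, SetLike.mem_coe]
  exact Submodule.add_mem _ (Submodule.mem_sup_right h2) (Submodule.mem_sup_left h3)

section sel

variable [NumberField F] {W : WeierstrassCurve.Affine F}
  {t : Fin 2 → ℕ → (W⁄(AlgebraicClosure F)).Point}

/-- the sum of the local conditions -/
theorem selX_eq {δ : AbsGal F →* ℤ_[2]ˣ} (hδ : ∀ σ, (δ σ : ℤ_[2]) = (ρ σ).det)
    (h1 : ∀ a b : ℤ, NoSelmer (twist (ψ 0 ^ a * ψ 1 ^ b)
      (1 : AbsGal F →* Matrix (Fin 1) (Fin 1) ℤ_[2])))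
    (h2 : ∀ a b : ℤ, NoSelmer (twist (ψ 0 ^ a * ψ 1 ^ b) ρ))
    (h3 : ∀ a b : ℤ, NoSelmer (twist (ψ 0 ^ a * ψ 1 ^ b * δ)
      (1 : AbsGal F →* Matrix (Fin 1) (Fin 1) ℤ_[2]))) :
    selX i W t ρ ψ = cobOn i ρ ψ (⋀[ℚ_[2]]^(2 * i + 1) (VX i)) ⊤ ⊔
      wedge i {y | y ∈ cocycles ρ ∧ KumLoc W t y} := by
  apply le_antisymm
  · rw [selX]
    refine sup_le le_rfl ?_
    refine iSup_le fun P => iSup_le fun hP => iSup_le fun h2P => iSup_le fun c => iSup_le fun a =>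
      iSup_le fun b => iSup_le fun hc => ?_
    refine (strict_le hδ h1 h2 h3 hP h2P hc.1).trans ((cobOn_mono ?_ ⊤).trans le_sup_left)
    have := piece_le (i := i) c a b
    rwa [hc.2] at this
  · rw [selX]
    exact le_sup_left

/-- the case of a surjective Kummer map -/
theorem selX_eq_ajX {δ : AbsGal F →* ℤ_[2]ˣ} (hδ : ∀ σ, (δ σ : ℤ_[2]) = (ρ σ).det)
    (h1 : ∀ a b : ℤ, NoSelmer (twist (ψ 0 ^ a * ψ 1 ^ b)
      (1 : AbsGal F →* Matrix (Fin 1) (Fin 1) ℤ_[2])))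
    (h2 : ∀ a b : ℤ, NoSelmer (twist (ψ 0 ^ a * ψ 1 ^ b) ρ))
    (h3 : ∀ a b : ℤ, NoSelmer (twist (ψ 0 ^ a * ψ 1 ^ b * δ)
      (1 : AbsGal F →* Matrix (Fin 1) (Fin 1) ℤ_[2])))
    (hK : ∀ x, x ∈ cocycles ρ ∧ KumLoc W t x ↔ x ∈ kummerSpace W t ρ) :
    selX i W t ρ ψ = ajX i W t ρ ψ := by
  rw [selX_eq hδ h1 h2 h3, ajX]
  apply le_antisymm
  · refine sup_le le_sup_left (wedge_span_le fun y hy => ?_)
    exact (hK y).1 hy
  · refine sup_le le_sup_left (le_trans (wedge_mono fun y hy => ?_) le_sup_right)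
    exact (hK y).2 (Submodule.mem_sup_left (Submodule.subset_span hy))

omit [NumberField F] in
/-- the form of `ajX` with the whole space spanned by the Kummer cocycles and the coboundaries -/
theorem ajX_eq : ajX i W t ρ ψ = cobOn i ρ ψ (⋀[ℚ_[2]]^(2 * i + 1) (VX i)) ⊤ ⊔
    wedge i (kummerSpace W t ρ : Set (AbsGal F → Fin 2 → ℚ_[2])) := by
  rw [ajX]
  apply le_antisymm
  · refine sup_le le_sup_left (le_trans (wedge_mono fun y hy => ?_) le_sup_right)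
    exact Submodule.mem_sup_left (Submodule.subset_span hy)
  · exact sup_le le_sup_left (wedge_span_le fun y hy => hy)

end sel

end Pool.Agent.Work.MP_787500_nt.AC
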