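import Mathlib
import Pool.Agent.Work.MP_787500_nt.AC.EXF

/-!
The dimension of the space of the classes `y ∧ ω`.
-/

set_option autoImplicit false

namespace Pool.Agent.Work.MP_787500_nt.AC

open Pool.Agent.Work.MP_787500_nt
open Pool.Agent.Work.MP_787500_nt.OddP (AbsGal cocycles cobLin locally actLin zeroOn)

universe u

variable {F : Type u} [Field F]
variable {i : ℕ} {ρ : AbsGal F →* Matrix (Fin 2) (Fin 2) ℤ_[2]}
  {ψ : Fin 2 → AbsGal F →* ℤ_[2]ˣ}

theorem cv_self (σ : AbsGal F) :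
    cv ((ψ 0 * ψ 1) ^ (-(i : ℤ))) σ * (cv (ψ 0) σ ^ i * cv (ψ 1) σ ^ i) = 1 := by
  rw [← chi_eq, cv, chi_self, Units.val_one, PadicInt.coe_one]

theorem cf_ctr_act {T : Finset (JX i)} (hT : Typ i i i T) (σ : AbsGal F) (j : Fin 2) (v : LX i) :
    cf i T (ctr i j (act i ρ ψ σ v)) = ∑ k, (ρ σ j k : ℚ_[2]) * cf i T (ctr i k v) := by
  rw [act_eq, map_smul, map_smul, ctr_mapX, map_sum, Finset.smul_sum]
  refine Finset.sum_congr rfl fun k _ => ?_
  rw [map_smul, cf_mapX, prod_typ hT, smul_eq_mul, smul_eq_mul]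
  have h := cv_self (i := i) (ψ := ψ) σ
  linear_combination ((ρ σ j k : ℚ_[2]) * cf i T (ctr i k v)) * h

theorem cf_ctr_wed {T S : Finset (JX i)} (hS : Typ i i i S) (y : AbsGal F → Fin 2 → ℚ_[2])
    (σ : AbsGal F) (j : Fin 2) :
    cf i T (ctr i j (wed i (beta i S) y σ)) = if S = T then y σ j else 0 := by
  rw [wed_apply, Finset.sum_mul, map_sum, map_sum, Finset.sum_eq_single j]
  · rw [smul_mul_assoc, map_smul, map_smul, ctr_vec (beta_mem hS), if_pos rfl, cf_beta, smul_eq_mul]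
    split_ifs
    · rw [mul_one]
    · rw [mul_zero]
  · intro k _ hk
    rw [smul_mul_assoc, map_smul, map_smul, ctr_vec (beta_mem hS), if_neg (Ne.symm hk), map_zero,
      smul_zero]
  · simp

/-- the sets of indices of the type `(i, i)` -/
abbrev Ty (i : ℕ) : Type := {T : Finset (JX i) // Typ i i i T}

noncomputable instance (i : ℕ) : Fintype (Ty i) := Fintype.ofFinite _

/-- the sum of the `y T ∧ beta T` -/
noncomputable def sumWed (i : ℕ) : (Ty i → AbsGal F → Fin 2 → ℚ_[2]) →ₗ[ℚ_[2]] (AbsGal F → LX i) :=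
  ∑ T : Ty i, wed i (beta i T.1) ∘ₗ LinearMap.proj T

theorem sumWed_apply (y : Ty i → AbsGal F → Fin 2 → ℚ_[2]) :
    sumWed i y = ∑ T : Ty i, wed i (beta i T.1) (y T) := by
  rw [sumWed, LinearMap.sum_apply]
  rfl

theorem cf_ctr_sumWed (y : Ty i → AbsGal F → Fin 2 → ℚ_[2]) (σ : AbsGal F) (T : Ty i) (j : Fin 2) :
    cf i T.1 (ctr i j (sumWed i y σ)) = y T σ j := by
  rw [sumWed_apply, Finset.sum_apply, map_sum, map_sum, Finset.sum_eq_single T]
  · rw [cf_ctr_wed T.2, if_pos rfl]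
  · intro S _ hS
    rw [cf_ctr_wed S.2, if_neg]
    intro h
    exact hS (Subtype.ext h)
  · simp

/-- the sum of the `y T ∧ beta T` is a coboundary only if the `y T` are -/
theorem sumWed_mem {M : Submodule ℚ_[2] (LX i)} {y : Ty i → AbsGal F → Fin 2 → ℚ_[2]}
    (h : sumWed i y ∈ cobOn i ρ ψ M ⊤) (T : Ty i) : y T ∈ LinearMap.range (cobLin ρ) := by
  obtain ⟨v, _, hv⟩ := h
  refine ⟨fun k => cf i T.1 (ctr i k v), ?_⟩
  funext σ j
  rw [← cf_ctr_sumWed y σ T j, hv σ (Subgroup.mem_top σ), map_sub, map_sub, cf_ctr_act T.2,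
    cobLin_apply]
  rfl

theorem sumWed_cob {y : Ty i → AbsGal F → Fin 2 → ℚ_[2]}
    (h : ∀ T, y T ∈ LinearMap.range (cobLin ρ)) :
    sumWed i y ∈ cobOn i ρ ψ (⋀[ℚ_[2]]^(2 * i + 1) (VX i)) ⊤ := by
  rw [sumWed_apply]
  refine Submodule.sum_mem _ fun T _ => ?_
  obtain ⟨z, hz⟩ := h T
  rw [← hz]
  exact cob_wedge z (beta_mem T.2)

private theorem sum_inst {α M : Type*} [AddCommMonoid M] (I J : Fintype α) (f : α → M) :
    @Finset.sum α M _ (@Finset.univ α I) f = @Finset.sum α M _ (@Finset.univ α J) f := by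
  rw [Subsingleton.elim I J]

theorem wed_expand {ω : LX i} (h : ω ∈ spU i 0 ^ i * spU i 1 ^ i)
    (y : AbsGal F → Fin 2 → ℚ_[2]) :
    wed i ω y = sumWed i (fun T : Ty i => cf i T.1 ω • y) := by
  rw [sumWed_apply]
  funext σ
  rw [wed_apply, Finset.sum_apply]
  have h1 : ω = ∑ T : Ty i, cf i T.1 ω • beta i T.1 := (UU_expand h).trans (sum_inst _ _ _)
  conv_lhs => rw [h1]
  rw [Finset.mul_sum]
  refine Finset.sum_congr rfl fun T _ => ?_
  rw [wed_apply, mul_smul_comm, ← smul_mul_assoc]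
  congr 1
  rw [Finset.smul_sum]
  exact Finset.sum_congr rfl fun j _ => by rw [smul_smul]; rfl

/-- the space of the classes `y ∧ ω` -/
theorem rank_wedge (Y : Submodule ℚ_[2] (AbsGal F → Fin 2 → ℚ_[2])) :
    Module.rank ℚ_[2] (↥(cobOn i ρ ψ (⋀[ℚ_[2]]^(2 * i + 1) (VX i)) ⊤ ⊔ wedge i (Y : Set _)) ⧸
      (cobOn i ρ ψ (⋀[ℚ_[2]]^(2 * i + 1) (VX i)) ⊤).submoduleOf
        (cobOn i ρ ψ (⋀[ℚ_[2]]^(2 * i + 1) (VX i)) ⊤ ⊔ wedge i (Y : Set _))) =
      ((2 * i).choose i : Cardinal) ^ 2 *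
        Module.rank ℚ_[2] (Y ⧸ (LinearMap.range (cobLin ρ)).submoduleOf Y) := by
  set B := cobOn i ρ ψ (⋀[ℚ_[2]]^(2 * i + 1) (VX i)) ⊤ with hB
  set S := B ⊔ wedge i (Y : Set (AbsGal F → Fin 2 → ℚ_[2])) with hS
  have h0 : ∀ y : Ty i → Y, sumWed i (fun T => (y T : AbsGal F → Fin 2 → ℚ_[2])) ∈ S := by
    intro y
    rw [sumWed_apply]
    exact Submodule.sum_mem _ fun T _ => Submodule.mem_sup_right (mem_wedge (y T).2 (beta_mem T.2))
  let Φ : (Ty i → Y) →ₗ[ℚ_[2]] S := LinearMap.codRestrict S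
    (sumWed i ∘ₗ LinearMap.pi fun T => Y.subtype ∘ₗ LinearMap.proj T) h0
  have hΦ : ∀ y, (Φ y : AbsGal F → LX i) = sumWed i (fun T => (y T : AbsGal F → Fin 2 → ℚ_[2])) :=
    fun y => rfl
  let Ψ := (B.submoduleOf S).mkQ ∘ₗ Φ
  have hker : LinearMap.ker Ψ =
      Submodule.pi Set.univ (fun _ : Ty i => (LinearMap.range (cobLin ρ)).submoduleOf Y) := by
    ext y
    rw [LinearMap.mem_ker, LinearMap.comp_apply, Submodule.mkQ_apply,
      Submodule.Quotient.mk_eq_zero, Submodule.mem_pi]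
    constructor
    · intro h T _
      exact sumWed_mem (M := ⋀[ℚ_[2]]^(2 * i + 1) (VX i)) (ψ := ψ) h T
    · intro h
      exact sumWed_cob fun T => h T (Set.mem_univ _)
  have hsurj : Function.Surjective Ψ := by
    intro q
    obtain ⟨⟨s, hs⟩, rfl⟩ := Submodule.mkQ_surjective _ q
    obtain ⟨b, hb, w, hw, hbw⟩ := Submodule.mem_sup.1 hs
    have h1 : wedge i (Y : Set (AbsGal F → Fin 2 → ℚ_[2])) ≤
        LinearMap.range (S.subtype ∘ₗ Φ) := by
      rw [wedge, Submodule.span_le]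
      rintro x ⟨y, hy, ω, hω, hx⟩
      refine ⟨fun T => ⟨cf i T.1 ω • y, Y.smul_mem _ hy⟩, ?_⟩
      have hx' : x = wed i ω y := by
        funext σ
        rw [hx σ, wed_apply]
      rw [hx', wed_expand hω]
      rfl
    obtain ⟨y, hy⟩ := h1 hw
    refine ⟨y, ?_⟩
    show (B.submoduleOf S).mkQ (Φ y) = _
    rw [Submodule.mkQ_apply, Submodule.mkQ_apply, Submodule.Quotient.eq]
    show (Φ y : AbsGal F → LX i) - s ∈ B
    have h2 : (Φ y : AbsGal F → LX i) = w := hy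
    rw [h2, ← hbw]
    have h3 : w - (b + w) = -b := by abel
    rw [h3]
    exact B.neg_mem hb
  have e1 := (Ψ.quotKerEquivOfSurjective hsurj).rank_eq
  rw [← e1, hker]
  classical
  rw [(Submodule.quotientPi (fun _ : Ty i => (LinearMap.range (cobLin ρ)).submoduleOf Y)).rank_eq,
    rank_fun_eq_lift_mul, Cardinal.lift_uzero]
  congr 1
  rw [← Nat.card_eq_fintype_card, card_typ, pow_two]
  push_cast
  rfl

end Pool.Agent.Work.MP_787500_nt.AC
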