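import Mathlib
import Pool.Agent.Work.MP_787500_nt.AC.Defs

/-!
Definitions of the Selmer group of the product of an elliptic curve `E` and the power `E0 ^ (2 i)` of an
elliptic curve `E0` with complex multiplication, with values in the exterior powers of its Tate module.
-/

set_option autoImplicit false

namespace Pool.Agent.Work.MP_787500_nt.AC

open IsDedekindDomain NumberField WeierstrassCurve WeierstrassCurve.Affine
open Pool.Agent.Work.MP_787500_nt
open Pool.Agent.Work.MP_787500_nt.OddP (AbsGal)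
open scoped Pointwise

universe u

/-- The rational Tate module `V_2 (E × E0 ^ (2 i))`: the coordinates `inl j` are those of the Tate
module of `E`, the coordinates `inr (a, b)` those of the Tate module of the factor `E0` with index `a`. -/
def VY (i : ℕ) : Type := Fin 2 ⊕ Fin (2 * i) × Fin 2 → ℚ_[2]

noncomputable instance instAddVY (i : ℕ) : AddCommGroup (VY i) :=
  @Pi.addCommGroup (Fin 2 ⊕ Fin (2 * i) × Fin 2) (fun _ => ℚ_[2]) fun _ => inferInstance

noncomputable instance instModVY (i : ℕ) : Module ℚ_[2] (VY i) :=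
  @Pi.module (Fin 2 ⊕ Fin (2 * i) × Fin 2) (fun _ => ℚ_[2]) ℚ_[2] _ _ fun _ => inferInstance

/-- The exterior algebra of `V_2 (E × E0 ^ (2 i))`. -/
def LY (i : ℕ) : Type := ExteriorAlgebra ℚ_[2] (VY i)

noncomputable instance instRingLY (i : ℕ) : Ring (LY i) :=
  @CliffordAlgebra.instRing ℚ_[2] _ (VY i) _ _ 0

noncomputable instance instAlgLY (i : ℕ) : Algebra ℚ_[2] (LY i) :=
  @CliffordAlgebra.instAlgebra ℚ_[2] _ (VY i) _ _ 0

/-- The embedding of `V_2 (E × E0 ^ (2 i))` into its exterior algebra. -/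
noncomputable def emb (i : ℕ) (v : VY i) : LY i := ExteriorAlgebra.ι ℚ_[2] v

/-- The vector with coordinate 1 at `k` and all other coordinates 0. -/
noncomputable def basV (i : ℕ) (k : Fin 2 ⊕ Fin (2 * i) × Fin 2) : VY i := fun l => if l = k then 1 else 0

/-- The part of degree `n` of the exterior algebra. -/
noncomputable def deg (i n : ℕ) : Submodule ℚ_[2] (LY i) := ⋀[ℚ_[2]]^n (VY i)

/-- The subspace `V_2 E`. -/
noncomputable def subE (i : ℕ) : Submodule ℚ_[2] (LY i) :=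
  Submodule.span ℚ_[2] (Set.range fun j : Fin 2 => emb i (basV i (.inl j)))

/-- The subspace `U_b` of `V_2 (E0 ^ (2 i))` on which the Galois group acts by `ψ b`. -/
noncomputable def subU (i : ℕ) (b : Fin 2) : Submodule ℚ_[2] (LY i) :=
  Submodule.span ℚ_[2] (Set.range fun a : Fin (2 * i) => emb i (basV i (.inr (a, b))))

/-- The dimension of the span of `S` modulo the span of `B`. -/
noncomputable def dimMod {M : Type u} [AddCommGroup M] [Module ℚ_[2] M] (S B : Set M) : Cardinal :=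
  Module.rank ℚ_[2] (Submodule.span ℚ_[2] S ⧸
    (Submodule.span ℚ_[2] B).submoduleOf (Submodule.span ℚ_[2] S))

/-- A 2-adic unit as a 2-adic integer. -/
def uz (a : ℤ_[2]ˣ) : ℤ_[2] := a

/-- A 2-adic unit as a 2-adic number. -/
def uq (a : ℤ_[2]ˣ) : ℚ_[2] := (uz a : ℚ_[2])

/-- The vector `M x`. -/
noncomputable def mulM (M : Matrix (Fin 2) (Fin 2) ℤ_[2]) (x : Fin 2 → ℚ_[2]) : Fin 2 → ℚ_[2] :=
  fun j => ∑ l, (M j l : ℚ_[2]) * x l

section action

variable {F : Type u} [Field F]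

/-- The action on `V_2 (E × E0 ^ (2 i))`, if `ρ` gives the action on the Tate module of `E` and the Tate
module of `E0` is the sum of the characters `ψ 0` and `ψ 1`. -/
noncomputable def actV (i : ℕ) (ρ : AbsGal F →* Matrix (Fin 2) (Fin 2) ℤ_[2])
    (ψ : Fin 2 → AbsGal F →* ℤ_[2]ˣ) (σ : AbsGal F) (x : VY i) : VY i :=
  Sum.elim (mulM (ρ σ) fun j => x (.inl j))
    fun ab => uq (ψ ab.2 σ) * x (.inr ab)

theorem actV_add (i : ℕ) (ρ : AbsGal F →* Matrix (Fin 2) (Fin 2) ℤ_[2])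
    (ψ : Fin 2 → AbsGal F →* ℤ_[2]ˣ) (σ : AbsGal F) (x y : VY i) :
    actV i ρ ψ σ (x + y) = actV i ρ ψ σ x + actV i ρ ψ σ y := by
  funext k
  rcases k with j | ab
  · show ∑ l, (ρ σ j l : ℚ_[2]) * (x (.inl l) + y (.inl l)) =
      ∑ l, (ρ σ j l : ℚ_[2]) * x (.inl l) + ∑ l, (ρ σ j l : ℚ_[2]) * y (.inl l)
    simp only [mul_add, Finset.sum_add_distrib]
  · exact mul_add _ _ _

theorem actV_smul (i : ℕ) (ρ : AbsGal F →* Matrix (Fin 2) (Fin 2) ℤ_[2])
    (ψ : Fin 2 → AbsGal F →* ℤ_[2]ˣ) (σ : AbsGal F) (c : ℚ_[2]) (x : VY i) :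
    actV i ρ ψ σ (c • x) = c • actV i ρ ψ σ x := by
  funext k
  rcases k with j | ab
  · show ∑ l, (ρ σ j l : ℚ_[2]) * (c * x (.inl l)) = c * ∑ l, (ρ σ j l : ℚ_[2]) * x (.inl l)
    rw [Finset.mul_sum]
    exact Finset.sum_congr rfl fun l _ => mul_left_comm _ _ _
  · exact mul_left_comm _ _ _

/-- The action on the exterior algebra, twisted by the power `-i` of the determinant of the Tate
module of `E0`. -/
noncomputable def actY (i : ℕ) (ρ : AbsGal F →* Matrix (Fin 2) (Fin 2) ℤ_[2])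
    (ψ : Fin 2 → AbsGal F →* ℤ_[2]ˣ) (σ : AbsGal F) (x : LY i) : LY i :=
  uq ((ψ 0 σ * ψ 1 σ) ^ (-(i : ℤ))) •
    ExteriorAlgebra.map ⟨⟨actV i ρ ψ σ, actV_add i ρ ψ σ⟩, actV_smul i ρ ψ σ⟩ x

/-- On `D` the function `x` is the coboundary of an element of `M`. -/
def IsCobOn (i : ℕ) (ρ : AbsGal F →* Matrix (Fin 2) (Fin 2) ℤ_[2]) (ψ : Fin 2 → AbsGal F →* ℤ_[2]ˣ)
    (M : Submodule ℚ_[2] (LY i)) (D : Subgroup (AbsGal F)) (x : AbsGal F → LY i) : Prop :=
  ∃ v ∈ M, ∀ σ ∈ D, x σ = actY i ρ ψ σ v - v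

/-- `x` is a continuous 1-cocycle with values in `M`. -/
def IsCoc (i : ℕ) (ρ : AbsGal F →* Matrix (Fin 2) (Fin 2) ℤ_[2]) (ψ : Fin 2 → AbsGal F →* ℤ_[2]ˣ)
    (M : Submodule ℚ_[2] (LY i)) (x : AbsGal F → LY i) : Prop :=
  (∀ σ, x σ ∈ M) ∧ (∀ f : LY i →ₗ[ℚ_[2]] ℚ_[2], Continuous fun σ => f (x σ)) ∧
    ∀ σ τ, x (σ * τ) = x σ + actY i ρ ψ σ (x τ)

/-- `x` is a continuous 1-cocycle with values in `M`, which is a coboundary on the inertia groups of
all primes not containing 2 and on the decomposition group (the stabilizer) of `P`. -/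
def IsStrict (i : ℕ) (ρ : AbsGal F →* Matrix (Fin 2) (Fin 2) ℤ_[2]) (ψ : Fin 2 → AbsGal F →* ℤ_[2]ˣ)
    (M : Submodule ℚ_[2] (LY i)) (P : Ideal (𝓞 (AlgebraicClosure F))) (x : AbsGal F → LY i) : Prop :=
  IsCoc i ρ ψ M x ∧ IsCobOn i ρ ψ M (MulAction.stabilizer (AbsGal F) P) x ∧
    ∀ Q : Ideal (𝓞 (AlgebraicClosure F)), Q.IsPrime → (2 : 𝓞 (AlgebraicClosure F)) ∉ Q →
      IsCobOn i ρ ψ M (Q.inertia (AbsGal F)) x

/-- The functions `y ∧ ω`, for `y` in the set `Y` of functions with values in `V_2 E`, and `ω` in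
`U_0 ^ i * U_1 ^ i`. -/
def wedges (i : ℕ) (Y : Set (AbsGal F → Fin 2 → ℚ_[2])) : Set (AbsGal F → LY i) :=
  {x | ∃ y ∈ Y, ∃ ω ∈ subU i 0 ^ i * subU i 1 ^ i, ∀ σ, x σ = emb i (Sum.elim (y σ) 0) * ω}

/-- The coboundaries with values in the part of degree `2 i + 1`. -/
def cobs (i : ℕ) (ρ : AbsGal F →* Matrix (Fin 2) (Fin 2) ℤ_[2]) (ψ : Fin 2 → AbsGal F →* ℤ_[2]ˣ) :
    Set (AbsGal F → LY i) := {x | IsCobOn i ρ ψ (deg i (2 * i + 1)) ⊤ x}

/-- The strict cocycles with values in the pieces `(V_2 E) ^ c * U_0 ^ a * U_1 ^ b` of degree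
`c + a + b = 2 i + 1`, for all primes `P` containing 2. -/
def stricts (i : ℕ) (ρ : AbsGal F →* Matrix (Fin 2) (Fin 2) ℤ_[2])
    (ψ : Fin 2 → AbsGal F →* ℤ_[2]ˣ) : Set (AbsGal F → LY i) :=
  {x | ∃ (P : Ideal (𝓞 (AlgebraicClosure F))) (c a b : ℕ), P.IsPrime ∧
    (2 : 𝓞 (AlgebraicClosure F)) ∈ P ∧ c + a + b = 2 * i + 1 ∧
    IsStrict i ρ ψ (subE i ^ c * subU i 0 ^ a * subU i 1 ^ b) P x}

/-- The coboundaries with values in `V_2 E`. -/
def cobE (ρ : AbsGal F →* Matrix (Fin 2) (Fin 2) ℤ_[2]) : Set (AbsGal F → Fin 2 → ℚ_[2]) :=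
  {y | ∃ v, ∀ σ, y σ = mulM (ρ σ) v - v}

open scoped Classical in
/-- The continuous cocycles with values in `V_2 E` that satisfy the local Kummer conditions at all
finite places. -/
def selE [NumberField F] (W : WeierstrassCurve.Affine F)
    (t : Fin 2 → ℕ → (W⁄(AlgebraicClosure F)).Point)
    (ρ : AbsGal F →* Matrix (Fin 2) (Fin 2) ℤ_[2]) : Set (AbsGal F → Fin 2 → ℚ_[2]) :=
  {y | Continuous y ∧ (∀ σ τ, y (σ * τ) = y σ + mulM (ρ σ) (y τ)) ∧ KumLoc W t y}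

open scoped Classical in
/-- The Kummer cocycles of the points of `E` over `F`. -/
def kum (W : WeierstrassCurve.Affine F) (t : Fin 2 → ℕ → (W⁄(AlgebraicClosure F)).Point) :
    Set (AbsGal F → Fin 2 → ℚ_[2]) := {y | ∃ P, IsKummer W t P y}

open scoped Classical in
/-- The spanning set of the Selmer space of `E × E0 ^ (2 i)`: the coboundaries, the functions `y ∧ ω`
for `y` in the Selmer space of `E`, and the strict cocycles. -/
def selY [NumberField F] (i : ℕ) (W : WeierstrassCurve.Affine F)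
    (t : Fin 2 → ℕ → (W⁄(AlgebraicClosure F)).Point)
    (ρ : AbsGal F →* Matrix (Fin 2) (Fin 2) ℤ_[2]) (ψ : Fin 2 → AbsGal F →* ℤ_[2]ˣ) :
    Set (AbsGal F → LY i) := cobs i ρ ψ ∪ wedges i (selE W t ρ) ∪ stricts i ρ ψ

end action

end Pool.Agent.Work.MP_787500_nt.AC
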