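import Mathlib
import Pool.Agent.Work.MP_787500_nt.AC.Defs

/-!
# Module EV: the evaluation `ev t c n`

Everything here follows from `PadicInt.appr_spec` (`x - x.appr n` lies in the ideal generated by
`2 ^ n`), `2 ^ n • t j n = 0` and `IsTateBasis.indep`.
-/

set_option autoImplicit false

namespace Pool.Agent.Work.MP_787500_nt.AC

variable {A : Type*} [AddCommGroup A] {t : Fin 2 → ℕ → A}

theorem pow_smul_t (ht : IsTateBasis t) (j : Fin 2) (n : ℕ) : (2 ^ n) • t j n = 0 := by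
  induction n with
  | zero => rw [pow_zero, one_smul, ht.zero]
  | succ n ih => rw [pow_succ, mul_smul, ht.dbl, ih]

private theorem appr_dvd (x : ℤ_[2]) (n : ℕ) : (2 : ℤ_[2]) ^ n ∣ x - (x.appr n : ℤ_[2]) := by
  have h := PadicInt.appr_spec n x
  rw [Ideal.mem_span_singleton] at h
  exact_mod_cast h

private theorem int_dvd {z : ℤ} {n : ℕ} (h : (2 : ℤ_[2]) ^ n ∣ (z : ℤ_[2])) : (2 : ℤ) ^ n ∣ z := by
  have h' : ((2 : ℕ) : ℤ_[2]) ^ n ∣ (z : ℤ_[2]) := by exact_mod_cast h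
  have := (PadicInt.pow_p_dvd_int_iff n z).1 h'
  exact_mod_cast this

private theorem int_dvd_cast {z : ℤ} {n : ℕ} (h : (2 : ℤ) ^ n ∣ z) : (2 : ℤ_[2]) ^ n ∣ (z : ℤ_[2]) := by
  obtain ⟨k, rfl⟩ := h
  exact ⟨k, by push_cast; ring⟩

private theorem zsmul_congr (ht : IsTateBasis t) {a b : ℤ} {n : ℕ} (h : (2 : ℤ) ^ n ∣ a - b)
    (j : Fin 2) : a • t j n = b • t j n := by
  obtain ⟨k, hk⟩ := h
  have h1 : a = b + k * 2 ^ n := by linear_combination hk
  have h2 : ((2 : ℤ) ^ n) • t j n = 0 := by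
    have := pow_smul_t ht j n
    rw [← natCast_zsmul] at this
    exact_mod_cast this
  rw [h1, add_smul, mul_smul, h2, smul_zero, add_zero]

theorem ev_int (ht : IsTateBasis t) (m : Fin 2 → ℤ) (c : Fin 2 → ℤ_[2]) (n : ℕ)
    (h : ∀ j, (2 : ℤ_[2]) ^ n ∣ c j - (m j : ℤ_[2])) :
    ev t c n = m 0 • t 0 n + m 1 • t 1 n := by
  have key : ∀ j, ((c j).appr n) • t j n = m j • t j n := by
    intro j
    rw [← natCast_zsmul]
    apply zsmul_congr ht
    apply int_dvd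
    have h1 := appr_dvd (c j) n
    have h2 := dvd_sub (h j) h1
    have h3 : c j - (m j : ℤ_[2]) - (c j - ((c j).appr n : ℤ_[2])) =
        (((((c j).appr n : ℕ) : ℤ) - m j : ℤ) : ℤ_[2]) := by push_cast; ring
    rwa [h3] at h2
  rw [ev, key, key]

private theorem ev_appr (ht : IsTateBasis t) (c : Fin 2 → ℤ_[2]) (n : ℕ) :
    ev t c n = (((c 0).appr n : ℕ) : ℤ) • t 0 n + (((c 1).appr n : ℕ) : ℤ) • t 1 n :=
  ev_int ht (fun j => (((c j).appr n : ℕ) : ℤ)) c n (fun j => by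
    have := appr_dvd (c j) n
    exact_mod_cast this)

theorem ev_congr (ht : IsTateBasis t) {c c' : Fin 2 → ℤ_[2]} {n : ℕ}
    (h : ∀ j, (2 : ℤ_[2]) ^ n ∣ c j - c' j) : ev t c n = ev t c' n := by
  rw [ev_appr ht c' n]
  apply ev_int ht (fun j => (((c' j).appr n : ℕ) : ℤ))
  intro j
  have h1 := dvd_add (h j) (appr_dvd (c' j) n)
  have h2 : c j - c' j + (c' j - ((c' j).appr n : ℤ_[2])) =
      c j - (((((c' j).appr n : ℕ) : ℤ)) : ℤ_[2]) := by push_cast; ring
  rwa [h2] at h1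

theorem ev_zero (ht : IsTateBasis t) (n : ℕ) : ev t 0 n = 0 := by
  rw [ev_int ht (fun _ => 0) 0 n (fun j => by simp)]
  simp

theorem ev_add (ht : IsTateBasis t) (c c' : Fin 2 → ℤ_[2]) (n : ℕ) :
    ev t (c + c') n = ev t c n + ev t c' n := by
  rw [ev_int ht (fun j => (((c j).appr n : ℕ) : ℤ) + (((c' j).appr n : ℕ) : ℤ)) (c + c') n,
    ev_appr ht c, ev_appr ht c']
  · rw [add_smul, add_smul]; abel
  · intro j
    have h1 := dvd_add (appr_dvd (c j) n) (appr_dvd (c' j) n)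
    have h2 : c j - ((c j).appr n : ℤ_[2]) + (c' j - ((c' j).appr n : ℤ_[2])) =
      (c + c') j - (((((c j).appr n : ℕ) : ℤ) + (((c' j).appr n : ℕ) : ℤ) : ℤ) : ℤ_[2]) := by
      rw [Pi.add_apply]; push_cast; ring
    rwa [h2] at h1

theorem ev_neg (ht : IsTateBasis t) (c : Fin 2 → ℤ_[2]) (n : ℕ) : ev t (-c) n = -ev t c n := by
  have h := ev_add ht (-c) c n
  rw [neg_add_cancel, ev_zero ht] at h
  exact eq_neg_of_add_eq_zero_left h.symm

theorem ev_smul (ht : IsTateBasis t) (z : ℤ_[2]) (c : Fin 2 → ℤ_[2]) (n : ℕ) :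
    ev t (fun j => z * c j) n = z.appr n • ev t c n := by
  rw [ev_int ht (fun j => ((z.appr n : ℕ) : ℤ) * (((c j).appr n : ℕ) : ℤ)) _ n, ev_appr ht c,
    ← natCast_zsmul, smul_add, mul_smul, mul_smul]
  intro j
  have h1 := dvd_add ((appr_dvd z n).mul_right (c j))
    ((appr_dvd (c j) n).mul_left (z.appr n : ℤ_[2]))
  have h2 : (z - (z.appr n : ℤ_[2])) * c j + (z.appr n : ℤ_[2]) * (c j - ((c j).appr n : ℤ_[2])) =
      z * c j - ((((z.appr n : ℕ) : ℤ) * (((c j).appr n : ℕ) : ℤ) : ℤ) : ℤ_[2]) := by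
    push_cast; ring
  rwa [h2] at h1

/-- the coordinate vectors -/
theorem ev_single (ht : IsTateBasis t) (j : Fin 2) (z : ℤ_[2]) (n : ℕ) :
    ev t (Pi.single j z) n = z.appr n • t j n := by
  rw [ev_int ht (Pi.single j (((z.appr n : ℕ) : ℤ))) _ n, ← natCast_zsmul]
  · fin_cases j
    · simp
    · simp
  · intro i
    by_cases h : i = j
    · subst h
      rw [Pi.single_eq_same, Pi.single_eq_same]
      have := appr_dvd z n
      exact_mod_cast this
    · rw [Pi.single_eq_of_ne h, Pi.single_eq_of_ne h]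
      simp

theorem two_ev (ht : IsTateBasis t) (c : Fin 2 → ℤ_[2]) (n : ℕ) :
    2 • ev t c (n + 1) = ev t c n := by
  have h : ev t c n = (((c 0).appr (n + 1) : ℕ) : ℤ) • t 0 n +
      (((c 1).appr (n + 1) : ℕ) : ℤ) • t 1 n := by
    apply ev_int ht (fun j => (((c j).appr (n + 1) : ℕ) : ℤ))
    intro j
    have h1 := (pow_dvd_pow (2 : ℤ_[2]) (Nat.le_succ n)).trans (appr_dvd (c j) (n + 1))
    exact_mod_cast h1
  rw [h, ev_appr ht c (n + 1), smul_add, smul_comm, ht.dbl, smul_comm, ht.dbl]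

theorem pow_ev (ht : IsTateBasis t) (c : Fin 2 → ℤ_[2]) (n : ℕ) : (2 ^ n) • ev t c n = 0 := by
  rw [ev, smul_add, smul_comm, pow_smul_t ht, smul_zero, smul_comm, pow_smul_t ht, smul_zero,
    add_zero]

theorem ev_eq_zero_iff (ht : IsTateBasis t) (c : Fin 2 → ℤ_[2]) (n : ℕ) :
    ev t c n = 0 ↔ ∀ j, (2 : ℤ_[2]) ^ n ∣ c j := by
  constructor
  · intro h j
    rw [ev_appr ht c n] at h
    have h1 := int_dvd_cast (ht.indep n (fun j => (((c j).appr n : ℕ) : ℤ)) h j)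
    have h2 := dvd_add (appr_dvd (c j) n) h1
    have h3 : c j - ((c j).appr n : ℤ_[2]) + (((((c j).appr n : ℕ) : ℤ)) : ℤ_[2]) = c j := by
      push_cast; ring
    rwa [h3] at h2
  · intro h
    rw [ev_congr ht (c := c) (c' := 0) (fun j => by simpa using h j), ev_zero ht]

private theorem eq_zero_of_dvd {x : ℤ_[2]} (h : ∀ n : ℕ, (2 : ℤ_[2]) ^ n ∣ x) : x = 0 := by
  have h1 : ∀ n : ℕ, ‖x‖ ≤ ((2 : ℕ) : ℝ) ^ (-(n : ℤ)) := by
    intro n
    rw [PadicInt.norm_le_pow_iff_mem_span_pow, Ideal.mem_span_singleton]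
    exact_mod_cast h n
  have h2 : ‖x‖ ≤ 0 := by
    apply ge_of_tendsto' (x := Filter.atTop) (f := fun n : ℕ => ((1 / 2 : ℝ)) ^ n)
    · exact tendsto_pow_atTop_nhds_zero_of_lt_one (by norm_num) (by norm_num)
    · intro n
      have := h1 n
      rw [zpow_neg, zpow_natCast] at this
      rw [one_div, inv_pow]
      exact_mod_cast this
  exact norm_le_zero_iff.1 h2

theorem ev_inj (ht : IsTateBasis t) {c c' : Fin 2 → ℤ_[2]} (h : ∀ n, ev t c n = ev t c' n) :
    c = c' := by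
  funext j
  apply sub_eq_zero.1
  apply eq_zero_of_dvd
  intro n
  have h1 : ev t (c + -c') n = 0 := by
    rw [ev_add ht, ev_neg ht, h, add_neg_cancel]
  have h2 := (ev_eq_zero_iff ht _ n).1 h1 j
  rwa [Pi.add_apply, Pi.neg_apply, ← sub_eq_add_neg] at h2

theorem exists_ev (ht : IsTateBasis t) {n : ℕ} {Q : A} (h : (2 ^ n) • Q = 0) :
    ∃ c : Fin 2 → ℤ_[2], Q = ev t c n := by
  obtain ⟨m, hm⟩ := ht.span n Q h
  exact ⟨fun j => (m j : ℤ_[2]), by rw [hm, ev_int ht m _ n (fun j => by simp)]⟩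

/-- a sequence of integers which is coherent modulo the powers of two has a limit -/
theorem exists_padic_limit (m : ℕ → ℤ) (h : ∀ n, (2 : ℤ) ^ n ∣ m (n + 1) - m n) :
    ∃ a : ℤ_[2], ∀ n, (2 : ℤ_[2]) ^ n ∣ a - (m n : ℤ_[2]) := by
  have hd : ∀ n k, (2 : ℤ) ^ n ∣ m (n + k) - m n := by
    intro n k
    induction k with
    | zero => simp
    | succ k ih =>
      have h1 := (pow_dvd_pow (2 : ℤ) (Nat.le_add_right n k)).trans (h (n + k))
      have h2 := dvd_add h1 ih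
      have h3 : m (n + k + 1) - m (n + k) + (m (n + k) - m n) = m (n + (k + 1)) - m n := by
        rw [← add_assoc]; ring
      rwa [h3] at h2
  have hnorm : ∀ n k, ‖((m (n + k) : ℤ_[2])) - (m n : ℤ_[2])‖ ≤ (1 / 2 : ℝ) ^ n := by
    intro n k
    have h1 := int_dvd_cast (hd n k)
    rw [Int.cast_sub] at h1
    have h2 : ‖((m (n + k) : ℤ_[2])) - (m n : ℤ_[2])‖ ≤ ((2 : ℕ) : ℝ) ^ (-(n : ℤ)) := by
      rw [PadicInt.norm_le_pow_iff_mem_span_pow, Ideal.mem_span_singleton]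
      exact_mod_cast h1
    rw [zpow_neg, zpow_natCast] at h2
    rw [one_div, inv_pow]
    exact_mod_cast h2
  have hc : CauchySeq (fun n => (m n : ℤ_[2])) := by
    apply cauchySeq_of_le_tendsto_0' (fun n : ℕ => (1 / 2 : ℝ) ^ n)
    · intro n k hnk
      obtain ⟨j, rfl⟩ := Nat.exists_eq_add_of_le hnk
      rw [dist_comm, dist_eq_norm]
      exact hnorm n j
    · exact tendsto_pow_atTop_nhds_zero_of_lt_one (by norm_num) (by norm_num)
  obtain ⟨a, ha⟩ := cauchySeq_tendsto_of_complete hc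
  refine ⟨a, fun n => ?_⟩
  have h1 : ‖a - (m n : ℤ_[2])‖ ≤ (1 / 2 : ℝ) ^ n := by
    have h2 : Filter.Tendsto (fun k => ‖(m k : ℤ_[2]) - (m n : ℤ_[2])‖) Filter.atTop
        (nhds ‖a - (m n : ℤ_[2])‖) := (ha.sub_const _).norm
    apply le_of_tendsto h2
    filter_upwards [Filter.eventually_ge_atTop n] with k hk
    obtain ⟨j, rfl⟩ := Nat.exists_eq_add_of_le hk
    exact hnorm n j
  have h3 : ‖a - (m n : ℤ_[2])‖ ≤ ((2 : ℕ) : ℝ) ^ (-(n : ℤ)) := by
    rw [zpow_neg, zpow_natCast]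
    rw [one_div, inv_pow] at h1
    exact_mod_cast h1
  rw [PadicInt.norm_le_pow_iff_mem_span_pow, Ideal.mem_span_singleton] at h3
  exact_mod_cast h3

theorem exists_coord (ht : IsTateBasis t) (q : ℕ → A) (h0 : q 0 = 0)
    (hd : ∀ n, 2 • q (n + 1) = q n) : ∃ c : Fin 2 → ℤ_[2], ∀ n, q n = ev t c n := by
  have hq : ∀ n, (2 ^ n) • q n = 0 := by
    intro n
    induction n with
    | zero => rw [pow_zero, one_smul, h0]
    | succ n ih => rw [pow_succ, mul_smul, hd, ih]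
  choose m hm using fun n => ht.span n (q n) (hq n)
  have hdiv : ∀ n j, (2 : ℤ) ^ n ∣ m (n + 1) j - m n j := by
    intro n
    apply ht.indep n (fun j => m (n + 1) j - m n j)
    have h1 := hd n
    rw [hm (n + 1), smul_add, smul_comm, ht.dbl, smul_comm, ht.dbl, hm n] at h1
    rw [sub_smul, sub_smul]
    rw [sub_add_sub_comm, h1, sub_self]
  choose c hc using fun j => exists_padic_limit (fun n => m n j) (fun n => hdiv n j)
  exact ⟨c, fun n => by rw [hm n, ev_int ht (m n) c n (fun j => hc j n)]⟩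

/-- a homomorphism with a given matrix -/
theorem map_ev (ht : IsTateBasis t) {f : A →+ A} {M : Matrix (Fin 2) (Fin 2) ℤ_[2]} {n : ℕ}
    (hf : ∀ j, f (t j n) = ev t (fun i => M i j) n) (c : Fin 2 → ℤ_[2]) :
    f (ev t c n) = ev t (M.mulVec c) n := by
  have h1 : M.mulVec c = (fun i => c 0 * M i 0) + (fun i => c 1 * M i 1) := by
    funext i
    rw [Matrix.mulVec, dotProduct, Fin.sum_univ_two, Pi.add_apply]
    ring
  rw [h1, ev_add ht, ev_smul ht, ev_smul ht, ev, map_add, map_nsmul, map_nsmul, hf, hf]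

end Pool.Agent.Work.MP_787500_nt.AC
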