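import Mathlib
import Pool.Agent.Work.MP_787500_nt.AC.Defs

/-!
# Module BAS: existence of a Tate basis

Choose sequences `t 0 n`, `t 1 n` with `t j 0 = 0`, `t 0 1 = T0`, `t 1 1 = T1` and
`t j (n + 1) + t j (n + 1) = t j n` (recursion with `hdiv`).
`span` by induction on `n`: if `2 ^ (n + 1) • Q = 0` then `2 • Q = m 0 • t 0 n + m 1 • t 1 n
= 2 • (m 0 • t 0 (n + 1) + m 1 • t 1 (n + 1))`, so `Q` minus this is one of `0, T0, T1, T0 + T1`, and
`Tj = t j 1 = 2 ^ n • t j (n + 1)`.
`indep` by induction: multiply by 2 to get (induction hypothesis) `m j = 2 ^ n * m' j`, and then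
`m' 0 • T0 + m' 1 • T1 = 0` which forces `m' j` even.
-/

set_option autoImplicit false

namespace Pool.Agent.Work.MP_787500_nt.AC

private theorem parity {A : Type*} [AddCommGroup A] {T : A} (h : T + T = 0) (m : ℤ) :
    m • T = (m % 2) • T := by
  conv_lhs => rw [← Int.mul_ediv_add_emod m 2]
  rw [add_smul, mul_comm, mul_smul, two_smul, h, smul_zero, zero_add]

theorem exists_tateBasis {A : Type*} [AddCommGroup A] (hdiv : ∀ P : A, ∃ Q : A, Q + Q = P)
    {T0 T1 : A} (h0 : T0 + T0 = 0) (h1 : T1 + T1 = 0) (n0 : T0 ≠ 0) (n1 : T1 ≠ 0)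
    (n2 : T0 + T1 ≠ 0) (h2 : ∀ Q : A, Q + Q = 0 → Q = 0 ∨ Q = T0 ∨ Q = T1 ∨ Q = T0 + T1) :
    ∃ t : Fin 2 → ℕ → A, IsTateBasis t ∧ t 0 1 = T0 ∧ t 1 1 = T1 := by
  choose hf hhf using hdiv
  let T : Fin 2 → A := ![T0, T1]
  have hT : ∀ j, T j + T j = 0 := by
    intro j
    fin_cases j
    · exact h0
    · exact h1
  let t : Fin 2 → ℕ → A := fun j n => if n = 0 then 0 else hf^[n - 1] (T j)
  have t0 : ∀ j, t j 0 = 0 := fun j => rfl
  have ts : ∀ j n, t j (n + 1) = hf^[n] (T j) := fun j n => rfl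
  have dbl : ∀ j n, 2 • t j (n + 1) = t j n := by
    intro j n
    cases n with
    | zero =>
      rw [ts, t0, two_smul]
      exact hT j
    | succ k =>
      rw [ts, ts, Function.iterate_succ_apply', two_smul, hhf]
  have pw : ∀ j (n : ℕ), ((2 : ℤ) ^ n) • t j (n + 1) = T j := by
    intro j n
    induction n with
    | zero => rw [pow_zero, one_smul, ts, Function.iterate_zero, id]
    | succ n ih =>
      rw [pow_succ, mul_smul]
      have := dbl j (n + 1)
      rw [← natCast_zsmul] at this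
      push_cast at this
      rw [this, ih]
  refine ⟨t, ⟨t0, dbl, ?_, ?_⟩, ?_, ?_⟩
  · intro n
    induction n with
    | zero =>
      intro Q hQ
      refine ⟨0, ?_⟩
      simpa using hQ
    | succ n ih =>
      intro Q hQ
      obtain ⟨m, hm⟩ := ih (2 • Q) (by rw [← mul_smul, ← pow_succ]; exact hQ)
      have hR : (Q - (m 0 • t 0 (n + 1) + m 1 • t 1 (n + 1))) +
          (Q - (m 0 • t 0 (n + 1) + m 1 • t 1 (n + 1))) = 0 := by
        rw [← two_smul ℕ, smul_sub, hm, smul_add, smul_comm 2 (m 0), smul_comm 2 (m 1), dbl, dbl,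
          sub_self]
      have e0 : T0 = ((2 : ℤ) ^ n) • t 0 (n + 1) := (pw 0 n).symm
      have e1 : T1 = ((2 : ℤ) ^ n) • t 1 (n + 1) := (pw 1 n).symm
      rcases h2 _ hR with h | h | h | h
      · exact ⟨m, sub_eq_zero.1 h⟩
      · refine ⟨![m 0 + 2 ^ n, m 1], ?_⟩
        rw [e0] at h
        simp only [Matrix.cons_val_zero, Matrix.cons_val_one, add_smul]
        rw [← h]
        abel
      · refine ⟨![m 0, m 1 + 2 ^ n], ?_⟩
        rw [e1] at h
        simp only [Matrix.cons_val_zero, Matrix.cons_val_one, add_smul]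
        rw [← h]
        abel
      · refine ⟨![m 0 + 2 ^ n, m 1 + 2 ^ n], ?_⟩
        rw [e0, e1] at h
        simp only [Matrix.cons_val_zero, Matrix.cons_val_one, add_smul]
        rw [sub_eq_iff_eq_add] at h
        rw [h]
        abel
  · intro n
    induction n with
    | zero =>
      intro m _ j
      rw [pow_zero]
      exact one_dvd _
    | succ n ih =>
      intro m hm
      have h3 : m 0 • t 0 n + m 1 • t 1 n = 0 := by
        rw [← dbl 0 n, ← dbl 1 n, ← smul_comm 2 (m 0), ← smul_comm 2 (m 1), ← smul_add, hm,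
          smul_zero]
      have h4 := ih m h3
      obtain ⟨a, ha⟩ := h4 0
      obtain ⟨b, hb⟩ := h4 1
      have h5 : a • T0 + b • T1 = 0 := by
        rw [ha, hb, mul_comm, mul_comm ((2 : ℤ) ^ n) b, mul_smul, mul_smul, pw, pw] at hm
        exact hm
      rw [parity h0 a, parity h1 b] at h5
      have key : a % 2 = 0 ∧ b % 2 = 0 := by
        rcases Int.emod_two_eq_zero_or_one a with h6 | h6 <;>
          rcases Int.emod_two_eq_zero_or_one b with h7 | h7
        · exact ⟨h6, h7⟩
        · rw [h6, h7, zero_smul, one_smul, zero_add] at h5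
          exact absurd h5 n1
        · rw [h6, h7, zero_smul, one_smul, add_zero] at h5
          exact absurd h5 n0
        · rw [h6, h7, one_smul, one_smul] at h5
          exact absurd h5 n2
      intro j
      fin_cases j
      · show (2 : ℤ) ^ (n + 1) ∣ m 0
        rw [ha, pow_succ]
        exact mul_dvd_mul_left _ (Int.dvd_of_emod_eq_zero key.1)
      · show (2 : ℤ) ^ (n + 1) ∣ m 1
        rw [hb, pow_succ]
        exact mul_dvd_mul_left _ (Int.dvd_of_emod_eq_zero key.2)
  · exact (ts 0 0).trans rfl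
  · exact (ts 1 0).trans rfl

end Pool.Agent.Work.MP_787500_nt.AC
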