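import Mathlib
import Pool.Agent.Work.MP_787500_nt.AC.Defs
import Pool.Agent.Work.MP_787500_nt.AC.Ev

/-!
# Module MAT: the matrix representation of a group acting on a group with a Tate basis

`exists_mat`: the sequence `n ↦ f (t j n)` satisfies the hypotheses of `exists_coord`.
`exists_rep`: choose the matrices `ρ g` with `exists_mat`; multiplicativity from `map_ev` and
`ev_inj` (columns), `ρ 1 = 1` from `ev_single` and `ev_inj`.
-/

set_option autoImplicit false

namespace Pool.Agent.Work.MP_787500_nt.AC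

variable {A : Type*} [AddCommGroup A] {t : Fin 2 → ℕ → A}

theorem exists_mat (ht : IsTateBasis t) (f : A →+ A) :
    ∃ M : Matrix (Fin 2) (Fin 2) ℤ_[2], ∀ j n, f (t j n) = ev t (fun i => M i j) n := by
  have h : ∀ j, ∃ c : Fin 2 → ℤ_[2], ∀ n, f (t j n) = ev t c n := fun j =>
    exists_coord ht (fun n => f (t j n)) (by rw [ht.zero, map_zero]) (fun n => by
      rw [← map_nsmul, ht.dbl])
  choose c hc using h
  exact ⟨fun i j => c j i, fun j n => hc j n⟩

private theorem t_eq_ev (ht : IsTateBasis t) (j : Fin 2) (n : ℕ) :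
    t j n = ev t (fun i => (1 : Matrix (Fin 2) (Fin 2) ℤ_[2]) i j) n := by
  have h := ev_int ht (fun i => (1 : Matrix (Fin 2) (Fin 2) ℤ) i j)
    (fun i => (1 : Matrix (Fin 2) (Fin 2) ℤ_[2]) i j) n (fun i => by
      have e : (1 : Matrix (Fin 2) (Fin 2) ℤ_[2]) i j -
          (((1 : Matrix (Fin 2) (Fin 2) ℤ) i j : ℤ) : ℤ_[2]) = 0 := by
        rw [Matrix.one_apply, Matrix.one_apply]
        split_ifs <;> simp
      rw [e]
      exact dvd_zero _)
  rw [h]
  clear h
  obtain rfl | rfl : j = 0 ∨ j = 1 := by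
    revert j
    decide
  · simp
  · simp

theorem exists_rep (ht : IsTateBasis t) {G : Type*} [Group G] (act : G → A →+ A)
    (h1 : ∀ a, act 1 a = a) (hm : ∀ g h a, act (g * h) a = act g (act h a)) :
    ∃ ρ : G →* Matrix (Fin 2) (Fin 2) ℤ_[2],
      ∀ (g : G) (j : Fin 2) (n : ℕ), act g (t j n) = ev t (fun i => ρ g i j) n := by
  choose M hM using fun g => exists_mat ht (act g)
  have hcol : ∀ (X Y : Matrix (Fin 2) (Fin 2) ℤ_[2]),
      (∀ j n, ev t (fun i => X i j) n = ev t (fun i => Y i j) n) → X = Y := by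
    intro X Y h
    ext i j
    exact congrFun (ev_inj ht (h j)) i
  refine ⟨{ toFun := M, map_one' := ?_, map_mul' := ?_ }, fun g j n => hM g j n⟩
  · apply hcol
    intro j n
    rw [← hM 1 j n, h1]
    exact t_eq_ev ht j n
  · intro g h
    apply hcol
    intro j n
    rw [← hM (g * h) j n, hm, hM h j n, map_ev ht (fun j => hM g j n)]
    rfl

end Pool.Agent.Work.MP_787500_nt.AC
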