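import Mathlib
import Pool.Agent.Work.MP_787500_nt.H9_Main
import Pool.Agent.Work.MP_787500_nt.H9_Descent
import Pool.Agent.Work.MP_787500_nt.AC.Defs
import Pool.Agent.Work.MP_787500_nt.AC.Ev
import Pool.Agent.Work.MP_787500_nt.AC.Bas
import Pool.Agent.Work.MP_787500_nt.AC.Mat

/-!
# Module GAL: the Galois representation on the Tate module

* `gact_one`, `gact_mul`: `Point.map_map` (see `gact_incl` in H10_Kappa).
* `exists_twoTorsion`: `T0 = tor (h.bc _)`, `T1 = tor (h.bc _).rot`, from `tor_add_tor`,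
  `tor_add_rot`, `two_torsion_cases`, `tor_ne_zero` in H9_Alg, H9_Descent; `exists_half` there.
* `rep_cont`: `ρ σ i j` modulo `2 ^ n` is determined by `gact W σ (t j n)`, which is locally constant
  in `σ` (`isLocallyConstant_gact` in H9_Main).
* `rep_two`: all points of order two are rational, so `gact W σ (t j 1) = t j 1`.
* `eigen_rep`: the diagonal matrices.
-/

set_option autoImplicit false

namespace Pool.Agent.Work.MP_787500_nt.AC

open IsDedekindDomain NumberField WeierstrassCurve WeierstrassCurve.Affine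
open Pool.Agent.Work.MP_787500_nt
open Pool.Agent.Work.MP_787500_nt.OddP (AbsGal)

universe u

variable {F : Type u} [Field F] [CharZero F] {W : WeierstrassCurve.Affine F} {e1 e2 e3 : F}
variable {t : Fin 2 → ℕ → (W⁄(AlgebraicClosure F)).Point}

omit [CharZero F] in
open scoped Classical in
theorem gact_one (P : (W⁄(AlgebraicClosure F)).Point) : gact W (1 : AbsGal F) P = P := by
  rcases P with _ | ⟨x, y, hxy⟩
  · rw [← Point.zero_def, map_zero]
  · simp only [gact]
    rw [Point.map_some]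
    simp only [Point.some.injEq]
    exact ⟨rfl, rfl⟩

omit [CharZero F] in
open scoped Classical in
theorem gact_mul (σ τ : AbsGal F) (P : (W⁄(AlgebraicClosure F)).Point) :
    gact W (σ * τ) P = gact W σ (gact W τ P) := by
  rw [gact, gact, gact, Point.map_map]
  rfl

omit [CharZero F] in
open scoped Classical in
private theorem locConst_gact (P : (W⁄(AlgebraicClosure F)).Point) :
    IsLocallyConstant (fun σ : AbsGal F => gact W σ P) := by
  rcases P with _ | ⟨x, y, hxy⟩
  · have : (fun σ : AbsGal F => gact W σ (Point.zero : (W⁄(AlgebraicClosure F)).Point)) =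
        fun _ => 0 := by
      funext σ
      rw [← Point.zero_def, map_zero]
    rw [this]
    exact IsLocallyConstant.const 0
  · rw [IsLocallyConstant.iff_exists_open]
    intro σ
    let E : IntermediateField F (AlgebraicClosure F) := IntermediateField.adjoin F {x, y}
    have hfin : FiniteDimensional F E := by
      apply IntermediateField.finiteDimensional_adjoin
      intro z _
      exact (Algebra.IsAlgebraic.isAlgebraic z).isIntegral
    have hopen : IsOpen (E.fixingSubgroup : Set (AlgebraicClosure F ≃ₐ[F] AlgebraicClosure F)) :=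
      IntermediateField.fixingSubgroup_isOpen E
    refine ⟨(fun τ => σ⁻¹ * τ) ⁻¹'
      (E.fixingSubgroup : Set (AlgebraicClosure F ≃ₐ[F] AlgebraicClosure F)),
      hopen.preimage (continuous_const_mul σ⁻¹), ?_, ?_⟩
    · simp [E.fixingSubgroup.one_mem]
    · intro τ hτ
      have hτ' : σ⁻¹ * τ ∈ E.fixingSubgroup := hτ
      rw [IntermediateField.mem_fixingSubgroup_iff] at hτ'
      have hx : τ x = σ x := by
        have h1 := hτ' x (IntermediateField.subset_adjoin F _ (by simp))
        have h2 : σ ((σ⁻¹ * τ) x) = σ x := by rw [h1]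
        rw [← AlgEquiv.mul_apply, ← mul_assoc, mul_inv_cancel, one_mul] at h2
        exact h2
      have hy : τ y = σ y := by
        have h1 := hτ' y (IntermediateField.subset_adjoin F _ (by simp))
        have h2 : σ ((σ⁻¹ * τ) y) = σ y := by rw [h1]
        rw [← AlgEquiv.mul_apply, ← mul_assoc, mul_inv_cancel, one_mul] at h2
        exact h2
      simp only [gact]
      rw [Point.map_some, Point.map_some]
      simp only [Point.some.injEq]
      exact ⟨hx, hy⟩

open scoped Classical in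
theorem exists_twoTorsion (h : TwoTors W e1 e2 e3) :
    ∃ T0 T1 : (W⁄(AlgebraicClosure F)).Point, T0 + T0 = 0 ∧ T1 + T1 = 0 ∧ T0 ≠ 0 ∧ T1 ≠ 0 ∧
      T0 + T1 ≠ 0 ∧ (∀ Q : (W⁄(AlgebraicClosure F)).Point, Q + Q = 0 →
        Q = 0 ∨ Q = T0 ∨ Q = T1 ∨ Q = T0 + T1) ∧
      ∀ σ : AbsGal F, gact W σ T0 = T0 ∧ gact W σ T1 = T1 := by
  have hb := h.bc (AlgebraicClosure F)
  refine ⟨tor hb, tor hb.rot, tor_add_tor hb, tor_add_tor hb.rot, tor_ne_zero hb,
    tor_ne_zero hb.rot, ?_, ?_, ?_⟩
  · rw [tor_add_rot hb]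
    exact tor_ne_zero hb.rot.rot
  · intro Q hQ
    rw [tor_add_rot hb]
    exact two_torsion_cases hb hQ
  · intro σ
    exact ⟨gact_tor h σ, gact_tor h.rot σ⟩

open scoped Classical in
theorem exists_div (h : TwoTors W e1 e2 e3) (P : (W⁄(AlgebraicClosure F)).Point) :
    ∃ Q, Q + Q = P :=
  exists_half (h.bc (AlgebraicClosure F)) P

/-- existence of the representation -/
theorem exists_tateRep (h : TwoTors W e1 e2 e3) : ∃ t ρ, IsTateRep W t ρ := by
  classical
  obtain ⟨T0, T1, h0, h1, n0, n1, n2, h2, -⟩ := exists_twoTorsion h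
  obtain ⟨t, ht, -, -⟩ := exists_tateBasis (fun P => exists_div h P) h0 h1 n0 n1 n2 h2
  obtain ⟨ρ, hρ⟩ := exists_rep ht (fun σ : AbsGal F => gact W σ) gact_one gact_mul
  exact ⟨t, ρ, ht, hρ⟩

private theorem ev_one {A : Type*} [AddCommGroup A] {t : Fin 2 → ℕ → A} (ht : IsTateBasis t)
    (j : Fin 2) (n : ℕ) : ev t (Pi.single j 1) n = t j n := by
  rw [ev_int ht (Pi.single j 1) (Pi.single j 1) n]
  · have hj : j = 0 ∨ j = 1 := by omega
    rcases hj with h | h <;> subst h <;> simp
  · intro i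
    by_cases h : i = j
    · subst h
      simp
    · simp [Pi.single_apply, h]

omit [CharZero F] in
theorem rep_cont {ρ : AbsGal F →* Matrix (Fin 2) (Fin 2) ℤ_[2]} (hr : IsTateRep W t ρ) :
    Continuous ρ := by
  classical
  refine continuous_pi fun i => continuous_pi fun j => ?_
  rw [continuous_iff_continuousAt]
  intro σ
  rw [Metric.continuousAt_iff']
  intro ε hε
  obtain ⟨n, hn⟩ := exists_pow_lt_of_lt_one hε (by norm_num : (2 : ℝ)⁻¹ < 1)
  have hopen := (locConst_gact (W := W) (t j n)).isOpen_fiber (gact W σ (t j n))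
  filter_upwards [hopen.mem_nhds rfl] with τ hτ
  have hτ' : gact W τ (t j n) = gact W σ (t j n) := hτ
  rw [hr.2, hr.2] at hτ'
  have h1 : ev t ((fun i => ρ τ i j) + -(fun i => ρ σ i j)) n = 0 := by
    rw [ev_add hr.1, ev_neg hr.1, hτ', add_neg_cancel]
  have h2 := (ev_eq_zero_iff hr.1 _ _).1 h1 i
  rw [Pi.add_apply, Pi.neg_apply, ← sub_eq_add_neg] at h2
  have h3 : ‖ρ τ i j - ρ σ i j‖ ≤ (2 : ℝ) ^ (-n : ℤ) := by
    have := (PadicInt.norm_le_pow_iff_mem_span_pow (p := 2) (ρ τ i j - ρ σ i j) n).2 (by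
      rw [Ideal.mem_span_singleton]
      exact_mod_cast h2)
    exact_mod_cast this
  rw [dist_eq_norm]
  refine lt_of_le_of_lt h3 ?_
  rw [zpow_neg, zpow_natCast, ← inv_pow]
  exact hn

theorem rep_two (h : TwoTors W e1 e2 e3) {ρ : AbsGal F →* Matrix (Fin 2) (Fin 2) ℤ_[2]}
    (hr : IsTateRep W t ρ) (σ : AbsGal F) (i j : Fin 2) : (2 : ℤ_[2]) ∣ (ρ σ - 1) i j := by
  classical
  obtain ⟨T0, T1, h0, h1, n0, n1, n2, h2, hfix⟩ := exists_twoTorsion h
  have hQ : t j 1 + t j 1 = 0 := by
    rw [← two_nsmul, hr.1.dbl, hr.1.zero]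
  have hg : gact W σ (t j 1) = t j 1 := by
    rcases h2 _ hQ with h | h | h | h
    · rw [h, map_zero]
    · rw [h, (hfix σ).1]
    · rw [h, (hfix σ).2]
    · rw [h, map_add, (hfix σ).1, (hfix σ).2]
  rw [hr.2] at hg
  have h1 : ev t ((fun i => ρ σ i j) + -(Pi.single j 1)) 1 = 0 := by
    rw [ev_add hr.1, ev_neg hr.1, ev_one hr.1, hg, add_neg_cancel]
  have h2 := (ev_eq_zero_iff hr.1 _ _).1 h1 i
  rw [Pi.add_apply, Pi.neg_apply, ← sub_eq_add_neg, pow_one] at h2
  rw [Matrix.sub_apply, Matrix.one_apply]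
  rwa [Pi.single_apply] at h2

omit [CharZero F] in
/-- an element that fixes all points of order a power of two acts trivially -/
theorem rep_eq_one {ρ : AbsGal F →* Matrix (Fin 2) (Fin 2) ℤ_[2]} (hr : IsTateRep W t ρ)
    {σ : AbsGal F} (h : ∀ j n, gact W σ (t j n) = t j n) : ρ σ = 1 := by
  classical
  ext1 i j
  have h1 : (fun i => ρ σ i j) = Pi.single j 1 := by
    apply ev_inj hr.1
    intro n
    rw [← hr.2, h, ev_one hr.1]
  have h2 := congrFun h1 i
  rw [Matrix.one_apply]
  rw [Pi.single_apply] at h2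
  exact h2

omit [CharZero F] in
/-- the representation given by the characters -/
theorem eigen_rep {ψ : Fin 2 → AbsGal F →* ℤ_[2]ˣ} (hr : IsTateEigen W t ψ) :
    ∃ ρ : AbsGal F →* Matrix (Fin 2) (Fin 2) ℤ_[2], IsTateRep W t ρ ∧
      ∀ (σ : AbsGal F) (j : Fin 2), ρ σ j j = ψ j σ := by
  classical
  refine ⟨{ toFun := fun σ => Matrix.diagonal (fun j => (ψ j σ : ℤ_[2]))
            map_one' := by simp
            map_mul' := fun σ τ => by simp [Matrix.diagonal_mul_diagonal] }, ⟨hr.1, ?_⟩, ?_⟩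
  · intro σ j n
    rw [hr.2, ← ev_single hr.1]
    congr 1
    funext i
    by_cases hij : i = j
    · subst hij
      simp
    · simp [Matrix.diagonal_apply, Pi.single_apply, hij]
  · intro σ j
    simp

end Pool.Agent.Work.MP_787500_nt.AC
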