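import Mathlib
import Pool.Agent.Work.MP_787500_nt.H9_Descent
import Pool.Agent.Work.MP_787500_nt.H10_Kappa
import Pool.Agent.Work.MP_787500_nt.AC.Defs
import Pool.Agent.Work.MP_787500_nt.AC.Ev
import Pool.Agent.Work.MP_787500_nt.AC.Mat
import Pool.Agent.Work.MP_787500_nt.AC.Gal

/-!
# Module KUMA: Kummer cocycles

* `exists_kummer`: choose `d` with `exists_div`; for each `σ` the sequence `gact W σ (d n) - d n`
  starts with 0 (`gact_incl` in H10_Kappa) and is compatible; `exists_coord`.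
* `IsKummer.mem_cocycles`: continuity since `y σ j` modulo `2 ^ n` is determined by
  `gact W σ (d n)` (`isLocallyConstant_gact` of H9_Main, `ev_inj`, `ev_eq_zero_iff`); the cocycle
  relation by `map_ev` and `ev_inj`.
* `IsKummer.sub_mem`: two Kummer cocycles of the same point differ by a coboundary: `d n - d' n` is a
  compatible sequence starting with 0, `exists_coord`.
* `IsKummer.add`, `IsKummer.zero`, `IsKummer.zsmul`.
* `IsKummer.of_torsion`: if `k • P = 0` with `k ≠ 0` then every Kummer cocycle of `P` is a coboundary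
  (`k • c` is a Kummer cocycle of 0, hence a coboundary by `sub_mem`; divide by `k` in `ℚ_[2]`).
-/

set_option autoImplicit false

namespace Pool.Agent.Work.MP_787500_nt.AC

open IsDedekindDomain NumberField WeierstrassCurve WeierstrassCurve.Affine
open Pool.Agent.Work.MP_787500_nt
open Pool.Agent.Work.MP_787500_nt.OddP (AbsGal cocycles cobLin)

universe u

variable {F : Type u} [Field F] [CharZero F] {W : WeierstrassCurve.Affine F} {e1 e2 e3 : F}
variable {t : Fin 2 → ℕ → (W⁄(AlgebraicClosure F)).Point}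
variable {ρ : AbsGal F →* Matrix (Fin 2) (Fin 2) ℤ_[2]}

section aux

variable {A : Type*} [AddCommGroup A] {s : Fin 2 → ℕ → A}

/-- the evaluation as a homomorphism -/
private noncomputable def evH (hs : IsTateBasis s) (n : ℕ) : (Fin 2 → ℤ_[2]) →+ A :=
  AddMonoidHom.mk' (fun c => ev s c n) (fun c c' => ev_add hs c c' n)

private theorem ev_sub (hs : IsTateBasis s) (c c' : Fin 2 → ℤ_[2]) (n : ℕ) :
    ev s (c - c') n = ev s c n - ev s c' n := map_sub (evH hs n) c c'

private theorem ev_zsmul (hs : IsTateBasis s) (m : ℤ) (c : Fin 2 → ℤ_[2]) (n : ℕ) :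
    ev s (m • c) n = m • ev s c n := map_zsmul (evH hs n) m c

end aux

private theorem actLin_cast (M : Matrix (Fin 2) (Fin 2) ℤ_[2]) (v : Fin 2 → ℤ_[2]) :
    OddP.actLin M (fun j => (v j : ℚ_[2])) = fun i => ((M.mulVec v i : ℤ_[2]) : ℚ_[2]) := by
  funext i
  show ∑ j, (M i j : ℚ_[2]) * (v j : ℚ_[2]) = _
  rw [Matrix.mulVec, dotProduct, Fin.sum_univ_two, Fin.sum_univ_two]
  push_cast
  rfl

omit [CharZero F] in
open scoped Classical in
private theorem kum_coc (hr : IsTateRep W t ρ) {d : ℕ → (W⁄(AlgebraicClosure F)).Point}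
    {y : AbsGal F → Fin 2 → ℤ_[2]} (hy : ∀ σ n, gact W σ (d n) - d n = ev t (y σ) n)
    (σ τ : AbsGal F) : y (σ * τ) = y σ + (ρ σ).mulVec (y τ) := by
  refine ev_inj hr.1 fun n => ?_
  rw [ev_add hr.1, ← map_ev hr.1 (f := gact W σ) (fun j => hr.2 σ j n), ← hy, ← hy, ← hy, gact_mul,
    map_sub]
  abel

theorem exists_kummer (h : TwoTors W e1 e2 e3) (hr : IsTateRep W t ρ) (P : (W⁄F).Point) :
    ∃ c, IsKummer W t P c := by
  classical
  choose half hhalf using fun R : (W⁄(AlgebraicClosure F)).Point => exists_div h R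
  set d : ℕ → (W⁄(AlgebraicClosure F)).Point := fun n => half^[n] (incl W P) with hd
  have hd2 : ∀ n, 2 • d (n + 1) = d n := by
    intro n
    rw [two_nsmul]
    simp only [hd]
    rw [Function.iterate_succ_apply']
    convert hhalf _
  have hc : ∀ σ : AbsGal F, ∃ c : Fin 2 → ℤ_[2], ∀ n, gact W σ (d n) - d n = ev t c n := by
    intro σ
    refine exists_coord hr.1 (fun n => gact W σ (d n) - d n) ?_ fun n => ?_
    · show gact W σ (incl W P) - incl W P = 0
      rw [gact_incl, sub_self]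
    · rw [nsmul_sub, ← map_nsmul, hd2]
  choose y hy using hc
  exact ⟨fun σ j => (y σ j : ℚ_[2]), d, y, rfl, hd2, hy, fun σ j => rfl⟩

theorem IsKummer.mem_cocycles (hr : IsTateRep W t ρ) {P : (W⁄F).Point}
    {c : AbsGal F → Fin 2 → ℚ_[2]} (hc : IsKummer W t P c) : c ∈ cocycles ρ := by
  classical
  obtain ⟨d, y, h0, h2, hy, hcy⟩ := hc
  have hce : c = fun σ j => (y σ j : ℚ_[2]) := by
    funext σ j
    exact hcy σ j
  subst hce
  refine ⟨?_, fun σ τ => ?_⟩
  · have hcont : ∀ j, Continuous fun σ => y σ j := by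
      intro j
      rw [Metric.continuous_iff']
      intro σ ε hε
      obtain ⟨n, hn⟩ := exists_pow_lt_of_lt_one hε (by norm_num : (1 / 2 : ℝ) < 1)
      have hloc := (isLocallyConstant_gact (K := F) (W := W) (d n)).eventually_eq σ
      filter_upwards [hloc] with τ hτ
      have h1 : ev t (y τ - y σ) n = 0 := by
        rw [ev_sub hr.1, ← hy, ← hy, hτ, sub_self]
      have h3 := (ev_eq_zero_iff hr.1 _ n).1 h1 j
      have h4 : ‖y τ j - y σ j‖ ≤ ((2 : ℕ) : ℝ) ^ (-(n : ℤ)) := by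
        rw [PadicInt.norm_le_pow_iff_mem_span_pow, Ideal.mem_span_singleton]
        exact_mod_cast h3
      rw [dist_eq_norm]
      refine lt_of_le_of_lt h4 ?_
      rw [zpow_neg, zpow_natCast]
      rw [one_div, inv_pow] at hn
      exact_mod_cast hn
    refine continuous_pi fun j => ?_
    exact continuous_subtype_val.comp (hcont j)
  · have h3 := kum_coc hr hy σ τ
    show (fun j => (y (σ * τ) j : ℚ_[2])) = (fun j => (y σ j : ℚ_[2])) +
      OddP.actLin (ρ σ) (fun j => (y τ j : ℚ_[2]))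
    rw [actLin_cast, h3]
    funext j
    simp only [Pi.add_apply]
    push_cast
    rfl

theorem IsKummer.sub_mem (hr : IsTateRep W t ρ) {P : (W⁄F).Point}
    {c c' : AbsGal F → Fin 2 → ℚ_[2]} (hc : IsKummer W t P c) (hc' : IsKummer W t P c') :
    c - c' ∈ LinearMap.range (cobLin ρ) := by
  classical
  obtain ⟨d, y, h0, h2, hy, hcy⟩ := hc
  obtain ⟨d', y', h0', h2', hy', hcy'⟩ := hc'
  obtain ⟨x, hx⟩ := exists_coord hr.1 (fun n => d n - d' n) (by
    show d 0 - d' 0 = 0
    rw [h0, h0', sub_self]) (fun n => by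
    rw [nsmul_sub, h2, h2'])
  have key : ∀ σ, y σ - y' σ = (ρ σ).mulVec x - x := by
    intro σ
    refine ev_inj hr.1 fun n => ?_
    rw [ev_sub hr.1, ev_sub hr.1, ← map_ev hr.1 (f := gact W σ) (fun j => hr.2 σ j n), ← hx, ← hy,
      ← hy', map_sub]
    abel
  refine ⟨fun j => (x j : ℚ_[2]), ?_⟩
  funext σ
  show OddP.actLin (ρ σ) (fun j => (x j : ℚ_[2])) - (fun j => (x j : ℚ_[2])) = c σ - c' σ
  rw [actLin_cast]
  funext j
  have h3 := congrArg (fun z : ℤ_[2] => (z : ℚ_[2])) (congrFun (key σ) j)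
  simp only [Pi.sub_apply] at h3
  push_cast at h3
  simp only [Pi.sub_apply, hcy, hcy']
  exact h3.symm

open scoped Classical in
theorem IsKummer.add (hr : IsTateRep W t ρ) {P P' : (W⁄F).Point}
    {c c' : AbsGal F → Fin 2 → ℚ_[2]} (hc : IsKummer W t P c) (hc' : IsKummer W t P' c') :
    IsKummer W t (P + P') (c + c') := by
  obtain ⟨d, y, h0, h2, hy, hcy⟩ := hc
  obtain ⟨d', y', h0', h2', hy', hcy'⟩ := hc'
  refine ⟨fun n => d n + d' n, fun σ => y σ + y' σ, ?_, fun n => ?_, fun σ n => ?_, fun σ j => ?_⟩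
  · show d 0 + d' 0 = _
    rw [h0, h0']
    exact (map_add _ _ _).symm
  · show 2 • (d (n + 1) + d' (n + 1)) = d n + d' n
    rw [nsmul_add, h2, h2']
  · show gact W σ (d n + d' n) - (d n + d' n) = _
    rw [ev_add hr.1, ← hy, ← hy', map_add]
    abel
  · simp only [Pi.add_apply, hcy, hcy']
    push_cast
    rfl

open scoped Classical in
theorem IsKummer.zsmul (hr : IsTateRep W t ρ) {P : (W⁄F).Point}
    {c : AbsGal F → Fin 2 → ℚ_[2]} (hc : IsKummer W t P c) (m : ℤ) :
    IsKummer W t (m • P) ((m : ℚ_[2]) • c) := by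
  obtain ⟨d, y, h0, h2, hy, hcy⟩ := hc
  refine ⟨fun n => m • d n, fun σ => m • y σ, ?_, fun n => ?_, fun σ n => ?_, fun σ j => ?_⟩
  · show m • d 0 = _
    rw [h0]
    exact (map_zsmul _ _ _).symm
  · show 2 • (m • d (n + 1)) = m • d n
    rw [smul_comm, h2]
  · show gact W σ (m • d n) - m • d n = _
    rw [ev_zsmul hr.1, ← hy, zsmul_sub, map_zsmul]
  · simp only [Pi.smul_apply, hcy, smul_eq_mul, zsmul_eq_mul]
    push_cast
    rfl

open scoped Classical in
theorem IsKummer.of_torsion (hr : IsTateRep W t ρ) {P : (W⁄F).Point} {k : ℤ} (hk : k ≠ 0)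
    (hP : k • P = 0) {c : AbsGal F → Fin 2 → ℚ_[2]} (hc : IsKummer W t P c) :
    c ∈ LinearMap.range (cobLin ρ) := by
  have h1 := hc.zsmul hr k
  rw [hP] at h1
  have h0 : IsKummer W t (0 : (W⁄F).Point) (0 : AbsGal F → Fin 2 → ℚ_[2]) := by
    refine ⟨fun _ => 0, fun _ => 0, ?_, fun n => nsmul_zero 2, fun σ n => ?_, fun σ j => ?_⟩
    · exact (map_zero _).symm
    · rw [ev_zero hr.1, map_zero, sub_zero]
    · simp
  have h2 := h1.sub_mem hr h0
  rw [sub_zero] at h2
  have hk' : (k : ℚ_[2]) ≠ 0 := by exact_mod_cast hk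
  have h3 := (LinearMap.range (cobLin ρ)).smul_mem ((k : ℚ_[2])⁻¹) h2
  rwa [smul_smul, inv_mul_cancel₀ hk', one_smul] at h3

end Pool.Agent.Work.MP_787500_nt.AC
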