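import Mathlib
import Pool.Agent.Work.MP_787500_nt.H10_Coh
import Pool.Agent.Work.MP_787500_nt.H67_Coh
import Pool.Agent.Work.MP_787500_nt.AC.Defs
import Pool.Agent.Work.MP_787500_nt.AC.Ev
import Pool.Agent.Work.MP_787500_nt.AC.Mat
import Pool.Agent.Work.MP_787500_nt.AC.Gal
import Pool.Agent.Work.MP_787500_nt.AC.KumA

/-!
# Module KUMG: the elements of the Kummer space satisfy the local conditions

`Glob x`: some `y = 2 ^ N x` is integral and for every `n` the function `ev t (y σ) n` is a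
coboundary with values in the points. This is stable under addition (take the larger `N`,
`two_ev` / `ev_smul`), under multiplication by elements of `ℚ_[2]` (which are `2 ^ (-k)` times an
element of `ℤ_[2]`; `ev_smul`), holds for Kummer cocycles (`d n`) and for coboundaries
(`cobLin ρ v`: `ev t v' n` with `v' = 2 ^ N v`, and `map_ev`). So it holds on the Kummer space
(`Submodule.span_induction`, `Submodule.mem_sup`). A coboundary is locally trivial (`LocTriv`): take
any `ι` (`IsAlgClosed.lift`) and the point `Point.map ι R`.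
-/

set_option autoImplicit false

namespace Pool.Agent.Work.MP_787500_nt.AC

open IsDedekindDomain NumberField WeierstrassCurve WeierstrassCurve.Affine
open Pool.Agent.Work.MP_787500_nt
open Pool.Agent.Work.MP_787500_nt.OddP (AbsGal cocycles cobLin)

universe u

variable {F : Type u} [Field F] [NumberField F] {W : WeierstrassCurve.Affine F}
variable {t : Fin 2 → ℕ → (W⁄(AlgebraicClosure F)).Point}
variable {ρ : AbsGal F →* Matrix (Fin 2) (Fin 2) ℤ_[2]}

/-- some multiple is integral and all its classes are coboundaries with values in the points -/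
private def Glob (W : WeierstrassCurve.Affine F)
    (t : Fin 2 → ℕ → (W⁄(AlgebraicClosure F)).Point) (x : AbsGal F → Fin 2 → ℚ_[2]) : Prop :=
  open scoped Classical in
  ∃ (N : ℕ) (y : AbsGal F → Fin 2 → ℤ_[2]), (∀ σ j, (y σ j : ℚ_[2]) = 2 ^ N * x σ j) ∧
    ∀ n : ℕ, ∃ R : (W⁄(AlgebraicClosure F)).Point, ∀ σ, ev t (y σ) n = gact W σ R - R

private theorem exists_int (a : ℚ_[2]) : ∃ (k : ℕ) (z : ℤ_[2]), (z : ℚ_[2]) = 2 ^ k * a := by
  obtain ⟨k, hk⟩ := pow_unbounded_of_one_lt ‖a‖ (by norm_num : (1 : ℝ) < 2)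
  have h2 : ‖(2 : ℚ_[2])‖ = (2 : ℝ)⁻¹ := by
    have := Padic.norm_p (p := 2)
    exact_mod_cast this
  refine ⟨k, ⟨2 ^ k * a, ?_⟩, rfl⟩
  rw [norm_mul, norm_pow, h2, inv_pow, inv_mul_le_iff₀ (by positivity), mul_one]
  exact hk.le

open scoped Classical in
private theorem glob_zero (ht : IsTateBasis t) : Glob W t 0 := by
  refine ⟨0, fun _ => 0, fun σ j => by simp, fun n => ⟨0, fun σ => ?_⟩⟩
  rw [ev_zero ht, map_zero, sub_zero]

open scoped Classical in
private theorem glob_add (ht : IsTateBasis t) {x x' : AbsGal F → Fin 2 → ℚ_[2]}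
    (h : Glob W t x) (h' : Glob W t x') : Glob W t (x + x') := by
  obtain ⟨N, y, hy, hR⟩ := h
  obtain ⟨N', y', hy', hR'⟩ := h'
  refine ⟨N + N', fun σ => (fun j => 2 ^ N' * y σ j) + (fun j => 2 ^ N * y' σ j), fun σ j => ?_,
    fun n => ?_⟩
  · show (((2 ^ N' * y σ j + 2 ^ N * y' σ j : ℤ_[2])) : ℚ_[2]) =
      2 ^ (N + N') * (x σ j + x' σ j)
    have e2 : ((2 : ℤ_[2]) : ℚ_[2]) = 2 := rfl
    rw [PadicInt.coe_add, PadicInt.coe_mul, PadicInt.coe_mul, hy, hy', PadicInt.coe_pow,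
      PadicInt.coe_pow, e2]
    ring
  · obtain ⟨R, hR⟩ := hR n
    obtain ⟨R', hR'⟩ := hR' n
    refine ⟨((2 : ℤ_[2]) ^ N').appr n • R + ((2 : ℤ_[2]) ^ N).appr n • R', fun σ => ?_⟩
    rw [ev_add ht, ev_smul ht, ev_smul ht, hR, hR', map_add, map_nsmul, map_nsmul, nsmul_sub,
      nsmul_sub]
    abel

open scoped Classical in
private theorem glob_smul (ht : IsTateBasis t) (a : ℚ_[2]) {x : AbsGal F → Fin 2 → ℚ_[2]}
    (h : Glob W t x) : Glob W t (a • x) := by
  obtain ⟨N, y, hy, hR⟩ := h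
  obtain ⟨k, z, hz⟩ := exists_int a
  refine ⟨k + N, fun σ => fun j => z * y σ j, fun σ j => ?_, fun n => ?_⟩
  · show ((z * y σ j : ℤ_[2]) : ℚ_[2]) = 2 ^ (k + N) * (a * x σ j)
    rw [PadicInt.coe_mul, hy, hz]
    ring
  · obtain ⟨R, hR⟩ := hR n
    refine ⟨z.appr n • R, fun σ => ?_⟩
    rw [ev_smul ht, hR, map_nsmul, nsmul_sub]

open scoped Classical in
private theorem glob_cob (hr : IsTateRep W t ρ) (w : Fin 2 → ℤ_[2]) :
    Glob W t (cobLin ρ (fun j => (w j : ℚ_[2]))) := by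
  refine ⟨0, fun σ => (ρ σ).mulVec w - w, fun σ j => ?_, fun n => ⟨ev t w n, fun σ => ?_⟩⟩
  · show ((∑ k, ρ σ j k * w k - w j : ℤ_[2]) : ℚ_[2]) =
      2 ^ 0 * (∑ k, (ρ σ j k : ℚ_[2]) * (w k : ℚ_[2]) - (w j : ℚ_[2]))
    rw [pow_zero, one_mul, PadicInt.coe_sub, PadicInt.coe_sum]
    simp only [PadicInt.coe_mul]
  · have e : ev t ((ρ σ).mulVec w - w) n = gact W σ (ev t w n) - ev t w n := by
      rw [sub_eq_add_neg ((ρ σ).mulVec w) w, ev_add hr.1, ev_neg hr.1,
        ← map_ev hr.1 (fun j => hr.2 σ j n) w, sub_eq_add_neg]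
    exact e

open scoped Classical in
private theorem glob_cobLin (hr : IsTateRep W t ρ) (v : Fin 2 → ℚ_[2]) :
    Glob W t (cobLin ρ v) := by
  have e : v = v 0 • (fun j => (((Pi.single 0 1 : Fin 2 → ℤ_[2]) j : ℤ_[2]) : ℚ_[2])) +
      v 1 • (fun j => (((Pi.single 1 1 : Fin 2 → ℤ_[2]) j : ℤ_[2]) : ℚ_[2])) := by
    ext j
    fin_cases j <;> simp
  rw [e, map_add, map_smul, map_smul]
  exact glob_add hr.1 (glob_smul hr.1 _ (glob_cob hr _)) (glob_smul hr.1 _ (glob_cob hr _))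

open scoped Classical in
private theorem glob_kummer {P : (W⁄F).Point} {c : AbsGal F → Fin 2 → ℚ_[2]}
    (hc : IsKummer W t P c) : Glob W t c := by
  obtain ⟨d, y, -, -, h3, h4⟩ := hc
  exact ⟨0, y, fun σ j => by rw [pow_zero, one_mul, h4], fun n => ⟨d n, fun σ => (h3 σ n).symm⟩⟩

open scoped Classical in
private theorem map_comm {E : Type*} [Field E] [Algebra F E]
    (ι : AlgebraicClosure F →ₐ[F] AlgebraicClosure E)
    (τ : AlgebraicClosure E ≃ₐ[E] AlgebraicClosure E) (σ : AbsGal F)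
    (h : ∀ x, τ (ι x) = ι (σ x)) (R : (W⁄(AlgebraicClosure F)).Point) :
    Point.map (W' := W) (τ : AlgebraicClosure E →ₐ[E] AlgebraicClosure E)
      (Point.map (W' := W) ι R) = Point.map (W' := W) ι (gact W σ R) := by
  rcases R with _ | ⟨x, y, hxy⟩
  · rfl
  · simp only [gact, Point.map_some, Point.some.injEq]
    exact ⟨h x, h y⟩

open scoped Classical in
private theorem glob_loc {x : AbsGal F → Fin 2 → ℚ_[2]} (h : Glob W t x) : KumLoc W t x := by
  obtain ⟨N, y, hy, hR⟩ := h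
  refine ⟨N, y, hy, fun n v => ?_⟩
  obtain ⟨R, hR⟩ := hR n
  let ι : AlgebraicClosure F →ₐ[F] AlgebraicClosure (v.adicCompletion F) := IsAlgClosed.lift
  refine ⟨ι, Point.map (W' := W) ι R, fun τ σ hτ => ?_⟩
  show Point.map (W' := W) ι (ev t (y σ) n) = _
  rw [hR, map_sub, map_comm ι τ σ hτ]

theorem kummer_le (hr : IsTateRep W t ρ) {x : AbsGal F → Fin 2 → ℚ_[2]}
    (hx : x ∈ kummerSpace W t ρ) : x ∈ cocycles ρ ∧ KumLoc W t x := by
  classical
  rw [kummerSpace, Submodule.mem_sup] at hx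
  obtain ⟨a, ha, _, ⟨v, rfl⟩, rfl⟩ := hx
  have ha' : a ∈ cocycles ρ ∧ Glob W t a := by
    induction ha using Submodule.span_induction with
    | mem c hc =>
      obtain ⟨P, hP⟩ := hc
      exact ⟨hP.mem_cocycles hr, glob_kummer hP⟩
    | zero => exact ⟨Submodule.zero_mem _, glob_zero hr.1⟩
    | add c c' _ _ h h' => exact ⟨Submodule.add_mem _ h.1 h'.1, glob_add hr.1 h.2 h'.2⟩
    | smul z c _ h => exact ⟨Submodule.smul_mem _ z h.1, glob_smul hr.1 z h.2⟩
  exact ⟨Submodule.add_mem _ ha'.1 (OddP.COH.mem_cocycles.2 (OddP.COH.cobLin_isCocyc (rep_cont hr) v)),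
    glob_loc (glob_add hr.1 ha'.2 (glob_cobLin hr v))⟩

end Pool.Agent.Work.MP_787500_nt.AC
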