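import Mathlib
import Pool.Agent.Work.MP_787500_nt.H9_Main
import Pool.Agent.Work.MP_787500_nt.H67_Coh
import Pool.Agent.Work.MP_787500_nt.AC.Defs
import Pool.Agent.Work.MP_787500_nt.AC.Ev
import Pool.Agent.Work.MP_787500_nt.AC.Mat
import Pool.Agent.Work.MP_787500_nt.AC.Gal
import Pool.Agent.Work.MP_787500_nt.AC.KumG

/-!
# The cocycles that satisfy the local Kummer conditions form a subspace
-/

set_option autoImplicit false

namespace Pool.Agent.Work.MP_787500_nt.AC

open IsDedekindDomain NumberField WeierstrassCurve WeierstrassCurve.Affine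
open Pool.Agent.Work.MP_787500_nt
open Pool.Agent.Work.MP_787500_nt.OddP (AbsGal)

universe u

section loc

variable {F : Type*} [Field F] {W : WeierstrassCurve.Affine F}

/-- two embeddings of the algebraic closure differ by an automorphism -/
theorem exists_aut {E : Type*} [Field E] [Algebra F E]
    (ι ι' : AlgebraicClosure F →ₐ[F] AlgebraicClosure E) :
    ∃ g : AbsGal F, ∀ x, ι (g x) = ι' x := by
  let _ : Algebra (AlgebraicClosure F) (AlgebraicClosure E) := ι.toRingHom.toAlgebra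
  have : IsScalarTower F (AlgebraicClosure F) (AlgebraicClosure E) :=
    IsScalarTower.of_algebraMap_eq fun x => (ι.commutes x).symm
  refine ⟨Normal.algHomEquivAut F (AlgebraicClosure E) (AlgebraicClosure F) ι', fun x => ?_⟩
  have h := (Normal.algHomEquivAut F (AlgebraicClosure E)
    (AlgebraicClosure F)).symm_apply_apply ι'
  exact DFunLike.congr_fun h x

open scoped Classical in
theorem map_comm {E : Type*} [Field E] [Algebra F E]
    (ι : AlgebraicClosure F →ₐ[F] AlgebraicClosure E)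
    (τ : AlgebraicClosure E ≃ₐ[E] AlgebraicClosure E) (σ : AbsGal F)
    (h : ∀ x, τ (ι x) = ι (σ x)) (R : (W⁄(AlgebraicClosure F)).Point) :
    Point.map (W' := W) (τ : AlgebraicClosure E →ₐ[E] AlgebraicClosure E)
      (Point.map (W' := W) ι R) = Point.map (W' := W) ι (gact W σ R) := by
  rcases R with _ | ⟨x, y, hxy⟩
  · rfl
  · simp only [gact, Point.map_some, Point.some.injEq]
    exact ⟨h x, h y⟩

open scoped Classical in
/-- local triviality does not depend on the embedding -/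
theorem locTriv_at {E : Type*} [Field E] [Algebra F E]
    {c : AbsGal F → (W⁄(AlgebraicClosure F)).Point} (hc : ∀ σ τ, c (σ * τ) = c σ + gact W σ (c τ))
    (h : LocTriv W E c) (ι' : AlgebraicClosure F →ₐ[F] AlgebraicClosure E) :
    ∃ P : (W⁄(AlgebraicClosure E)).Point,
      ∀ (τ : AlgebraicClosure E ≃ₐ[E] AlgebraicClosure E) (σ : AbsGal F),
        (∀ x, τ (ι' x) = ι' (σ x)) → Point.map (W' := W) ι' (c σ) =
          Point.map (W' := W) (τ : AlgebraicClosure E →ₐ[E] AlgebraicClosure E) P - P := by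
  obtain ⟨ι, P, hP⟩ := h
  obtain ⟨g, hg⟩ := exists_aut ι ι'
  have hι : ∀ R : (W⁄(AlgebraicClosure F)).Point,
      Point.map (W' := W) ι' R = Point.map (W' := W) ι (gact W g R) := by
    intro R
    rcases R with _ | ⟨x, y, hxy⟩
    · rfl
    · simp only [gact, Point.map_some, Point.some.injEq]
      exact ⟨(hg x).symm, (hg y).symm⟩
  refine ⟨P + Point.map (W' := W) ι (c g), fun τ σ hτ => ?_⟩
  have h1 : ∀ x, τ (ι x) = ι ((g * σ * g⁻¹) x) := by
    intro x
    have h2 := hτ (g⁻¹ x)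
    rw [← hg, ← hg] at h2
    have h3 : g (g⁻¹ x) = x := by
      rw [← AlgEquiv.mul_apply, mul_inv_cancel, AlgEquiv.one_apply]
    rw [h3] at h2
    rw [h2]
    rfl
  have h4 := hP τ _ h1
  have h5 : g * σ = (g * σ * g⁻¹) * g := by group
  have h6 : c g + gact W g (c σ) = c (g * σ * g⁻¹) + gact W (g * σ * g⁻¹) (c g) := by
    rw [← hc, ← hc, ← h5]
  have h7 : gact W g (c σ) = c (g * σ * g⁻¹) + gact W (g * σ * g⁻¹) (c g) - c g := by
    rw [← h6]; abel
  rw [hι, h7, map_sub, map_add, h4, map_add, ← map_comm ι τ _ h1]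
  abel

open scoped Classical in
theorem LocTriv.add_coc {E : Type*} [Field E] [Algebra F E]
    {c c' : AbsGal F → (W⁄(AlgebraicClosure F)).Point}
    (hc : ∀ σ τ, c (σ * τ) = c σ + gact W σ (c τ))
    (h : LocTriv W E c) (h' : LocTriv W E c') : LocTriv W E (fun σ => c σ + c' σ) := by
  obtain ⟨ι, P, hP⟩ := h'
  obtain ⟨P', hP'⟩ := locTriv_at hc h ι
  refine ⟨ι, P' + P, fun τ σ hτ => ?_⟩
  rw [map_add, hP τ σ hτ, hP' τ σ hτ, map_add]
  abel

end loc

section space

variable {F : Type u} [Field F] [NumberField F] {W : WeierstrassCurve.Affine F}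
variable {t : Fin 2 → ℕ → (W⁄(AlgebraicClosure F)).Point}
variable {ρ : AbsGal F →* Matrix (Fin 2) (Fin 2) ℤ_[2]}

theorem exists_int_mul (a : ℚ_[2]) : ∃ (k : ℕ) (z : ℤ_[2]), (z : ℚ_[2]) = 2 ^ k * a := by
  obtain ⟨k, hk⟩ := pow_unbounded_of_one_lt ‖a‖ (by norm_num : (1 : ℝ) < 2)
  have h2 : ‖(2 : ℚ_[2])‖ = (2 : ℝ)⁻¹ := by
    have := Padic.norm_p (p := 2)
    exact_mod_cast this
  refine ⟨k, ⟨2 ^ k * a, ?_⟩, rfl⟩
  rw [norm_mul, norm_pow, h2, inv_pow, inv_mul_le_iff₀ (by positivity), mul_one]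
  exact hk.le

/-- the cocycle relation for the integral values -/
theorem int_coc {x : AbsGal F → Fin 2 → ℚ_[2]} (hx : x ∈ OddP.cocycles ρ) {N : ℕ}
    {y : AbsGal F → Fin 2 → ℤ_[2]} (hy : ∀ σ j, (y σ j : ℚ_[2]) = 2 ^ N * x σ j) (σ τ : AbsGal F) :
    y (σ * τ) = y σ + (ρ σ).mulVec (y τ) := by
  funext j
  apply Subtype.ext
  show (y (σ * τ) j : ℚ_[2]) = ((y σ j + ∑ k, ρ σ j k * y τ k : ℤ_[2]) : ℚ_[2])
  have h := congrFun (hx.2 σ τ) j
  rw [Pi.add_apply, OddP.COH.actLin_apply] at h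
  rw [PadicInt.coe_add, PadicInt.coe_sum, hy, hy, h, mul_add, Finset.mul_sum]
  congr 1
  refine Finset.sum_congr rfl fun k _ => ?_
  rw [PadicInt.coe_mul, hy]
  ring

open scoped Classical in
/-- the values in the points form a cocycle -/
theorem ev_coc (hr : IsTateRep W t ρ) {y : AbsGal F → Fin 2 → ℤ_[2]}
    (hy : ∀ σ τ : AbsGal F, y (σ * τ) = y σ + (ρ σ).mulVec (y τ)) (n : ℕ) (σ τ : AbsGal F) :
    ev t (y (σ * τ)) n = ev t (y σ) n + gact W σ (ev t (y τ) n) := by
  rw [hy, ev_add hr.1, map_ev hr.1 (fun j => hr.2 σ j n)]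

open scoped Classical in
theorem kumLoc_zero (ht : IsTateBasis t) : KumLoc W t 0 := by
  refine ⟨0, fun _ => 0, fun σ j => by simp, fun n v => ?_⟩
  let ι : AlgebraicClosure F →ₐ[F] AlgebraicClosure (v.adicCompletion F) := IsAlgClosed.lift
  refine ⟨ι, 0, fun τ σ _ => ?_⟩
  show Point.map (W' := W) ι (ev t 0 n) = _
  rw [ev_zero ht, map_zero, map_zero, sub_zero]

open scoped Classical in
theorem kumLoc_add (hr : IsTateRep W t ρ) {x x' : AbsGal F → Fin 2 → ℚ_[2]}
    (hx : x ∈ OddP.cocycles ρ) (h : KumLoc W t x) (h' : KumLoc W t x') : KumLoc W t (x + x') := by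
  obtain ⟨N, y, hy, hR⟩ := h
  obtain ⟨N', y', hy', hR'⟩ := h'
  refine ⟨N + N', fun σ => (fun j => 2 ^ N' * y σ j) + (fun j => 2 ^ N * y' σ j), fun σ j => ?_,
    fun n v => ?_⟩
  · show (((2 ^ N' * y σ j + 2 ^ N * y' σ j : ℤ_[2])) : ℚ_[2]) =
      2 ^ (N + N') * (x σ j + x' σ j)
    have e2 : ((2 : ℤ_[2]) : ℚ_[2]) = 2 := rfl
    rw [PadicInt.coe_add, PadicInt.coe_mul, PadicInt.coe_mul, hy, hy', PadicInt.coe_pow,
      PadicInt.coe_pow, e2]
    ring
  · have e : (fun σ => ev t ((fun j => 2 ^ N' * y σ j) + (fun j => 2 ^ N * y' σ j)) n) =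
        fun σ => ((2 : ℤ_[2]) ^ N').appr n • ev t (y σ) n +
          ((2 : ℤ_[2]) ^ N).appr n • ev t (y' σ) n := by
      funext σ
      rw [ev_add hr.1, ev_smul hr.1, ev_smul hr.1]
    rw [e]
    refine LocTriv.add_coc (fun σ τ => ?_) ((hR n v).nsmul _) ((hR' n v).nsmul _)
    rw [ev_coc hr (int_coc hx hy), nsmul_add, map_nsmul]

open scoped Classical in
theorem kumLoc_smul (ht : IsTateBasis t) (a : ℚ_[2]) {x : AbsGal F → Fin 2 → ℚ_[2]}
    (h : KumLoc W t x) : KumLoc W t (a • x) := by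
  obtain ⟨N, y, hy, hR⟩ := h
  obtain ⟨k, z, hz⟩ := exists_int_mul a
  refine ⟨k + N, fun σ => fun j => z * y σ j, fun σ j => ?_, fun n v => ?_⟩
  · show ((z * y σ j : ℤ_[2]) : ℚ_[2]) = 2 ^ (k + N) * (a * x σ j)
    rw [PadicInt.coe_mul, hy, hz]
    ring
  · have e : (fun σ => ev t (fun j => z * y σ j) n) = fun σ => z.appr n • ev t (y σ) n := by
      funext σ
      rw [ev_smul ht]
    rw [e]
    exact (hR n v).nsmul _

/-- The space of the continuous cocycles that satisfy the local Kummer conditions. -/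
noncomputable def kumLocSpace (hr : IsTateRep W t ρ) :
    Submodule ℚ_[2] (AbsGal F → Fin 2 → ℚ_[2]) where
  carrier := {x | x ∈ OddP.cocycles ρ ∧ KumLoc W t x}
  add_mem' := fun h h' => ⟨Submodule.add_mem _ h.1 h'.1, kumLoc_add hr h.1 h.2 h'.2⟩
  zero_mem' := ⟨Submodule.zero_mem _, kumLoc_zero hr.1⟩
  smul_mem' := fun a _ h => ⟨Submodule.smul_mem _ a h.1, kumLoc_smul hr.1 a h.2⟩

theorem mem_kumLocSpace (hr : IsTateRep W t ρ) {x : AbsGal F → Fin 2 → ℚ_[2]} :
    x ∈ kumLocSpace hr ↔ x ∈ OddP.cocycles ρ ∧ KumLoc W t x := Iff.rfl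

theorem cob_le (hr : IsTateRep W t ρ) : LinearMap.range (OddP.cobLin ρ) ≤ kumLocSpace hr := by
  intro x hx
  exact kummer_le hr (Submodule.mem_sup_right hx)

end space

end Pool.Agent.Work.MP_787500_nt.AC
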