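import Mathlib
import Pool.Agent.Work.MP_787500_nt.AC.EYDefs
import Pool.Agent.Work.MP_787500_nt.AC.EXG
import Pool.Agent.Work.MP_787500_nt.AC.SelL

/-!
The definitions of `EYDefs` agree with those of `EXDefs`.
-/

set_option autoImplicit false

namespace Pool.Agent.Work.MP_787500_nt.AC

open IsDedekindDomain NumberField WeierstrassCurve WeierstrassCurve.Affine
open Pool.Agent.Work.MP_787500_nt

universe u

variable {F : Type u} [Field F] {i : ℕ} {ρ : OddP.AbsGal F →* Matrix (Fin 2) (Fin 2) ℤ_[2]}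
  {ψ : Fin 2 → OddP.AbsGal F →* ℤ_[2]ˣ}

theorem basV_eq (k : Fin 2 ⊕ Fin (2 * i) × Fin 2) : (basV i k : VX i) = Pi.single k 1 := by
  funext l
  rw [Pi.single_apply]
  rfl

theorem emb_basV (k : Fin 2 ⊕ Fin (2 * i) × Fin 2) : (emb i (basV i k) : LX i) = vec i k := by
  rw [vec, ← basV_eq]
  rfl

theorem subE_eq : (subE i : Submodule ℚ_[2] (LX i)) = spE i := by
  have h : (fun j : Fin 2 => (emb i (basV i (.inl j)) : LX i)) = fun j => vec i (.inl j) :=
    funext fun j => emb_basV _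
  rw [spE, ← h]
  rfl

theorem subU_eq (b : Fin 2) : (subU i b : Submodule ℚ_[2] (LX i)) = spU i b := by
  have h : (fun a : Fin (2 * i) => (emb i (basV i (.inr (a, b))) : LX i)) =
      fun a => vec i (.inr (a, b)) := funext fun a => emb_basV _
  rw [spU, ← h]
  rfl

theorem actV_eq (σ : OddP.AbsGal F) :
    (⟨⟨actV i ρ ψ σ, actV_add i ρ ψ σ⟩, actV_smul i ρ ψ σ⟩ : VX i →ₗ[ℚ_[2]] VX i) =
      actX i ρ ψ σ := by
  refine LinearMap.ext fun x => ?_
  funext k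
  rcases k with j | ab
  · simp only [actX, LinearMap.pi_apply, Sum.elim_inl, LinearMap.sum_apply, LinearMap.smul_apply,
      LinearMap.proj_apply]
    rfl
  · simp only [actX, LinearMap.pi_apply, Sum.elim_inr, LinearMap.smul_apply,
      LinearMap.proj_apply]
    rfl

theorem actY_eq (σ : OddP.AbsGal F) (x : LX i) : (actY i ρ ψ σ x : LX i) = act i ρ ψ σ x := by
  show ((((ψ 0 σ * ψ 1 σ) ^ (-(i : ℤ)) : ℤ_[2]ˣ) : ℤ_[2]) : ℚ_[2]) •
    (ExteriorAlgebra.map (⟨⟨actV i ρ ψ σ, actV_add i ρ ψ σ⟩, actV_smul i ρ ψ σ⟩ :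
      VX i →ₗ[ℚ_[2]] VX i) x : LX i) = act i ρ ψ σ x
  rw [actV_eq]
  rfl

theorem isCobOn_iff {M : Submodule ℚ_[2] (LX i)} {D : Subgroup (OddP.AbsGal F)}
    {x : OddP.AbsGal F → LX i} : IsCobOn i ρ ψ M D x ↔ x ∈ cobOn i ρ ψ M D := by
  constructor
  · rintro ⟨v, hv, h⟩
    exact ⟨v, hv, fun σ hσ =>
      (h σ hσ).trans (congrArg (fun z : LX i => z - (show LX i from v)) (actY_eq σ v))⟩
  · rintro ⟨v, hv, h⟩
    exact ⟨v, hv, fun σ hσ =>
      (h σ hσ).trans (congrArg (fun z : LX i => z - v) (actY_eq σ v).symm)⟩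

theorem isCoc_iff {M : Submodule ℚ_[2] (LX i)} {x : OddP.AbsGal F → LX i} :
    IsCoc i ρ ψ M x ↔ x ∈ cocIn i ρ ψ M := by
  constructor
  · rintro ⟨h1, h2, h3⟩
    exact ⟨h1, h2, fun σ τ =>
      (h3 σ τ).trans (congrArg (fun z : LX i => x σ + z) (actY_eq σ (x τ)))⟩
  · rintro ⟨h1, h2, h3⟩
    exact ⟨h1, h2, fun σ τ =>
      (h3 σ τ).trans (congrArg (fun z : LX i => x σ + z) (actY_eq σ (x τ)).symm)⟩

theorem isStrict_iff {M : Submodule ℚ_[2] (LX i)} {P : Ideal (𝓞 (AlgebraicClosure F))}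
    {x : OddP.AbsGal F → LX i} : IsStrict i ρ ψ M P x ↔ x ∈ strict i ρ ψ M P := by
  rw [strict, Submodule.mem_inf, Submodule.mem_inf, IsStrict]
  rw [isCoc_iff, isCobOn_iff, and_assoc]
  refine and_congr_right fun _ => and_congr_right fun _ => ?_
  simp only [Submodule.mem_iInf]
  exact forall_congr' fun Q => forall_congr' fun hQ => forall_congr' fun h2 => isCobOn_iff

theorem cobs_eq : (cobs i ρ ψ : Set (OddP.AbsGal F → LX i)) =
    (cobOn i ρ ψ (⋀[ℚ_[2]]^(2 * i + 1) (VX i)) ⊤ : Set (OddP.AbsGal F → LX i)) := by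
  ext x
  exact isCobOn_iff

theorem emb_elim (z : Fin 2 → ℚ_[2]) :
    (emb i (Sum.elim z 0) : LX i) = ∑ j, z j • vec i (.inl j) := by
  have h : (Sum.elim z 0 : VX i) = ∑ j, z j • (Pi.single (.inl j) 1 : VX i) := by
    funext k
    rw [Finset.sum_apply]
    rcases k with l | ab
    · rw [Finset.sum_eq_single l]
      · simp
      · intro m _ hm
        rw [Pi.smul_apply, Pi.single_eq_of_ne (by simpa using Ne.symm hm), smul_zero]
      · simp
    · symm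
      refine Finset.sum_eq_zero fun j _ => ?_
      rw [Pi.smul_apply, Pi.single_eq_of_ne (by simp), smul_zero]
  show (ExteriorAlgebra.ι ℚ_[2] (Sum.elim z 0 : VX i) : LX i) = _
  rw [h, map_sum]
  exact Finset.sum_congr rfl fun j _ => by rw [map_smul]; rfl

theorem mem_UU (ω : LX i) : ω ∈ subU i 0 ^ i * subU i 1 ^ i ↔ ω ∈ spU i 0 ^ i * spU i 1 ^ i := by
  rw [← subU_eq, ← subU_eq]
  rfl

theorem wedges_set (Y : Set (OddP.AbsGal F → Fin 2 → ℚ_[2])) (x : OddP.AbsGal F → LX i) :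
    x ∈ wedges i Y ↔ ∃ y ∈ Y, ∃ ω ∈ spU i 0 ^ i * spU i 1 ^ i,
        ∀ σ, x σ = (∑ j, y σ j • vec i (.inl j)) * ω := by
  constructor
  · rintro ⟨y, hy, ω, hω, h⟩
    refine ⟨y, hy, ω, (mem_UU ω).1 hω, fun σ => (h σ).trans ?_⟩
    exact congrArg (fun z : LX i => z * (show LX i from ω)) (emb_elim (y σ))
  · rintro ⟨y, hy, ω, hω, h⟩
    refine ⟨y, hy, ω, (mem_UU ω).2 hω, fun σ => (h σ).trans ?_⟩
    exact congrArg (fun z : LX i => z * ω) (emb_elim (y σ)).symm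

theorem wedges_eq (Y : Set (OddP.AbsGal F → Fin 2 → ℚ_[2])) :
    (Submodule.span ℚ_[2] (wedges i Y) : Submodule ℚ_[2] (OddP.AbsGal F → LX i)) = wedge i Y := by
  have h : (wedges i Y : Set (OddP.AbsGal F → LX i)) =
      {x | ∃ y ∈ Y, ∃ ω ∈ spU i 0 ^ i * spU i 1 ^ i,
        ∀ σ, x σ = (∑ j, y σ j • vec i (.inl j)) * ω} := Set.ext fun x => wedges_set Y x
  exact congrArg (fun S : Set (OddP.AbsGal F → LX i) => Submodule.span ℚ_[2] S) h

end Pool.Agent.Work.MP_787500_nt.AC
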