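import Mathlib
import Pool.Agent.Work.MP_787500_nt.H10_Kappa
import Pool.Agent.Work.MP_787500_nt.H10_Coh
import Pool.Agent.Work.MP_787500_nt.AC.Defs
import Pool.Agent.Work.MP_787500_nt.AC.Ev
import Pool.Agent.Work.MP_787500_nt.AC.Mat
import Pool.Agent.Work.MP_787500_nt.AC.Gal
import Pool.Agent.Work.MP_787500_nt.AC.KumA

/-!
# Module KUMB: descent of the cocycle to a compatible system of rational points

Let `x` be a continuous cocycle for `ρ` with `KumLoc W t x`; `y = 2 ^ N x`. For every `n` the function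
`c n σ = ev t (y σ) n` is a continuous cocycle with values in the points (`IsCocycle`: locally constant
since `y` is continuous and `ev t _ n` depends only on `y σ` modulo `2 ^ n`; the cocycle relation from
`map_ev`), locally trivial, and `2 ^ n • c n = 0`; so it is a coboundary by `ShaTwoTrivial`:
`c n σ = gact W σ (R n) - R n`. Since `2 ^ n • c n σ = 0`, the point `2 ^ n • R n` is fixed by all `σ`,
so it is the image of a rational point `q n` (see `exists_double_of_kumRel` in H10_Kappa for the
descent of fixed points). Finally `2 • c (n + 1) = c n` shows that `2 • R (n + 1) - R n` is rational,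
`= incl r`, so `q (n + 1) - q n = 2 ^ n • r`.
-/

set_option autoImplicit false

namespace Pool.Agent.Work.MP_787500_nt.AC

open IsDedekindDomain NumberField WeierstrassCurve WeierstrassCurve.Affine
open Pool.Agent.Work.MP_787500_nt
open Pool.Agent.Work.MP_787500_nt.OddP (AbsGal cocycles cobLin)

universe u

variable {F : Type u} [Field F] [NumberField F] {W : WeierstrassCurve.Affine F}
variable {t : Fin 2 → ℕ → (W⁄(AlgebraicClosure F)).Point}
variable {ρ : AbsGal F →* Matrix (Fin 2) (Fin 2) ℤ_[2]}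

open scoped Classical in
/-- a point fixed by the absolute Galois group is rational -/
theorem exists_incl {R : (W⁄(AlgebraicClosure F)).Point} (h : ∀ σ : AbsGal F, gact W σ R = R) :
    ∃ q : (W⁄F).Point, incl W q = R := by
  rcases hRR : R with _ | ⟨x, y, hxy⟩
  · exact ⟨0, by rw [map_zero]; rfl⟩
  · rw [hRR] at h
    obtain ⟨⟨x0, hx0⟩, ⟨y0, hy0⟩⟩ := exists_of_fixed (K := F) (F := F) (W := W) h
    have hns : (W⁄F).Nonsingular x0 y0 := by
      have : ((W⁄F)⁄(AlgebraicClosure F)).Nonsingular (algebraMap F (AlgebraicClosure F) x0)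
        (algebraMap F (AlgebraicClosure F) y0) := by
        rw [hx0, hy0]
        exact hxy
      exact ((W⁄F).map_nonsingular (algebraMap F (AlgebraicClosure F)).injective x0 y0).1 this
    refine ⟨Point.some x0 y0 hns, ?_⟩
    rw [incl, Point.map_some]
    simp only [Point.some.injEq]
    exact ⟨hx0, hy0⟩

private theorem ev_locConst {A : Type*} [AddCommGroup A] {t : Fin 2 → ℕ → A} (ht : IsTateBasis t)
    (n : ℕ) : IsLocallyConstant (fun c : Fin 2 → ℤ_[2] => ev t c n) := by
  rw [IsLocallyConstant.iff_exists_open]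
  intro c
  have hr : (0 : ℝ) < (2 : ℝ) ^ (-(n : ℤ)) := by positivity
  refine ⟨Metric.ball c ((2 : ℝ) ^ (-(n : ℤ))), Metric.isOpen_ball, Metric.mem_ball_self hr, ?_⟩
  intro c' hc'
  apply ev_congr ht
  intro j
  have h1 := (dist_pi_lt_iff hr).1 hc' j
  rw [dist_eq_norm] at h1
  have h2 := (PadicInt.norm_le_pow_iff_mem_span_pow (p := 2) (c' j - c j) n).1
    (by push_cast; exact h1.le)
  rw [Ideal.mem_span_singleton] at h2
  simpa using h2

open scoped Classical in
theorem exists_system (hr : IsTateRep W t ρ) (hS : ShaTwoTrivial W)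
    {x : AbsGal F → Fin 2 → ℚ_[2]} (hx : x ∈ cocycles ρ) (hl : KumLoc W t x) :
    ∃ (N : ℕ) (y : AbsGal F → Fin 2 → ℤ_[2]) (R : ℕ → (W⁄(AlgebraicClosure F)).Point)
      (q r : ℕ → (W⁄F).Point), (∀ σ j, (y σ j : ℚ_[2]) = 2 ^ N * x σ j) ∧
      (∀ σ n, ev t (y σ) n = gact W σ (R n) - R n) ∧ (∀ n, (2 ^ n) • R n = incl W (q n)) ∧
      ∀ n, q (n + 1) = q n + (2 ^ n) • r n := by
  obtain ⟨N, y, hy, hloc⟩ := hl
  have ht := hr.1
  have hcont : Continuous y := by
    have h1 : Continuous x := hx.1
    apply continuous_pi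
    intro j
    have e : Isometry (fun z : ℤ_[2] => (z : ℚ_[2])) := Isometry.of_dist_eq (fun a b => rfl)
    rw [e.isEmbedding.isInducing.continuous_iff]
    have h2 : ((fun z : ℤ_[2] => (z : ℚ_[2])) ∘ fun σ => y σ j) = fun σ => (2 : ℚ_[2]) ^ N * x σ j := by
      funext σ
      exact hy σ j
    rw [h2]
    exact continuous_const.mul ((continuous_apply j).comp h1)
  have hmul : ∀ σ τ, y (σ * τ) = y σ + (ρ σ).mulVec (y τ) := by
    intro σ τ
    funext j
    apply Subtype.ext
    show (y (σ * τ) j : ℚ_[2]) = ((y σ j + ∑ k, ρ σ j k * y τ k : ℤ_[2]) : ℚ_[2])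
    rw [PadicInt.coe_add, PadicInt.coe_sum, hy, hy, hx.2]
    simp only [Pi.add_apply, PadicInt.coe_mul, hy]
    show 2 ^ N * (x σ j + ∑ k, (ρ σ j k : ℚ_[2]) * x τ k) = _
    rw [mul_add, Finset.mul_sum]
    congr 1
    apply Finset.sum_congr rfl
    intro k _
    ring
  have hcoc : ∀ n, IsCocycle W (fun σ => ev t (y σ) n) := by
    intro n
    refine ⟨(ev_locConst ht n).comp_continuous hcont, ?_⟩
    intro σ τ
    show ev t (y (σ * τ)) n = ev t (y σ) n + gact W σ (ev t (y τ) n)
    rw [hmul, ev_add ht, map_ev ht (f := gact W σ) (M := ρ σ) (n := n) (fun j => hr.2 σ j n)]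
  have hcob : ∀ n, IsCobdry W (fun σ => ev t (y σ) n) := by
    intro n
    apply hS _ (hcoc n) (fun v => hloc n v)
    refine ⟨n, 0, fun σ => ?_⟩
    rw [map_zero, sub_zero]
    exact pow_ev ht _ n
  choose R hR using hcob
  have hR' : ∀ n σ, gact W σ (R n) = ev t (y σ) n + R n := by
    intro n σ
    have := hR n σ
    simp only at this
    rw [this]
    abel
  have hq : ∀ n, ∃ q : (W⁄F).Point, incl W q = (2 ^ n) • R n := by
    intro n
    apply exists_incl
    intro σ
    rw [map_nsmul, hR', nsmul_add, pow_ev ht, zero_add]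
  choose q hq using hq
  have hrr : ∀ n, ∃ r : (W⁄F).Point, incl W r = 2 • R (n + 1) - R n := by
    intro n
    apply exists_incl
    intro σ
    rw [map_sub, map_nsmul, hR', hR', nsmul_add, two_ev ht]
    abel
  choose r hr' using hrr
  refine ⟨N, y, R, q, r, hy, fun σ n => hR n σ, fun n => (hq n).symm, fun n => ?_⟩
  apply Point.map_injective (W' := W) (Algebra.ofId F (AlgebraicClosure F))
  show incl W (q (n + 1)) = incl W (q n + (2 ^ n) • r n)
  rw [map_add, map_nsmul, hq, hq, hr', nsmul_sub, ← mul_nsmul', ← pow_succ]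
  abel

end Pool.Agent.Work.MP_787500_nt.AC
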