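import Mathlib
import Pool.Agent.Work.MP_787500_nt.H10_Kappa
import Pool.Agent.Work.MP_787500_nt.AC.Defs
import Pool.Agent.Work.MP_787500_nt.AC.Ev
import Pool.Agent.Work.MP_787500_nt.AC.Mat
import Pool.Agent.Work.MP_787500_nt.AC.Gal
import Pool.Agent.Work.MP_787500_nt.AC.KumA
import Pool.Agent.Work.MP_787500_nt.AC.KumB

/-!
# Module KUMD: the dimension of the Kummer space

`B = (W⁄F).Point` is finitely generated of rank `r`; take `b : Fin r → B` whose classes are a basis
of `B` modulo torsion (`exists_basis_mod_torsion`: `AddCommGroup.torsion`, the quotient is a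
finitely generated torsion-free, hence free module, `Module.finBasis` etc.; its rank is
`finrank ℤ B`). With Kummer cocycles `κ i` of `b i` the space is spanned by the `κ i` and the
coboundaries: a Kummer cocycle of `P = ∑ m i • b i + T`, `T` torsion, is `∑ m i κ i` plus a coboundary
(`IsKummer.add`, `zsmul`, `sub_mem`, `of_torsion`). The `κ i` are independent modulo the coboundaries:
let `∑ a i • κ i` be a coboundary `cobLin ρ v`; multiply by a power of 2: `a i : ℤ_[2]`, `v` integral.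
For every `n`, with integers `m i` congruent to `a i` modulo `2 ^ n`:
`∑ m i • (gact W σ (d i n) - d i n) = gact W σ V - V`, `V = ev t v n`, so
`∑ m i • d i n - V` is fixed by all `σ`, hence rational (`exists_incl`), and multiplying by `2 ^ n`:
`∑ m i • b i = 2 ^ n • q`; hence `2 ^ n ∣ m i` (basis modulo torsion), so `2 ^ n ∣ a i` for all `n`, and
`a i = 0`.
-/

set_option autoImplicit false

namespace Pool.Agent.Work.MP_787500_nt.AC

open IsDedekindDomain NumberField WeierstrassCurve WeierstrassCurve.Affine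
open Pool.Agent.Work.MP_787500_nt
open Pool.Agent.Work.MP_787500_nt.OddP (AbsGal cocycles cobLin)

universe u

theorem exists_basis_mod_torsion (B : Type*) [AddCommGroup B] [AddGroup.FG B] :
    ∃ b : Fin (Module.finrank ℤ B) → B,
      (∀ P : B, ∃ (m : Fin (Module.finrank ℤ B) → ℤ) (k : ℤ), k ≠ 0 ∧
        k • (P - ∑ i, m i • b i) = 0) ∧
      ∀ (m : Fin (Module.finrank ℤ B) → ℤ) (N : ℤ) (q : B), ∑ i, m i • b i = N • q →
        ∀ i, N ∣ m i := by
  classical
  have hfin : Module.Finite ℤ B := Module.Finite.iff_addGroup_fg.2 inferInstance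
  set T := Submodule.torsion ℤ B with hT
  have : Module.Free ℤ (B ⧸ T) := Module.free_of_finite_type_torsion_free'
  have hrk : Module.finrank ℤ (B ⧸ T) = Module.finrank ℤ B := by
    rw [Module.finrank, Module.finrank, rank_quotient_eq_of_le_torsion (le_refl _)]
  set β : Module.Basis (Fin (Module.finrank ℤ B)) ℤ (B ⧸ T) :=
    (Module.finBasis ℤ (B ⧸ T)).reindex (finCongr hrk) with hβ
  choose b hb using fun i => Submodule.mkQ_surjective T (β i)
  refine ⟨b, fun P => ?_, fun m N q h i => ?_⟩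
  · have h1 : P - ∑ i, β.repr (T.mkQ P) i • b i ∈ T := by
      rw [← Submodule.Quotient.mk_eq_zero, ← Submodule.mkQ_apply, map_sub, map_sum, sub_eq_zero]
      simp only [map_smul, hb]
      exact (β.sum_repr _).symm
    have h2 : P - ∑ i, β.repr (T.mkQ P) i • b i ∈ Submodule.torsion ℤ B := h1
    rw [Submodule.mem_torsion_iff] at h2
    obtain ⟨k, hk⟩ := h2
    exact ⟨fun i => β.repr (T.mkQ P) i, (k : ℤ), nonZeroDivisors.ne_zero k.2, hk⟩
  · have h1 : ∑ i, m i • β i = N • T.mkQ q := by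
      rw [← map_smul, ← h, map_sum]
      simp only [map_smul, hb]
    have h2 := congrArg (fun z => β.repr z i) h1
    simp only [map_smul, β.repr_sum_self] at h2
    rw [h2]
    exact ⟨β.repr (T.mkQ q) i, by simp⟩

private theorem exists_pow_int {ι : Type*} [Finite ι] (z : ι → ℚ_[2]) :
    ∃ K : ℕ, ∀ K', K ≤ K' → ∀ i, ∃ w : ℤ_[2], (w : ℚ_[2]) = 2 ^ K' * z i := by
  have h1 : ∀ x : ℚ_[2], ∃ K : ℕ, ∀ K', K ≤ K' → ∃ w : ℤ_[2], (w : ℚ_[2]) = 2 ^ K' * x := by
    intro x
    have ht : Filter.Tendsto (fun k : ℕ => (1 / 2 : ℝ) ^ k * ‖x‖) Filter.atTop (nhds (0 * ‖x‖)) :=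
      (tendsto_pow_atTop_nhds_zero_of_lt_one (by norm_num) (by norm_num)).mul_const _
    rw [zero_mul] at ht
    obtain ⟨K, hK⟩ := Filter.eventually_atTop.1 (ht.eventually (gt_mem_nhds zero_lt_one))
    refine ⟨K, fun K' hK' => ⟨⟨2 ^ K' * x, ?_⟩, rfl⟩⟩
    have h2 := hK K' hK'
    have h3 : ‖(2 : ℚ_[2])‖ = 1 / 2 := by
      have := Padic.norm_p (p := 2)
      rw [one_div]
      exact_mod_cast this
    rw [norm_mul, norm_pow, h3]
    exact h2.le
  choose K hK using fun i => h1 (z i)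
  obtain ⟨M, hM⟩ := Finite.exists_le K
  exact ⟨M, fun K' hK' i => hK i K' ((hM i).trans hK')⟩

private theorem eq_zero_of_dvd' {x : ℤ_[2]} (h : ∀ n : ℕ, (2 : ℤ_[2]) ^ n ∣ x) : x = 0 := by
  have h1 : ∀ n : ℕ, ‖x‖ ≤ ((2 : ℕ) : ℝ) ^ (-(n : ℤ)) := by
    intro n
    rw [PadicInt.norm_le_pow_iff_mem_span_pow, Ideal.mem_span_singleton]
    exact_mod_cast h n
  have h2 : ‖x‖ ≤ 0 := by
    apply ge_of_tendsto' (x := Filter.atTop) (f := fun n : ℕ => ((1 / 2 : ℝ)) ^ n)
    · exact tendsto_pow_atTop_nhds_zero_of_lt_one (by norm_num) (by norm_num)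
    · intro n
      have := h1 n
      rw [zpow_neg, zpow_natCast] at this
      rw [one_div, inv_pow]
      exact_mod_cast this
  exact norm_le_zero_iff.1 h2

section aux

variable {A : Type*} [AddCommGroup A] {s : Fin 2 → ℕ → A}

/-- the evaluation as a homomorphism -/
private noncomputable def evH' (hs : IsTateBasis s) (n : ℕ) : (Fin 2 → ℤ_[2]) →+ A :=
  AddMonoidHom.mk' (fun c => ev s c n) (fun c c' => ev_add hs c c' n)

private theorem ev_sub' (hs : IsTateBasis s) (c c' : Fin 2 → ℤ_[2]) (n : ℕ) :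
    ev s (c - c') n = ev s c n - ev s c' n := map_sub (evH' hs n) c c'

private theorem ev_sum' (hs : IsTateBasis s) {ι : Type*} (S : Finset ι) (c : ι → Fin 2 → ℤ_[2])
    (n : ℕ) : ev s (∑ i ∈ S, c i) n = ∑ i ∈ S, ev s (c i) n := map_sum (evH' hs n) c S

end aux

private theorem actLin_cast' (M : Matrix (Fin 2) (Fin 2) ℤ_[2]) (v : Fin 2 → ℤ_[2]) :
    OddP.actLin M (fun j => (v j : ℚ_[2])) = fun i => ((M.mulVec v i : ℤ_[2]) : ℚ_[2]) := by
  funext i
  show ∑ j, (M i j : ℚ_[2]) * (v j : ℚ_[2]) = _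
  rw [Matrix.mulVec, dotProduct, Fin.sum_univ_two, Fin.sum_univ_two]
  push_cast
  rfl

variable {F : Type u} [Field F] [NumberField F] {W : WeierstrassCurve.Affine F} {e1 e2 e3 : F}
variable {t : Fin 2 → ℕ → (W⁄(AlgebraicClosure F)).Point}
variable {ρ : AbsGal F →* Matrix (Fin 2) (Fin 2) ℤ_[2]}

open scoped Classical in
/-- independence -/
theorem kummer_indep (hr : IsTateRep W t ρ) {l : ℕ} {b : Fin l → (W⁄F).Point}
    (hb : ∀ (m : Fin l → ℤ) (N : ℤ) (q : (W⁄F).Point), ∑ i, m i • b i = N • q → ∀ i, N ∣ m i)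
    {c : Fin l → AbsGal F → Fin 2 → ℚ_[2]} (hc : ∀ i, IsKummer W t (b i) (c i))
    {a : Fin l → ℚ_[2]} (ha : ∑ i, a i • c i ∈ LinearMap.range (cobLin ρ)) : a = 0 := by
  obtain ⟨v, hv⟩ := ha
  obtain ⟨K1, hK1⟩ := exists_pow_int a
  obtain ⟨K2, hK2⟩ := exists_pow_int v
  set K := max K1 K2 with hK
  choose a' ha' using hK1 K (le_max_left _ _)
  choose v' hv' using hK2 K (le_max_right _ _)
  choose d y h0 h2 hy hcy using hc
  have ht := hr.1
  have hpow : ∀ i n, (2 ^ n) • d i n = incl W (b i) := by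
    intro i n
    induction n with
    | zero => rw [pow_zero, one_smul, h0]; rfl
    | succ n ih => rw [pow_succ, mul_smul, h2, ih]
  -- the relation with integral coefficients
  have hrel : ∀ σ, (ρ σ).mulVec v' - v' = ∑ i, (fun j => a' i * y i σ j) := by
    intro σ
    funext j
    apply Subtype.ext
    have h3 : (OddP.actLin (ρ σ) v - v) j = (∑ i, a i • c i) σ j := by
      rw [← hv]
      rfl
    have h4 : OddP.actLin (ρ σ) (fun j => (v' j : ℚ_[2])) = (2 : ℚ_[2]) ^ K • OddP.actLin (ρ σ) v := by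
      have h5 : (fun j => (v' j : ℚ_[2])) = (2 : ℚ_[2]) ^ K • v := by
        funext j
        rw [hv', Pi.smul_apply, smul_eq_mul]
      rw [h5, map_smul]
    rw [actLin_cast'] at h4
    have h6 := congrFun h4 j
    show (((ρ σ).mulVec v' j - v' j : ℤ_[2]) : ℚ_[2]) = (((∑ i, fun j => a' i * y i σ j) j : ℤ_[2]) : ℚ_[2])
    rw [Finset.sum_apply, PadicInt.coe_sub, PadicInt.coe_sum, h6, hv']
    rw [Finset.sum_apply, Finset.sum_apply] at h3
    simp only [Pi.smul_apply, Pi.sub_apply, smul_eq_mul, PadicInt.coe_mul, ha', hcy] at h3 ⊢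
    rw [← mul_sub, h3, Finset.mul_sum]
    refine Finset.sum_congr rfl fun i _ => ?_
    ring
  have hdvd : ∀ n i, (2 : ℤ_[2]) ^ n ∣ a' i := by
    intro n
    have hR : ∀ σ, gact W σ (∑ i, (a' i).appr n • d i n - ev t v' n) =
        ∑ i, (a' i).appr n • d i n - ev t v' n := by
      intro σ
      have h5 : gact W σ (ev t v' n) - ev t v' n =
          ∑ i, (a' i).appr n • (gact W σ (d i n) - d i n) := by
        rw [map_ev ht (f := gact W σ) (fun j => hr.2 σ j n), ← ev_sub' ht, hrel, ev_sum' ht]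
        refine Finset.sum_congr rfl fun i _ => ?_
        rw [ev_smul ht, hy]
      have h6 : ∑ i, (a' i).appr n • (gact W σ (d i n) - d i n) =
          gact W σ (∑ i, (a' i).appr n • d i n) - ∑ i, (a' i).appr n • d i n := by
        rw [map_sum, ← Finset.sum_sub_distrib]
        refine Finset.sum_congr rfl fun i _ => ?_
        rw [map_nsmul, nsmul_sub]
      rw [h6] at h5
      rw [map_sub]
      rw [sub_eq_sub_iff_add_eq_add] at h5 ⊢
      rw [← h5, add_comm]
    obtain ⟨q, hq⟩ := exists_incl hR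
    have h7 : ∑ i, (((a' i).appr n : ℕ) : ℤ) • b i = ((2 : ℤ) ^ n) • q := by
      apply Point.map_injective (W' := W) (Algebra.ofId F (AlgebraicClosure F))
      show incl W (∑ i, (((a' i).appr n : ℕ) : ℤ) • b i) = incl W (((2 : ℤ) ^ n) • q)
      have h8 : ((2 : ℤ) ^ n) • q = (2 ^ n : ℕ) • q := by
        rw [← natCast_zsmul]
        push_cast
        rfl
      rw [h8, map_sum, map_nsmul, hq, nsmul_sub, pow_ev ht, sub_zero, Finset.smul_sum]
      refine Finset.sum_congr rfl fun i _ => ?_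
      rw [natCast_zsmul, map_nsmul, ← hpow i n, smul_comm]
    intro i
    have h9 := hb _ _ _ h7 i
    obtain ⟨w, hw⟩ := h9
    have h10 : (2 : ℤ_[2]) ^ n ∣ (((a' i).appr n : ℕ) : ℤ_[2]) := by
      refine ⟨(w : ℤ_[2]), ?_⟩
      have := congrArg (fun z : ℤ => (z : ℤ_[2])) hw
      push_cast at this
      exact this
    have h11 := PadicInt.appr_spec n (a' i)
    rw [Ideal.mem_span_singleton] at h11
    have h12 : (2 : ℤ_[2]) ^ n ∣ a' i - ((a' i).appr n : ℤ_[2]) := by exact_mod_cast h11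
    have h13 := dvd_add h12 h10
    rwa [sub_add_cancel] at h13
  funext i
  have h14 := eq_zero_of_dvd' fun n => hdvd n i
  have h15 := ha' i
  rw [h14, PadicInt.coe_zero] at h15
  have h16 : (2 : ℚ_[2]) ^ K ≠ 0 := pow_ne_zero _ (by norm_num)
  exact (mul_eq_zero.1 h15.symm).resolve_left h16

omit [NumberField F] in
open scoped Classical in
private theorem isKummer_sum (hr : IsTateRep W t ρ) [CharZero F] {l : ℕ} {b : Fin l → (W⁄F).Point}
    {c : Fin l → AbsGal F → Fin 2 → ℚ_[2]} (hc : ∀ i, IsKummer W t (b i) (c i)) (m : Fin l → ℤ)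
    (S : Finset (Fin l)) :
    IsKummer W t (∑ i ∈ S, m i • b i) (∑ i ∈ S, ((m i : ℤ) : ℚ_[2]) • c i) := by
  induction S using Finset.induction_on with
  | empty =>
    rw [Finset.sum_empty, Finset.sum_empty]
    refine ⟨fun _ => 0, fun _ => 0, ?_, fun n => nsmul_zero 2, fun σ n => ?_, fun σ j => ?_⟩
    · exact (map_zero _).symm
    · rw [ev_zero hr.1, map_zero, sub_zero]
    · simp
  | insert i S hi ih =>
    rw [Finset.sum_insert hi, Finset.sum_insert hi]
    exact ((hc i).zsmul hr (m i)).add hr ih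

open scoped Classical in
theorem rank_kummerSpace (h : TwoTors W e1 e2 e3) (hr : IsTateRep W t ρ)
    (hFG : AddGroup.FG (W⁄F).Point) :
    Module.rank ℚ_[2] (kummerSpace W t ρ ⧸
      (LinearMap.range (cobLin ρ)).submoduleOf (kummerSpace W t ρ)) =
      (Module.finrank ℤ (W⁄F).Point : Cardinal) := by
  have := hFG
  obtain ⟨b, hb1, hb2⟩ := exists_basis_mod_torsion (W⁄F).Point
  choose κ hκ using fun i => exists_kummer h hr (b i)
  have hκS : ∀ i, κ i ∈ kummerSpace W t ρ := fun i =>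
    Submodule.mem_sup_left (Submodule.subset_span ⟨b i, hκ i⟩)
  have hle : kummerSpace W t ρ ≤
      Submodule.span ℚ_[2] (Set.range κ) ⊔ LinearMap.range (cobLin ρ) := by
    refine sup_le (Submodule.span_le.2 ?_) le_sup_right
    rintro c ⟨P, hc⟩
    obtain ⟨m, k, hk, hk0⟩ := hb1 P
    have h1 := isKummer_sum hr hκ m Finset.univ
    have h2 := hc.add hr (h1.zsmul hr (-1))
    have h3 : P + (-1 : ℤ) • ∑ i, m i • b i = P - ∑ i, m i • b i := by
      rw [neg_smul, one_smul, sub_eq_add_neg]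
    rw [h3] at h2
    have h4 := h2.of_torsion hr hk hk0
    have h5 : c = (∑ i, ((m i : ℤ) : ℚ_[2]) • κ i) +
        (c + (((-1 : ℤ) : ℚ_[2])) • ∑ i, ((m i : ℤ) : ℚ_[2]) • κ i) := by
      push_cast
      rw [neg_smul, one_smul]
      abel
    rw [h5]
    refine Submodule.add_mem_sup ?_ h4
    exact Submodule.sum_mem _ fun i _ => Submodule.smul_mem _ _ (Submodule.subset_span ⟨i, rfl⟩)
  set S := kummerSpace W t ρ with hS
  set C := (LinearMap.range (cobLin ρ)).submoduleOf S with hC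
  let u : Fin (Module.finrank ℤ (W⁄F).Point) → S ⧸ C := fun i => C.mkQ ⟨κ i, hκS i⟩
  have hsum : ∀ g : Fin (Module.finrank ℤ (W⁄F).Point) → ℚ_[2],
      ∑ i, g i • u i = C.mkQ (∑ i, g i • (⟨κ i, hκS i⟩ : S)) := by
    intro g
    rw [map_sum]
    simp only [map_smul]
    rfl
  have hcoe : ∀ g : Fin (Module.finrank ℤ (W⁄F).Point) → ℚ_[2],
      ((∑ i, g i • (⟨κ i, hκS i⟩ : S) : S) : AbsGal F → Fin 2 → ℚ_[2]) = ∑ i, g i • κ i := by
    intro g
    rw [Submodule.coe_sum]
    rfl
  have hli : LinearIndependent ℚ_[2] u := by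
    rw [Fintype.linearIndependent_iff]
    intro g hg
    rw [hsum, Submodule.mkQ_apply, Submodule.Quotient.mk_eq_zero, hC, Submodule.submoduleOf,
      Submodule.mem_comap, Submodule.subtype_apply, hcoe] at hg
    have := kummer_indep hr hb2 hκ hg
    intro i
    rw [this]
    rfl
  have hsp : ⊤ ≤ Submodule.span ℚ_[2] (Set.range u) := by
    rintro x -
    obtain ⟨⟨x, hx⟩, rfl⟩ := Submodule.mkQ_surjective C x
    obtain ⟨z, hz, w, hw, hzw⟩ := Submodule.mem_sup.1 (hle hx)
    obtain ⟨g, hg⟩ := (Submodule.mem_span_range_iff_exists_fun ℚ_[2]).1 hz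
    rw [Submodule.mem_span_range_iff_exists_fun]
    refine ⟨g, ?_⟩
    rw [hsum, ← sub_eq_zero, ← map_sub, Submodule.mkQ_apply, Submodule.Quotient.mk_eq_zero, hC,
      Submodule.submoduleOf, Submodule.mem_comap, Submodule.subtype_apply, Submodule.coe_sub, hcoe,
      hg]
    show z - x ∈ _
    rw [← hzw]
    have : z - (z + w) = -w := by abel
    show z - (z + w) ∈ _
    rw [this]
    exact Submodule.neg_mem _ hw
  rw [rank_eq_card_basis (Module.Basis.mk hli hsp), Fintype.card_fin]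

end Pool.Agent.Work.MP_787500_nt.AC
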