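import Mathlib
import Pool.Agent.Work.MP_787500_nt.AC.EYA
import Pool.Agent.Work.MP_787500_nt.AC.KumD

/-!
The Selmer space of `E × E0 ^ (2 i)`.
-/

set_option autoImplicit false

namespace Pool.Agent.Work.MP_787500_nt.AC

open IsDedekindDomain NumberField WeierstrassCurve WeierstrassCurve.Affine
open Pool.Agent.Work.MP_787500_nt

universe u

section alg

variable {i : ℕ}

private theorem v010 : vec i (.inl 0) * vec i (.inl 1) * vec i (.inl 0) = 0 := by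
  rw [mul_assoc, vec_comm (.inl 1) (.inl 0), mul_neg, ← mul_assoc, vec_sq, zero_mul, neg_zero]

private theorem v011 : vec i (.inl 0) * vec i (.inl 1) * vec i (.inl 1) = 0 := by
  rw [mul_assoc, vec_sq, mul_zero]

theorem spE_three : spE i ^ 3 = ⊥ := by
  rw [pow_succ, spE_sq, spE, Submodule.span_mul_span, Submodule.span_eq_bot]
  rintro _ ⟨_, rfl, _, ⟨j, rfl⟩, rfl⟩
  obtain rfl | rfl : j = 0 ∨ j = 1 := by
    revert j
    decide
  · exact v010
  · exact v011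

theorem piece_bot {c a b : ℕ} (h : 3 ≤ c) : piece i c a b = ⊥ := by
  obtain ⟨d, rfl⟩ := Nat.exists_eq_add_of_le h
  rw [piece, pow_add, spE_three, Submodule.bot_mul, Submodule.bot_mul, Submodule.bot_mul]

theorem dimMod_eq {M : Type u} [AddCommGroup M] [Module ℚ_[2] M] (S B : Set M)
    (A C : Submodule ℚ_[2] M) (hA : Submodule.span ℚ_[2] S = A) (hC : Submodule.span ℚ_[2] B = C) :
    dimMod S B = Module.rank ℚ_[2] (A ⧸ C.submoduleOf A) := by
  subst hA hC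
  rfl

end alg

variable {F : Type u} [Field F] {i : ℕ} {ρ : OddP.AbsGal F →* Matrix (Fin 2) (Fin 2) ℤ_[2]}
  {ψ : Fin 2 → OddP.AbsGal F →* ℤ_[2]ˣ}

theorem cobE_eq : (cobE ρ : Set (OddP.AbsGal F → Fin 2 → ℚ_[2])) =
    (LinearMap.range (OddP.cobLin ρ) : Set (OddP.AbsGal F → Fin 2 → ℚ_[2])) := by
  ext y
  constructor
  · rintro ⟨v, hv⟩
    exact ⟨v, funext fun σ => (hv σ).symm⟩
  · rintro ⟨v, rfl⟩
    exact ⟨v, fun σ => rfl⟩

theorem span_cobE : Submodule.span ℚ_[2] (cobE ρ) = LinearMap.range (OddP.cobLin ρ) := by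
  rw [cobE_eq, Submodule.span_eq]

theorem span_cobs : (Submodule.span ℚ_[2] (cobs i ρ ψ) : Submodule ℚ_[2] (OddP.AbsGal F → LX i)) =
    cobOn i ρ ψ (⋀[ℚ_[2]]^(2 * i + 1) (VX i)) ⊤ :=
  (congrArg (fun S : Set (OddP.AbsGal F → LX i) => Submodule.span ℚ_[2] S) cobs_eq).trans
    (Submodule.span_eq _)

theorem span_cobs_wedges (Y : Set (OddP.AbsGal F → Fin 2 → ℚ_[2])) :
    (Submodule.span ℚ_[2] (cobs i ρ ψ ∪ wedges i Y) : Submodule ℚ_[2] (OddP.AbsGal F → LX i)) =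
      cobOn i ρ ψ (⋀[ℚ_[2]]^(2 * i + 1) (VX i)) ⊤ ⊔ wedge i Y := by
  rw [← span_cobs, ← wedges_eq]
  exact Submodule.span_union _ _

theorem piece_eq (c a b : ℕ) : (subE i ^ c * subU i 0 ^ a * subU i 1 ^ b :
    Submodule ℚ_[2] (LX i)) = piece i c a b := by
  rw [piece, ← subE_eq, ← subU_eq, ← subU_eq]
  rfl

theorem stricts_sub {δ : OddP.AbsGal F →* ℤ_[2]ˣ} (hδ : ∀ σ, (δ σ : ℤ_[2]) = (ρ σ).det)
    (h1 : ∀ a b : ℤ, NoSelmer (twist (ψ 0 ^ a * ψ 1 ^ b)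
      (1 : OddP.AbsGal F →* Matrix (Fin 1) (Fin 1) ℤ_[2])))
    (h2 : ∀ a b : ℤ, NoSelmer (twist (ψ 0 ^ a * ψ 1 ^ b) ρ))
    (h3 : ∀ a b : ℤ, NoSelmer (twist (ψ 0 ^ a * ψ 1 ^ b * δ)
      (1 : OddP.AbsGal F →* Matrix (Fin 1) (Fin 1) ℤ_[2]))) : stricts i ρ ψ ⊆ cobs i ρ ψ := by
  rintro x ⟨P, c, a, b, hP, h2P, hs, hx⟩
  have hx' : x ∈ strict i ρ ψ (piece i c a b) P := by
    rw [← piece_eq]
    exact isStrict_iff.1 hx
  refine isCobOn_iff.2 ?_
  show x ∈ cobOn i ρ ψ (⋀[ℚ_[2]]^(2 * i + 1) (VX i)) ⊤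
  rcases Nat.lt_or_ge c 3 with hc | hc
  · have h4 := strict_le hδ h1 h2 h3 hP h2P (a := a) (b := b) (Nat.lt_succ_iff.1 hc) hx'
    rw [← hs]
    exact cobOn_mono (piece_le c a b) _ h4
  · rw [piece_bot hc] at hx'
    have h5 : x = 0 := funext fun σ => (Submodule.mem_bot ℚ_[2]).1 (hx'.1.1.1 σ)
    rw [h5]
    exact Submodule.zero_mem _

section number

variable [NumberField F] {W : WeierstrassCurve.Affine F}
  {t : Fin 2 → ℕ → (W⁄(AlgebraicClosure F)).Point}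

open scoped Classical in
theorem selE_eq (hr : IsTateRep W t ρ) :
    (selE W t ρ : Set (OddP.AbsGal F → Fin 2 → ℚ_[2])) = (kumLocSpace hr : Set _) := by
  ext y
  exact ⟨fun h => ⟨⟨h.1, h.2.1⟩, h.2.2⟩, fun h => ⟨h.1.1, h.1.2, h.2⟩⟩

open scoped Classical in
theorem span_selE (hr : IsTateRep W t ρ) :
    Submodule.span ℚ_[2] (selE W t ρ) = kumLocSpace hr := by
  rw [selE_eq hr, Submodule.span_eq]

open scoped Classical in
theorem selY_span {δ : OddP.AbsGal F →* ℤ_[2]ˣ} (hδ : ∀ σ, (δ σ : ℤ_[2]) = (ρ σ).det)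
    (h1 : ∀ a b : ℤ, NoSelmer (twist (ψ 0 ^ a * ψ 1 ^ b)
      (1 : OddP.AbsGal F →* Matrix (Fin 1) (Fin 1) ℤ_[2])))
    (h2 : ∀ a b : ℤ, NoSelmer (twist (ψ 0 ^ a * ψ 1 ^ b) ρ))
    (h3 : ∀ a b : ℤ, NoSelmer (twist (ψ 0 ^ a * ψ 1 ^ b * δ)
      (1 : OddP.AbsGal F →* Matrix (Fin 1) (Fin 1) ℤ_[2]))) :
    Submodule.span ℚ_[2] (selY i W t ρ ψ) =
      Submodule.span ℚ_[2] (cobs i ρ ψ ∪ wedges i (selE W t ρ)) := by
  apply le_antisymm
  · rw [Submodule.span_le]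
    exact Set.union_subset Submodule.subset_span fun x hx =>
      Submodule.subset_span (Set.mem_union_left _ (stricts_sub hδ h1 h2 h3 hx))
  · exact Submodule.span_mono Set.subset_union_left

open scoped Classical in
theorem dim_selY (hr : IsTateRep W t ρ)
    (hsp : Submodule.span ℚ_[2] (selY i W t ρ ψ) =
      Submodule.span ℚ_[2] (cobs i ρ ψ ∪ wedges i (selE W t ρ))) :
    dimMod (selY i W t ρ ψ) (cobs i ρ ψ) = ((2 * i).choose i : Cardinal) ^ 2 *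
      dimMod (selE W t ρ) (cobE ρ) := by
  have e1 := dimMod_eq (M := OddP.AbsGal F → LX i) (selY i W t ρ ψ) (cobs i ρ ψ)
    (cobOn i ρ ψ (⋀[ℚ_[2]]^(2 * i + 1) (VX i)) ⊤ ⊔
      wedge i (kumLocSpace hr : Set (OddP.AbsGal F → Fin 2 → ℚ_[2])))
    (cobOn i ρ ψ (⋀[ℚ_[2]]^(2 * i + 1) (VX i)) ⊤) (by
      refine Eq.trans hsp ?_
      rw [← selE_eq hr]
      exact span_cobs_wedges _) span_cobs
  refine Eq.trans e1 ?_
  rw [rank_wedge, dimMod_eq _ _ _ _ (span_selE hr) span_cobE]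

open scoped Classical in
theorem selY_kum (hr : IsTateRep W t ρ) {d : ℕ} (hk : KummerOnto W t ρ d)
    (hsp : Submodule.span ℚ_[2] (selY i W t ρ ψ) =
      Submodule.span ℚ_[2] (cobs i ρ ψ ∪ wedges i (selE W t ρ))) :
    Submodule.span ℚ_[2] (selY i W t ρ ψ) = Submodule.span ℚ_[2] (cobs i ρ ψ ∪ wedges i (kum W t)) ∧
      dimMod (selY i W t ρ ψ) (cobs i ρ ψ) = ((2 * i).choose i : Cardinal) ^ 2 * d := by
  have he : kumLocSpace hr = kummerSpace W t ρ := by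
    ext x
    exact hk.1 x
  constructor
  · refine hsp.trans ?_
    refine Eq.trans (span_cobs_wedges (F := F) (i := i) (ρ := ρ) (ψ := ψ) (selE W t ρ)) ?_
    refine Eq.trans ?_ (span_cobs_wedges (F := F) (i := i) (ρ := ρ) (ψ := ψ) (kum W t)).symm
    rw [selE_eq hr, he]
    exact (ajX_eq (i := i) (ρ := ρ) (ψ := ψ) (W := W) (t := t)).symm
  · rw [dim_selY hr hsp, dimMod_eq _ _ _ _ (span_selE hr) span_cobE, he]
    congr 1
    exact hk.2

open scoped Classical in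
/-- the rank is at most the dimension of the Selmer space -/
theorem finrank_le_selE {e1 e2 e3 : F} (h : TwoTors W e1 e2 e3) (hr : IsTateRep W t ρ)
    (hFG : AddGroup.FG (W⁄F).Point) : (Module.finrank ℤ (W⁄F).Point : Cardinal) ≤
      dimMod (selE W t ρ) (cobE ρ) := by
  rw [dimMod_eq _ _ _ _ (span_selE hr) span_cobE]
  refine le_trans (le_of_eq (rank_kummerSpace h hr hFG).symm) ?_
  show Module.rank ℚ_[2] (kummerSpace W t ρ ⧸
    (LinearMap.range (OddP.cobLin ρ)).submoduleOf (kummerSpace W t ρ)) ≤ _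
  have hle : kummerSpace W t ρ ≤ kumLocSpace hr := fun x hx => kummer_le hr hx
  let g : kummerSpace W t ρ →ₗ[ℚ_[2]] (kumLocSpace hr ⧸
      (LinearMap.range (OddP.cobLin ρ)).submoduleOf (kumLocSpace hr)) :=
    ((LinearMap.range (OddP.cobLin ρ)).submoduleOf (kumLocSpace hr)).mkQ ∘ₗ
      Submodule.inclusion hle
  have hker : LinearMap.ker g =
      (LinearMap.range (OddP.cobLin ρ)).submoduleOf (kummerSpace W t ρ) := by
    ext x
    rw [LinearMap.mem_ker, LinearMap.comp_apply, Submodule.mkQ_apply,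
      Submodule.Quotient.mk_eq_zero]
    rfl
  rw [← hker, g.quotKerEquivRange.rank_eq]
  exact Submodule.rank_le _

open scoped Classical in
/-- the Selmer space of `E` when the Kummer map is onto -/
theorem selE_kum (hr : IsTateRep W t ρ) {d : ℕ} (hk : KummerOnto W t ρ d) :
    Submodule.span ℚ_[2] (selE W t ρ) = Submodule.span ℚ_[2] (cobE ρ ∪ kum W t) := by
  have he : kumLocSpace hr = kummerSpace W t ρ := by
    ext x
    exact hk.1 x
  rw [span_selE hr, he, Submodule.span_union, span_cobE, sup_comm]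
  rfl

end number

end Pool.Agent.Work.MP_787500_nt.AC
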