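import Mathlib
import Pool.Agent.Work.MP_787500_nt.H9_Descent
import Pool.Agent.Work.MP_787500_nt.RS.Defs
import Pool.Agent.Work.MP_787500_nt.RS.Isog
import Pool.Agent.Work.MP_787500_nt.RS.Cm
import Pool.Agent.Work.MP_787500_nt.AC.Defs
import Pool.Agent.Work.MP_787500_nt.AC.Gal

/-!
# Module CM: the complex multiplication of the curve `y ^ 2 = x (x - 1) (x - (1 - 3 s) / 2)`

Put `w' = (1 + s) / 2`, `w = (1 - s) / 2`: `w + w' = 1`, `w w' = 2` and `w' ^ 4 = (1 - 3 s) / 2`.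
The proof of `RS.cm_torsIn` (file RS/Cm.lean) constructs `α` over an algebraically closed field `Ω`
(here the algebraic closure of `F`) and proves that it commutes with the automorphisms; copy it (the
private lemma `cm_data` too). Take `T0 = (0, 0)`, which is the kernel (`hα0`), and
`T1 = (1, 0)`; `α (1, 0) = (1, 0)` by the formula (`isogX 0 1 (1 / w) 1 0 = 1`, `isogY = 0`).
-/

set_option autoImplicit false

namespace Pool.Agent.Work.MP_787500_nt.AC

open IsDedekindDomain NumberField WeierstrassCurve WeierstrassCurve.Affine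
open Pool.Agent.Work.MP_787500_nt
open Pool.Agent.Work.MP_787500_nt.OddP (AbsGal)

universe u

private theorem cm_data {L : Type*} [Field L] [CharZero L] {w v : L} (hadd : w + v = 1)
    (hmul : w * v = 2) : RS.IsogData 0 (v ^ 4) 1 1 (v ^ 4) 0 (v ^ 2) (1 / w) := by
  have hw : w ≠ 0 := by
    rintro rfl
    norm_num at hmul
  have hv : w = 1 - v := by linear_combination hadd
  have hq : v ^ 2 = v - 2 := by
    subst hv
    linear_combination -hmul
  have hw2 : w ^ 2 ≠ 0 := pow_ne_zero 2 hw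
  have k1 : 1 + v ^ 2 = -w := by rw [hv, hq]; ring
  have k2 : v ^ 2 - 1 = w ^ 3 := by
    subst hv
    linear_combination (v - 1) * hq
  refine ⟨by ring, one_div_ne_zero hw, ?_, ?_⟩
  · rw [one_div, inv_pow, eq_inv_mul_iff_mul_eq₀ hw2]
    have : v ^ 4 = (1 + v ^ 2) * (v ^ 2 - 1) + 1 := by ring
    have e1 : v ^ 4 - 1 = -w ^ 4 := by rw [this, k1, k2]; ring
    have e2 : 2 * 0 - v ^ 4 - 1 + 2 * v ^ 2 = -(v ^ 2 - 1) ^ 2 := by ring
    rw [e1, e2, k2]; ring
  · rw [one_div, inv_pow, eq_inv_mul_iff_mul_eq₀ hw2]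
    have e2 : 2 * 0 - v ^ 4 - 1 - 2 * v ^ 2 = -(1 + v ^ 2) ^ 2 := by ring
    rw [e2, k1]; ring

private theorem cm_gen {K Ω : Type*} [Field K] [CharZero K] [Field Ω] [Algebra K Ω]
    [DecidableEq Ω] {w w' : K} (hadd : w + w' = 1) (hmul : w * w' = 2)
    {W : WeierstrassCurve.Affine K} (h : TwoTors W (w' ^ 4) 1 0) :
    ∃ (α : (W⁄Ω).Point →+ (W⁄Ω).Point) (T0 T1 : (W⁄Ω).Point),
      (∀ (σ : Ω ≃ₐ[K] Ω) P, Point.map (W' := W) (σ : Ω →ₐ[K] Ω) (α P) =
        α (Point.map (W' := W) (σ : Ω →ₐ[K] Ω) P)) ∧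
      α T0 = 0 ∧ α T1 = T1 ∧ T0 + T0 = 0 ∧ T1 + T1 = 0 ∧ T0 ≠ 0 ∧ T1 ≠ 0 ∧ T0 + T1 ≠ 0 ∧
      ∀ Q : (W⁄Ω).Point, Q + Q = 0 → Q = 0 ∨ Q = T0 ∨ Q = T1 ∨ Q = T0 + T1 := by
  have : CharZero Ω := charZero_of_injective_algebraMap (algebraMap K Ω).injective
  have ht : TwoTors (W⁄Ω) ((algebraMap K Ω w') ^ 4) 1 0 := by
    have := h.bc Ω
    rwa [map_pow, map_one, map_zero] at this
  set v : Ω := algebraMap K Ω w' with hv
  have D : RS.IsogData 0 (v ^ 4) 1 1 (v ^ 4) 0 (v ^ 2) (1 / algebraMap K Ω w) := by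
    apply cm_data
    · rw [hv, ← map_add, hadd, map_one]
    · rw [hv, ← map_mul, hmul, map_ofNat]
  obtain ⟨α, hα0, hα⟩ := RS.exists_isog ht.rot.rot ht.rot.swap D
  have hαT : α (tor ht.rot) = tor ht.rot := by
    obtain ⟨hn, h1⟩ := hα 1 0 (ht.rot.nonsingular_of_eq (by ring)) one_ne_zero
    rw [tor, h1]
    simp only [Point.some.injEq]
    refine ⟨?_, ?_⟩
    · rw [RS.isogX]; ring
    · rw [RS.isogY]; ring
  have hcomm : ∀ (σ : Ω ≃ₐ[K] Ω) (P : (W⁄Ω).Point),
      Point.map (W' := W) (σ : Ω →ₐ[K] Ω) (α P) =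
        α (Point.map (W' := W) (σ : Ω →ₐ[K] Ω) P) := by
    intro σ P
    have hc : ∀ x : K, (σ : Ω →ₐ[K] Ω) (algebraMap K Ω x) = algebraMap K Ω x :=
      fun x => AlgHom.commutes _ x
    rcases P with _ | ⟨x, y, hn⟩
    · rw [← Point.zero_def, map_zero, map_zero, map_zero]
    · by_cases hx : x = 0
      · have hy : y = 0 := by
          have := ht.eq_of_nonsingular hn
          rw [hx, sub_zero, mul_zero] at this
          exact pow_eq_zero_iff (two_ne_zero) |>.1 this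
        have hP : (Point.some x y hn : (W⁄Ω).Point) = tor ht.rot.rot := by
          rw [tor]
          simp only [Point.some.injEq]
          exact ⟨hx, hy⟩
        have hP' : Point.map (W' := W) (σ : Ω →ₐ[K] Ω) (tor ht.rot.rot) = tor ht.rot.rot := by
          rw [tor, Point.map_some]
          simp only [Point.some.injEq]
          exact ⟨map_zero _, map_zero _⟩
        rw [hP, hα0, hP', hα0, map_zero]
      · have hx' : (σ : Ω →ₐ[K] Ω) x ≠ 0 := by
          intro h0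
          apply hx
          exact (map_eq_zero_iff _ (σ : Ω →ₐ[K] Ω).injective).1 h0
        obtain ⟨hn1, h1⟩ := hα x y hn hx
        rw [h1, Point.map_some, Point.map_some]
        obtain ⟨hn2, h2⟩ := hα ((σ : Ω →ₐ[K] Ω) x) ((σ : Ω →ₐ[K] Ω) y)
          ((baseChange_nonsingular W (σ : Ω →ₐ[K] Ω).injective ..).mpr hn) hx'
        rw [h2]
        simp only [Point.some.injEq]
        have hcw := hc w
        have hcv := hc w'
        rw [← hv] at hcv
        refine ⟨?_, ?_⟩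
        · rw [RS.isogX, RS.isogX]
          simp only [map_add, map_div₀, map_mul, map_pow, map_sub, map_one, map_zero, hcw]
        · rw [RS.isogY, RS.isogY]
          simp only [map_div₀, map_mul, map_pow, map_sub, map_one, map_zero, hcw, hcv]
  have hadd2 : tor ht.rot.rot + tor ht.rot = tor ht :=
    (add_comm _ _).trans (tor_add_rot ht.rot)
  refine ⟨α, tor ht.rot.rot, tor ht.rot, hcomm, hα0, hαT, tor_add_tor _, tor_add_tor _,
    tor_ne_zero _, tor_ne_zero _, ?_, fun Q hQ => ?_⟩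
  · rw [hadd2]
    exact tor_ne_zero _
  · rw [hadd2]
    rcases two_torsion_cases ht hQ with hh | hh | hh | hh
    · exact Or.inl hh
    · exact Or.inr (Or.inr (Or.inr hh))
    · exact Or.inr (Or.inr (Or.inl hh))
    · exact Or.inr (Or.inl hh)

open scoped Classical in
theorem exists_cm {F : Type u} [Field F] [CharZero F] {s : F} (hs : s ^ 2 = -7) :
    ∃ (α : ((legendre 0 1 ((1 - 3 * s) / 2))⁄(AlgebraicClosure F)).Point →+
        ((legendre 0 1 ((1 - 3 * s) / 2))⁄(AlgebraicClosure F)).Point)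
      (T0 T1 : ((legendre 0 1 ((1 - 3 * s) / 2))⁄(AlgebraicClosure F)).Point),
      (∀ (σ : AbsGal F) P, gact (legendre 0 1 ((1 - 3 * s) / 2)) σ (α P) =
        α (gact (legendre 0 1 ((1 - 3 * s) / 2)) σ P)) ∧
      α T0 = 0 ∧ α T1 = T1 ∧ T0 + T0 = 0 ∧ T1 + T1 = 0 ∧ T0 ≠ 0 ∧ T1 ≠ 0 ∧ T0 + T1 ≠ 0 ∧
      ∀ Q : ((legendre 0 1 ((1 - 3 * s) / 2))⁄(AlgebraicClosure F)).Point, Q + Q = 0 →
        Q = 0 ∨ Q = T0 ∨ Q = T1 ∨ Q = T0 + T1 := by
  have hadd : (1 - s) / 2 + (1 + s) / 2 = 1 := by ring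
  have hmul : (1 - s) / 2 * ((1 + s) / 2) = 2 := by linear_combination -(1 / 4) * hs
  have h4 : ((1 + s) / 2) ^ 4 = (1 - 3 * s) / 2 := by
    linear_combination ((s ^ 2 + 4 * s - 1) / 16) * hs
  have hne : (1 - 3 * s) / 2 ≠ 0 := by
    intro h0
    have h1 : s = 1 / 3 := by linear_combination (-2 / 3) * h0
    rw [h1] at hs
    norm_num at hs
  have hne1 : (1 - 3 * s) / 2 ≠ 1 := by
    intro h0
    have h1 : s = -1 / 3 := by linear_combination (-2 / 3) * h0
    rw [h1] at hs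
    norm_num at hs
  have hT : TwoTors (legendre 0 1 ((1 - 3 * s) / 2)) (((1 + s) / 2) ^ 4) 1 0 := by
    rw [h4]
    refine ⟨rfl, rfl, ?_, ?_, ?_, hne1, one_ne_zero, hne.symm⟩
    · show -(0 + 1 + (1 - 3 * s) / 2) = -((1 - 3 * s) / 2 + 1 + 0)
      ring
    · show 0 * 1 + 1 * ((1 - 3 * s) / 2) + (1 - 3 * s) / 2 * 0 =
        (1 - 3 * s) / 2 * 1 + 1 * 0 + 0 * ((1 - 3 * s) / 2)
      ring
    · show -(0 * 1 * ((1 - 3 * s) / 2)) = -((1 - 3 * s) / 2 * 1 * 0)
      ring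
  exact cm_gen (Ω := AlgebraicClosure F) hadd hmul hT

end Pool.Agent.Work.MP_787500_nt.AC
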