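import Mathlib
import Pool.Agent.Work.MP_787500_nt.AC.Defs
import Pool.Agent.Work.MP_787500_nt.AC.Ev
import Pool.Agent.Work.MP_787500_nt.AC.Mat

/-!
# Module EIG: an eigenbasis of the Tate module

`α` has the matrix `M` in the basis `t` (`exists_mat`). Since `α (t 0 1) = 0` and
`α (t 1 1) = t 1 1`, modulo 2 one has `M 0 0 = 0`, `M 1 0 = 0`, `M 0 1 = 0`, `M 1 1 = 1`
(`ev_eq_zero_iff` for `n = 1`). Hensel's lemma (`hensels_lemma`, or directly
`PadicInt`-completeness) for `M 0 1 * z ^ 2 + (M 0 0 - M 1 1) * z - M 1 0` near `z = 0` gives an even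
root `z`, and for `M 1 0 * z' ^ 2 + (M 1 1 - M 0 0) * z' - M 0 1` an even root `z'`. Then `(1, z)` and
`(z', 1)` are eigenvectors of `M` with eigenvalues `l 0 = M 0 0 + M 0 1 * z` (even) and
`l 1 = M 1 0 * z' + M 1 1` (odd). Put `t' 0 n = ev t ![1, z] n`, `t' 1 n = ev t ![z', 1] n`. The matrix
with these columns has odd determinant `1 - z * z'`, a unit, so `t'` is a Tate basis.
`eigen_of_comm`: `f` has a matrix `N` in the basis `t'`; `f α = α f` gives
`N i j * l j = l i * N i j`, so `N i j = 0` for `i ≠ j` (`l 0 ≠ l 1`, `ℤ_[2]` is a domain).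
-/

set_option autoImplicit false

namespace Pool.Agent.Work.MP_787500_nt.AC

variable {A : Type*} [AddCommGroup A] {t : Fin 2 → ℕ → A}

/-- a quadratic equation with odd middle coefficient and even constant term has an even root -/
private theorem exists_even_root (a b c : ℤ_[2]) (hb : ‖b‖ = 1) (hc : (2 : ℤ_[2]) ∣ c) :
    ∃ z : ℤ_[2], (2 : ℤ_[2]) ∣ z ∧ a * z ^ 2 + b * z + c = 0 := by
  have hc' : ‖c‖ < 1 := by
    rw [PadicInt.norm_lt_one_iff_dvd]
    exact_mod_cast hc
  have hl := hensels_lemma (p := 2) (R := ℤ_[2])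
    (F := Polynomial.C a * Polynomial.X ^ 2 + Polynomial.C b * Polynomial.X + Polynomial.C c)
    (a := 0) (by
      simp only [Polynomial.derivative_add, Polynomial.derivative_mul, Polynomial.derivative_C,
        Polynomial.derivative_X_pow, Polynomial.derivative_X, map_add, map_mul, map_pow,
        Polynomial.aeval_C, Polynomial.aeval_X, Algebra.algebraMap_self, RingHom.id_apply, map_zero,
        map_one]
      simp [hb]
      exact hc')
  obtain ⟨z, hz, hz1, -⟩ := hl
  refine ⟨z, ?_, ?_⟩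
  · have h1 : ‖z‖ < 1 := by
      refine lt_of_lt_of_le (by simpa using hz1) ?_
      exact PadicInt.norm_le_one _
    rw [PadicInt.norm_lt_one_iff_dvd] at h1
    exact_mod_cast h1
  · simpa using hz

private theorem ev_t' (t : Fin 2 → ℕ → A) (c : Fin 2 → ℤ_[2]) (ht : IsTateBasis t) : ev t c 0 = 0 := by
  simp [ev, ht.zero]

/-- the evaluation as an additive homomorphism -/
private noncomputable def evHom (ht : IsTateBasis t) (n : ℕ) : (Fin 2 → ℤ_[2]) →+ A :=
  AddMonoidHom.mk' (fun c => ev t c n) (fun c c' => ev_add ht c c' n)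

private theorem ev_zsmul (ht : IsTateBasis t) (c : Fin 2 → ℤ_[2]) (n : ℕ) (m : ℤ) :
    m • ev t c n = ev t (fun j => (m : ℤ_[2]) * c j) n := by
  have h := (map_zsmul (evHom ht n) m c).symm
  have h2 : m • c = fun j => (m : ℤ_[2]) * c j := by
    funext j
    simp
  rw [h2] at h
  exact h

private theorem dvd_of_int {n : ℕ} {m : ℤ} (h : (2 : ℤ_[2]) ^ n ∣ (m : ℤ_[2])) : (2 : ℤ) ^ n ∣ m := by
  have := (PadicInt.pow_p_dvd_int_iff (p := 2) n m).1 (by exact_mod_cast h)
  exact_mod_cast this

private theorem not_two_dvd_one : ¬ (2 : ℤ_[2]) ∣ 1 := by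
  intro h
  have h1 : (2 : ℤ_[2]) ^ 1 ∣ ((1 : ℤ) : ℤ_[2]) := by simpa using h
  have := dvd_of_int h1
  norm_num at this

private theorem isUnit_of_odd {x : ℤ_[2]} (h : (2 : ℤ_[2]) ∣ x - 1) : IsUnit x := by
  rw [PadicInt.isUnit_iff]
  by_contra hx
  have h1 : ‖x‖ < 1 := lt_of_le_of_ne (PadicInt.norm_le_one _) hx
  rw [PadicInt.norm_lt_one_iff_dvd] at h1
  have h2 : (2 : ℤ_[2]) ∣ x := by exact_mod_cast h1
  apply not_two_dvd_one
  have := dvd_sub h2 h
  simpa using this

theorem exists_eigenbasis (ht : IsTateBasis t) (α : A →+ A) (h0 : α (t 0 1) = 0)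
    (h1 : α (t 1 1) = t 1 1) :
    ∃ (t' : Fin 2 → ℕ → A) (l : Fin 2 → ℤ_[2]), IsTateBasis t' ∧ l 0 ≠ l 1 ∧
      ∀ j n, α (t' j n) = (l j).appr n • t' j n := by
  obtain ⟨M, hM⟩ := exists_mat ht α
  have hc0 : ∀ i, (2 : ℤ_[2]) ∣ M i 0 := by
    have h := hM 0 1
    rw [h0] at h
    have := (ev_eq_zero_iff ht _ _).1 h.symm
    intro i
    simpa using this i
  have hc1 : ∀ i, (2 : ℤ_[2]) ∣ M i 1 - (![0, 1] : Fin 2 → ℤ_[2]) i := by
    have h := hM 1 1
    rw [h1] at h
    have h2 : ev t ![0, 1] 1 = t 1 1 := by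
      have := ev_int ht ![0, 1] ![0, 1] 1 (by
        intro j
        fin_cases j <;> simp)
      simpa using this
    have h3 : ev t ((fun i => M i 1) + -![0, 1]) 1 = 0 := by
      rw [ev_add ht, ev_neg ht, ← h, h2, add_neg_cancel]
    have := (ev_eq_zero_iff ht _ _).1 h3
    intro i
    have h4 := this i
    rw [pow_one, Pi.add_apply, Pi.neg_apply, ← sub_eq_add_neg] at h4
    exact h4
  have e00 : (2 : ℤ_[2]) ∣ M 0 0 := hc0 0
  have e10 : (2 : ℤ_[2]) ∣ M 1 0 := hc0 1
  have e01 : (2 : ℤ_[2]) ∣ M 0 1 := by simpa using hc1 0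
  have e11 : (2 : ℤ_[2]) ∣ M 1 1 - 1 := by simpa using hc1 1
  have hu : IsUnit (M 1 1 - M 0 0) := by
    apply isUnit_of_odd
    have : M 1 1 - M 0 0 - 1 = (M 1 1 - 1) - M 0 0 := by ring
    rw [this]
    exact dvd_sub e11 e00
  have hn : ‖M 1 1 - M 0 0‖ = 1 := PadicInt.isUnit_iff.1 hu
  obtain ⟨z, hz, hze⟩ := exists_even_root (M 0 1) (M 0 0 - M 1 1) (-M 1 0)
    (by rw [← norm_neg, neg_sub]; exact hn) (by rwa [dvd_neg])
  obtain ⟨z', hz', hze'⟩ := exists_even_root (M 1 0) (M 1 1 - M 0 0) (-M 0 1) hn (by rwa [dvd_neg])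
  have hdet : IsUnit (1 - z * z') := by
    apply isUnit_of_odd
    have : (1 : ℤ_[2]) - z * z' - 1 = -(z * z') := by ring
    rw [this, dvd_neg]
    exact hz.mul_right z'
  obtain ⟨d, hd⟩ := hdet.exists_right_inv
  have hB : IsTateBasis (fun (j : Fin 2) (n : ℕ) => ev t (if j = 0 then ![1, z] else ![z', 1]) n) := by
    constructor
    · intro j
      exact ev_t' t _ ht
    · intro j n
      exact two_ev ht _ n
    · intro n Q hQ
      obtain ⟨c, hc⟩ := exists_ev ht hQ
      refine ⟨![((d * (c 0 - z' * c 1)).appr n : ℤ), ((d * (c 1 - z * c 0)).appr n : ℤ)], ?_⟩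
      simp only [Matrix.cons_val_zero, Matrix.cons_val_one, if_true, natCast_zsmul]
      rw [if_neg (by decide), ← ev_smul ht, ← ev_smul ht, ← ev_add ht, hc]
      congr 1
      funext j
      fin_cases j
      · simp
        linear_combination (-(c 0)) * hd
      · simp
        linear_combination (-(c 1)) * hd
    · intro n m hm
      simp only [if_true] at hm
      rw [if_neg (by decide), ev_zsmul ht, ev_zsmul ht, ← ev_add ht, ev_eq_zero_iff ht] at hm
      have a0 := hm 0
      have a1 := hm 1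
      simp at a0 a1
      have b0 : (2 : ℤ_[2]) ^ n ∣ (m 0 : ℤ_[2]) := by
        have : (m 0 : ℤ_[2]) = d * (((m 0 : ℤ_[2]) + m 1 * z') - z' * (m 0 * z + m 1)) := by
          linear_combination (-(m 0 : ℤ_[2])) * hd
        rw [this]
        exact (dvd_sub a0 (a1.mul_left _)).mul_left _
      have b1 : (2 : ℤ_[2]) ^ n ∣ (m 1 : ℤ_[2]) := by
        have : (m 1 : ℤ_[2]) = d * (((m 0 : ℤ_[2]) * z + m 1) - z * (m 0 + m 1 * z')) := by
          linear_combination (-(m 1 : ℤ_[2])) * hd
        rw [this]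
        exact (dvd_sub a1 (a0.mul_left _)).mul_left _
      intro j
      fin_cases j
      · exact dvd_of_int b0
      · exact dvd_of_int b1
  refine ⟨_, ![M 0 0 + M 0 1 * z, M 1 0 * z' + M 1 1], hB, ?_, ?_⟩
  · intro h
    simp only [Matrix.cons_val_zero, Matrix.cons_val_one] at h
    apply not_two_dvd_one
    have h2 : (1 : ℤ_[2]) = M 0 0 + M 0 1 * z - M 1 0 * z' - (M 1 1 - 1) := by
      rw [h]
      ring
    rw [h2]
    exact dvd_sub (dvd_sub (dvd_add e00 (e01.mul_right _)) (e10.mul_right _)) e11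
  · intro j n
    have hmap := fun c => map_ev ht (n := n) (fun j => hM j n) c
    have hj01 : j = 0 ∨ j = 1 := by omega
    rcases hj01 with h | h
    · subst h
      simp only [if_true, Matrix.cons_val_zero]
      rw [hmap, ← ev_smul ht]
      congr 1
      funext i
      fin_cases i
      · simp [Matrix.mulVec, dotProduct, Fin.sum_univ_two]
      · simp [Matrix.mulVec, dotProduct, Fin.sum_univ_two]
        linear_combination (-1 : ℤ_[2]) * hze
    · subst h
      simp only [Matrix.cons_val_one]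
      rw [if_neg (by decide), hmap, ← ev_smul ht]
      congr 1
      funext i
      fin_cases i
      · simp [Matrix.mulVec, dotProduct, Fin.sum_univ_two]
        linear_combination (-1 : ℤ_[2]) * hze'
      · simp [Matrix.mulVec, dotProduct, Fin.sum_univ_two]

theorem eigen_of_comm {t' : Fin 2 → ℕ → A} {l : Fin 2 → ℤ_[2]} (ht : IsTateBasis t')
    {α : A →+ A} (hl : l 0 ≠ l 1) (hα : ∀ j n, α (t' j n) = (l j).appr n • t' j n) {f : A →+ A}
    (hf : ∀ a, f (α a) = α (f a)) : ∃ c : Fin 2 → ℤ_[2], ∀ j n, f (t' j n) = (c j).appr n • t' j n := by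
  obtain ⟨N, hN⟩ := exists_mat ht f
  have hD : ∀ j n, α (t' j n) = ev t' (fun i => (Matrix.diagonal l) i j) n := by
    intro j n
    rw [hα, ← ev_single ht]
    congr 1
    funext i
    by_cases hij : i = j
    · subst hij
      simp
    · simp [Matrix.diagonal_apply, Pi.single_apply, hij]
  have hkey : ∀ i j, l j * N i j = l i * N i j := by
    intro i j
    have h : (fun i => l j * N i j) = fun i => l i * N i j := by
      apply ev_inj ht
      intro n
      have e1 : f (α (t' j n)) = ev t' (fun i => l j * N i j) n := by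
        rw [hα, map_nsmul, hN, ← ev_smul ht]
      have e2 : α (f (t' j n)) = ev t' (fun i => l i * N i j) n := by
        rw [hN, map_ev ht (fun j => hD j n)]
        congr 1
        funext i
        rw [Matrix.mulVec_diagonal]
      rw [← e1, ← e2, hf]
    exact congrFun h i
  have hoff : ∀ i j, i ≠ j → N i j = 0 := by
    intro i j hij
    have h1 : (l j - l i) * N i j = 0 := by
      rw [sub_mul, hkey i j, sub_self]
    rcases mul_eq_zero.1 h1 with h | h
    · exfalso
      have h2 := sub_eq_zero.1 h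
      have hi01 : i = 0 ∨ i = 1 := by omega
      have hj01 : j = 0 ∨ j = 1 := by omega
      rcases hi01 with hi | hi <;> rcases hj01 with hj | hj
      · exact hij (hi.trans hj.symm)
      · rw [hi, hj] at h2
        exact hl h2.symm
      · rw [hi, hj] at h2
        exact hl h2
      · exact hij (hi.trans hj.symm)
    · exact h
  refine ⟨fun j => N j j, fun j n => ?_⟩
  rw [hN, ← ev_single ht]
  congr 1
  funext i
  by_cases hij : i = j
  · subst hij
    simp
  · rw [hoff i j hij, Pi.single_apply, if_neg hij]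

end Pool.Agent.Work.MP_787500_nt.AC
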