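import Mathlib
import Pool.Agent.Work.MP_787500_nt.AC.Defs
import Pool.Agent.Work.MP_787500_nt.AC.Ev
import Pool.Agent.Work.MP_787500_nt.AC.Bas
import Pool.Agent.Work.MP_787500_nt.AC.Mat
import Pool.Agent.Work.MP_787500_nt.AC.Eig
import Pool.Agent.Work.MP_787500_nt.AC.Gal
import Pool.Agent.Work.MP_787500_nt.AC.Cm

/-!
# Module ECM: the eigenbasis of the Tate module of the curve with complex multiplication

`exists_tateBasis` for the points `T0`, `T1` of `exists_cm`, then `exists_eigenbasis`, and
`eigen_of_comm` for every `gact W σ`. The coefficients `c j` are unique (`ev_inj`, `ev_single`),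
multiplicative in `σ`, and 1 for `σ = 1`, hence units: this gives the characters `ψ j`.
-/

set_option autoImplicit false

namespace Pool.Agent.Work.MP_787500_nt.AC

open IsDedekindDomain NumberField WeierstrassCurve WeierstrassCurve.Affine
open Pool.Agent.Work.MP_787500_nt
open Pool.Agent.Work.MP_787500_nt.OddP (AbsGal)

universe u

private theorem cm_twoTors {F : Type u} [Field F] [CharZero F] {s : F} (hs : s ^ 2 = -7) :
    TwoTors (legendre 0 1 ((1 - 3 * s) / 2)) 0 1 ((1 - 3 * s) / 2) where
  a1 := rfl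
  a3 := rfl
  a2 := rfl
  a4 := rfl
  a6 := rfl
  h12 := zero_ne_one
  h23 := by
    intro h
    have h1 : (3 : F) * s = -1 := by linear_combination 2 * h
    have h2 : (64 : F) = 0 := by linear_combination 9 * hs - (3 * s - 1) * h1
    norm_num at h2
  h31 := by
    intro h
    have h1 : (3 : F) * s = 1 := by linear_combination -2 * h
    have h2 : (64 : F) = 0 := by linear_combination 9 * hs - (3 * s + 1) * h1
    norm_num at h2

private theorem one_appr {A : Type*} [AddCommGroup A] {t : Fin 2 → ℕ → A} (ht : IsTateBasis t)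
    (j : Fin 2) (n : ℕ) : t j n = (1 : ℤ_[2]).appr n • t j n := by
  rw [← ev_single ht j 1 n, ev_int ht (Pi.single j 1) (Pi.single j 1) n]
  · obtain rfl | rfl : j = 0 ∨ j = 1 := by
      revert j
      decide
    · simp
    · simp
  · intro i
    by_cases h : i = j
    · subst h
      simp
    · rw [Pi.single_eq_of_ne h, Pi.single_eq_of_ne h]
      simp

private theorem mul_appr {A : Type*} [AddCommGroup A] {t : Fin 2 → ℕ → A} (ht : IsTateBasis t)
    (j : Fin 2) (n : ℕ) (x y : ℤ_[2]) : (x * y).appr n • t j n = x.appr n • y.appr n • t j n := by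
  rw [← ev_single ht j y n, ← ev_smul ht x _ n, ← ev_single ht j (x * y) n]
  congr 1
  funext i
  by_cases h : i = j
  · subst h
    simp
  · rw [Pi.single_eq_of_ne h, Pi.single_eq_of_ne h, mul_zero]

private theorem appr_uniq {A : Type*} [AddCommGroup A] {t : Fin 2 → ℕ → A} (ht : IsTateBasis t)
    (j : Fin 2) {x y : ℤ_[2]} (h : ∀ n, x.appr n • t j n = y.appr n • t j n) : x = y := by
  have h1 := ev_inj ht (c := Pi.single j x) (c' := Pi.single j y) (fun n => by
    rw [ev_single ht, ev_single ht, h])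
  have h2 := congrFun h1 j
  simpa using h2

theorem exists_tateEigen {F : Type u} [Field F] [CharZero F] {s : F} (hs : s ^ 2 = -7) :
    ∃ t ψ, IsTateEigen (legendre 0 1 ((1 - 3 * s) / 2)) t ψ := by
  classical
  obtain ⟨α, T0, T1, hcomm, hT0, hT1, t0, t1, n0, n1, n2, h2⟩ := exists_cm hs
  obtain ⟨t, ht, e0, e1⟩ := exists_tateBasis (exists_div (cm_twoTors hs)) t0 t1 n0 n1 n2 h2
  obtain ⟨t', l, ht', hl, hα⟩ := exists_eigenbasis ht α (by rw [e0]; exact hT0)
    (by rw [e1]; exact hT1)
  have key : ∀ σ : AbsGal F, ∃ c : Fin 2 → ℤ_[2], ∀ j n,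
      gact (legendre 0 1 ((1 - 3 * s) / 2)) σ (t' j n) = (c j).appr n • t' j n :=
    fun σ => eigen_of_comm ht' hl hα (hcomm σ)
  choose c hc using key
  have hmul : ∀ j σ τ, c (σ * τ) j = c σ j * c τ j := by
    intro j σ τ
    apply appr_uniq ht' j
    intro n
    rw [← hc (σ * τ) j n, gact_mul, hc τ, map_nsmul, hc σ, smul_comm, mul_appr ht']
  have hone : ∀ j, c 1 j = 1 := by
    intro j
    apply appr_uniq ht' j
    intro n
    rw [← hc 1 j n, gact_one, ← one_appr ht']
  refine ⟨t', fun j => MonoidHom.toHomUnits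
    { toFun := fun σ => c σ j, map_one' := hone j, map_mul' := hmul j }, ht', ?_⟩
  intro σ j n
  exact hc σ j n

end Pool.Agent.Work.MP_787500_nt.AC
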