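import Mathlib
import Pool.Agent.Work.MP_787500_nt.H9_Alg
import Pool.Agent.Work.MP_787500_nt.H9_Descent

/-!
# Module INTG: the points of order a power of two have integral coordinates

Induction on `k`. `k = 0`: no point. Let `2 ^ (k + 1) • P = 0`, `P = (x, y)`. If `P + P = 0` then
`P` is one of the points `(e_j, 0)` (`two_torsion_cases`). Otherwise `P + P = (X, Y)` with `X`
integral by induction, and `P` is obtained by halving: choose `r1, r2, r3` with
`r_j ^ 2 = X - e_j` and `r1 r2 r3` equal to `Y` (up to the sign needed in `halfPt_add_self`, as in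
`exists_half` of H9_Descent), so `halfPt` is a point with double `(X, Y)`, and `P - halfPt` is a
2-torsion point, i.e. `P` is `halfPt` for another choice of signs of the `r_j` (or use the duplication
formula: `x` is a root of a monic quartic polynomial with integral coefficients:
`(x ^ 2 - a_4) ^ 2 - 8 a_6 x - 4 a_2 a_6 = 4 X (x ^ 3 + a_2 x ^ 2 + a_4 x + a_6)`, from
`add_self_some`; this is the shortest way). Then `y` is integral because
`y ^ 2 = (x - e1) (x - e2) (x - e3)`.
-/

set_option autoImplicit false

namespace Pool.Agent.Work.MP_787500_nt.AC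

open WeierstrassCurve WeierstrassCurve.Affine
open Pool.Agent.Work.MP_787500_nt

open Polynomial in
private theorem int_quartic {L : Type*} [Field L] {u a b c d : L} (ha : IsIntegral ℤ a)
    (hb : IsIntegral ℤ b) (hc : IsIntegral ℤ c) (hd : IsIntegral ℤ d)
    (h : u ^ 4 + a * u ^ 3 + b * u ^ 2 + c * u + d = 0) : IsIntegral ℤ u := by
  have h1 : IsIntegral (integralClosure ℤ L) u := by
    let a' : integralClosure ℤ L := ⟨a, ha⟩
    let b' : integralClosure ℤ L := ⟨b, hb⟩
    let c' : integralClosure ℤ L := ⟨c, hc⟩
    let d' : integralClosure ℤ L := ⟨d, hd⟩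
    refine ⟨X ^ 4 + C a' * X ^ 3 + C b' * X ^ 2 + C c' * X + C d', by monicity!, ?_⟩
    simp only [eval₂_add, eval₂_mul, eval₂_pow, eval₂_X, eval₂_C]
    exact h
  exact isIntegral_trans u h1

theorem integral_of_torsion {L : Type*} [Field L] [CharZero L] [DecidableEq L]
    {W : WeierstrassCurve.Affine L} {e1 e2 e3 : L} (h : TwoTors W e1 e2 e3)
    (i1 : IsIntegral ℤ e1) (i2 : IsIntegral ℤ e2) (i3 : IsIntegral ℤ e3) (k : ℕ) :
    ∀ (x y : L) (hn : W.Nonsingular x y), (2 ^ k) • (Point.some x y hn : W.Point) = 0 →
      IsIntegral ℤ x ∧ IsIntegral ℤ y := by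
  have i4 : IsIntegral ℤ (4 : L) := by
    have := isIntegral_algebraMap (R := ℤ) (A := L) (x := 4)
    simpa using this
  have i2' : IsIntegral ℤ (2 : L) := by
    have := isIntegral_algebraMap (R := ℤ) (A := L) (x := 2)
    simpa using this
  induction k with
  | zero =>
    intro x y hn h0
    rw [pow_zero, one_smul] at h0
    exact absurd h0 (Point.some_ne_zero _)
  | succ k ih =>
    intro x y hn h0
    have heq := h.eq_of_nonsingular hn
    have hx : IsIntegral ℤ x := by
      by_cases hy : y = 0
      · rw [hy] at heq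
        have h1 : (x - e1) * (x - e2) * (x - e3) = 0 := by rw [← heq]; ring
        rcases mul_eq_zero.1 h1 with h1 | h1
        · rcases mul_eq_zero.1 h1 with h1 | h1
          · rw [sub_eq_zero.1 h1]; exact i1
          · rw [sub_eq_zero.1 h1]; exact i2
        · rw [sub_eq_zero.1 h1]; exact i3
      · obtain ⟨X, Y, hn', hadd, hX, -⟩ := add_self_some h hn hy
        rw [pow_succ, mul_smul, two_smul, hadd] at h0
        have hXi := (ih X Y hn' h0).1
        have h2y : (2 : L) * y ≠ 0 := mul_ne_zero two_ne_zero hy
        have hX' : (X - e1) * (4 * y ^ 2) = ((x - e1) ^ 2 - (e1 - e2) * (e1 - e3)) ^ 2 := by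
          rw [hX, div_pow]
          field_simp
          ring
        have hu : IsIntegral ℤ (x - e1) := by
          refine int_quartic (a := -(4 * (X - e1)))
            (b := 4 * (X - e1) * ((e2 - e1) + (e3 - e1)) - 2 * ((e1 - e2) * (e1 - e3)))
            (c := -(4 * (X - e1) * ((e2 - e1) * (e3 - e1))))
            (d := ((e1 - e2) * (e1 - e3)) ^ 2) ?_ ?_ ?_ ?_ ?_
          · exact (i4.mul (hXi.sub i1)).neg
          · exact ((i4.mul (hXi.sub i1)).mul ((i2.sub i1).add (i3.sub i1))).sub
              (i2'.mul ((i1.sub i2).mul (i1.sub i3)))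
          · exact ((i4.mul (hXi.sub i1)).mul ((i2.sub i1).mul (i3.sub i1))).neg
          · exact ((i1.sub i2).mul (i1.sub i3)).pow 2
          · rw [heq] at hX'
            linear_combination -hX'
        have := hu.add i1
        rwa [sub_add_cancel] at this
    refine ⟨hx, ?_⟩
    apply IsIntegral.of_pow (n := 2) (by norm_num)
    rw [heq]
    exact ((hx.sub i1).mul (hx.sub i2)).mul (hx.sub i3)

end Pool.Agent.Work.MP_787500_nt.AC
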