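import Mathlib
import Pool.Agent.Work.MP_787500_nt.H9_Alg
import Pool.Agent.Work.MP_787500_nt.H9_Descent
import Pool.Agent.Work.MP_787500_nt.AC.Defs
import Pool.Agent.Work.MP_787500_nt.AC.Gal
import Pool.Agent.Work.MP_787500_nt.AC.Intg

/-!
# Module INERT: the inertia groups away from two fix the points of order a power of two

Induction on `k` (statement for all `P` with `2 ^ k • P = 0`). Let `2 ^ (k + 1) • P = 0`, `σ` in the
inertia group of `Q`. By induction `σ` fixes `P + P`, so `T = gact W σ P - P` is a 2-torsion point.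
Suppose `T` is not 0, say `T = (e1, 0)` (the other cases by `rot`). If `P` is a 2-torsion point it is
rational, so `σ` fixes it; let `P = (x, y)` with `y ≠ 0`. Then `gact W σ P = (σ x, σ y)`
`= P + (e1, 0)` has (`some_add_tor`) first coordinate `e1 + B / (x - e1)` with
`B = (e1 - e2) (e1 - e3)`, and second coordinate `-B y / (x - e1) ^ 2`. All coordinates are integral
(`integral_of_torsion`), so modulo `Q`: `σ x = x` and `σ y = y` (definition of the inertia group),
hence `(x - e1) ^ 2 = B` and then `-B y = B y`, so `2 B y = 0` and `y = 0` modulo `Q` (`2` and `B` are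
units modulo `Q`, because a multiple of each difference is a power of 2 and `2` is not in `Q`), so `x`
is congruent to some `e_l`; since `(x - e1) ^ 2 = B` is not 0 modulo `Q`, `l = 2` or `3`; for `l = 2`:
`(e2 - e1) ^ 2 = (e1 - e2) (e1 - e3)` modulo `Q` gives `e2 = e3` modulo `Q`, a contradiction.
(Multiply out the denominators: `(σ x - e1) (x - e1) = B` and `σ y (x - e1) ^ 2 = -B y`, identities
between algebraic integers.)
-/

set_option autoImplicit false

namespace Pool.Agent.Work.MP_787500_nt.AC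

open IsDedekindDomain NumberField WeierstrassCurve WeierstrassCurve.Affine
open Pool.Agent.Work.MP_787500_nt
open Pool.Agent.Work.MP_787500_nt.OddP (AbsGal)
open scoped Pointwise

universe u

private theorem dom_aux {D : Type*} [CommRing D] [IsDomain D] {x y a1 a2 a3 : D}
    (h2 : (2 : D) ≠ 0) (n12 : a1 - a2 ≠ 0) (n23 : a2 - a3 ≠ 0) (n31 : a3 - a1 ≠ 0)
    (hX : (x - a1) * (x - a1) = (a1 - a2) * (a1 - a3))
    (hY : y * (x - a1) ^ 2 = - y * ((a1 - a2) * (a1 - a3)))
    (hE : y ^ 2 = (x - a1) * (x - a2) * (x - a3)) : False := by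
  have n13 : a1 - a3 ≠ 0 := by
    intro h
    exact n31 (by linear_combination -h)
  have hB : (a1 - a2) * (a1 - a3) ≠ 0 := mul_ne_zero n12 n13
  have hy : y = 0 := by
    have : 2 * (y * ((a1 - a2) * (a1 - a3))) = 0 := by linear_combination hY - y * hX
    rcases mul_eq_zero.1 this with h | h
    · exact absurd h h2
    · exact (mul_eq_zero.1 h).resolve_right hB
  have hE' : (x - a1) * (x - a2) * (x - a3) = 0 := by rw [← hE, hy]; ring
  rcases mul_eq_zero.1 hE' with h | h
  · rcases mul_eq_zero.1 h with h | h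
    · apply hB
      rw [← hX, h, zero_mul]
    · have hx : x = a2 := sub_eq_zero.1 h
      subst hx
      have : (a1 - x) * (x - a3) = 0 := by linear_combination -hX
      exact mul_ne_zero n12 n23 this
  · have hx : x = a3 := sub_eq_zero.1 h
    subst hx
    have : (a1 - x) * (a2 - x) = 0 := by linear_combination hX
    exact mul_ne_zero n13 n23 this

open scoped Classical in
private theorem no_shift {F : Type u} [Field F] [NumberField F] {W : WeierstrassCurve.Affine F}
    {e1 e2 e3 : F} (h : TwoTors W e1 e2 e3) (i1 : IsIntegral ℤ e1) (i2 : IsIntegral ℤ e2)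
    (i3 : IsIntegral ℤ e3) (d1 : ∃ (b : F) (N : ℕ), IsIntegral ℤ b ∧ (e1 - e2) * b = 2 ^ N)
    (d2 : ∃ (b : F) (N : ℕ), IsIntegral ℤ b ∧ (e2 - e3) * b = 2 ^ N)
    (d3 : ∃ (b : F) (N : ℕ), IsIntegral ℤ b ∧ (e3 - e1) * b = 2 ^ N)
    {Q : Ideal (𝓞 (AlgebraicClosure F))} (hQ : Q.IsPrime) (h2 : (2 : 𝓞 (AlgebraicClosure F)) ∉ Q)
    {σ : AbsGal F} (hσ : σ ∈ Q.inertia (AbsGal F)) {k : ℕ}
    {P : (W⁄(AlgebraicClosure F)).Point} (hP : (2 ^ k) • P = 0)
    (hT : gact W σ P = P + tor (h.bc (AlgebraicClosure F))) : False := by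
  set L := AlgebraicClosure F with hL
  rcases P with _ | ⟨x, y, hxy⟩
  · have h0 : gact W σ (Point.zero : (W⁄L).Point) = 0 := Point.map_zero _
    rw [h0, ← Point.zero_def, zero_add] at hT
    exact tor_ne_zero (h.bc L) hT.symm
  by_cases hy : y = 0
  · have h0 := (add_self_eq_zero_iff (h.bc L) hxy).2 hy
    rw [gact_two_torsion h σ h0] at hT
    exact tor_ne_zero (h.bc L) (add_eq_left.1 hT.symm)
  have heq := (h.bc L).eq_of_nonsingular hxy
  have hx : x ≠ algebraMap F L e1 := by
    rintro rfl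
    apply hy
    have : y ^ 2 = 0 := by rw [heq]; ring
    exact pow_eq_zero_iff (two_ne_zero) |>.1 this
  obtain ⟨X, Y, hn, hadd, hX, hY⟩ := some_add_tor (h.bc L) hxy hx
  have hg : gact W σ (Point.some x y hxy : (W⁄L).Point) =
      Point.some (σ x) (σ y) ((W.baseChange_nonsingular
        (σ : L →ₐ[F] L).injective x y).2 hxy) := rfl
  rw [hg, hadd] at hT
  obtain ⟨hσx, hσy⟩ := Point.some.inj hT
  -- integrality
  obtain ⟨ix, iy⟩ := integral_of_torsion (h.bc L) (i1.map (algebraMap F L).toIntAlgHom)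
    (i2.map (algebraMap F L).toIntAlgHom) (i3.map (algebraMap F L).toIntAlgHom) k x y hxy hP
  let x' : 𝓞 L := ⟨x, ix⟩
  let y' : 𝓞 L := ⟨y, iy⟩
  let io : ∀ f : F, IsIntegral ℤ f → 𝓞 L := fun f jf =>
    ⟨algebraMap F L f, jf.map (algebraMap F L).toIntAlgHom⟩
  let a1 : 𝓞 L := io e1 i1
  let a2 : 𝓞 L := io e2 i2
  let a3 : 𝓞 L := io e3 i3
  have c1 : ((σ • x' - a1) * (x' - a1)) = (a1 - a2) * (a1 - a3) := by
    apply RingOfIntegers.ext
    change (σ x - algebraMap F L e1) * (x - algebraMap F L e1) = _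
    rw [hσx]
    exact hX
  have c2 : (σ • y') * (x' - a1) ^ 2 = - y' * ((a1 - a2) * (a1 - a3)) := by
    apply RingOfIntegers.ext
    change σ y * (x - algebraMap F L e1) ^ 2 = _
    rw [hσy]
    exact hY
  have c3 : y' ^ 2 = (x' - a1) * (x' - a2) * (x' - a3) := by
    apply RingOfIntegers.ext
    exact heq
  have key : ∀ {f g : F} (jf : IsIntegral ℤ f) (jg : IsIntegral ℤ g),
      (∃ (b : F) (N : ℕ), IsIntegral ℤ b ∧ (f - g) * b = 2 ^ N) →
      (Ideal.Quotient.mk Q) (io f jf - io g jg) ≠ 0 := by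
    rintro f g jf jg ⟨b, N, hb, hN⟩ h0
    rw [Ideal.Quotient.eq_zero_iff_mem] at h0
    apply h2
    apply hQ.mem_of_pow_mem N
    have : (2 : 𝓞 L) ^ N = (io f jf - io g jg) * io b hb := by
      apply RingOfIntegers.ext
      have h5 := congrArg (algebraMap F L) hN
      rw [map_mul, map_sub, map_pow, map_ofNat] at h5
      exact h5.symm
    rw [this]
    exact Q.mul_mem_right _ h0
  have hqσ : ∀ z : 𝓞 L, Ideal.Quotient.mk Q (σ • z) = Ideal.Quotient.mk Q z := by
    intro z
    rw [Ideal.Quotient.eq]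
    exact hσ z
  have h2Q : (2 : 𝓞 L ⧸ Q) ≠ 0 := by
    intro h0
    apply h2
    rw [← Ideal.Quotient.eq_zero_iff_mem, map_ofNat]
    exact h0
  refine dom_aux (D := 𝓞 L ⧸ Q) (x := Ideal.Quotient.mk Q x') (y := Ideal.Quotient.mk Q y')
    (a1 := Ideal.Quotient.mk Q a1) (a2 := Ideal.Quotient.mk Q a2) (a3 := Ideal.Quotient.mk Q a3)
    h2Q ?_ ?_ ?_ ?_ ?_ ?_
  · rw [← map_sub]; exact key i1 i2 d1
  · rw [← map_sub]; exact key i2 i3 d2
  · rw [← map_sub]; exact key i3 i1 d3
  · have := congrArg (Ideal.Quotient.mk Q) c1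
    simp only [map_mul, map_sub, hqσ] at this
    exact this
  · have := congrArg (Ideal.Quotient.mk Q) c2
    simp only [map_mul, map_sub, map_pow, map_neg, hqσ] at this
    exact this
  · have := congrArg (Ideal.Quotient.mk Q) c3
    simp only [map_mul, map_sub, map_pow] at this
    exact this

open scoped Classical in
theorem inertia_fix {F : Type u} [Field F] [NumberField F] {W : WeierstrassCurve.Affine F}
    {e1 e2 e3 : F} (h : TwoTors W e1 e2 e3) (i1 : IsIntegral ℤ e1) (i2 : IsIntegral ℤ e2)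
    (i3 : IsIntegral ℤ e3) (d1 : ∃ (b : F) (N : ℕ), IsIntegral ℤ b ∧ (e1 - e2) * b = 2 ^ N)
    (d2 : ∃ (b : F) (N : ℕ), IsIntegral ℤ b ∧ (e2 - e3) * b = 2 ^ N)
    (d3 : ∃ (b : F) (N : ℕ), IsIntegral ℤ b ∧ (e3 - e1) * b = 2 ^ N)
    {Q : Ideal (𝓞 (AlgebraicClosure F))} (hQ : Q.IsPrime) (h2 : (2 : 𝓞 (AlgebraicClosure F)) ∉ Q)
    {σ : AbsGal F} (hσ : σ ∈ Q.inertia (AbsGal F)) {k : ℕ}
    {P : (W⁄(AlgebraicClosure F)).Point} (hP : (2 ^ k) • P = 0) : gact W σ P = P := by
  induction k generalizing P with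
  | zero =>
    rw [pow_zero, one_nsmul] at hP
    rw [hP, map_zero]
  | succ k ih =>
    have h1 : gact W σ (P + P) = P + P := by
      apply ih
      rw [← two_nsmul, ← mul_nsmul', ← pow_succ]
      exact hP
    have h3 : (gact W σ P - P) + (gact W σ P - P) = 0 := by
      rw [map_add] at h1
      have : (gact W σ P - P) + (gact W σ P - P) = (gact W σ P + gact W σ P) - (P + P) := by abel
      rw [this, h1, sub_self]
    rcases two_torsion_cases (h.bc (AlgebraicClosure F)) h3 with h4 | h4 | h4 | h4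
    · exact sub_eq_zero.1 h4
    · exact (no_shift h i1 i2 i3 d1 d2 d3 hQ h2 hσ hP (by rw [← h4]; abel)).elim
    · exact (no_shift h.rot i2 i3 i1 d2 d3 d1 hQ h2 hσ hP (by
        have : tor (h.bc (AlgebraicClosure F)).rot = tor (h.rot.bc (AlgebraicClosure F)) := rfl
        rw [← this, ← h4]; abel)).elim
    · exact (no_shift h.rot.rot i3 i1 i2 d3 d1 d2 hQ h2 hσ hP (by
        have : tor (h.bc (AlgebraicClosure F)).rot.rot = tor (h.rot.rot.bc (AlgebraicClosure F)) :=
          rfl
        rw [← this, ← h4]; abel)).elim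

end Pool.Agent.Work.MP_787500_nt.AC
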