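import Mathlib
import Pool.Agent.Work.MP_787500_nt.H9_Alg
import Pool.Agent.Work.MP_787500_nt.H9_Descent
import Pool.Agent.Work.MP_787500_nt.H10_Defs
import Pool.Agent.Work.MP_787500_nt.AC.Defs
import Pool.Agent.Work.MP_787500_nt.AC.Gal

/-!
# The inertia groups at the places of good reduction away from two fix the points of order a power of
two
-/

set_option autoImplicit false

namespace Pool.Agent.Work.MP_787500_nt.AC

open IsDedekindDomain NumberField WeierstrassCurve WeierstrassCurve.Affine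
open Pool.Agent.Work.MP_787500_nt
open Pool.Agent.Work.MP_787500_nt.OddP (AbsGal)
open scoped Pointwise

universe u

open Polynomial in
private theorem int_quartic {L : Type*} [Field L] {u a b c d : L} (ha : _root_.IsIntegral ℤ a)
    (hb : _root_.IsIntegral ℤ b) (hc : _root_.IsIntegral ℤ c) (hd : _root_.IsIntegral ℤ d)
    (h : u ^ 4 + a * u ^ 3 + b * u ^ 2 + c * u + d = 0) : _root_.IsIntegral ℤ u := by
  have h1 : _root_.IsIntegral (integralClosure ℤ L) u := by
    let a' : integralClosure ℤ L := ⟨a, ha⟩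
    let b' : integralClosure ℤ L := ⟨b, hb⟩
    let c' : integralClosure ℤ L := ⟨c, hc⟩
    let d' : integralClosure ℤ L := ⟨d, hd⟩
    refine ⟨X ^ 4 + C a' * X ^ 3 + C b' * X ^ 2 + C c' * X + C d', by monicity!, ?_⟩
    simp only [eval₂_add, eval₂_mul, eval₂_pow, eval₂_X, eval₂_C]
    exact h
  exact isIntegral_trans u h1

/-- the scaled coordinates of the points of order a power of two are integral -/
theorem integral_scaled {L : Type*} [Field L] [CharZero L] [DecidableEq L]
    {W : WeierstrassCurve.Affine L} {e1 e2 e3 u : L} (h : TwoTors W e1 e2 e3)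
    (i2 : _root_.IsIntegral ℤ (u ^ 2 * (e1 - e2))) (i3 : _root_.IsIntegral ℤ (u ^ 2 * (e1 - e3)))
    (k : ℕ) :
    ∀ (x y : L) (hn : W.Nonsingular x y), (2 ^ k) • (Point.some x y hn : W.Point) = 0 →
      _root_.IsIntegral ℤ (u ^ 2 * (x - e1)) ∧ _root_.IsIntegral ℤ (u ^ 3 * y) := by
  have i4 : _root_.IsIntegral ℤ (4 : L) := by
    have := isIntegral_algebraMap (R := ℤ) (A := L) (x := 4)
    simpa using this
  have i2' : _root_.IsIntegral ℤ (2 : L) := by
    have := isIntegral_algebraMap (R := ℤ) (A := L) (x := 2)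
    simpa using this
  induction k with
  | zero =>
    intro x y hn h0
    rw [pow_zero, one_smul] at h0
    exact absurd h0 (Point.some_ne_zero _)
  | succ k ih =>
    intro x y hn h0
    have heq := h.eq_of_nonsingular hn
    have hx : _root_.IsIntegral ℤ (u ^ 2 * (x - e1)) := by
      by_cases hy : y = 0
      · rw [hy] at heq
        have h1 : (x - e1) * (x - e2) * (x - e3) = 0 := by rw [← heq]; ring
        rcases mul_eq_zero.1 h1 with h1 | h1
        · rcases mul_eq_zero.1 h1 with h1 | h1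
          · rw [h1, mul_zero]; exact isIntegral_zero
          · rw [sub_eq_zero.1 h1, ← neg_sub, mul_neg]; exact i2.neg
        · rw [sub_eq_zero.1 h1, ← neg_sub, mul_neg]; exact i3.neg
      · obtain ⟨X, Y, hn', hadd, hX, -⟩ := add_self_some h hn hy
        rw [pow_succ, mul_smul, two_smul, hadd] at h0
        have hXi := (ih X Y hn' h0).1
        have h2y : (2 : L) * y ≠ 0 := mul_ne_zero two_ne_zero hy
        have hX' : (X - e1) * (4 * y ^ 2) = ((x - e1) ^ 2 - (e1 - e2) * (e1 - e3)) ^ 2 := by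
          rw [hX, div_pow]
          field_simp
          ring
        refine int_quartic (a := -(4 * (u ^ 2 * (X - e1))))
            (b := 4 * (u ^ 2 * (X - e1)) * (-(u ^ 2 * (e1 - e2)) + -(u ^ 2 * (e1 - e3))) -
              2 * ((u ^ 2 * (e1 - e2)) * (u ^ 2 * (e1 - e3))))
            (c := -(4 * (u ^ 2 * (X - e1)) * ((u ^ 2 * (e1 - e2)) * (u ^ 2 * (e1 - e3)))))
            (d := ((u ^ 2 * (e1 - e2)) * (u ^ 2 * (e1 - e3))) ^ 2) ?_ ?_ ?_ ?_ ?_
        · exact (i4.mul hXi).neg
        · exact ((i4.mul hXi).mul (i2.neg.add i3.neg)).sub (i2'.mul (i2.mul i3))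
        · exact ((i4.mul hXi).mul (i2.mul i3)).neg
        · exact (i2.mul i3).pow 2
        · rw [heq] at hX'
          linear_combination -u ^ 8 * hX'
    refine ⟨hx, ?_⟩
    apply IsIntegral.of_pow (n := 2) (by norm_num)
    have : (u ^ 3 * y) ^ 2 = (u ^ 2 * (x - e1)) * (u ^ 2 * (x - e1) + u ^ 2 * (e1 - e2)) *
        (u ^ 2 * (x - e1) + u ^ 2 * (e1 - e3)) := by
      rw [mul_pow, heq]
      ring
    rw [this]
    exact (hx.mul (hx.add i2)).mul (hx.add i3)

open scoped Classical in
/-- a point of order a power of two is not moved by `(e1, 0)` -/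
private theorem no_tor {F : Type u} [Field F] [NumberField F] {W : WeierstrassCurve.Affine F}
    {e1 e2 e3 u : F} (h : TwoTors W e1 e2 e3) {Q : Ideal (𝓞 (AlgebraicClosure F))} (hQ : Q.IsPrime)
    (h2 : (2 : 𝓞 (AlgebraicClosure F)) ∉ Q) {z1 z2 z3 : 𝓞 (AlgebraicClosure F)}
    (w3 : (z3 : AlgebraicClosure F) = algebraMap F (AlgebraicClosure F) (u ^ 2 * (e1 - e2)))
    (w1 : (z1 : AlgebraicClosure F) = algebraMap F (AlgebraicClosure F) (u ^ 2 * (e2 - e3)))
    (w2 : (z2 : AlgebraicClosure F) = algebraMap F (AlgebraicClosure F) (u ^ 2 * (e3 - e1)))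
    (n1 : z1 ∉ Q) (n2 : z2 ∉ Q) (n3 : z3 ∉ Q) {σ : AbsGal F} (hσ : σ ∈ Q.inertia (AbsGal F)) {k : ℕ}
    {P : (W⁄(AlgebraicClosure F)).Point} (hP : (2 ^ k) • P = 0) :
    gact W σ P ≠ P + tor (h.bc (AlgebraicClosure F)) := by
  intro hT
  set f := algebraMap F (AlgebraicClosure F) with hf
  rcases P with _ | ⟨x, y, hn⟩
  · rw [← Point.zero_def, map_zero, zero_add] at hT
    exact tor_ne_zero _ hT.symm
  · have hg : gact W σ (Point.some x y hn) = Point.map (W' := W)
        (σ : AlgebraicClosure F →ₐ[F] AlgebraicClosure F) (Point.some x y hn) := rfl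
    have heq := (h.bc (AlgebraicClosure F)).eq_of_nonsingular hn
    by_cases hy : y = 0
    · -- the point is rational
      have hfix : gact W σ (Point.some x y hn) = Point.some x y hn := by
        have h20 : (Point.some x y hn : (W⁄(AlgebraicClosure F)).Point) + Point.some x y hn = 0 :=
          (add_self_eq_zero_iff (h.bc (AlgebraicClosure F)) hn).2 hy
        rcases two_torsion_cases (h.bc (AlgebraicClosure F)) h20 with h0 | h0 | h0 | h0
        · exact absurd h0 (Point.some_ne_zero _)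
        · rw [h0]
          exact map_tor (σ : AlgebraicClosure F →ₐ[F] AlgebraicClosure F) h
        · rw [h0]
          exact map_tor (σ : AlgebraicClosure F →ₐ[F] AlgebraicClosure F) h.rot
        · rw [h0]
          exact map_tor (σ : AlgebraicClosure F →ₐ[F] AlgebraicClosure F) h.rot.rot
      rw [hfix, left_eq_add] at hT
      exact tor_ne_zero _ hT
    · have hx : x ≠ f e1 := by
        intro hx
        rw [← hx, sub_self, zero_mul, zero_mul] at heq
        exact hy (pow_eq_zero_iff two_ne_zero |>.1 heq)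
      obtain ⟨X, Y, hn', hadd, hX, hY⟩ := some_add_tor (h.bc (AlgebraicClosure F)) hn hx
      rw [hadd, hg, Point.map_some] at hT
      simp only [Point.some.injEq] at hT
      obtain ⟨hT1, hT2⟩ := hT
      have j2 : _root_.IsIntegral ℤ ((f u) ^ 2 * (f e1 - f e2)) := by
        have := z3.2
        rw [mem_integralClosure_iff] at this
        have e : ((z3 : AlgebraicClosure F)) = (f u) ^ 2 * (f e1 - f e2) := by
          rw [w3, map_mul, map_pow, map_sub]
        rw [← e]
        exact this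
      have j3 : _root_.IsIntegral ℤ ((f u) ^ 2 * (f e1 - f e3)) := by
        have := z2.2
        rw [mem_integralClosure_iff] at this
        have e : ((z2 : AlgebraicClosure F)) = -((f u) ^ 2 * (f e1 - f e3)) := by
          rw [w2, map_mul, map_pow, map_sub]
          ring
        have h3 : _root_.IsIntegral ℤ (-((f u) ^ 2 * (f e1 - f e3))) := by
          rw [← e]
          exact this
        simpa using h3.neg
      obtain ⟨ix, iy⟩ := integral_scaled (h.bc (AlgebraicClosure F)) (u := f u) j2 j3 k x y hn hP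
      set X0 : 𝓞 (AlgebraicClosure F) := ⟨(f u) ^ 2 * (x - f e1), ix⟩ with hX0
      set Y0 : 𝓞 (AlgebraicClosure F) := ⟨(f u) ^ 3 * y, iy⟩ with hY0
      have v3 : (z3 : AlgebraicClosure F) = (f u) ^ 2 * (f e1 - f e2) := by
        rw [w3, map_mul, map_pow, map_sub]
      have v1 : (z1 : AlgebraicClosure F) = (f u) ^ 2 * (f e2 - f e3) := by
        rw [w1, map_mul, map_pow, map_sub]
      have v2 : (z2 : AlgebraicClosure F) = (f u) ^ 2 * (f e3 - f e1) := by
        rw [w2, map_mul, map_pow, map_sub]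
      have sx : σ x = X := hT1
      have sy : σ y = Y := hT2
      have sc : ∀ a : F, σ (f a) = f a := fun a => σ.commutes a
      have cX : ((σ • X0 : 𝓞 (AlgebraicClosure F)) : AlgebraicClosure F) =
          (f u) ^ 2 * (X - f e1) := by
        change σ ((f u) ^ 2 * (x - f e1)) = _
        rw [map_mul, map_pow, map_sub, sc, sc, sx]
      have cY : ((σ • Y0 : 𝓞 (AlgebraicClosure F)) : AlgebraicClosure F) = (f u) ^ 3 * Y := by
        change σ ((f u) ^ 3 * y) = _
        rw [map_mul, map_pow, sc, sy]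
      have c0 : (X0 : AlgebraicClosure F) = (f u) ^ 2 * (x - f e1) := rfl
      have c1 : (Y0 : AlgebraicClosure F) = (f u) ^ 3 * y := rfl
      have r1 : (σ • X0) * X0 = -(z3 * z2) := by
        apply RingOfIntegers.ext
        rw [RingOfIntegers.coe_eq_algebraMap, RingOfIntegers.coe_eq_algebraMap, map_mul, map_neg,
          map_mul, ← RingOfIntegers.coe_eq_algebraMap, ← RingOfIntegers.coe_eq_algebraMap,
          ← RingOfIntegers.coe_eq_algebraMap, ← RingOfIntegers.coe_eq_algebraMap, cX, c0, v3, v2]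
        linear_combination (f u) ^ 4 * hX
      have r2 : (σ • Y0) * X0 ^ 2 = Y0 * (z3 * z2) := by
        apply RingOfIntegers.ext
        rw [RingOfIntegers.coe_eq_algebraMap, RingOfIntegers.coe_eq_algebraMap, map_mul, map_pow,
          map_mul, map_mul, ← RingOfIntegers.coe_eq_algebraMap,
          ← RingOfIntegers.coe_eq_algebraMap, ← RingOfIntegers.coe_eq_algebraMap,
          ← RingOfIntegers.coe_eq_algebraMap, ← RingOfIntegers.coe_eq_algebraMap, cY, c0, c1, v3, v2]
        linear_combination (f u) ^ 7 * hY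
      have r3 : Y0 ^ 2 = X0 * (X0 + z3) * (X0 - z2) := by
        apply RingOfIntegers.ext
        rw [RingOfIntegers.coe_eq_algebraMap, RingOfIntegers.coe_eq_algebraMap, map_mul, map_pow,
          map_mul, map_add, map_sub, ← RingOfIntegers.coe_eq_algebraMap,
          ← RingOfIntegers.coe_eq_algebraMap, ← RingOfIntegers.coe_eq_algebraMap,
          ← RingOfIntegers.coe_eq_algebraMap, c0, c1, v3, v2]
        linear_combination (f u) ^ 6 * heq
      have r4 : z1 + z2 + z3 = 0 := by
        apply RingOfIntegers.ext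
        rw [RingOfIntegers.coe_eq_algebraMap, RingOfIntegers.coe_eq_algebraMap, map_add, map_add,
          map_zero, ← RingOfIntegers.coe_eq_algebraMap, ← RingOfIntegers.coe_eq_algebraMap,
          ← RingOfIntegers.coe_eq_algebraMap, v1, v2, v3]
        ring
      have qX : σ • X0 - X0 ∈ Q := hσ X0
      have qY : σ • Y0 - Y0 ∈ Q := hσ Y0
      have m1 : X0 ^ 2 + z3 * z2 ∈ Q := by
        have := Q.mul_mem_right X0 qX
        have e : X0 ^ 2 + z3 * z2 = -((σ • X0 - X0) * X0) := by linear_combination r1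
        rw [e]
        exact Q.neg_mem this
      have m2 : 2 * (Y0 * (z3 * z2)) ∈ Q := by
        have a1 := Q.mul_mem_right (X0 ^ 2) qY
        have a2 := Q.mul_mem_left Y0 m1
        have e : 2 * (Y0 * (z3 * z2)) = (σ • Y0 - Y0) * X0 ^ 2 + Y0 * (X0 ^ 2 + z3 * z2) := by
          linear_combination -r2
        rw [e]
        exact Q.add_mem a1 a2
      have m3 : Y0 ∈ Q := by
        rcases hQ.mem_or_mem m2 with m | m
        · exact absurd m h2
        · rcases hQ.mem_or_mem m with m | m
          · exact m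
          · rcases hQ.mem_or_mem m with m | m
            · exact absurd m n3
            · exact absurd m n2
      have m4 : X0 * (X0 + z3) * (X0 - z2) ∈ Q := by
        rw [← r3]
        exact Q.pow_mem_of_mem m3 2 (by norm_num)
      have no : ∀ a b : 𝓞 (AlgebraicClosure F), a ∉ Q → b ∉ Q → a * b ∉ Q := by
        intro a b ha hb hab
        rcases hQ.mem_or_mem hab with m | m
        · exact ha m
        · exact hb m
      rcases hQ.mem_or_mem m4 with m | m
      · rcases hQ.mem_or_mem m with m | m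
        · apply no _ _ n3 n2
          have := Q.sub_mem m1 (Q.pow_mem_of_mem m 2 (by norm_num))
          rwa [add_sub_cancel_left] at this
        · apply no _ _ n3 n1
          have := Q.sub_mem m1 (Q.mul_mem_right (X0 - z3) m)
          have e : z3 * z1 = -(X0 ^ 2 + z3 * z2 - (X0 + z3) * (X0 - z3)) := by
            linear_combination z3 * r4
          rw [e]
          exact Q.neg_mem this
      · apply no _ _ n2 n1
        have := Q.sub_mem m1 (Q.mul_mem_right (X0 + z2) m)
        have e : z2 * z1 = -(X0 ^ 2 + z3 * z2 - (X0 - z2) * (X0 + z2)) := by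
          linear_combination z2 * r4
        rw [e]
        exact Q.neg_mem this

open scoped Classical in
/-- the inertia group fixes the points of order a power of two if the scaled differences are units -/
theorem inertia_fix_scaled {F : Type u} [Field F] [NumberField F] {W : WeierstrassCurve.Affine F}
    {e1 e2 e3 u : F} (h : TwoTors W e1 e2 e3) {Q : Ideal (𝓞 (AlgebraicClosure F))} (hQ : Q.IsPrime)
    (h2 : (2 : 𝓞 (AlgebraicClosure F)) ∉ Q) {z1 z2 z3 : 𝓞 (AlgebraicClosure F)}
    (w3 : (z3 : AlgebraicClosure F) = algebraMap F (AlgebraicClosure F) (u ^ 2 * (e1 - e2)))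
    (w1 : (z1 : AlgebraicClosure F) = algebraMap F (AlgebraicClosure F) (u ^ 2 * (e2 - e3)))
    (w2 : (z2 : AlgebraicClosure F) = algebraMap F (AlgebraicClosure F) (u ^ 2 * (e3 - e1)))
    (n1 : z1 ∉ Q) (n2 : z2 ∉ Q) (n3 : z3 ∉ Q) {σ : AbsGal F} (hσ : σ ∈ Q.inertia (AbsGal F))
    (k : ℕ) : ∀ P : (W⁄(AlgebraicClosure F)).Point, (2 ^ k) • P = 0 → gact W σ P = P := by
  induction k with
  | zero =>
    intro P hP
    rw [pow_zero, one_smul] at hP
    rw [hP, map_zero]
  | succ k ih =>
    intro P hP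
    have h1 : gact W σ (P + P) = P + P := by
      apply ih
      rw [pow_succ, mul_smul, two_smul] at hP
      exact hP
    rw [map_add] at h1
    have h3 : (gact W σ P - P) + (gact W σ P - P) = 0 := by
      rw [show (gact W σ P - P) + (gact W σ P - P) = (gact W σ P + gact W σ P) - (P + P) by abel,
        h1, sub_self]
    rcases two_torsion_cases (h.bc (AlgebraicClosure F)) h3 with h0 | h0 | h0 | h0
    · exact sub_eq_zero.1 h0
    · exact absurd (by rw [← h0]; abel : gact W σ P = P + tor (h.bc (AlgebraicClosure F)))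
        (no_tor h hQ h2 w3 w1 w2 n1 n2 n3 hσ hP)
    · exact absurd (by
          rw [show tor (h.rot.bc (AlgebraicClosure F)) = tor (h.bc (AlgebraicClosure F)).rot from rfl,
            ← h0]
          abel : gact W σ P = P + tor (h.rot.bc (AlgebraicClosure F)))
        (no_tor h.rot hQ h2 w1 w2 w3 n2 n3 n1 hσ hP)
    · exact absurd (by
          rw [show tor (h.rot.rot.bc (AlgebraicClosure F)) =
            tor (h.bc (AlgebraicClosure F)).rot.rot from rfl, ← h0]
          abel : gact W σ P = P + tor (h.rot.rot.bc (AlgebraicClosure F)))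
        (no_tor h.rot.rot hQ h2 w2 w3 w1 n3 n1 n2 hσ hP)

/-- scaling at a place of good reduction -/
theorem exists_scale {F : Type u} [Field F] [NumberField F] {e1 e2 e3 : F}
    {v : HeightOneSpectrum (𝓞 F)} (h1 : v.valuation F (e1 - e2) ≠ 0)
    (h12 : v.valuation F (e1 - e2) = v.valuation F (e2 - e3))
    (h23 : v.valuation F (e2 - e3) = v.valuation F (e3 - e1))
    (hs : IsSquare (v.valuation F (e1 - e2))) :
    ∃ (u : F) (y1 y2 y3 : 𝓞 F), (y3 : F) = u ^ 2 * (e1 - e2) ∧ (y1 : F) = u ^ 2 * (e2 - e3) ∧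
      (y2 : F) = u ^ 2 * (e3 - e1) ∧ y1 ∉ v.asIdeal ∧ y2 ∉ v.asIdeal ∧ y3 ∉ v.asIdeal := by
  obtain ⟨δ, hδ⟩ := hs
  have hδ0 : δ ≠ 0 := by
    rintro rfl
    rw [mul_zero] at hδ
    exact h1 hδ
  obtain ⟨π, hπ⟩ := v.valuation_surjective F δ⁻¹
  have k3 : v.valuation F (π ^ 2 * (e1 - e2)) = 1 := by
    rw [map_mul, map_pow, hπ, hδ]
    field_simp
  have k1 : v.valuation F (π ^ 2 * (e2 - e3)) = 1 := by
    rw [map_mul, map_pow, ← h12, ← map_pow, ← map_mul, k3]
  have k2 : v.valuation F (π ^ 2 * (e3 - e1)) = 1 := by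
    rw [map_mul, map_pow, ← h23, ← map_pow, ← map_mul, k1]
  obtain ⟨n3, d3, g3⟩ := v.exists_primeCompl_mul_eq_of_integer (K := F) _ k3.le
  obtain ⟨n1, d1, g1⟩ := v.exists_primeCompl_mul_eq_of_integer (K := F) _ k1.le
  have hd3 : v.valuation F (algebraMap (𝓞 F) F d3) = 1 :=
    (HeightOneSpectrum.valuation_eq_one_iff_notMem v (K := F)).2 d3.2
  have hd1 : v.valuation F (algebraMap (𝓞 F) F d1) = 1 :=
    (HeightOneSpectrum.valuation_eq_one_iff_notMem v (K := F)).2 d1.2
  have a3 : algebraMap (𝓞 F) F (n3 * (d3 * d1 ^ 2)) =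
      (π * (algebraMap (𝓞 F) F d3 * algebraMap (𝓞 F) F d1)) ^ 2 * (e1 - e2) := by
    rw [map_mul, map_mul, map_pow, ← g3]
    ring
  have a1 : algebraMap (𝓞 F) F (n1 * (d1 * (d3 : 𝓞 F) ^ 2)) =
      (π * (algebraMap (𝓞 F) F d3 * algebraMap (𝓞 F) F d1)) ^ 2 * (e2 - e3) := by
    rw [map_mul, map_mul, map_pow, ← g1]
    ring
  have a2 : algebraMap (𝓞 F) F (-(n3 * (d3 * (d1 : 𝓞 F) ^ 2) + n1 * (d1 * (d3 : 𝓞 F) ^ 2))) =
      (π * (algebraMap (𝓞 F) F d3 * algebraMap (𝓞 F) F d1)) ^ 2 * (e3 - e1) := by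
    rw [map_neg, map_add, a3, a1]
    ring
  refine ⟨π * (algebraMap (𝓞 F) F d3 * algebraMap (𝓞 F) F d1), _, _, _, a3, a1, a2, ?_, ?_, ?_⟩
  · rw [← HeightOneSpectrum.valuation_eq_one_iff_notMem v (K := F), a1, mul_pow,
      mul_right_comm, mul_assoc, ← mul_assoc, map_mul, k1, map_pow, map_mul, hd3, hd1]
    simp
  · rw [← HeightOneSpectrum.valuation_eq_one_iff_notMem v (K := F), a2, mul_pow]
    rw [mul_right_comm, map_mul, k2, map_pow, map_mul, hd3, hd1]
    simp
  · rw [← HeightOneSpectrum.valuation_eq_one_iff_notMem v (K := F), a3, mul_pow]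
    rw [mul_right_comm, map_mul, k3, map_pow, map_mul, hd3, hd1]
    simp

/-- the inertia group of the zero ideal is trivial -/
private theorem inertia_bot {F : Type u} [Field F] [NumberField F] {σ : AbsGal F}
    (hσ : σ ∈ (⊥ : Ideal (𝓞 (AlgebraicClosure F))).inertia (AbsGal F)) : σ = 1 := by
  apply AlgEquiv.ext
  intro x
  have hx : IsAlgebraic ℤ x := by
    have h1 : IsAlgebraic ℚ x := by
      have : Algebra.IsAlgebraic ℚ (AlgebraicClosure F) :=
        Algebra.IsAlgebraic.trans ℚ F (AlgebraicClosure F)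
      exact Algebra.IsAlgebraic.isAlgebraic x
    exact (IsFractionRing.isAlgebraic_iff ℤ ℚ (AlgebraicClosure F)).2 h1
  obtain ⟨y, hy0, hy⟩ := hx.exists_integral_multiple
  have h2 : σ • (⟨y • x, hy⟩ : 𝓞 (AlgebraicClosure F)) - ⟨y • x, hy⟩ = 0 := by
    have := hσ (⟨y • x, hy⟩ : 𝓞 (AlgebraicClosure F))
    exact Ideal.mem_bot.1 this
  have h3 : σ (y • x) = y • x := by
    have := congrArg (fun z : 𝓞 (AlgebraicClosure F) => (z : AlgebraicClosure F)) (sub_eq_zero.1 h2)
    exact this
  rw [map_zsmul] at h3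
  rw [AlgEquiv.one_apply]
  have h4 : (y : AlgebraicClosure F) ≠ 0 := by exact_mod_cast hy0
  rw [zsmul_eq_mul, zsmul_eq_mul] at h3
  exact mul_left_cancel₀ h4 h3

open scoped Classical in
/-- good reduction away from two: the inertia groups fix the points of order a power of two -/
theorem inertia_fix_cond {F : Type u} [Field F] [NumberField F] {W : WeierstrassCurve.Affine F}
    {e1 e2 e3 : F} (h : TwoTors W e1 e2 e3) (hfin : (multPlaces e1 e2 e3 ∪ addPlaces e1 e2 e3).Finite)
    (hc : condExp e1 e2 e3 = 0) {Q : Ideal (𝓞 (AlgebraicClosure F))} (hQ : Q.IsPrime)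
    (h2 : (2 : 𝓞 (AlgebraicClosure F)) ∉ Q) {σ : AbsGal F} (hσ : σ ∈ Q.inertia (AbsGal F)) (k : ℕ)
    (P : (W⁄(AlgebraicClosure F)).Point) (hP : (2 ^ k) • P = 0) : gact W σ P = P := by
  have hint : Algebra.IsIntegral (𝓞 F) (𝓞 (AlgebraicClosure F)) :=
    ⟨fun x => (RingOfIntegers.isIntegral x).tower_top⟩
  by_cases hQ0 : Q = ⊥
  · rw [hQ0] at hσ
    rw [inertia_bot hσ]
    exact gact_one P
  · have hv0 : Q.comap (algebraMap (𝓞 F) (𝓞 (AlgebraicClosure F))) ≠ ⊥ := fun h0 =>
      hQ0 (Ideal.eq_bot_of_comap_eq_bot h0)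
    let v : HeightOneSpectrum (𝓞 F) :=
      ⟨Q.comap (algebraMap (𝓞 F) (𝓞 (AlgebraicClosure F))), hQ.comap _, hv0⟩
    have hv2 : (2 : 𝓞 F) ∉ v.asIdeal := by
      intro hh
      have : algebraMap (𝓞 F) (𝓞 (AlgebraicClosure F)) 2 ∈ Q := hh
      rw [map_ofNat] at this
      exact h2 this
    rw [condExp, Nat.add_eq_zero_iff, mul_eq_zero] at hc
    have hm : multPlaces e1 e2 e3 = ∅ :=
      (Set.ncard_eq_zero (hfin.subset Set.subset_union_left)).1 hc.1
    have ha : addPlaces e1 e2 e3 = ∅ :=
      (Set.ncard_eq_zero (hfin.subset Set.subset_union_right)).1 (hc.2.resolve_left two_ne_zero)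
    have hsq : IsSquare (diffVal e1 e2 e3 v) := by
      by_contra hns
      have : v ∈ addPlaces e1 e2 e3 := ⟨hv2, hns⟩
      rw [ha] at this
      exact this
    have heq : v.valuation F (e1 - e2) = v.valuation F (e2 - e3) ∧
        v.valuation F (e2 - e3) = v.valuation F (e3 - e1) := by
      by_contra hne
      have : v ∈ multPlaces e1 e2 e3 := ⟨hv2, hsq, hne⟩
      rw [hm] at this
      exact this
    have hne : v.valuation F (e1 - e2) ≠ 0 := by
      rw [Valuation.ne_zero_iff]
      exact sub_ne_zero.2 h.h12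
    have hsq' : IsSquare (v.valuation F (e1 - e2)) := by
      rw [diffVal, ← heq.2, ← heq.1, max_self, max_self] at hsq
      exact hsq
    obtain ⟨u, y1, y2, y3, g3, g1, g2, m1, m2, m3⟩ := exists_scale hne heq.1 heq.2 hsq'
    have cast : ∀ (y : 𝓞 F) (x : F), (y : F) = x →
        ((algebraMap (𝓞 F) (𝓞 (AlgebraicClosure F)) y : 𝓞 (AlgebraicClosure F)) :
          AlgebraicClosure F) = algebraMap F (AlgebraicClosure F) x := by
      rintro y x rfl
      rfl
    exact inertia_fix_scaled h hQ h2 (cast _ _ g3) (cast _ _ g1) (cast _ _ g2) m1 m2 m3 hσ k P hP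

end Pool.Agent.Work.MP_787500_nt.AC
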