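import Mathlib
import Pool.Agent.Work.MP_787500_nt.H10_Kappa
import Pool.Agent.Work.MP_787500_nt.AC.Defs
import Pool.Agent.Work.MP_787500_nt.AC.Ev
import Pool.Agent.Work.MP_787500_nt.AC.Mat
import Pool.Agent.Work.MP_787500_nt.AC.Gal
import Pool.Agent.Work.MP_787500_nt.AC.KumA
import Pool.Agent.Work.MP_787500_nt.AC.KumB

/-!
# Module KUMC: a locally Kummer cocycle is in the Kummer space

Abstract part (`exists_limit`): a finitely generated abelian group `B` has elements `b 1, .., b r` and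
an integer `e ≥ 1` with `e • Q` in their span... precisely: every element is an integral combination of
finitely many generators `g i`; for a sequence `q (n + 1) = q n + 2 ^ n • r n` write
`q 0` and all `r n` as integral combinations of the generators, `q n = ∑ m n i • g i` with
`m (n + 1) i = m n i + 2 ^ n * (coefficient)`, so `m n i` converges to `a i : ℤ_[2]` with
`2 ^ n ∣ a i - m n i`. (No freeness is needed.)
Then, with Kummer cocycles `κ i` of the generators (`exists_kummer`, sequences `d i n`, integral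
coordinates `k i σ`): for every `n`, `z σ = y σ - ∑ i, a i • k i σ` satisfies
`ev t (z σ) n = gact W σ (S n) - S n`, `S n = R n - ∑ m n i • d i n`, and `2 ^ n • S n = 0`, so
`S n = ev t (c n) n` for some `c n : Fin 2 → ℤ_[2]` (`exists_ev`). The set `C n` of all `c` in the
compact space `Fin 2 → ℤ_[2]` with `ev t (z σ) n = gact W σ (ev t c n) - ev t c n` for all `σ` is
closed (it is a union of classes modulo `2 ^ n`), nonempty and decreasing in `n` (`two_ev`), so there
is a common element `c` (`IsCompact.nonempty_iInter_of_directed_nonempty_isCompact_isClosed` or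
`IsCompact.nonempty_iInter_of_sequence_nonempty_isCompact_isClosed`). By `map_ev` and `ev_inj`,
`z σ = ρ σ c - c`, so `y` and hence `x = 2 ^ (-N) y` is in the Kummer space.
-/

set_option autoImplicit false

namespace Pool.Agent.Work.MP_787500_nt.AC

open IsDedekindDomain NumberField WeierstrassCurve WeierstrassCurve.Affine
open Pool.Agent.Work.MP_787500_nt
open Pool.Agent.Work.MP_787500_nt.OddP (AbsGal cocycles cobLin)

universe u

theorem exists_limit {B : Type*} [AddCommGroup B] {l : ℕ} (g : Fin l → B)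
    (hg : ∀ b : B, ∃ m : Fin l → ℤ, b = ∑ i, m i • g i) (q r : ℕ → B)
    (hq : ∀ n, q (n + 1) = q n + (2 ^ n) • r n) :
    ∃ (a : Fin l → ℤ_[2]) (m : ℕ → Fin l → ℤ), (∀ n, q n = ∑ i, m n i • g i) ∧
      ∀ n i, (2 : ℤ_[2]) ^ n ∣ a i - (m n i : ℤ_[2]) := by
  choose c hc using hg
  have hsum : ∀ b : ℕ → ℤ, Summable (fun k => (2 : ℤ_[2]) ^ k * (b k : ℤ_[2])) := by
    intro b
    refine Summable.of_norm_bounded (g := fun k => ((1 : ℝ) / 2) ^ k)
      (summable_geometric_of_lt_one (by norm_num) (by norm_num)) (fun k => ?_)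
    rw [norm_mul, norm_pow]
    have h2 : ‖(2 : ℤ_[2])‖ = 1 / 2 := by
      have := PadicInt.norm_p (p := 2)
      simpa using this
    rw [h2]
    exact mul_le_of_le_one_right (by positivity) (PadicInt.norm_le_one _)
  refine ⟨fun i => (c (q 0) i : ℤ_[2]) + ∑' k, (2 : ℤ_[2]) ^ k * (c (r k) i : ℤ_[2]),
    fun n i => c (q 0) i + ∑ k ∈ Finset.range n, 2 ^ k * c (r k) i, ?_, ?_⟩
  · intro n
    induction n with
    | zero => simpa using hc (q 0)
    | succ n ih =>
      have e1 : (2 ^ n) • r n = ∑ i, ((2 : ℤ) ^ n * c (r n) i) • g i := by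
        conv_lhs => rw [hc (r n)]
        rw [Finset.smul_sum]
        refine Finset.sum_congr rfl (fun i _ => ?_)
        rw [mul_smul, ← Nat.cast_smul_eq_nsmul ℤ]
        push_cast
        rfl
      rw [hq n, e1, ih, ← Finset.sum_add_distrib]
      refine Finset.sum_congr rfl (fun i _ => ?_)
      beta_reduce
      rw [Finset.sum_range_succ, ← add_assoc, ← add_smul]
  · intro n i
    refine ⟨∑' k, (2 : ℤ_[2]) ^ k * (c (r (k + n)) i : ℤ_[2]), ?_⟩
    have h1 := (hsum (fun k => c (r k) i)).sum_add_tsum_nat_add n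
    have h2 : ∑' k, (2 : ℤ_[2]) ^ (k + n) * (c (r (k + n)) i : ℤ_[2])
        = 2 ^ n * ∑' k, (2 : ℤ_[2]) ^ k * (c (r (k + n)) i : ℤ_[2]) := by
      rw [← (hsum (fun k => c (r (k + n)) i)).tsum_mul_left]
      refine tsum_congr (fun k => ?_)
      ring
    beta_reduce
    rw [← h2, ← h1]
    push_cast
    ring

variable {F : Type u} [Field F] [NumberField F] {W : WeierstrassCurve.Affine F} {e1 e2 e3 : F}
variable {t : Fin 2 → ℕ → (W⁄(AlgebraicClosure F)).Point}
variable {ρ : AbsGal F →* Matrix (Fin 2) (Fin 2) ℤ_[2]}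

private theorem pow_dvd_iff_norm (x : ℤ_[2]) (n : ℕ) :
    (2 : ℤ_[2]) ^ n ∣ x ↔ ‖x‖ ≤ (2 : ℝ) ^ (-(n : ℤ)) := by
  have h := PadicInt.norm_le_pow_iff_mem_span_pow x n
  rw [Ideal.mem_span_singleton] at h
  simpa using h.symm

private theorem ev_locConst {A : Type*} [AddCommGroup A] {t : Fin 2 → ℕ → A}
    (ht : IsTateBasis t) (n : ℕ) : IsLocallyConstant (fun c : Fin 2 → ℤ_[2] => ev t c n) := by
  rw [IsLocallyConstant.iff_eventually_eq]
  intro c
  rw [Metric.eventually_nhds_iff]
  refine ⟨(2 : ℝ) ^ (-(n : ℤ)), by positivity, fun c' hc' => ?_⟩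
  refine ev_congr ht (fun j => ?_)
  rw [pow_dvd_iff_norm, ← dist_eq_norm]
  exact (dist_le_pi_dist c' c j).trans hc'.le

private noncomputable def evHom {A : Type*} [AddCommGroup A] {t : Fin 2 → ℕ → A}
    (ht : IsTateBasis t) (n : ℕ) : (Fin 2 → ℤ_[2]) →+ A where
  toFun c := ev t c n
  map_zero' := ev_zero ht n
  map_add' c c' := ev_add ht c c' n

private theorem evHom_apply {A : Type*} [AddCommGroup A] {t : Fin 2 → ℕ → A}
    (ht : IsTateBasis t) (n : ℕ) (c : Fin 2 → ℤ_[2]) : evHom ht n c = ev t c n := rfl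

open scoped Classical in
/-- a function with integral values which is at all levels a coboundary of a torsion point is a
coboundary -/
theorem cob_of_levels (hr : IsTateRep W t ρ) {z : AbsGal F → Fin 2 → ℤ_[2]}
    (hz : ∀ n, ∃ c : Fin 2 → ℤ_[2], ∀ σ : AbsGal F,
      ev t (z σ) n = gact W σ (ev t c n) - ev t c n) :
    (fun σ j => (z σ j : ℚ_[2])) ∈ LinearMap.range (cobLin ρ) := by
  have ht := hr.1
  let C : ℕ → Set (Fin 2 → ℤ_[2]) := fun n =>
    {c | ∀ σ : AbsGal F, ev t (z σ) n = gact W σ (ev t c n) - ev t c n}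
  have hcl : ∀ n, IsClosed (C n) := by
    intro n
    have : C n = (fun c : Fin 2 → ℤ_[2] => ev t c n) ⁻¹'
        {Q | ∀ σ : AbsGal F, ev t (z σ) n = gact W σ Q - Q} := rfl
    rw [this]
    refine ⟨?_⟩
    rw [← Set.preimage_compl]
    exact ev_locConst ht n _
  have hne : (⋂ n, C n).Nonempty := by
    refine IsCompact.nonempty_iInter_of_sequence_nonempty_isCompact_isClosed C ?_ ?_ ?_ hcl
    · intro n c hc σ
      have h1 := hc σ
      have h2 : 2 • ev t (z σ) (n + 1) = ev t (z σ) n := two_ev ht _ n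
      rw [← h2, h1, nsmul_sub, ← map_nsmul, two_ev ht c n]
    · intro n
      exact hz n
    · exact (hcl 0).isCompact
  obtain ⟨c, hc⟩ := hne
  rw [Set.mem_iInter] at hc
  refine ⟨fun j => (c j : ℚ_[2]), ?_⟩
  have hzc : ∀ σ : AbsGal F, z σ = (ρ σ).mulVec c - c := by
    intro σ
    refine ev_inj ht (fun n => ?_)
    have h1 := hc n σ
    have h2 : gact W σ (ev t c n) = ev t ((ρ σ).mulVec c) n :=
      map_ev ht (f := gact W σ) (fun j => hr.2 σ j n) c
    rw [h1, h2, sub_eq_add_neg, sub_eq_add_neg, ev_add ht, ev_neg ht]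
  funext σ j
  rw [hzc σ]
  simp only [cobLin, LinearMap.pi_apply, LinearMap.sub_apply, LinearMap.id_apply, Pi.sub_apply,
    Matrix.mulVec, dotProduct, PadicInt.coe_sub, PadicInt.coe_sum, PadicInt.coe_mul]
  rfl

private theorem aux1 {A B : Type*} [AddCommGroup A] [AddCommGroup B] (f : B →+ A) {l : ℕ}
    (g : Fin l → B) (d : Fin l → A) (R : A) (m : Fin l → ℤ) (q : B) (N : ℕ) (hR : N • R = f q)
    (hm : q = ∑ i, m i • g i) (hd : ∀ i, N • d i = f (g i)) :
    N • (R - ∑ i, m i • d i) = 0 := by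
  rw [nsmul_sub, hR, hm, map_sum, ← Finset.sum_nsmul, ← Finset.sum_sub_distrib]
  refine Finset.sum_eq_zero (fun i _ => ?_)
  rw [map_zsmul, smul_comm N (m i), hd, sub_self]

private theorem aux2 {A : Type*} [AddCommGroup A] (f : A →+ A) {l : ℕ}
    (d : Fin l → A) (R : A) (m : Fin l → ℤ) :
    f R - R - ∑ i, m i • (f (d i) - d i) = f (R - ∑ i, m i • d i) - (R - ∑ i, m i • d i) := by
  rw [map_sub, map_sum]
  simp only [map_zsmul, smul_sub, Finset.sum_sub_distrib]
  abel

open scoped Classical in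
theorem mem_kummerSpace (h : TwoTors W e1 e2 e3) (hr : IsTateRep W t ρ)
    (hFG : AddGroup.FG (W⁄F).Point) (hS : ShaTwoTrivial W) {x : AbsGal F → Fin 2 → ℚ_[2]}
    (hx : x ∈ cocycles ρ) (hl : KumLoc W t x) : x ∈ kummerSpace W t ρ := by
  have ht := hr.1
  obtain ⟨N, y, R, q, r, hy, hR, hRq, hq⟩ := exists_system hr hS hx hl
  obtain ⟨l, g, hg⟩ : ∃ (l : ℕ) (g : Fin l → (W⁄F).Point),
      ∀ b : (W⁄F).Point, ∃ m : Fin l → ℤ, b = ∑ i, m i • g i := by
    have : Module.Finite ℤ (W⁄F).Point := Module.Finite.iff_addGroup_fg.2 hFG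
    obtain ⟨l, g, hg⟩ := Module.Finite.exists_fin (R := ℤ) (M := (W⁄F).Point)
    refine ⟨l, g, fun b => ?_⟩
    have hb : b ∈ Submodule.span ℤ (Set.range g) := by rw [hg]; trivial
    obtain ⟨m, hm⟩ := (Submodule.mem_span_range_iff_exists_fun ℤ).1 hb
    exact ⟨m, hm.symm⟩
  obtain ⟨a, m, hm, ha⟩ := exists_limit g hg q r hq
  choose κ hκ using fun i => exists_kummer h hr (g i)
  have hκ' := hκ
  unfold IsKummer at hκ'
  choose d k hd0 hd2 hdk hck using hκ'
  have hdn : ∀ i n, (2 ^ n) • d i n = incl W (g i) := by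
    intro i n
    induction n with
    | zero => rw [pow_zero, one_nsmul]; exact hd0 i
    | succ n ih => rw [pow_succ, mul_nsmul', hd2, ih]
  let z : AbsGal F → Fin 2 → ℤ_[2] := fun σ => y σ - ∑ i, (fun j => a i * k i σ j)
  have hlev : ∀ n, ∃ c : Fin 2 → ℤ_[2], ∀ σ : AbsGal F,
      ev t (z σ) n = gact W σ (ev t c n) - ev t c n := by
    intro n
    have hS0 : (2 ^ n) • (R n - ∑ i, m n i • d i n) = 0 :=
      aux1 (incl W) g (fun i => d i n) (R n) (m n) (q n) (2 ^ n) (hRq n) (hm n) (fun i => hdn i n)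
    obtain ⟨c, hc⟩ := exists_ev ht hS0
    refine ⟨c, fun σ => ?_⟩
    rw [← hc]
    have h1 : ev t (z σ) n = evHom ht n (z σ) := rfl
    rw [h1]
    have h2 : z σ = y σ - ∑ i, (fun j => a i * k i σ j) := rfl
    rw [h2, map_sub, map_sum]
    have h3 : ∀ i, evHom ht n (fun j => a i * k i σ j)
        = m n i • (gact W σ (d i n) - d i n) := by
      intro i
      have h4 : evHom ht n (fun j => a i * k i σ j) = evHom ht n (m n i • k i σ) := by
        rw [evHom_apply, evHom_apply]
        refine ev_congr ht (fun j => ?_)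
        have : a i * k i σ j - (m n i • k i σ) j = (a i - (m n i : ℤ_[2])) * k i σ j := by
          rw [Pi.smul_apply, zsmul_eq_mul]; ring
        rw [this]
        exact (ha n i).mul_right _
      rw [h4, map_zsmul, hdk i σ n]
      rfl
    rw [Finset.sum_congr rfl (fun i _ => h3 i)]
    have h5 : evHom ht n (y σ) = gact W σ (R n) - R n := hR σ n
    rw [h5]
    exact aux2 (gact W σ) (fun i => d i n) (R n) (m n)
  have hz := cob_of_levels hr hlev
  have hx' : x = ((2 : ℚ_[2]) ^ N)⁻¹ • ((fun σ j => (z σ j : ℚ_[2])) + ∑ i, (a i : ℚ_[2]) • κ i) := by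
    funext σ j
    have h2 : ((2 : ℚ_[2]) ^ N) ≠ 0 := pow_ne_zero _ two_ne_zero
    have h3 : ((fun σ j => (z σ j : ℚ_[2])) + ∑ i, (a i : ℚ_[2]) • κ i) σ j = (y σ j : ℚ_[2]) := by
      simp only [Pi.add_apply, Finset.sum_apply, Pi.smul_apply, smul_eq_mul, z, Pi.sub_apply, hck,
        PadicInt.coe_sub, PadicInt.coe_sum, PadicInt.coe_mul, sub_add_cancel]
    rw [Pi.smul_apply, Pi.smul_apply, h3, hy, smul_eq_mul, inv_mul_cancel_left₀ h2]
  rw [hx']
  refine Submodule.smul_mem _ _ (Submodule.add_mem _ (Submodule.mem_sup_right hz) ?_)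
  refine Submodule.sum_mem _ (fun i _ => Submodule.smul_mem _ _ (Submodule.mem_sup_left ?_))
  exact Submodule.subset_span ⟨g i, hκ i⟩

end Pool.Agent.Work.MP_787500_nt.AC
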