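import Mathlib
import Pool.Agent.Work.MP_787500_nt.AC.Defs

/-!
# Module TW: twists

If `χ` is continuous (as a function to `ℤ_[2]`) and trivial on a subset, the same holds for the twist.
`χ σ` is odd. `zpow_cont`: `ψ j : G → ℤ_[2]ˣ` is continuous because `σ ↦ (ψ j σ : ℤ_[2])` and
`σ ↦ (ψ j σ⁻¹ : ℤ_[2])` are (`Units.continuous_iff`).
-/

set_option autoImplicit false

namespace Pool.Agent.Work.MP_787500_nt.AC

open Pool.Agent.Work.MP_787500_nt.OddP (AbsGal)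

universe u

variable {F : Type u} [Field F]

theorem units_cont {χ : AbsGal F →* ℤ_[2]ˣ} (h : Continuous fun σ => (χ σ : ℤ_[2])) :
    Continuous χ := by
  rw [Units.continuous_iff]
  refine ⟨h, ?_⟩
  have h1 : (fun σ : AbsGal F => (((χ σ)⁻¹ : ℤ_[2]ˣ) : ℤ_[2])) =
      (fun σ => (χ σ : ℤ_[2])) ∘ fun σ => σ⁻¹ := by
    funext σ
    show _ = (χ σ⁻¹ : ℤ_[2])
    rw [map_inv]
  rw [h1]
  exact h.comp continuous_inv

theorem zpow_cont {ψ ψ' : AbsGal F →* ℤ_[2]ˣ} (h : Continuous ψ) (h' : Continuous ψ')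
    (a b : ℤ) : Continuous (ψ ^ a * ψ' ^ b : AbsGal F →* ℤ_[2]ˣ) := by
  have e : ((ψ ^ a * ψ' ^ b : AbsGal F →* ℤ_[2]ˣ) : AbsGal F → ℤ_[2]ˣ) =
      fun σ => (ψ σ) ^ a * (ψ' σ) ^ b := rfl
  rw [e]
  exact (h.zpow a).mul (h'.zpow b)

theorem twist_cont {n : ℕ} {χ : AbsGal F →* ℤ_[2]ˣ} (h : Continuous χ)
    {ρ : AbsGal F →* Matrix (Fin n) (Fin n) ℤ_[2]} (hρ : Continuous ρ) :
    Continuous (twist χ ρ) := by
  show Continuous fun σ => (χ σ : ℤ_[2]) • ρ σ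
  exact (Units.continuous_val.comp h).smul hρ

theorem twist_two {n : ℕ} (χ : AbsGal F →* ℤ_[2]ˣ)
    {ρ : AbsGal F →* Matrix (Fin n) (Fin n) ℤ_[2]}
    (hρ : ∀ σ i j, (2 : ℤ_[2]) ∣ (ρ σ - 1) i j) (σ : AbsGal F) (i j : Fin n) :
    (2 : ℤ_[2]) ∣ (twist χ ρ σ - 1) i j := by
  have hu : (2 : ℤ_[2]) ∣ (χ σ : ℤ_[2]) - 1 := by
    have h1 : PadicInt.toZMod ((χ σ : ℤ_[2]) - 1) = 0 := by
      rw [map_sub, map_one]
      have h2 : IsUnit (PadicInt.toZMod (χ σ : ℤ_[2])) := (χ σ).isUnit.map _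
      have h3 : ∀ x : ZMod 2, IsUnit x → x - 1 = 0 := by decide
      exact h3 _ h2
    have h4 : (χ σ : ℤ_[2]) - 1 ∈ RingHom.ker (PadicInt.toZMod (p := 2)) := h1
    rw [PadicInt.ker_toZMod, PadicInt.maximalIdeal_eq_span_p, Ideal.mem_span_singleton] at h4
    exact_mod_cast h4
  have e : (twist χ ρ σ - 1) i j =
      (χ σ : ℤ_[2]) * (ρ σ - 1) i j + ((χ σ : ℤ_[2]) - 1) * (1 : Matrix (Fin n) (Fin n) ℤ_[2]) i j := by
    show (χ σ : ℤ_[2]) * ρ σ i j - (1 : Matrix (Fin n) (Fin n) ℤ_[2]) i j = _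
    rw [Matrix.sub_apply]
    ring
  rw [e]
  exact dvd_add (Dvd.dvd.mul_left (hρ σ i j) _) (Dvd.dvd.mul_right hu _)

theorem twist_eq_one {n : ℕ} {χ : AbsGal F →* ℤ_[2]ˣ}
    {ρ : AbsGal F →* Matrix (Fin n) (Fin n) ℤ_[2]} {σ : AbsGal F} (h : χ σ = 1) (h' : ρ σ = 1) :
    twist χ ρ σ = 1 := by
  show (χ σ : ℤ_[2]) • ρ σ = 1
  rw [h, h', Units.val_one, one_smul]

end Pool.Agent.Work.MP_787500_nt.AC
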