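import Mathlib
import Pool.Agent.Work.MP_787500_nt.Uni.VV
import Pool.Agent.Work.MP_787500_nt.Uni.Ord
import Pool.Agent.Work.MP_787500_nt.AC.Defs

/-!
# Module VAN: the vanishing

`OddP.Ord.All.selmerBound (Uni.vv_all ..) (Uni.vv_all ..) hρ hT` for `p = 2`, `S = ∅`, `P' = P`,
`L = L' = ⊥`, `T = ∅`: the Selmer space has dimension 0 modulo the coboundaries, so it is contained in
them. A cocycle `x` as in `NoSelmer` lies in `selmer ρ P P ∅ ⊥ ⊥`: the condition at `P` in the
coordinates outside the empty set is the condition of `NoSelmer` (`locally` of H67_Defs and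
`Ord.locally ρ D ∅` of H67_OrdDefs are the same), the second condition is empty (`Sᶜ = univ`).
`IsAdm`: `resid` is the first alternative with `k = 0`. `IsRamSet`: choose a prime above every place
(`Ideal.exists_ideal_over_prime_of_isIntegral` or similar). `IsBaseField 2 K` is the second
alternative (`s ^ 2 = -7 = 1 - 4 * 2`).
-/

set_option autoImplicit false

namespace Pool.Agent.Work.MP_787500_nt.AC

open IsDedekindDomain NumberField
open Pool.Agent.Work.MP_787500_nt
open Pool.Agent.Work.MP_787500_nt.OddP (AbsGal)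
open scoped Pointwise

universe u

private theorem exists_above {F : Type u} [Field F] [NumberField F]
    (v : HeightOneSpectrum (𝓞 F)) : ∃ Q : Ideal (𝓞 (AlgebraicClosure F)), Q.IsPrime ∧
      Q.comap (algebraMap (𝓞 F) (𝓞 (AlgebraicClosure F))) = v.asIdeal := by
  have hp := v.isPrime
  have hint : Algebra.IsIntegral (𝓞 F) (𝓞 (AlgebraicClosure F)) :=
    ⟨fun x => (RingOfIntegers.isIntegral x).tower_top⟩
  have hinj : Function.Injective (algebraMap (𝓞 F) (𝓞 (AlgebraicClosure F))) :=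
    FaithfulSMul.algebraMap_injective _ _
  obtain ⟨Q, -, hQ, hQv⟩ := Ideal.exists_ideal_over_prime_of_isIntegral v.asIdeal
    (⊥ : Ideal (𝓞 (AlgebraicClosure F))) (by
      rw [← RingHom.ker_eq_comap_bot, (RingHom.injective_iff_ker_eq_bot _).1 hinj]
      exact bot_le)
  exact ⟨Q, hQ, hQv⟩

theorem noSelmer_of {K F : Type u} [Field K] [NumberField K] [Field F] [NumberField F]
    [Algebra K F] (hK : Module.finrank ℚ K = 2) {s : K} (hs : s ^ 2 = -7)
    (hF : InTwoTower K F) {n : ℕ} (ρ : AbsGal F →* Matrix (Fin n) (Fin n) ℤ_[2])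
    (hc : Continuous ρ) (h2 : ∀ σ i j, (2 : ℤ_[2]) ∣ (ρ σ - 1) i j)
    (hu : ∀ Q : Ideal (𝓞 (AlgebraicClosure F)), Q.IsPrime → (2 : 𝓞 (AlgebraicClosure F)) ∉ Q →
      ∀ σ ∈ Q.inertia (AbsGal F), ρ σ = 1) : NoSelmer ρ := by
  rintro x hx hxQ ⟨P, hP, h2P, hxP⟩
  have hKb : Uni.IsBaseField 2 K := by
    refine Or.inr ⟨hK, Or.inl ⟨s, ?_⟩⟩
    rw [hs]
    push_cast
    norm_num
  have hFp : OddP.InPTower 2 K F := by
    obtain ⟨L, h1, h2', h3, h4, h5, h6, h7, h8⟩ := hF
    exact ⟨L, h1, h2', h3, h4, h5, h6, h7, fun Q hQ => h8 Q (by exact_mod_cast hQ)⟩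
  have hV : OddP.Ord.VV 2 P := Uni.vv_all hKb hFp P hP (by exact_mod_cast h2P)
  have hadm : Uni.IsAdm ρ P P (∅ : Set (Fin n)) := by
    refine ⟨hc, Or.inl fun σ => ⟨0, fun i j => ?_⟩, fun Q hQ hpQ σ hσ i j => ?_, ?_, ?_⟩
    · rw [pow_zero, pow_one]
      exact_mod_cast h2 σ i j
    · rw [hu Q hQ (by exact_mod_cast hpQ) σ hσ, sub_self]
      exact dvd_zero _
    · intro σ _ i _ j hj
      exact absurd hj (Set.notMem_empty j)
    · intro σ _ i hi
      exact absurd hi (Set.notMem_empty i)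
  choose Q hQp hQv using fun v : HeightOneSpectrum (𝓞 F) => exists_above v
  have hram : OddP.IsRamSet ρ Q ∅ := by
    refine ⟨hQp, hQv, fun v hv => absurd hv (Finset.notMem_empty v), fun v _ hpv σ hσ => ?_⟩
    refine hu (Q v) (hQp v) (fun h => hpv ?_) σ hσ
    rw [← hQv v, Ideal.mem_comap, map_natCast]
    exact_mod_cast h
  have hrank := OddP.Ord.All.rank_selmer_le hV hV hadm hram
  rw [Finset.sum_empty, Nat.cast_zero] at hrank
  have hle : ∀ (D : Subgroup (AbsGal F)) (S : Set (Fin n)),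
      OddP.locally ρ D ≤ OddP.Ord.locally ρ D S := fun D S =>
    sup_le_sup_left (fun c hc σ hσ i _ => by rw [hc σ hσ]; rfl) _
  have hmem : x ∈ OddP.Ord.selmer ρ P P (∅ : Set (Fin n)) := by
    refine ⟨⟨⟨hx, hle _ _ hxP⟩, hle _ _ hxP⟩, ?_⟩
    simp only [SetLike.mem_coe, Submodule.mem_iInf]
    intro R hR hpR
    exact hle _ _ (hxQ R hR (by exact_mod_cast hpR))
  have hsub : Subsingleton (OddP.Ord.selmer ρ P P (∅ : Set (Fin n)) ⧸
      (LinearMap.range (OddP.cobLin ρ)).submoduleOf (OddP.Ord.selmer ρ P P (∅ : Set (Fin n)))) :=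
    rank_zero_iff.1 (le_antisymm hrank (Cardinal.zero_le _))
  have h0 : Submodule.Quotient.mk (p := (LinearMap.range (OddP.cobLin ρ)).submoduleOf
      (OddP.Ord.selmer ρ P P (∅ : Set (Fin n)))) (⟨x, hmem⟩ : OddP.Ord.selmer ρ P P ∅) = 0 :=
    Subsingleton.elim _ _
  rw [Submodule.Quotient.mk_eq_zero] at h0
  exact h0

end Pool.Agent.Work.MP_787500_nt.AC
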