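import Mathlib
import Pool.Agent.Work.MP_787500_nt.H10_Final
import Pool.Agent.Work.MP_787500_nt.RS.Sharp
import Pool.Agent.Work.MP_787500_nt.HC.Fin2
import Pool.Agent.Work.MP_787500_nt.AC.Defs
import Pool.Agent.Work.MP_787500_nt.AC.Gal
import Pool.Agent.Work.MP_787500_nt.AC.ECm
import Pool.Agent.Work.MP_787500_nt.AC.Inert
import Pool.Agent.Work.MP_787500_nt.AC.InertL
import Pool.Agent.Work.MP_787500_nt.AC.Van
import Pool.Agent.Work.MP_787500_nt.AC.Tw
import Pool.Agent.Work.MP_787500_nt.AC.KumG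
import Pool.Agent.Work.MP_787500_nt.AC.KumC
import Pool.Agent.Work.MP_787500_nt.AC.KumD

/-!
# All curves with full two-torsion: the Kummer isomorphism in the case of the maximal rank, and the
vanishing of the twisted pieces
-/

set_option autoImplicit false

namespace Pool.Agent.Work.MP_787500_nt.AC

open IsDedekindDomain NumberField WeierstrassCurve WeierstrassCurve.Affine
open Pool.Agent.Work.MP_787500_nt
open Pool.Agent.Work.MP_787500_nt.OddP (AbsGal)
open scoped Pointwise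

universe u

open scoped Classical in
/-- the Kummer map is onto when the 2-primary part of the Tate-Shafarevich group is trivial -/
theorem kummerOnto {F : Type u} [Field F] [NumberField F] {W : WeierstrassCurve.Affine F}
    {e1 e2 e3 : F} (h : TwoTors W e1 e2 e3) {t : Fin 2 → ℕ → (W⁄(AlgebraicClosure F)).Point}
    {ρ : AbsGal F →* Matrix (Fin 2) (Fin 2) ℤ_[2]} (hr : IsTateRep W t ρ) {N : ℕ}
    (hFG : AddGroup.FG W.Point) (hN : Module.finrank ℤ W.Point = N) (hS : ShaTwoTrivial W) :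
    KummerOnto W t ρ N := by
  refine ⟨fun x => ⟨fun hx => mem_kummerSpace h hr hFG hS hx.1 hx.2, fun hx => kummer_le hr hx⟩,
    (rank_kummerSpace h hr hFG).trans ?_⟩
  exact_mod_cast hN

section cm

variable {F : Type u} [Field F] [NumberField F] {s : F}
  {t : Fin 2 → ℕ → ((legendre 0 1 ((1 - 3 * s) / 2))⁄(AlgebraicClosure F)).Point}
  {ψ : Fin 2 → AbsGal F →* ℤ_[2]ˣ}

private theorem halves (hs : s ^ 2 = -7) :
    _root_.IsIntegral ℤ ((1 - s) / 2) ∧ _root_.IsIntegral ℤ ((1 + s) / 2) := by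
  have key : ∀ x : F, x ^ 2 - x + 2 = 0 → _root_.IsIntegral ℤ x := by
    intro x hx
    refine ⟨Polynomial.X ^ 2 - Polynomial.X + Polynomial.C 2, by monicity!, ?_⟩
    simp only [Polynomial.eval₂_add, Polynomial.eval₂_sub, Polynomial.eval₂_pow,
      Polynomial.eval₂_X, Polynomial.eval₂_C]
    rw [← hx]
    norm_num
  refine ⟨key _ ?_, key _ ?_⟩
  · linear_combination (1 / 4 : F) * hs
  · linear_combination (1 / 4 : F) * hs

private theorem e0_twoTors (hs : s ^ 2 = -7) :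
    TwoTors (legendre 0 1 ((1 - 3 * s) / 2)) 0 1 ((1 - 3 * s) / 2) := by
  have hw : (1 - s) / 2 * ((1 + s) / 2) = 2 := by linear_combination (-1 / 4 : F) * hs
  have h1 : (1 - s) / 2 ≠ 0 := by
    intro h
    rw [h, zero_mul] at hw
    exact two_ne_zero hw.symm
  have h2 : (1 + s) / 2 ≠ 0 := by
    intro h
    rw [h, mul_zero] at hw
    exact two_ne_zero hw.symm
  have e1 : ((1 + s) / 2) ^ 4 = (1 - 3 * s) / 2 := by
    linear_combination (1 / 16 * s ^ 2 + s / 4 - 1 / 16 : F) * hs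
  have e2 : ((1 - s) / 2) ^ 4 = 1 - (1 - 3 * s) / 2 := by
    linear_combination (1 / 16 * s ^ 2 - s / 4 - 1 / 16 : F) * hs
  refine legendre_twoTors zero_ne_one ?_ ?_
  · intro h
    rw [← h, sub_self] at e2
    exact h1 (pow_eq_zero_iff (by norm_num) |>.1 e2)
  · intro h
    rw [h] at e1
    exact h2 (pow_eq_zero_iff (by norm_num) |>.1 e1)

open scoped Classical in
private theorem e0_fix (hs : s ^ 2 = -7) {Q : Ideal (𝓞 (AlgebraicClosure F))} (hQ : Q.IsPrime)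
    (h2 : (2 : 𝓞 (AlgebraicClosure F)) ∉ Q) {σ : AbsGal F} (hσ : σ ∈ Q.inertia (AbsGal F)) {k : ℕ}
    {P : ((legendre 0 1 ((1 - 3 * s) / 2))⁄(AlgebraicClosure F)).Point} (hP : (2 ^ k) • P = 0) :
    gact (legendre 0 1 ((1 - 3 * s) / 2)) σ P = P := by
  obtain ⟨h1, h2'⟩ := halves hs
  have hw : (1 - s) / 2 * ((1 + s) / 2) = 2 := by linear_combination (-1 / 4 : F) * hs
  have e1 : ((1 + s) / 2) ^ 4 = (1 - 3 * s) / 2 := by
    linear_combination (1 / 16 * s ^ 2 + s / 4 - 1 / 16 : F) * hs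
  have e2 : ((1 - s) / 2) ^ 4 = 1 - (1 - 3 * s) / 2 := by
    linear_combination (1 / 16 * s ^ 2 - s / 4 - 1 / 16 : F) * hs
  refine inertia_fix (e0_twoTors hs) isIntegral_zero isIntegral_one ?_ ⟨-1, 0, ?_, ?_⟩
    ⟨((1 + s) / 2) ^ 4, 4, ?_, ?_⟩ ⟨((1 - s) / 2) ^ 4, 4, ?_, ?_⟩ hQ h2 hσ hP
  · rw [← e1]
    exact h2'.pow 4
  · exact isIntegral_one.neg
  · norm_num
  · exact h2'.pow 4
  · rw [← e2, ← mul_pow, hw]
  · exact h1.pow 4
  · rw [sub_zero, ← e1, ← mul_pow, mul_comm, hw]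

open scoped Classical in
theorem eigen_props (hs : s ^ 2 = -7) (hr : IsTateEigen (legendre 0 1 ((1 - 3 * s) / 2)) t ψ) :
    (∀ j, Continuous (ψ j)) ∧ ∀ Q : Ideal (𝓞 (AlgebraicClosure F)), Q.IsPrime →
      (2 : 𝓞 (AlgebraicClosure F)) ∉ Q → ∀ σ ∈ Q.inertia (AbsGal F), ∀ j, ψ j σ = 1 := by
  obtain ⟨ρ, hρ, hd⟩ := eigen_rep hr
  refine ⟨fun j => units_cont ?_, ?_⟩
  · have h := rep_cont hρ
    have h1 : (fun σ => (ψ j σ : ℤ_[2])) = fun σ => ρ σ j j := funext fun σ => (hd σ j).symm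
    rw [h1]
    exact (continuous_apply_apply j j).comp h
  · intro Q hQ h2 σ hσ j
    have h1 : ρ σ = 1 := rep_eq_one hρ fun j n => by
      exact e0_fix hs hQ h2 hσ (k := n) (pow_smul_t hρ.1 j n)
    apply Units.ext
    rw [← hd, h1, Matrix.one_apply_eq, Units.val_one]

end cm

section rep

variable {F : Type u} [Field F] [NumberField F] {W : WeierstrassCurve.Affine F} {e1 e2 e3 : F}
  {t : Fin 2 → ℕ → (W⁄(AlgebraicClosure F)).Point}
  {ρ : AbsGal F →* Matrix (Fin 2) (Fin 2) ℤ_[2]}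

/-- the Tate module is unramified away from two when the conductor is a power of two -/
theorem rep_unram (h : TwoTors W e1 e2 e3) (hfin : (multPlaces e1 e2 e3 ∪ addPlaces e1 e2 e3).Finite)
    (hc : condExp e1 e2 e3 = 0) (hr : IsTateRep W t ρ) {Q : Ideal (𝓞 (AlgebraicClosure F))}
    (hQ : Q.IsPrime) (h2 : (2 : 𝓞 (AlgebraicClosure F)) ∉ Q) {σ : AbsGal F}
    (hσ : σ ∈ Q.inertia (AbsGal F)) : ρ σ = 1 := by
  classical
  exact rep_eq_one hr fun j n => inertia_fix_cond h hfin hc hQ h2 hσ n _ (pow_smul_t hr.1 j n)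

/-- the determinant as a character -/
noncomputable def detChar (ρ : AbsGal F →* Matrix (Fin 2) (Fin 2) ℤ_[2]) : AbsGal F →* ℤ_[2]ˣ :=
  ((Matrix.detMonoidHom : Matrix (Fin 2) (Fin 2) ℤ_[2] →* ℤ_[2]).comp ρ).toHomUnits

theorem detChar_apply (σ : AbsGal F) : (detChar ρ σ : ℤ_[2]) = (ρ σ).det := rfl

theorem detChar_cont (hr : IsTateRep W t ρ) : Continuous (detChar ρ) := by
  refine units_cont ?_
  simp only [detChar_apply]
  exact (rep_cont hr).matrix_det

end rep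

section pieces

variable {K F : Type u} [Field K] [NumberField K] [Field F] [NumberField F] [Algebra K F] {s : K}
  {W : WeierstrassCurve.Affine F} {e1 e2 e3 : F}
  {t : Fin 2 → ℕ → (W⁄(AlgebraicClosure F)).Point}
  {ρ : AbsGal F →* Matrix (Fin 2) (Fin 2) ℤ_[2]}
  {t' : Fin 2 → ℕ → ((legendre 0 1 ((1 - 3 * algebraMap K F s) / 2))⁄(AlgebraicClosure F)).Point}
  {ψ : Fin 2 → AbsGal F →* ℤ_[2]ˣ}

private theorem sq7 (hs : s ^ 2 = -7) : (algebraMap K F s) ^ 2 = -7 := by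
  rw [← map_pow, hs, map_neg, map_ofNat]

private theorem chi_one {ψ ψ' : AbsGal F →* ℤ_[2]ˣ} {σ : AbsGal F}
    (h : ψ σ = 1) (h' : ψ' σ = 1) (a b : ℤ) : (ψ ^ a * ψ' ^ b) σ = 1 := by
  rw [MonoidHom.mul_apply, MonoidHom.zpow_apply, MonoidHom.zpow_apply, h, h', one_zpow, one_zpow,
    one_mul]

/-- the twists of the Tate module of `W` -/
theorem noSelmer_twist (hK : Module.finrank ℚ K = 2) (hs : s ^ 2 = -7) (hF : InTwoTower K F)
    (h : TwoTors W e1 e2 e3) (hfin : (multPlaces e1 e2 e3 ∪ addPlaces e1 e2 e3).Finite)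
    (hc : condExp e1 e2 e3 = 0) (hr : IsTateRep W t ρ)
    (hψ : IsTateEigen (legendre 0 1 ((1 - 3 * algebraMap K F s) / 2)) t' ψ) (a b : ℤ) :
    NoSelmer (twist (ψ 0 ^ a * ψ 1 ^ b) ρ) := by
  obtain ⟨h1, h2⟩ := eigen_props (sq7 hs) hψ
  exact noSelmer_of hK hs hF _ (twist_cont (zpow_cont (h1 0) (h1 1) a b) (rep_cont hr))
    (twist_two _ (rep_two h hr)) fun Q hQ h2' σ hσ =>
      twist_eq_one (chi_one (h2 Q hQ h2' σ hσ 0) (h2 Q hQ h2' σ hσ 1) _ _)
        (rep_unram h hfin hc hr hQ h2' hσ)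

/-- the characters -/
theorem noSelmer_char (hK : Module.finrank ℚ K = 2) (hs : s ^ 2 = -7) (hF : InTwoTower K F)
    (hψ : IsTateEigen (legendre 0 1 ((1 - 3 * algebraMap K F s) / 2)) t' ψ) (a b : ℤ) (n : ℕ) :
    NoSelmer (twist (ψ 0 ^ a * ψ 1 ^ b) (1 : AbsGal F →* Matrix (Fin n) (Fin n) ℤ_[2])) := by
  obtain ⟨h1, h2⟩ := eigen_props (sq7 hs) hψ
  exact noSelmer_of hK hs hF _ (twist_cont (zpow_cont (h1 0) (h1 1) a b) continuous_const)
    (twist_two _ (fun σ i j => by rw [MonoidHom.one_apply, sub_self]; exact dvd_zero _))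
    fun Q hQ h2' σ hσ =>
      twist_eq_one (chi_one (h2 Q hQ h2' σ hσ 0) (h2 Q hQ h2' σ hσ 1) _ _) rfl

/-- the twists of the determinant of the Tate module of `W` -/
theorem noSelmer_det (hK : Module.finrank ℚ K = 2) (hs : s ^ 2 = -7) (hF : InTwoTower K F)
    (h : TwoTors W e1 e2 e3) (hfin : (multPlaces e1 e2 e3 ∪ addPlaces e1 e2 e3).Finite)
    (hc : condExp e1 e2 e3 = 0) (hr : IsTateRep W t ρ)
    (hψ : IsTateEigen (legendre 0 1 ((1 - 3 * algebraMap K F s) / 2)) t' ψ) (a b : ℤ) (n : ℕ) :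
    NoSelmer (twist (ψ 0 ^ a * ψ 1 ^ b * detChar ρ)
      (1 : AbsGal F →* Matrix (Fin n) (Fin n) ℤ_[2])) := by
  obtain ⟨h1, h2⟩ := eigen_props (sq7 hs) hψ
  refine noSelmer_of hK hs hF _ (twist_cont ?_ continuous_const)
    (twist_two _ (fun σ i j => by rw [MonoidHom.one_apply, sub_self]; exact dvd_zero _))
    fun Q hQ h2' σ hσ => twist_eq_one ?_ rfl
  · exact (zpow_cont (h1 0) (h1 1) a b).mul (detChar_cont hr)
  · rw [MonoidHom.mul_apply, chi_one (h2 Q hQ h2' σ hσ 0) (h2 Q hQ h2' σ hσ 1), one_mul]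
    apply Units.ext
    rw [detChar_apply, rep_unram h hfin hc hr hQ h2' hσ, Matrix.det_one, Units.val_one]

end pieces

end Pool.Agent.Work.MP_787500_nt.AC
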