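import Mathlib
import Pool.Agent.Work.MP_787500_nt.AC.EYDefs

/-!
Definitions for the Kummer isomorphism: the vector space `ℚ_[2] ⊗ E(F)` and the 2-adic Selmer space
modulo the coboundaries.
-/

set_option autoImplicit false

namespace Pool.Agent.Work.MP_787500_nt.AC

open NumberField WeierstrassCurve WeierstrassCurve.Affine
open Pool.Agent.Work.MP_787500_nt
open Pool.Agent.Work.MP_787500_nt.OddP (AbsGal)
open scoped TensorProduct

universe u

/-- The span of `S` modulo the span of `B`. -/
def QuoMod {M : Type u} [AddCommGroup M] [Module ℚ_[2] M] (S B : Set M) : Type u :=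
  Submodule.span ℚ_[2] S ⧸ (Submodule.span ℚ_[2] B).submoduleOf (Submodule.span ℚ_[2] S)

noncomputable instance instAddQuoMod {M : Type u} [AddCommGroup M] [Module ℚ_[2] M] (S B : Set M) :
    AddCommGroup (QuoMod S B) :=
  Submodule.Quotient.addCommGroup _

noncomputable instance instModQuoMod {M : Type u} [AddCommGroup M] [Module ℚ_[2] M] (S B : Set M) :
    Module ℚ_[2] (QuoMod S B) :=
  Submodule.Quotient.module _

/-- `c` belongs to the span of `S`, and `q` is the class of `c`. -/
def IsClassOf {M : Type u} [AddCommGroup M] [Module ℚ_[2] M] (S B : Set M) (c : M)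
    (q : QuoMod S B) : Prop :=
  ∃ h : c ∈ Submodule.span ℚ_[2] S, q = Submodule.Quotient.mk ⟨c, h⟩

/-- `f` is an isomorphism of vector spaces over `ℚ_[2]`. -/
def IsLinIso {M N : Type u} [AddCommGroup M] [Module ℚ_[2] M] [AddCommGroup N] [Module ℚ_[2] N]
    (f : M → N) : Prop :=
  Function.Bijective f ∧ (∀ x y, f (x + y) = f x + f y) ∧ ∀ (a : ℚ_[2]) (x : M), f (a • x) = a • f x

variable {F : Type u} [Field F]

open scoped Classical in
/-- The vector space `ℚ_[2] ⊗ E(F)`. -/
def TenE (W : WeierstrassCurve.Affine F) : Type u := ℚ_[2] ⊗[ℤ] (W⁄F).Point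

open scoped Classical in
noncomputable instance instAddTenE (W : WeierstrassCurve.Affine F) : AddCommGroup (TenE W) :=
  TensorProduct.addCommGroup

open scoped Classical in
noncomputable instance instModTenE (W : WeierstrassCurve.Affine F) : Module ℚ_[2] (TenE W) :=
  TensorProduct.leftModule

open scoped Classical in
/-- The element `1 ⊗ P` of `ℚ_[2] ⊗ E(F)`. -/
noncomputable def oneTen (W : WeierstrassCurve.Affine F) (P : (W⁄F).Point) : TenE W :=
  (1 : ℚ_[2]) ⊗ₜ[ℤ] P

open scoped Classical in
/-- The 2-adic Selmer space of `E` modulo the coboundaries. -/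
def SelQ [NumberField F] (W : WeierstrassCurve.Affine F)
    (t : Fin 2 → ℕ → (W⁄(AlgebraicClosure F)).Point)
    (ρ : AbsGal F →* Matrix (Fin 2) (Fin 2) ℤ_[2]) : Type u :=
  QuoMod (selE W t ρ) (cobE ρ)

open scoped Classical in
noncomputable instance instAddSelQ [NumberField F] (W : WeierstrassCurve.Affine F)
    (t : Fin 2 → ℕ → (W⁄(AlgebraicClosure F)).Point)
    (ρ : AbsGal F →* Matrix (Fin 2) (Fin 2) ℤ_[2]) : AddCommGroup (SelQ W t ρ) :=
  instAddQuoMod (selE W t ρ) (cobE ρ)

open scoped Classical in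
noncomputable instance instModSelQ [NumberField F] (W : WeierstrassCurve.Affine F)
    (t : Fin 2 → ℕ → (W⁄(AlgebraicClosure F)).Point)
    (ρ : AbsGal F →* Matrix (Fin 2) (Fin 2) ℤ_[2]) : Module ℚ_[2] (SelQ W t ρ) :=
  instModQuoMod (selE W t ρ) (cobE ρ)

open scoped Classical in
/-- `c` belongs to the Selmer space, and `q` is the class of `c`. -/
def IsClass [NumberField F] (W : WeierstrassCurve.Affine F)
    (t : Fin 2 → ℕ → (W⁄(AlgebraicClosure F)).Point)
    (ρ : AbsGal F →* Matrix (Fin 2) (Fin 2) ℤ_[2]) (c : AbsGal F → Fin 2 → ℚ_[2])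
    (q : SelQ W t ρ) : Prop :=
  IsClassOf (selE W t ρ) (cobE ρ) c q

open scoped Classical in
/-- The Kummer map is an isomorphism: there is an isomorphism of vector spaces from `ℚ_[2] ⊗ E(F)` to the
2-adic Selmer space modulo the coboundaries, which sends `1 ⊗ P` to the class of every Kummer cocycle of
`P` (and there are such cocycles for all points `P`). -/
def KummerIso [NumberField F] (W : WeierstrassCurve.Affine F)
    (t : Fin 2 → ℕ → (W⁄(AlgebraicClosure F)).Point)
    (ρ : AbsGal F →* Matrix (Fin 2) (Fin 2) ℤ_[2]) : Prop :=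
  ∃ κ : TenE W → SelQ W t ρ, IsLinIso κ ∧ ∀ P,
    (∃ c, IsKummer W t P c) ∧ ∀ c, IsKummer W t P c → IsClass W t ρ c (κ (oneTen W P))

end Pool.Agent.Work.MP_787500_nt.AC
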