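import Mathlib
import Pool.Agent.Work.MP_787500_nt.AC.Gen
import Pool.Agent.Work.MP_787500_nt.AC.EYB
import Pool.Agent.Work.MP_787500_nt.AC.IsoDefs

/-!
The Kummer map as an isomorphism of `ℚ_[2] ⊗ E(F)` and the Selmer space modulo the coboundaries.
-/

set_option autoImplicit false

namespace Pool.Agent.Work.MP_787500_nt.AC

open IsDedekindDomain NumberField WeierstrassCurve WeierstrassCurve.Affine
open Pool.Agent.Work.MP_787500_nt
open Pool.Agent.Work.MP_787500_nt.OddP (cobLin)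
open scoped TensorProduct

universe u

/-- every element of `ℚ_[2] ⊗ B` is a combination of the `1 ⊗ b i`, if the `b i` generate `B` modulo
torsion -/
private theorem tensor_comb {B : Type*} [AddCommGroup B] {l : ℕ} (b : Fin l → B)
    (hb : ∀ P : B, ∃ (m : Fin l → ℤ) (k : ℤ), k ≠ 0 ∧ k • (P - ∑ i, m i • b i) = 0)
    (z : ℚ_[2] ⊗[ℤ] B) : ∃ a : Fin l → ℚ_[2], z = ∑ i, a i ⊗ₜ[ℤ] b i := by
  induction z using TensorProduct.induction_on with
  | zero => exact ⟨0, by simp⟩
  | add x y hx hy =>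
    obtain ⟨a, rfl⟩ := hx
    obtain ⟨a', rfl⟩ := hy
    exact ⟨a + a', by simp [TensorProduct.add_tmul, Finset.sum_add_distrib]⟩
  | tmul c P =>
    obtain ⟨m, k, hk, hk0⟩ := hb P
    have h1 : c ⊗ₜ[ℤ] (P - ∑ i, m i • b i) = 0 := by
      have h2 : c = k • ((k : ℚ_[2])⁻¹ * c) := by
        rw [zsmul_eq_mul, mul_inv_cancel_left₀ (by exact_mod_cast hk)]
      rw [h2, TensorProduct.smul_tmul, hk0, TensorProduct.tmul_zero]
    have h3 : P = (P - ∑ i, m i • b i) + ∑ i, m i • b i := by abel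
    refine ⟨fun i => m i • c, ?_⟩
    rw [h3, TensorProduct.tmul_add, h1, zero_add, TensorProduct.tmul_sum]
    refine Finset.sum_congr rfl fun i _ => ?_
    rw [TensorProduct.smul_tmul]

variable {F : Type u} [Field F] [NumberField F] {W : WeierstrassCurve.Affine F} {e1 e2 e3 : F}
variable {t : Fin 2 → ℕ → (W⁄(AlgebraicClosure F)).Point}
variable {ρ : OddP.AbsGal F →* Matrix (Fin 2) (Fin 2) ℤ_[2]}

open scoped Classical in
theorem kummerIso (h : TwoTors W e1 e2 e3) (hr : IsTateRep W t ρ)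
    (hFG : AddGroup.FG (W⁄F).Point)
    (hsp : Submodule.span ℚ_[2] (selE W t ρ) = Submodule.span ℚ_[2] (cobE ρ ∪ kum W t)) :
    KummerIso W t ρ := by
  have := hFG
  have hkS : ∀ {P : (W⁄F).Point} {c}, IsKummer W t P c →
      c ∈ Submodule.span ℚ_[2] (selE W t ρ) := by
    intro P c hc
    rw [hsp]
    exact Submodule.subset_span (Or.inr ⟨P, hc⟩)
  set S := Submodule.span ℚ_[2] (selE W t ρ) with hS
  set C := (Submodule.span ℚ_[2] (cobE ρ)).submoduleOf S with hC
  have hmk : ∀ {x y : OddP.AbsGal F → Fin 2 → ℚ_[2]} (hx : x ∈ S) (hy : y ∈ S),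
      x - y ∈ LinearMap.range (cobLin ρ) →
        (Submodule.Quotient.mk ⟨x, hx⟩ : S ⧸ C) = Submodule.Quotient.mk ⟨y, hy⟩ := by
    intro x y hx hy hxy
    rw [Submodule.Quotient.eq, hC, Submodule.submoduleOf, Submodule.mem_comap,
      Submodule.subtype_apply, span_cobE]
    exact hxy
  choose c hc using fun P : (W⁄F).Point => exists_kummer h hr P
  let f : (W⁄F).Point →+ S ⧸ C := AddMonoidHom.mk'
    (fun P => Submodule.Quotient.mk ⟨c P, hkS (hc P)⟩) (by
      intro P Q
      rw [← Submodule.Quotient.mk_add]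
      refine hmk _ _ ?_
      exact (hc (P + Q)).sub_mem hr ((hc P).add hr (hc Q)))
  have hf : ∀ {P : (W⁄F).Point} {x} (hx : IsKummer W t P x),
      f P = Submodule.Quotient.mk ⟨x, hkS hx⟩ := by
    intro P x hx
    exact hmk _ _ ((hc P).sub_mem hr hx)
  let κ : (ℚ_[2] ⊗[ℤ] (W⁄F).Point) →ₗ[ℚ_[2]] S ⧸ C :=
    f.toIntLinearMap.liftBaseChange ℚ_[2]
  have hκ : ∀ (a : ℚ_[2]) (P : (W⁄F).Point), κ (a ⊗ₜ P) = a • f P := fun a P => rfl
  have hinj : Function.Injective κ := by
    rw [← LinearMap.ker_eq_bot, LinearMap.ker_eq_bot']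
    intro z hz
    obtain ⟨b, hb1, hb2⟩ := exists_basis_mod_torsion (W⁄F).Point
    obtain ⟨a, rfl⟩ := tensor_comb b hb1 z
    have h1 : (Submodule.Quotient.mk (∑ i, a i • (⟨c (b i), hkS (hc (b i))⟩ : S)) : S ⧸ C) = 0 := by
      rw [← hz, map_sum, ← Submodule.mkQ_apply, map_sum]
      refine Finset.sum_congr rfl fun i _ => ?_
      rw [hκ, map_smul]
      rfl
    rw [Submodule.Quotient.mk_eq_zero, hC, Submodule.submoduleOf, Submodule.mem_comap,
      Submodule.subtype_apply, span_cobE, Submodule.coe_sum] at h1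
    have h2 := kummer_indep hr hb2 (fun i => hc (b i)) (a := a) h1
    rw [h2]
    simp
  have hsurj : Function.Surjective κ := by
    intro y
    obtain ⟨⟨x, hx⟩, rfl⟩ := Submodule.mkQ_surjective C y
    have hx' : x ∈ Submodule.span ℚ_[2] (cobE ρ ∪ kum W t) := by
      rw [← hsp]
      exact hx
    have key : ∀ x ∈ Submodule.span ℚ_[2] (cobE ρ ∪ kum W t), ∀ hx : x ∈ S,
        ∃ z, κ z = C.mkQ ⟨x, hx⟩ := by
      intro x hx'
      induction hx' using Submodule.span_induction with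
      | mem x hx' =>
        intro hx
        rcases hx' with hx' | ⟨P, hP⟩
        · refine ⟨0, ?_⟩
          rw [map_zero, Submodule.mkQ_apply, eq_comm, Submodule.Quotient.mk_eq_zero, hC,
            Submodule.submoduleOf, Submodule.mem_comap, Submodule.subtype_apply]
          exact Submodule.subset_span hx'
        · refine ⟨1 ⊗ₜ P, ?_⟩
          rw [hκ, one_smul, hf hP]
          rfl
      | zero =>
        intro hx
        refine ⟨0, ?_⟩
        rw [map_zero]
        exact (map_zero C.mkQ).symm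
      | add x y hx1 hy1 ihx ihy =>
        intro hxy
        have hx2 : x ∈ S := by rw [hsp]; exact hx1
        have hy2 : y ∈ S := by rw [hsp]; exact hy1
        obtain ⟨z, hz⟩ := ihx hx2
        obtain ⟨z', hz'⟩ := ihy hy2
        refine ⟨z + z', ?_⟩
        rw [map_add, hz, hz', ← map_add]
        rfl
      | smul a x hx1 ih =>
        intro hax
        have hx2 : x ∈ S := by rw [hsp]; exact hx1
        obtain ⟨z, hz⟩ := ih hx2
        refine ⟨a • z, ?_⟩
        rw [map_smul, hz, ← map_smul]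
        rfl
    exact key x hx' hx
  refine ⟨κ, ⟨⟨hinj, hsurj⟩, fun x y => κ.map_add x y, fun a x => κ.map_smul a x⟩,
    fun P => ⟨⟨c P, hc P⟩, fun x hx => ⟨hkS hx, ?_⟩⟩⟩
  have h1 : κ (1 ⊗ₜ P) = Submodule.Quotient.mk ⟨x, hkS hx⟩ := by
    rw [hκ, one_smul, hf hx]
  exact h1

end Pool.Agent.Work.MP_787500_nt.AC
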