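import Mathlib
import Pool.Agent.Work.MP_787500_nt.AC.IsoDefs

/-!
Definitions for the isomorphism between the Selmer space of `E × E0 ^ (2 i)` modulo the coboundaries and
the tensor product of the one of `E` with `U_0 ^ i * U_1 ^ i`.
-/

set_option autoImplicit false

namespace Pool.Agent.Work.MP_787500_nt.AC

open NumberField WeierstrassCurve WeierstrassCurve.Affine
open Pool.Agent.Work.MP_787500_nt
open Pool.Agent.Work.MP_787500_nt.OddP (AbsGal)
open scoped TensorProduct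

universe u

/-- The space `U_0 ^ i * U_1 ^ i` in the exterior algebra of `V_2 (E × E0 ^ (2 i))`. -/
def UU (i : ℕ) : Type := (subU i 0 ^ i * subU i 1 ^ i : Submodule ℚ_[2] (LY i))

noncomputable instance instAddUU (i : ℕ) : AddCommGroup (UU i) := Submodule.addCommGroup _

noncomputable instance instModUU (i : ℕ) : Module ℚ_[2] (UU i) := Submodule.module _

/-- An element of `U_0 ^ i * U_1 ^ i` as an element of the exterior algebra. -/
def uval {i : ℕ} (ω : UU i) : LY i := Subtype.val ω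

/-- The tensor product of `T` and `U_0 ^ i * U_1 ^ i`. -/
def TenU (i : ℕ) (T : Type u) [AddCommGroup T] [Module ℚ_[2] T] : Type u := T ⊗[ℚ_[2]] UU i

noncomputable instance instAddTenU (i : ℕ) (T : Type u) [AddCommGroup T] [Module ℚ_[2] T] :
    AddCommGroup (TenU i T) := TensorProduct.addCommGroup

noncomputable instance instModTenU (i : ℕ) (T : Type u) [AddCommGroup T] [Module ℚ_[2] T] :
    Module ℚ_[2] (TenU i T) := TensorProduct.leftModule

/-- The element `x ⊗ ω`. -/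
noncomputable def tenU {i : ℕ} {T : Type u} [AddCommGroup T] [Module ℚ_[2] T] (x : T) (ω : UU i) :
    TenU i T := x ⊗ₜ[ℚ_[2]] ω

variable {F : Type u} [Field F]

/-- The function `y ∧ ω`. -/
noncomputable def wdg {i : ℕ} (y : AbsGal F → Fin 2 → ℚ_[2]) (ω : UU i) (σ : AbsGal F) : LY i :=
  emb i (Sum.elim (y σ) 0) * uval ω

open scoped Classical in
/-- The Selmer space of `E × E0 ^ (2 i)` modulo the coboundaries. -/
def SelV [NumberField F] (i : ℕ) (W : WeierstrassCurve.Affine F)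
    (t : Fin 2 → ℕ → (W⁄(AlgebraicClosure F)).Point)
    (ρ : AbsGal F →* Matrix (Fin 2) (Fin 2) ℤ_[2]) (ψ : Fin 2 → AbsGal F →* ℤ_[2]ˣ) : Type u :=
  QuoMod (selY i W t ρ ψ) (cobs i ρ ψ)

open scoped Classical in
noncomputable instance instAddSelV [NumberField F] (i : ℕ) (W : WeierstrassCurve.Affine F)
    (t : Fin 2 → ℕ → (W⁄(AlgebraicClosure F)).Point)
    (ρ : AbsGal F →* Matrix (Fin 2) (Fin 2) ℤ_[2]) (ψ : Fin 2 → AbsGal F →* ℤ_[2]ˣ) :
    AddCommGroup (SelV i W t ρ ψ) :=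
  instAddQuoMod (selY i W t ρ ψ) (cobs i ρ ψ)

open scoped Classical in
noncomputable instance instModSelV [NumberField F] (i : ℕ) (W : WeierstrassCurve.Affine F)
    (t : Fin 2 → ℕ → (W⁄(AlgebraicClosure F)).Point)
    (ρ : AbsGal F →* Matrix (Fin 2) (Fin 2) ℤ_[2]) (ψ : Fin 2 → AbsGal F →* ℤ_[2]ˣ) :
    Module ℚ_[2] (SelV i W t ρ ψ) :=
  instModQuoMod (selY i W t ρ ψ) (cobs i ρ ψ)

open scoped Classical in
/-- There is an isomorphism of vector spaces from `T ⊗ (U_0 ^ i * U_1 ^ i)` to the Selmer space of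
`E × E0 ^ (2 i)` modulo the coboundaries, which sends `x ⊗ ω` to the class of `y ∧ ω` whenever `R x y`. -/
def WedIso [NumberField F] (i : ℕ) (W : WeierstrassCurve.Affine F)
    (t : Fin 2 → ℕ → (W⁄(AlgebraicClosure F)).Point)
    (ρ : AbsGal F →* Matrix (Fin 2) (Fin 2) ℤ_[2]) (ψ : Fin 2 → AbsGal F →* ℤ_[2]ˣ)
    (T : Type u) [AddCommGroup T] [Module ℚ_[2] T]
    (R : T → (AbsGal F → Fin 2 → ℚ_[2]) → Prop) : Prop :=
  ∃ κ : TenU i T → SelV i W t ρ ψ, IsLinIso κ ∧ ∀ x y, R x y → ∀ ω : UU i,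
    IsClassOf (selY i W t ρ ψ) (cobs i ρ ψ) (wdg y ω) (κ (tenU x ω))

open scoped Classical in
/-- The Selmer space of `E × E0 ^ (2 i)` modulo the coboundaries is the tensor product of the one of `E`
and `U_0 ^ i * U_1 ^ i`, by `y ⊗ ω ↦ y ∧ ω`. -/
def SelWedge [NumberField F] (i : ℕ) (W : WeierstrassCurve.Affine F)
    (t : Fin 2 → ℕ → (W⁄(AlgebraicClosure F)).Point)
    (ρ : AbsGal F →* Matrix (Fin 2) (Fin 2) ℤ_[2]) (ψ : Fin 2 → AbsGal F →* ℤ_[2]ˣ) : Prop :=
  WedIso i W t ρ ψ (SelQ W t ρ) fun q y => IsClass W t ρ y q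

open scoped Classical in
/-- The Selmer space of `E × E0 ^ (2 i)` modulo the coboundaries is the tensor product of
`ℚ_[2] ⊗ E(F)` and `U_0 ^ i * U_1 ^ i`, by `(1 ⊗ P) ⊗ ω ↦ c ∧ ω`, `c` any Kummer cocycle of `P`. -/
def KumWedge [NumberField F] (i : ℕ) (W : WeierstrassCurve.Affine F)
    (t : Fin 2 → ℕ → (W⁄(AlgebraicClosure F)).Point)
    (ρ : AbsGal F →* Matrix (Fin 2) (Fin 2) ℤ_[2]) (ψ : Fin 2 → AbsGal F →* ℤ_[2]ˣ) : Prop :=
  WedIso i W t ρ ψ (TenE W) fun x c => ∃ P, x = oneTen W P ∧ IsKummer W t P c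

end Pool.Agent.Work.MP_787500_nt.AC
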