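import Mathlib
import Pool.Agent.Work.MP_787500_nt.AC.EYB
import Pool.Agent.Work.MP_787500_nt.AC.IsoYDefs

/-!
The Selmer space of `E × E0 ^ (2 i)` modulo the coboundaries is the tensor product of the one of `E` and
`U_0 ^ i * U_1 ^ i`.
-/

set_option autoImplicit false

namespace Pool.Agent.Work.MP_787500_nt.AC

open IsDedekindDomain NumberField WeierstrassCurve WeierstrassCurve.Affine
open Pool.Agent.Work.MP_787500_nt
open Pool.Agent.Work.MP_787500_nt.OddP (cobLin)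
open scoped TensorProduct

universe u

section alg

variable {F : Type u} [Field F]
variable {i : ℕ} {ρ : OddP.AbsGal F →* Matrix (Fin 2) (Fin 2) ℤ_[2]}
  {ψ : Fin 2 → OddP.AbsGal F →* ℤ_[2]ˣ}

private theorem wed_add (ω ω' : LX i) (y : OddP.AbsGal F → Fin 2 → ℚ_[2]) :
    wed i (ω + ω') y = wed i ω y + wed i ω' y := by
  funext σ
  rw [wed_apply, mul_add]
  rfl

private theorem wed_smul (a : ℚ_[2]) (ω : LX i) (y : OddP.AbsGal F → Fin 2 → ℚ_[2]) :
    wed i (a • ω) y = a • wed i ω y := by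
  funext σ
  rw [wed_apply, mul_smul_comm]
  rfl

/-- the elements of `wedge i Y` are the sums of the `y T ∧ beta T` -/
private theorem wedge_range (Y : Submodule ℚ_[2] (OddP.AbsGal F → Fin 2 → ℚ_[2]))
    {x : OddP.AbsGal F → LX i} (hx : x ∈ wedge i (Y : Set (OddP.AbsGal F → Fin 2 → ℚ_[2]))) :
    ∃ y : Ty i → Y, sumWed i (fun T => (y T : OddP.AbsGal F → Fin 2 → ℚ_[2])) = x := by
  let Φ : (Ty i → Y) →ₗ[ℚ_[2]] (OddP.AbsGal F → LX i) :=
    sumWed i ∘ₗ LinearMap.pi fun T => Y.subtype ∘ₗ LinearMap.proj T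
  have h1 : wedge i (Y : Set (OddP.AbsGal F → Fin 2 → ℚ_[2])) ≤ LinearMap.range Φ := by
    rw [wedge, Submodule.span_le]
    rintro x ⟨y, hy, ω, hω, hx⟩
    refine ⟨fun T => ⟨cf i T.1 ω • y, Y.smul_mem _ hy⟩, ?_⟩
    have hx' : x = wed i ω y := by
      funext σ
      rw [hx σ, wed_apply]
    rw [hx', wed_expand hω]
    rfl
  obtain ⟨y, hy⟩ := h1 hx
  exact ⟨y, hy⟩

private theorem wedge_iso (Y C : Submodule ℚ_[2] (OddP.AbsGal F → Fin 2 → ℚ_[2]))
    (S B : Submodule ℚ_[2] (OddP.AbsGal F → LX i)) (U : Submodule ℚ_[2] (LX i))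
    (hC : C = LinearMap.range (cobLin ρ))
    (hB : B = cobOn i ρ ψ (⋀[ℚ_[2]]^(2 * i + 1) (VX i)) ⊤)
    (hS : S = cobOn i ρ ψ (⋀[ℚ_[2]]^(2 * i + 1) (VX i)) ⊤ ⊔
      wedge i (Y : Set (OddP.AbsGal F → Fin 2 → ℚ_[2])))
    (hU : U = spU i 0 ^ i * spU i 1 ^ i) :
    ∃ κ : ((Y ⧸ C.submoduleOf Y) ⊗[ℚ_[2]] U) ≃ₗ[ℚ_[2]] (S ⧸ B.submoduleOf S),
      ∀ (y : Y) (ω : U), ∃ h : wed i (ω : LX i) (y : OddP.AbsGal F → Fin 2 → ℚ_[2]) ∈ S,
        κ (Submodule.Quotient.mk y ⊗ₜ ω) = Submodule.Quotient.mk ⟨_, h⟩ := by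
  subst hC hB hS hU
  set B := cobOn i ρ ψ (⋀[ℚ_[2]]^(2 * i + 1) (VX i)) ⊤ with hB
  set S := B ⊔ wedge i (Y : Set (OddP.AbsGal F → Fin 2 → ℚ_[2])) with hS
  set C := LinearMap.range (cobLin ρ) with hC
  set U : Submodule ℚ_[2] (LX i) := spU i 0 ^ i * spU i 1 ^ i with hU
  have hmem : ∀ (y : Y) (ω : U),
      wed i (ω : LX i) (y : OddP.AbsGal F → Fin 2 → ℚ_[2]) ∈ S :=
    fun y ω => Submodule.mem_sup_right (mem_wedge y.2 ω.2)
  let g : Y →ₗ[ℚ_[2]] U →ₗ[ℚ_[2]] (S ⧸ B.submoduleOf S) :=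
    LinearMap.mk₂ ℚ_[2] (fun y ω => (B.submoduleOf S).mkQ ⟨_, hmem y ω⟩)
      (fun y y' ω => by
        rw [← map_add]
        congr 1
        exact Subtype.ext (map_add (wed i (ω : LX i)) _ _))
      (fun a y ω => by
        rw [← map_smul]
        congr 1
        exact Subtype.ext (map_smul (wed i (ω : LX i)) _ _))
      (fun y ω ω' => by
        rw [← map_add]
        congr 1
        exact Subtype.ext (wed_add _ _ _))
      (fun a y ω => by
        rw [← map_smul]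
        congr 1
        exact Subtype.ext (wed_smul _ _ _))
  have hg : ∀ y ω, g y ω = (B.submoduleOf S).mkQ ⟨_, hmem y ω⟩ := fun y ω => rfl
  have hker : C.submoduleOf Y ≤ LinearMap.ker g := by
    intro y hy
    rw [LinearMap.mem_ker]
    refine LinearMap.ext fun ω => ?_
    rw [hg, LinearMap.zero_apply, Submodule.mkQ_apply, Submodule.Quotient.mk_eq_zero]
    obtain ⟨z, hz⟩ : (y : OddP.AbsGal F → Fin 2 → ℚ_[2]) ∈ C := hy
    show wed i (ω : LX i) (y : OddP.AbsGal F → Fin 2 → ℚ_[2]) ∈ B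
    rw [← hz]
    exact cob_wedge z ω.2
  let f : (Y ⧸ C.submoduleOf Y) →ₗ[ℚ_[2]] U →ₗ[ℚ_[2]] (S ⧸ B.submoduleOf S) :=
    (C.submoduleOf Y).liftQ g hker
  let κ : ((Y ⧸ C.submoduleOf Y) ⊗[ℚ_[2]] U) →ₗ[ℚ_[2]] (S ⧸ B.submoduleOf S) :=
    TensorProduct.lift f
  have hκ : ∀ (y : Y) (ω : U), κ (Submodule.Quotient.mk y ⊗ₜ ω) =
      (B.submoduleOf S).mkQ ⟨_, hmem y ω⟩ := fun y ω => rfl
  let bT : Ty i → U := fun T => ⟨beta i T.1, beta_mem T.2⟩
  -- sums
  have hsum : ∀ y : Ty i → Y, ∃ h : sumWed i (fun T => (y T : OddP.AbsGal F → Fin 2 → ℚ_[2])) ∈ S,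
      κ (∑ T, (Submodule.Quotient.mk (y T) : Y ⧸ C.submoduleOf Y) ⊗ₜ bT T) =
        (B.submoduleOf S).mkQ ⟨_, h⟩ := by
    intro y
    have h0 : sumWed i (fun T => (y T : OddP.AbsGal F → Fin 2 → ℚ_[2])) ∈ S := by
      rw [sumWed_apply]
      exact Submodule.sum_mem _ fun T _ => hmem (y T) (bT T)
    refine ⟨h0, ?_⟩
    rw [map_sum]
    have h1 : (⟨_, h0⟩ : S) = ∑ T, (⟨_, hmem (y T) (bT T)⟩ : S) := by
      apply Subtype.ext
      rw [Submodule.coe_sum]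
      exact sumWed_apply _
    rw [h1, map_sum]
    rfl
  have hten : ∀ z : (Y ⧸ C.submoduleOf Y) ⊗[ℚ_[2]] U, ∃ y : Ty i → Y,
      z = ∑ T, (Submodule.Quotient.mk (y T) : Y ⧸ C.submoduleOf Y) ⊗ₜ bT T := by
    intro z
    induction z using TensorProduct.induction_on with
    | zero => exact ⟨0, by simp⟩
    | add x y hx hy =>
      obtain ⟨a, rfl⟩ := hx
      obtain ⟨b, rfl⟩ := hy
      refine ⟨a + b, ?_⟩
      rw [← Finset.sum_add_distrib]
      refine Finset.sum_congr rfl fun T _ => ?_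
      rw [← TensorProduct.add_tmul]
      rfl
    | tmul q ω =>
      obtain ⟨y, rfl⟩ := Submodule.Quotient.mk_surjective _ q
      refine ⟨fun T => cf i T.1 (ω : LX i) • y, ?_⟩
      have h1 : ω = ∑ T : Ty i, cf i T.1 (ω : LX i) • bT T := by
        apply Subtype.ext
        rw [Submodule.coe_sum]
        refine (UU_expand ω.2).trans ?_
        have : ∀ (I J : Fintype (Ty i)) (f : Ty i → LX i),
            @Finset.sum _ _ _ (@Finset.univ _ I) f = @Finset.sum _ _ _ (@Finset.univ _ J) f := by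
          intro I J f
          rw [Subsingleton.elim I J]
        exact this _ _ _
      conv_lhs => rw [h1]
      rw [TensorProduct.tmul_sum]
      refine Finset.sum_congr rfl fun T _ => ?_
      rw [← TensorProduct.smul_tmul]
      rfl
  have hinj : Function.Injective κ := by
    rw [← LinearMap.ker_eq_bot, LinearMap.ker_eq_bot']
    intro z hz
    obtain ⟨y, rfl⟩ := hten z
    obtain ⟨h, hh⟩ := hsum y
    rw [hh, Submodule.mkQ_apply, Submodule.Quotient.mk_eq_zero] at hz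
    have h1 : ∀ T, (y T : OddP.AbsGal F → Fin 2 → ℚ_[2]) ∈ C := fun T =>
      sumWed_mem (M := ⋀[ℚ_[2]]^(2 * i + 1) (VX i)) (ψ := ψ)
        (y := fun T => (y T : OddP.AbsGal F → Fin 2 → ℚ_[2])) hz T
    refine Finset.sum_eq_zero fun T _ => ?_
    have h2 : (Submodule.Quotient.mk (y T) : Y ⧸ C.submoduleOf Y) = 0 := by
      rw [Submodule.Quotient.mk_eq_zero]
      exact h1 T
    rw [h2, TensorProduct.zero_tmul]
  have hsurj : Function.Surjective κ := by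
    intro q
    obtain ⟨⟨s, hs⟩, rfl⟩ := Submodule.mkQ_surjective _ q
    obtain ⟨b, hb, w, hw, hbw⟩ := Submodule.mem_sup.1 hs
    obtain ⟨y, hy⟩ := wedge_range Y hw
    obtain ⟨h, hh⟩ := hsum y
    refine ⟨_, hh.trans ?_⟩
    rw [Submodule.mkQ_apply, Submodule.mkQ_apply, Submodule.Quotient.eq]
    show sumWed i (fun T => (y T : OddP.AbsGal F → Fin 2 → ℚ_[2])) - s ∈ B
    rw [hy, ← hbw]
    have h3 : w - (b + w) = -b := by abel
    rw [h3]
    exact B.neg_mem hb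
  exact ⟨LinearEquiv.ofBijective κ ⟨hinj, hsurj⟩, fun y ω => ⟨hmem y ω, hκ y ω⟩⟩

/-- the dimension of `U_0 ^ i * U_1 ^ i` -/
theorem finrank_UU (i : ℕ) : Module.finrank ℚ_[2] (UU i) = (2 * i).choose i ^ 2 := by
  have hU : (subU i 0 ^ i * subU i 1 ^ i : Submodule ℚ_[2] (LX i)) =
      spU i 0 ^ i * spU i 1 ^ i := by
    ext ω
    exact mem_UU ω
  have key : ∀ U : Submodule ℚ_[2] (LX i), U = spU i 0 ^ i * spU i 1 ^ i →
      Module.finrank ℚ_[2] U = (2 * i).choose i ^ 2 := by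
    rintro U rfl
    set U : Submodule ℚ_[2] (LX i) := spU i 0 ^ i * spU i 1 ^ i with hU
    let φ : U →ₗ[ℚ_[2]] (Ty i → ℚ_[2]) := LinearMap.pi fun T => cf i T.1 ∘ₗ U.subtype
    have hφ : ∀ ω T, φ ω T = cf i T.1 (ω : LX i) := fun ω T => rfl
    have hex : ∀ ω : U, (ω : LX i) = ∑ T : Ty i, φ ω T • beta i T.1 := by
      intro ω
      refine (UU_expand ω.2).trans ?_
      have : ∀ (I J : Fintype (Ty i)) (f : Ty i → LX i),
          @Finset.sum _ _ _ (@Finset.univ _ I) f = @Finset.sum _ _ _ (@Finset.univ _ J) f := by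
        intro I J f
        rw [Subsingleton.elim I J]
      exact this _ _ _
    have hbij : Function.Bijective φ := by
      constructor
      · intro ω ω' h
        apply Subtype.ext
        rw [hex ω, hex ω', h]
      · intro a
        refine ⟨⟨∑ T : Ty i, a T • beta i T.1, Submodule.sum_mem _ fun T _ =>
          Submodule.smul_mem _ _ (beta_mem T.2)⟩, ?_⟩
        funext T
        rw [hφ, map_sum, Finset.sum_eq_single T]
        · rw [map_smul, cf_beta, if_pos rfl, smul_eq_mul, mul_one]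
        · intro S _ hS
          rw [map_smul, cf_beta, if_neg (fun h => hS (Subtype.ext h)), smul_zero]
        · simp
    rw [(LinearEquiv.ofBijective φ hbij).finrank_eq, Module.finrank_fintype_fun_eq_card,
      ← Nat.card_eq_fintype_card, card_typ, pow_two]
  exact key _ hU

end alg

variable {F : Type u} [Field F] [NumberField F] {i : ℕ}
  {ρ : OddP.AbsGal F →* Matrix (Fin 2) (Fin 2) ℤ_[2]}
  {ψ : Fin 2 → OddP.AbsGal F →* ℤ_[2]ˣ} {W : WeierstrassCurve.Affine F}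
  {t : Fin 2 → ℕ → (W⁄(AlgebraicClosure F)).Point}

open scoped Classical in
theorem selWedge (hr : IsTateRep W t ρ)
    (hsp : Submodule.span ℚ_[2] (selY i W t ρ ψ) =
      Submodule.span ℚ_[2] (cobs i ρ ψ ∪ wedges i (selE W t ρ))) : SelWedge i W t ρ ψ := by
  have hS : (Submodule.span ℚ_[2] (selY i W t ρ ψ) : Submodule ℚ_[2] (OddP.AbsGal F → LX i)) =
      cobOn i ρ ψ (⋀[ℚ_[2]]^(2 * i + 1) (VX i)) ⊤ ⊔
        wedge i ((Submodule.span ℚ_[2] (selE W t ρ) : Submodule ℚ_[2] _) :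
          Set (OddP.AbsGal F → Fin 2 → ℚ_[2])) := by
    refine hsp.trans ?_
    have h1 : ((Submodule.span ℚ_[2] (selE W t ρ) : Submodule ℚ_[2] _) :
        Set (OddP.AbsGal F → Fin 2 → ℚ_[2])) = selE W t ρ := by
      rw [span_selE hr, selE_eq hr]
    rw [h1]
    exact span_cobs_wedges _
  have hU : (subU i 0 ^ i * subU i 1 ^ i : Submodule ℚ_[2] (LX i)) =
      spU i 0 ^ i * spU i 1 ^ i := by
    ext ω
    exact mem_UU ω
  obtain ⟨κ, hκ⟩ := wedge_iso (ψ := ψ) (Submodule.span ℚ_[2] (selE W t ρ))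
    (Submodule.span ℚ_[2] (cobE ρ)) (Submodule.span ℚ_[2] (selY i W t ρ ψ))
    (Submodule.span ℚ_[2] (cobs i ρ ψ)) (subU i 0 ^ i * subU i 1 ^ i) span_cobE span_cobs hS hU
  refine ⟨fun z => κ z, ⟨κ.bijective, fun x y => κ.map_add x y, fun a x => κ.map_smul a x⟩, ?_⟩
  rintro q y ⟨hy, rfl⟩ ω
  obtain ⟨h, hh⟩ := hκ ⟨y, hy⟩ ω
  have he : (wdg y ω : OddP.AbsGal F → LY i) = wed i (uval ω : LX i) y := by
    funext σ
    exact congrArg (fun z : LX i => z * (show LX i from uval ω)) (emb_elim (y σ))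
  refine ⟨?_, ?_⟩
  · rw [he]
    exact h
  · refine hh.trans ?_
    congr 1
    exact Subtype.ext he.symm

open scoped Classical in
theorem kumWedge (hk : KummerIso W t ρ) (hw : SelWedge i W t ρ ψ) : KumWedge i W t ρ ψ := by
  obtain ⟨κ, ⟨hκb, hκa, hκs⟩, hκ⟩ := hk
  obtain ⟨μ, ⟨hμb, hμa, hμs⟩, hμ⟩ := hw
  let e : TenE W ≃ₗ[ℚ_[2]] SelQ W t ρ :=
    LinearEquiv.ofBijective ⟨⟨κ, hκa⟩, hκs⟩ hκb
  let e' : TenU i (TenE W) ≃ₗ[ℚ_[2]] TenU i (SelQ W t ρ) := LinearEquiv.rTensor (UU i) e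
  refine ⟨fun z => μ (e' z), ⟨hμb.comp e'.bijective, fun x y => ?_, fun a x => ?_⟩, ?_⟩
  · show μ (e' (x + y)) = μ (e' x) + μ (e' y)
    rw [map_add, hμa]
  · show μ (e' (a • x)) = a • μ (e' x)
    rw [map_smul, hμs]
  · rintro x c ⟨P, rfl, hc⟩ ω
    have h1 := (hκ P).2 c hc
    exact hμ _ c h1 ω

end Pool.Agent.Work.MP_787500_nt.AC
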