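import Mathlib
import Pool.Agent.Work.MP_787500_nt.AC.Ev

/-!
# A group of functions with values in the 2-adic integers which is small modulo two is finitely
generated
-/

set_option autoImplicit false

namespace Pool.Agent.Work.MP_787500_nt.AC

/-- independence modulo two -/
def Ind2 {X : Type*} {r : ℕ} (g : Fin r → X → ℤ_[2]) : Prop :=
  ∀ c : Fin r → ℤ, (∀ x, (2 : ℤ_[2]) ∣ ∑ i, (c i : ℤ_[2]) * g i x) → ∀ i, 2 ∣ c i

private theorem two_dvd_cast {c : ℤ} (h : 2 ∣ c) : (2 : ℤ_[2]) ∣ (c : ℤ_[2]) := by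
  obtain ⟨k, rfl⟩ := h
  exact ⟨k, by push_cast; ring⟩

private theorem eq_zero_of_dvd' {x : ℤ_[2]} (h : ∀ n : ℕ, (2 : ℤ_[2]) ^ n ∣ x) : x = 0 := by
  by_contra hx
  obtain ⟨n, hn⟩ := exists_pow_lt_of_lt_one (norm_pos_iff.2 hx) (by norm_num : (1 / 2 : ℝ) < 1)
  have h1 : ‖x‖ ≤ ((2 : ℕ) : ℝ) ^ (-(n : ℤ)) := by
    rw [PadicInt.norm_le_pow_iff_mem_span_pow, Ideal.mem_span_singleton]
    exact_mod_cast h n
  rw [zpow_neg, zpow_natCast] at h1
  rw [one_div, inv_pow] at hn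
  push_cast at h1
  linarith

/-- one step of the expansion -/
private theorem step {X : Type*} {G0 : AddSubgroup (X → ℤ_[2])}
    (hdiv : ∀ u : X → ℤ_[2], (fun x => 2 * u x) ∈ G0 → u ∈ G0) {r : ℕ} {g : Fin r → X → ℤ_[2]}
    (hg : ∀ i, g i ∈ G0) (hi : Ind2 g) (hmax : ∀ g' : Fin (r + 1) → X → ℤ_[2],
      (∀ i, g' i ∈ G0) → ¬ Ind2 g') {u : X → ℤ_[2]} (hu : u ∈ G0) :
    ∃ (c : Fin r → ℤ) (u' : X → ℤ_[2]), u' ∈ G0 ∧
      ∀ x, u x = ∑ i, (c i : ℤ_[2]) * g i x + 2 * u' x := by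
  have h1 := hmax (Fin.cons u g) (by
    intro i
    refine Fin.cases ?_ (fun j => ?_) i
    · exact hu
    · exact hg j)
  rw [Ind2] at h1
  push Not at h1
  obtain ⟨c, hc, k, hk⟩ := h1
  have hs : ∀ x, ∑ i, (c i : ℤ_[2]) * (Fin.cons u g : Fin (r + 1) → X → ℤ_[2]) i x =
      (c 0 : ℤ_[2]) * u x + ∑ i : Fin r, (c i.succ : ℤ_[2]) * g i x := by
    intro x
    rw [Fin.sum_univ_succ]
    rfl
  have hodd : ¬ 2 ∣ c 0 := by
    intro h0
    have h2 : ∀ i : Fin r, 2 ∣ c i.succ := by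
      apply hi
      intro x
      have h3 := hc x
      rw [hs] at h3
      exact (dvd_add_right ((two_dvd_cast h0).mul_right _)).1 h3
    apply hk
    revert k
    intro k _
    refine Fin.cases ?_ (fun j => ?_) k
    · exact h0
    · exact h2 j
  obtain ⟨m, hm⟩ : ∃ m : ℤ, c 0 = 2 * m + 1 := by
    obtain ⟨m, hm⟩ := Int.not_even_iff_odd.1 (fun h => hodd (even_iff_two_dvd.1 h))
    exact ⟨m, hm⟩
  choose q hq using hc
  refine ⟨fun i => -c i.succ, fun x => q x - (m : ℤ_[2]) * u x, ?_, ?_⟩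
  · apply hdiv
    have e : (fun x => 2 * (q x - (m : ℤ_[2]) * u x)) = u + ∑ i : Fin r, c i.succ • g i := by
      funext x
      have h3 := hq x
      rw [hs, hm] at h3
      push_cast at h3
      rw [Pi.add_apply, Finset.sum_apply]
      simp only [Pi.smul_apply, zsmul_eq_mul]
      linear_combination -h3
    rw [e]
    exact G0.add_mem hu (G0.sum_mem fun i _ => G0.zsmul_mem (hg i) _)
  · intro x
    have h3 := hq x
    rw [hs, hm] at h3
    push_cast at h3 ⊢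
    simp only [neg_mul, Finset.sum_neg_distrib]
    linear_combination h3

theorem exists_span {X : Type*} {G0 : AddSubgroup (X → ℤ_[2])}
    (hdiv : ∀ u : X → ℤ_[2], (fun x => 2 * u x) ∈ G0 → u ∈ G0) {R : ℕ}
    (hb : ∀ (r : ℕ) (g : Fin r → X → ℤ_[2]), (∀ i, g i ∈ G0) → Ind2 g → r ≤ R) :
    ∃ r ≤ R, ∃ g : Fin r → X → ℤ_[2], (∀ i, g i ∈ G0) ∧
      ∀ u ∈ G0, ∃ a : Fin r → ℤ_[2], ∀ x, u x = ∑ i, a i * g i x := by
  classical
  -- a maximal independent family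
  obtain ⟨r, hr1, hr2⟩ : ∃ r : ℕ, (∃ g : Fin r → X → ℤ_[2], (∀ i, g i ∈ G0) ∧ Ind2 g) ∧
      ∀ g' : Fin (r + 1) → X → ℤ_[2], (∀ i, g' i ∈ G0) → ¬ Ind2 g' := by
    by_contra hcon
    push Not at hcon
    have hall : ∀ r : ℕ, ∃ g : Fin r → X → ℤ_[2], (∀ i, g i ∈ G0) ∧ Ind2 g := by
      intro r
      induction r with
      | zero => exact ⟨fun i => i.elim0, fun i => i.elim0, fun c _ i => i.elim0⟩
      | succ r ih => exact hcon r ih
    obtain ⟨g, h1, h2⟩ := hall (R + 1)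
    have := hb _ g h1 h2
    omega
  obtain ⟨g, hg, hi⟩ := hr1
  refine ⟨r, hb r g hg hi, g, hg, fun u hu => ?_⟩
  -- the sequence of remainders
  choose c u' hu' hcu using fun v : G0 => step hdiv hg hi hr2 v.2
  let w : ℕ → G0 := fun n => (fun v : G0 => (⟨u' v, hu' v⟩ : G0))^[n] ⟨u, hu⟩
  have hw0 : w 0 = ⟨u, hu⟩ := rfl
  have hws : ∀ n, w (n + 1) = ⟨u' (w n), hu' (w n)⟩ := fun n =>
    Function.iterate_succ_apply' _ n _
  let m : ℕ → Fin r → ℤ := fun n i => ∑ l ∈ Finset.range n, 2 ^ l * c (w l) i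
  have hexp : ∀ n x, u x = ∑ i, (m n i : ℤ_[2]) * g i x + 2 ^ n * (w n : X → ℤ_[2]) x := by
    intro n x
    induction n with
    | zero => simp [m, hw0]
    | succ n ih =>
      have h3 := hcu (w n) x
      have h4 : (w (n + 1) : X → ℤ_[2]) x = u' (w n) x := by rw [hws]
      rw [ih, h3, h4]
      have h5 : ∀ i, (m (n + 1) i : ℤ_[2]) = (m n i : ℤ_[2]) + 2 ^ n * (c (w n) i : ℤ_[2]) := by
        intro i
        simp only [m]
        rw [Finset.sum_range_succ]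
        push_cast
        ring
      simp only [h5, add_mul, Finset.sum_add_distrib, mul_add, Finset.mul_sum, mul_assoc]
      ring
  have hdm : ∀ i n, (2 : ℤ) ^ n ∣ m (n + 1) i - m n i := by
    intro i n
    refine ⟨c (w n) i, ?_⟩
    simp only [m]
    rw [Finset.sum_range_succ]
    ring
  choose a ha using fun i => exists_padic_limit (fun n => m n i) (hdm i)
  refine ⟨a, fun x => ?_⟩
  rw [← sub_eq_zero]
  apply eq_zero_of_dvd'
  intro n
  have h6 : u x - ∑ i, a i * g i x =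
      2 ^ n * (w n : X → ℤ_[2]) x - ∑ i, (a i - (m n i : ℤ_[2])) * g i x := by
    rw [hexp n x]
    simp only [sub_mul, Finset.sum_sub_distrib]
    ring
  rw [h6]
  exact dvd_sub (Dvd.intro _ rfl) (Finset.dvd_sum fun i _ => (ha i n).mul_right _)

end Pool.Agent.Work.MP_787500_nt.AC
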