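import Mathlib
import Pool.Agent.Work.MP_787500_nt.H10_Gen
import Pool.Agent.Work.MP_787500_nt.RS.LocKum
import Pool.Agent.Work.MP_787500_nt.AC.Defs

/-!
# The number of the locally trivial classes killed by two
-/

set_option autoImplicit false

namespace Pool.Agent.Work.MP_787500_nt.AC

open WithZero IsDedekindDomain NumberField WeierstrassCurve WeierstrassCurve.Affine
open Pool.Agent.Work.MP_787500_nt
open Pool.Agent.Work.MP_787500_nt.RS
open Pool.Agent.Work.MP_787500_nt.OddP (AbsGal)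

universe u

variable {F : Type u} [Field F] [NumberField F]

/-- equal invariants force equal parities at all places not above 2 -/
private theorem parity_of_fst {e1 e2 e3 : F} (h12 : e1 ≠ e2) (h23 : e2 ≠ e3) (h31 : e3 ≠ e1)
    {w w' : HeightOneSpectrum (𝓞 F)} {d1 d2 d3 d1' d2' d3' : F} (hs : ELS e1 e2 e3 d1 d2 d3)
    (hs' : ELS e1 e2 e3 d1' d2' d3')
    (h : (invs e1 e2 e3 w w' d2 d3).1 = (invs e1 e2 e3 w w' d2' d3').1) {v : HeightOneSpectrum (𝓞 F)}
    (hv : (2 : 𝓞 F) ∉ v.asIdeal) :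
    (IsSquare (v.valuation F d2) ↔ IsSquare (v.valuation F d2')) ∧
    (IsSquare (v.valuation F d3) ↔ IsSquare (v.valuation F d3')) := by
  by_cases hadd : v ∈ addPlaces e1 e2 e3
  · have h1 := congrArg (fun x => x.2.1 ⟨v, hadd⟩) h
    have h2 := congrArg (fun x => x.2.2 ⟨v, hadd⟩) h
    exact ⟨iff_of_eq h1, iff_of_eq h2⟩
  have hsq : IsSquare (diffVal e1 e2 e3 v) := by
    by_contra hcon
    exact hadd ⟨hv, hcon⟩
  by_cases hall : v.valuation F (e1 - e2) = v.valuation F (e2 - e3) ∧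
      v.valuation F (e2 - e3) = v.valuation F (e3 - e1)
  · obtain ⟨g1, g2⟩ := hall
    have g3 : diffVal e1 e2 e3 v = v.valuation F (e2 - e3) := by
      rw [diffVal, g1, ← g2, max_self, max_self]
    rw [g3] at hsq
    have e2s : v.valuation F (e2 - e3) = v.valuation F (e2 - e1) := by
      rw [← g1, Valuation.map_sub_swap]
    have e3s : v.valuation F (e3 - e1) = v.valuation F (e3 - e2) := by
      rw [← g2, Valuation.map_sub_swap]
    have a2 := hs.rot.even h23 e2s hsq
    have a2' := hs'.rot.even h23 e2s hsq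
    have a3 := hs.rot.rot.even h31 e3s (by rw [← g2]; exact hsq)
    have a3' := hs'.rot.rot.even h31 e3s (by rw [← g2]; exact hsq)
    exact ⟨iff_of_true a2 a2', iff_of_true a3 a3'⟩
  · have hmult : v ∈ multPlaces e1 e2 e3 := ⟨hv, hsq, hall⟩
    have h1 := iff_of_eq (congrArg (fun x => x.1 ⟨v, hmult⟩) h)
    by_cases hfar : v.valuation F (e2 - e3) = v.valuation F (e2 - e1) ∧
        v.valuation F (e2 - e3) = diffVal e1 e2 e3 v
    · have a2 := hs.rot.even h23 hfar.1 (by rw [hfar.2]; exact hsq)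
      have a2' := hs'.rot.even h23 hfar.1 (by rw [hfar.2]; exact hsq)
      exact ⟨iff_of_true a2 a2', (sel_iff h1).1 hfar⟩
    · have hb : IsSquare (v.valuation F d2) ↔ IsSquare (v.valuation F d2') := (sel_iff h1).2 hfar
      refine ⟨hb, ?_⟩
      rcases far_cases e1 e2 e3 v with hf | hf | hf
      · have a1 := hs.even h12 hf.1 (by rw [hf.2]; exact hsq)
        have a1' := hs'.even h12 hf.1 (by rw [hf.2]; exact hsq)
        rw [← hs.even_iff a1, ← hs'.even_iff a1']
        exact hb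
      · exact absurd hf hfar
      · have a3 := hs.rot.rot.even h31 hf.1 (by rw [hf.2]; exact hsq)
        have a3' := hs'.rot.rot.even h31 hf.1 (by rw [hf.2]; exact hsq)
        exact iff_of_true a3 a3'


omit [NumberField F] in
private theorem card_fst {S T : Set (HeightOneSpectrum (𝓞 F))} (hS : S.Finite) (hT : T.Finite) :
    Nat.card ((S → Prop) × (T → Prop) × (T → Prop)) = 2 ^ (S.ncard + 2 * T.ncard) := by
  have : Finite S := hS.to_subtype
  have : Finite T := hT.to_subtype
  have h : Nat.card Prop = 2 := by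
    rw [Nat.card_eq_fintype_card]; rfl
  rw [Nat.card_prod, Nat.card_prod, Nat.card_fun, Nat.card_fun, h,
    Nat.card_coe_set_eq, Nat.card_coe_set_eq]
  ring

open scoped Classical in
private theorem key_local (hF : PropP F) {W : WeierstrassCurve.Affine F}
    {e1 e2 e3 : F} (h : TwoTors W e1 e2 e3)
    {w : HeightOneSpectrum (𝓞 F)} (hw : (2 : 𝓞 F) ∈ w.asIdeal)
    [CharZero (w.adicCompletion F)]
    {P P' : ((W⁄(w.adicCompletion F))⁄(w.adicCompletion F)).Point}
    {d1 d2 d3 d1' d2' d3' : F} (hs : ELS e1 e2 e3 d1 d2 d3) (hs' : ELS e1 e2 e3 d1' d2' d3')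
    (hP : Kum2 (h.bc (w.adicCompletion F)) P (algebraMap F (w.adicCompletion F) d2)
      (algebraMap F (w.adicCompletion F) d3))
    (hP' : Kum2 (h.bc (w.adicCompletion F)) P' (algebraMap F (w.adicCompletion F) d2')
      (algebraMap F (w.adicCompletion F) d3'))
    (h1 : (invs e1 e2 e3 w w d2 d3).1 = (invs e1 e2 e3 w w d2' d3').1)
    (h2 : (QuotientAddGroup.mk P :
      ((W⁄(w.adicCompletion F))⁄(w.adicCompletion F)).Point ⧸
        (dbl ((W⁄(w.adicCompletion F))⁄(w.adicCompletion F)).Point).range) =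
      QuotientAddGroup.mk P') :
    IsSquare (d2 * d2') ∧ IsSquare (d3 * d3') := by
  rw [QuotientAddGroup.eq] at h2
  obtain ⟨R, hR⟩ := h2
  rw [nsmulAddMonoidHom_apply, two_nsmul] at hR
  have hR' : P - P' = -R + -R := by
    have : P - P' = -(-P + P') := by abel
    rw [this, ← hR]; abel
  obtain ⟨s2, s3⟩ := Kum2.isSquare_mul hP hP' hR'
  have hp := fun (v : HeightOneSpectrum (𝓞 F)) (hv : (2 : 𝓞 F) ∉ v.asIdeal) =>
    parity_of_fst h.h12 h.h23 h.h31 hs hs' h1 hv
  have val_ne : ∀ (v : HeightOneSpectrum (𝓞 F)) {d : F}, d ≠ 0 → v.valuation F d ≠ 0 :=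
    fun v d hd => ((v.valuation F).ne_zero_iff).2 hd
  rw [← map_mul] at s2 s3
  constructor
  · refine hF w hw _ (mul_ne_zero hs.h2 hs'.h2) ?_ (locSq_of_completion w (LocSq.of_isSquare s2))
    intro v hv
    rw [map_mul]
    exact isSquare_mul_of_iff (val_ne v hs.h2) (val_ne v hs'.h2) (hp v hv).1
  · refine hF w hw _ (mul_ne_zero hs.h3 hs'.h3) ?_ (locSq_of_completion w (LocSq.of_isSquare s3))
    intro v hv
    rw [map_mul]
    exact isSquare_mul_of_iff (val_ne v hs.h3) (val_ne v hs'.h3) (hp v hv).2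

open scoped Classical in
/-- a finite set of invariants which determine the square classes of everywhere locally soluble
triples -/
theorem exists_invs (hF : PropP F) {W : WeierstrassCurve.Affine F}
    {e1 e2 e3 : F} (h : TwoTors W e1 e2 e3)
    {w : HeightOneSpectrum (𝓞 F)} (hw : (2 : 𝓞 F) ∈ w.asIdeal) {m : ℕ}
    (h0 : (dbl ((W⁄(w.adicCompletion F))⁄(w.adicCompletion F)).Point).range.index ≠ 0)
    (hm : (dbl ((W⁄(w.adicCompletion F))⁄(w.adicCompletion F)).Point).range.index ≤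
      4 * 2 ^ m) :
    ∃ (I : Type u) (_ : Finite I) (J : F × F × F → I),
      Nat.card I ≤ 2 ^ (m + condExp e1 e2 e3 + 2) ∧
      ∀ d d' : F × F × F, ELS e1 e2 e3 d.1 d.2.1 d.2.2 → ELS e1 e2 e3 d'.1 d'.2.1 d'.2.2 →
        J d = J d' → IsSquare (d.2.1 * d'.2.1) ∧ IsSquare (d.2.2 * d'.2.2) := by
  have hchar : CharZero (w.adicCompletion F) :=
    charZero_of_injective_algebraMap (algebraMap F (w.adicCompletion F)).injective
  have fST := places_finite h.h12 h.h23 h.h31
  have fS : (multPlaces e1 e2 e3).Finite := fST.subset Set.subset_union_left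
  have fT : (addPlaces e1 e2 e3).Finite := fST.subset Set.subset_union_right
  have hS : Finite (multPlaces e1 e2 e3) := fS.to_subtype
  have hT : Finite (addPlaces e1 e2 e3) := fT.to_subtype
  -- local points
  have hloc : ∀ d : F × F × F, ∃ P : ((W⁄(w.adicCompletion F))⁄(w.adicCompletion F)).Point,
      ELS e1 e2 e3 d.1 d.2.1 d.2.2 →
      Kum2 (h.bc (w.adicCompletion F)) P (algebraMap F (w.adicCompletion F) d.2.1)
        (algebraMap F (w.adicCompletion F) d.2.2) := by
    intro d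
    by_cases hd : ELS e1 e2 e3 d.1 d.2.1 d.2.2
    · obtain ⟨X, w', z1, z2, z3, hne, E1, E2, E3⟩ := hd.loc w
      have hsq : IsSquare (algebraMap F (w.adicCompletion F) d.1 *
          algebraMap F (w.adicCompletion F) d.2.1 * algebraMap F (w.adicCompletion F) d.2.2) := by
        obtain ⟨q, hq⟩ := hd.sq
        exact ⟨algebraMap F (w.adicCompletion F) q, by rw [← map_mul, ← map_mul, hq, map_mul]⟩
      obtain ⟨P, hP⟩ := exists_kum2_of_sol (h.bc (w.adicCompletion F))
        ((map_ne_zero _).2 hd.h1) ((map_ne_zero _).2 hd.h2) ((map_ne_zero _).2 hd.h3) hsq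
        hne E1 E2 E3
      exact ⟨P, fun _ => hP⟩
    · exact ⟨0, fun hh => absurd hh hd⟩
  choose π hπ using hloc
  have hfinloc : Finite (((W⁄(w.adicCompletion F))⁄(w.adicCompletion F)).Point ⧸
      (dbl ((W⁄(w.adicCompletion F))⁄(w.adicCompletion F)).Point).range) := by
    rw [AddSubgroup.index_eq_card] at h0
    exact Nat.finite_of_card_ne_zero h0
  refine ⟨((multPlaces e1 e2 e3 → Prop) × (addPlaces e1 e2 e3 → Prop) ×
    (addPlaces e1 e2 e3 → Prop)) × (((W⁄(w.adicCompletion F))⁄(w.adicCompletion F)).Point ⧸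
        (dbl ((W⁄(w.adicCompletion F))⁄(w.adicCompletion F)).Point).range), ?_,
    fun d => ((invs e1 e2 e3 w w d.2.1 d.2.2).1, QuotientAddGroup.mk (π d)), ?_, ?_⟩
  · show Finite (_ × _)
    infer_instance
  · have e : Nat.card (((multPlaces e1 e2 e3 → Prop) × (addPlaces e1 e2 e3 → Prop) ×
        (addPlaces e1 e2 e3 → Prop)) × (((W⁄(w.adicCompletion F))⁄(w.adicCompletion F)).Point ⧸
        (dbl ((W⁄(w.adicCompletion F))⁄(w.adicCompletion F)).Point).range)) =
        2 ^ condExp e1 e2 e3 *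
        (dbl ((W⁄(w.adicCompletion F))⁄(w.adicCompletion F)).Point).range.index := by
      rw [AddSubgroup.index_eq_card, condExp, ← card_fst fS fT]
      exact Nat.card_prod _ _
    rw [e]
    refine (Nat.mul_le_mul le_rfl hm).trans (le_of_eq ?_)
    rw [pow_add, pow_add]; ring
  · intro d d' hs hs' hJ
    have a1 := congrArg Prod.fst hJ
    have a2 := congrArg Prod.snd hJ
    exact key_local hF h hw hs hs' (hπ d hs) (hπ d' hs') a1 a2

/-- the product of the first coordinates is a square -/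
private theorem sq_first {d1 d2 d3 d1' d2' d3' : F} (hs : IsSquare (d1 * d2 * d3))
    (hs' : IsSquare (d1' * d2' * d3')) (n2 : d2 ≠ 0) (n3 : d3 ≠ 0) (n2' : d2' ≠ 0) (n3' : d3' ≠ 0)
    (s2 : IsSquare (d2 * d2')) (s3 : IsSquare (d3 * d3')) : IsSquare (d1 * d1') := by
  obtain ⟨a, ha⟩ := hs
  obtain ⟨b, hb⟩ := hs'
  obtain ⟨c, hc⟩ := s2
  obtain ⟨e, he⟩ := s3
  have hc0 : c ≠ 0 := by
    rintro rfl
    exact mul_ne_zero n2 n2' (by rw [hc]; ring)
  have he0 : e ≠ 0 := by
    rintro rfl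
    exact mul_ne_zero n3 n3' (by rw [he]; ring)
  refine ⟨a * b / (c * e), ?_⟩
  field_simp
  linear_combination (d1' * d2' * d3') * ha + (a * a) * hb - (d1 * d1' * (e * e)) * hc -
    (d1 * d1' * (d2 * d2')) * he

open scoped Classical in
/-- an injective family of locally trivial homomorphisms to the points of order two -/
theorem card_sel_le (hF : PropP F) {W : WeierstrassCurve.Affine F}
    {e1 e2 e3 : F} (h : TwoTors W e1 e2 e3)
    {w : HeightOneSpectrum (𝓞 F)} (hw : (2 : 𝓞 F) ∈ w.asIdeal) {m : ℕ}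
    (h0 : (dbl ((W⁄(w.adicCompletion F))⁄(w.adicCompletion F)).Point).range.index ≠ 0)
    (hm : (dbl ((W⁄(w.adicCompletion F))⁄(w.adicCompletion F)).Point).range.index ≤
      4 * 2 ^ m) {S : Type*} (B : S → AbsGal F → (W⁄(AlgebraicClosure F)).Point)
    (hB : Function.Injective B) (hloc : ∀ c, IsLocallyConstant (B c))
    (h2 : ∀ c σ, B c σ + B c σ = 0) (hmul : ∀ c σ τ, B c (σ * τ) = B c σ + B c τ)
    (hv : ∀ c (v : HeightOneSpectrum (𝓞 F)), LocTriv W (v.adicCompletion F) (B c)) :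
    Finite S ∧ Nat.card S ≤ 2 ^ (m + condExp e1 e2 e3 + 2) := by
  obtain ⟨I, hI, J, hcard, hJ⟩ := exists_invs hF h hw h0 hm
  choose d1 d2 d3 s1 s2 s3 D using fun c => exists_kdata h (h2 c) (hmul c) (hloc c)
  have hE : ∀ c, ELS e1 e2 e3 (d1 c) (d2 c) (d3 c) := fun c =>
    ⟨(D c).d1_ne, (D c).d2_ne, (D c).d3_ne, (D c).isSquare, fun v => (D c).homSol (hv c v)⟩
  have hinj : Function.Injective fun c => J (d1 c, d2 c, d3 c) := by
    intro c c' hc
    obtain ⟨q2, q3⟩ := hJ (d1 c, d2 c, d3 c) (d1 c', d2 c', d3 c') (hE c) (hE c') hc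
    have q1 : IsSquare (d1 c * d1 c') := sq_first (hE c).sq (hE c').sq (hE c).h2 (hE c).h3
      (hE c').h2 (hE c').h3 q2 q3
    exact hB ((D c).inj (D c') q1 q2)
  exact ⟨Finite.of_injective _ hinj, (Nat.card_le_card_of_injective _ hinj).trans hcard⟩

end Pool.Agent.Work.MP_787500_nt.AC
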