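import Mathlib
import Pool.Agent.Work.MP_787500_nt.H9_Main
import Pool.Agent.Work.MP_787500_nt.H67_Coh
import Pool.Agent.Work.MP_787500_nt.AC.Defs
import Pool.Agent.Work.MP_787500_nt.AC.Ev
import Pool.Agent.Work.MP_787500_nt.AC.Gal
import Pool.Agent.Work.MP_787500_nt.AC.KumB
import Pool.Agent.Work.MP_787500_nt.AC.SelL
import Pool.Agent.Work.MP_787500_nt.AC.SelA
import Pool.Agent.Work.MP_787500_nt.AC.SelC

/-!
# The dimension of the Selmer space
-/

set_option autoImplicit false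

namespace Pool.Agent.Work.MP_787500_nt.AC

open IsDedekindDomain NumberField WeierstrassCurve WeierstrassCurve.Affine
open Pool.Agent.Work.MP_787500_nt
open Pool.Agent.Work.MP_787500_nt.RS
open Pool.Agent.Work.MP_787500_nt.OddP (AbsGal)

universe u

variable {F : Type u} [Field F] [NumberField F] {W : WeierstrassCurve.Affine F} {e1 e2 e3 : F}
variable {t : Fin 2 → ℕ → (W⁄(AlgebraicClosure F)).Point}
variable {ρ : AbsGal F →* Matrix (Fin 2) (Fin 2) ℤ_[2]}

/-- the function with values in the 2-adic numbers -/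
def toQ (u : AbsGal F × Fin 2 → ℤ_[2]) : AbsGal F → Fin 2 → ℚ_[2] := fun σ j => (u (σ, j) : ℚ_[2])

theorem toQ_add (u v : AbsGal F × Fin 2 → ℤ_[2]) : toQ (u + v) = toQ u + toQ v := by
  funext σ j
  exact PadicInt.coe_add _ _

theorem toQ_neg (u : AbsGal F × Fin 2 → ℤ_[2]) : toQ (-u) = -toQ u := by
  funext σ j
  exact PadicInt.coe_neg _

theorem toQ_zero : toQ (0 : AbsGal F × Fin 2 → ℤ_[2]) = 0 := by
  funext σ j
  exact PadicInt.coe_zero

/-- the integral elements of the Selmer space -/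
noncomputable def intSpace (hr : IsTateRep W t ρ) : AddSubgroup (AbsGal F × Fin 2 → ℤ_[2]) where
  carrier := {u | toQ u ∈ kumLocSpace hr}
  add_mem' := fun {u v} hu hv => by
    show toQ (u + v) ∈ kumLocSpace hr
    rw [toQ_add]
    exact Submodule.add_mem _ hu hv
  zero_mem' := by
    show toQ 0 ∈ kumLocSpace hr
    rw [toQ_zero]
    exact Submodule.zero_mem _
  neg_mem' := fun {u} hu => by
    show toQ (-u) ∈ kumLocSpace hr
    rw [toQ_neg]
    exact Submodule.neg_mem _ hu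

theorem mem_intSpace (hr : IsTateRep W t ρ) {u : AbsGal F × Fin 2 → ℤ_[2]} :
    u ∈ intSpace hr ↔ toQ u ∈ kumLocSpace hr := Iff.rfl

theorem intSpace_div (hr : IsTateRep W t ρ) (u : AbsGal F × Fin 2 → ℤ_[2])
    (hu : (fun x => 2 * u x) ∈ intSpace hr) : u ∈ intSpace hr := by
  rw [mem_intSpace] at hu ⊢
  have e : toQ u = (2⁻¹ : ℚ_[2]) • toQ (fun x => 2 * u x) := by
    funext σ j
    show (u (σ, j) : ℚ_[2]) = 2⁻¹ * ((2 * u (σ, j) : ℤ_[2]) : ℚ_[2])
    have e2 : ((2 : ℤ_[2]) : ℚ_[2]) = 2 := rfl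
    rw [PadicInt.coe_mul, e2, inv_mul_cancel_left₀ two_ne_zero]
  rw [e]
  exact Submodule.smul_mem _ _ hu

/-- the evaluation as a homomorphism -/
noncomputable def evHom {A : Type*} [AddCommGroup A] {t : Fin 2 → ℕ → A} (ht : IsTateBasis t)
    (n : ℕ) : (Fin 2 → ℤ_[2]) →+ A :=
  AddMonoidHom.mk' (fun c => ev t c n) fun c c' => ev_add ht c c' n

theorem evHom_apply {A : Type*} [AddCommGroup A] {t : Fin 2 → ℕ → A} (ht : IsTateBasis t)
    (n : ℕ) (c : Fin 2 → ℤ_[2]) : evHom ht n c = ev t c n := rfl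

theorem ev_shift {A : Type*} [AddCommGroup A] {t : Fin 2 → ℕ → A} (ht : IsTateBasis t)
    (n N : ℕ) (c : Fin 2 → ℤ_[2]) : ev t (fun j => 2 ^ N * c j) (n + N) = ev t c n := by
  have h1 : ∀ N : ℕ, (2 ^ N) • ev t c (n + N) = ev t c n := by
    intro N
    induction N with
    | zero => rw [pow_zero, one_smul, add_zero]
    | succ N ih => rw [pow_succ, mul_smul, ← add_assoc, two_ev ht, ih]
  rw [← h1 N, ← evHom_apply ht (n + N) c, ← map_nsmul, evHom_apply]
  congr 1
  funext j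
  rw [Pi.smul_apply, nsmul_eq_mul]
  push_cast
  ring

open scoped Classical in
/-- integral elements satisfy the local conditions at all levels -/
theorem locTriv_of_int (hr : IsTateRep W t ρ) {u : AbsGal F × Fin 2 → ℤ_[2]}
    (hu : u ∈ intSpace hr) (n : ℕ) (v : HeightOneSpectrum (𝓞 F)) :
    LocTriv W (v.adicCompletion F) (fun σ => ev t (fun j => u (σ, j)) n) := by
  obtain ⟨hc, N, y, hy, hloc⟩ := hu
  have h1 : (fun σ => ev t (fun j => u (σ, j)) n) = fun σ => ev t (y σ) (n + N) := by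
    funext σ
    have h2 : y σ = fun j => 2 ^ N * u (σ, j) := by
      funext j
      apply Subtype.ext
      have e2 : ((2 : ℤ_[2]) : ℚ_[2]) = 2 := rfl
      have h3 := hy σ j
      show (y σ j : ℚ_[2]) = ((2 ^ N * u (σ, j) : ℤ_[2]) : ℚ_[2])
      rw [h3, PadicInt.coe_mul, PadicInt.coe_pow, e2]
      rfl
    rw [h2, ev_shift hr.1]
  rw [h1]
  exact hloc (n + N) v

theorem int_coc' (hr : IsTateRep W t ρ) {u : AbsGal F × Fin 2 → ℤ_[2]} (hu : u ∈ intSpace hr)
    (σ τ : AbsGal F) : (fun j => u (σ * τ, j)) = (fun j => u (σ, j)) +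
      (ρ σ).mulVec (fun j => u (τ, j)) :=
  int_coc (y := fun σ j => u (σ, j)) (N := 0) hu.1 (fun σ j => by rw [pow_zero, one_mul]; rfl) σ τ

theorem int_cont (hr : IsTateRep W t ρ) {u : AbsGal F × Fin 2 → ℤ_[2]} (hu : u ∈ intSpace hr) :
    Continuous fun σ => (fun j => u (σ, j) : Fin 2 → ℤ_[2]) := by
  have h1 : Continuous (toQ u) := hu.1.1
  apply continuous_pi
  intro j
  have e : Isometry (fun z : ℤ_[2] => (z : ℚ_[2])) := Isometry.of_dist_eq (fun a b => rfl)
  rw [e.isEmbedding.isInducing.continuous_iff]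
  exact (continuous_apply j).comp h1

theorem ev_locConst' {A : Type*} [AddCommGroup A] {t : Fin 2 → ℕ → A} (ht : IsTateBasis t)
    (n : ℕ) : IsLocallyConstant (fun c : Fin 2 → ℤ_[2] => ev t c n) := by
  rw [IsLocallyConstant.iff_exists_open]
  intro c
  have hr : (0 : ℝ) < (2 : ℝ) ^ (-(n : ℤ)) := by positivity
  refine ⟨Metric.ball c ((2 : ℝ) ^ (-(n : ℤ))), Metric.isOpen_ball, Metric.mem_ball_self hr, ?_⟩
  intro c' hc'
  apply ev_congr ht
  intro j
  have h1 := (dist_pi_lt_iff hr).1 hc' j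
  rw [dist_eq_norm] at h1
  have h2 := (PadicInt.norm_le_pow_iff_mem_span_pow (p := 2) (c' j - c j) n).1
    (by push_cast; exact h1.le)
  rw [Ideal.mem_span_singleton] at h2
  simpa using h2

open scoped Classical in
theorem ev_int_locConst (hr : IsTateRep W t ρ) {u : AbsGal F × Fin 2 → ℤ_[2]}
    (hu : u ∈ intSpace hr) (n : ℕ) : IsLocallyConstant fun σ => ev t (fun j => u (σ, j)) n :=
  (ev_locConst' hr.1 n).comp_continuous (int_cont hr hu)

open scoped Classical in
/-- the integral elements are small modulo two -/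
theorem card_ind_le (hF : PropP F) (h : TwoTors W e1 e2 e3) (hr : IsTateRep W t ρ)
    {w : HeightOneSpectrum (𝓞 F)} (hw : (2 : 𝓞 F) ∈ w.asIdeal) {m : ℕ}
    (h0 : (dbl ((W⁄(w.adicCompletion F))⁄(w.adicCompletion F)).Point).range.index ≠ 0)
    (hm : (dbl ((W⁄(w.adicCompletion F))⁄(w.adicCompletion F)).Point).range.index ≤
      4 * 2 ^ m) (r : ℕ) (g : Fin r → AbsGal F × Fin 2 → ℤ_[2]) (hg : ∀ i, g i ∈ intSpace hr)
    (hi : Ind2 g) : r ≤ m + condExp e1 e2 e3 + 2 := by
  let G : (Fin r → Fin 2) → AbsGal F × Fin 2 → ℤ_[2] := fun c => ∑ i, ((c i : ℕ) : ℤ) • g i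
  have hG : ∀ c, G c ∈ intSpace hr := fun c =>
    (intSpace hr).sum_mem fun i _ => (intSpace hr).zsmul_mem (hg i) _
  let B : (Fin r → Fin 2) → AbsGal F → (W⁄(AlgebraicClosure F)).Point := fun c σ =>
    ev t (fun j => G c (σ, j)) 1
  have h2 : ∀ c σ, B c σ + B c σ = 0 := by
    intro c σ
    have := pow_ev hr.1 (fun j => G c (σ, j)) 1
    rwa [pow_one, two_nsmul] at this
  have hmul : ∀ c σ τ, B c (σ * τ) = B c σ + B c τ := by
    intro c σ τ
    have h3 := ev_coc hr (y := fun σ j => G c (σ, j)) (fun σ τ => int_coc' hr (hG c) σ τ) 1 σ τ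
    have h4 : gact W σ (B c τ) = B c τ := gact_two_torsion h σ (h2 c τ)
    show ev t (fun j => G c (σ * τ, j)) 1 = B c σ + B c τ
    rw [h3]
    rw [show gact W σ (ev t (fun j => G c (τ, j)) 1) = gact W σ (B c τ) from rfl, h4]
  have hB : Function.Injective B := by
    intro c c' hc
    have h5 : ∀ x, (2 : ℤ_[2]) ∣ ∑ i, (((((c i : ℕ) : ℤ) - ((c' i : ℕ) : ℤ) : ℤ)) : ℤ_[2]) * g i x := by
      rintro ⟨σ, j⟩
      have h6 : ev t (fun j => G c (σ, j)) 1 = ev t (fun j => G c' (σ, j)) 1 := congrFun hc σ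
      have h7 : ev t ((fun j => G c (σ, j)) - fun j => G c' (σ, j)) 1 = 0 := by
        rw [← evHom_apply hr.1, map_sub, evHom_apply, evHom_apply, h6, sub_self]
      have h8 := (ev_eq_zero_iff hr.1 _ 1).1 h7 j
      rw [pow_one] at h8
      have h9 : ((fun j => G c (σ, j)) - fun j => G c' (σ, j)) j =
          ∑ i, (((((c i : ℕ) : ℤ) - ((c' i : ℕ) : ℤ) : ℤ)) : ℤ_[2]) * g i (σ, j) := by
        rw [Pi.sub_apply]
        simp only [G, Finset.sum_apply, Pi.smul_apply]
        simp only [zsmul_eq_mul]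
        rw [← Finset.sum_sub_distrib]
        refine Finset.sum_congr rfl fun i _ => ?_
        push_cast
        ring
      rw [h9] at h8
      exact h8
    funext i
    have h10 := hi _ h5 i
    have h11 := (c i).2
    have h12 := (c' i).2
    apply Fin.ext
    omega
  obtain ⟨-, hcard⟩ := card_sel_le hF h hw h0 hm B hB
    (fun c => ev_int_locConst hr (hG c) 1) h2 hmul
    (fun c v => locTriv_of_int hr (hG c) 1 v)
  rw [Nat.card_eq_fintype_card, Fintype.card_fun, Fintype.card_fin, Fintype.card_fin] at hcard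
  exact (Nat.pow_le_pow_iff_right (by norm_num : 1 < 2)).1 hcard

/-- a compatible system of rational points of order a power of two is trivial -/
private theorem system_zero {B : Type*} [AddCommGroup B] (hFG : AddGroup.FG B) {q : ℕ → B}
    (h0 : ∀ n, (2 ^ n) • q n = 0) (hq : ∀ n, 2 • q (n + 1) = q n) (n : ℕ) : q n = 0 := by
  have hfin : Module.Finite ℤ B := Module.Finite.iff_addGroup_fg.2 hFG
  let H : ℕ →o Submodule ℤ B :=
    ⟨fun k => LinearMap.ker (LinearMap.lsmul ℤ B ((2 : ℤ) ^ k)), by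
      intro a b hab x hx
      rw [LinearMap.mem_ker, LinearMap.lsmul_apply] at hx ⊢
      obtain ⟨c, rfl⟩ := Nat.exists_eq_add_of_le hab
      rw [pow_add, mul_comm, mul_smul, hx, smul_zero]⟩
  obtain ⟨M, hM⟩ := monotone_stabilizes_iff_noetherian.2 (inferInstance : IsNoetherian ℤ B) H
  have h1 : ∀ k, (2 ^ k) • q (n + k) = q n := by
    intro k
    induction k with
    | zero => rw [pow_zero, one_smul, add_zero]
    | succ k ih => rw [pow_succ, mul_smul, ← add_assoc, hq, ih]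
  have h2 : q (n + M) ∈ H (n + M) := by
    show q (n + M) ∈ LinearMap.ker (LinearMap.lsmul ℤ B ((2 : ℤ) ^ (n + M)))
    rw [LinearMap.mem_ker, LinearMap.lsmul_apply]
    have := h0 (n + M)
    rw [← natCast_zsmul] at this
    push_cast at this
    exact this
  rw [← hM (n + M) (Nat.le_add_left _ _)] at h2
  have h3 : ((2 : ℤ) ^ M) • q (n + M) = 0 := by
    have h4 : q (n + M) ∈ LinearMap.ker (LinearMap.lsmul ℤ B ((2 : ℤ) ^ M)) := h2
    rwa [LinearMap.mem_ker, LinearMap.lsmul_apply] at h4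
  have h5 := h1 M
  rw [← natCast_zsmul] at h5
  push_cast at h5
  rw [← h5, h3]

open scoped Classical in
/-- no invariants -/
theorem cobLin_injective (hr : IsTateRep W t ρ) (hFG : AddGroup.FG (W⁄F).Point) :
    Function.Injective (OddP.cobLin ρ) := by
  rw [← LinearMap.ker_eq_bot, LinearMap.ker_eq_bot']
  intro v hv
  obtain ⟨k0, z0, hz0⟩ := exists_int_mul (v 0)
  obtain ⟨k1, z1, hz1⟩ := exists_int_mul (v 1)
  let c : Fin 2 → ℤ_[2] := ![2 ^ k1 * z0, 2 ^ k0 * z1]
  have e2 : ((2 : ℤ_[2]) : ℚ_[2]) = 2 := rfl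
  have hc : ∀ j, (c j : ℚ_[2]) = 2 ^ (k0 + k1) * v j := by
    intro j
    fin_cases j
    · show ((2 ^ k1 * z0 : ℤ_[2]) : ℚ_[2]) = 2 ^ (k0 + k1) * v 0
      rw [PadicInt.coe_mul, PadicInt.coe_pow, e2, hz0]
      ring
    · show ((2 ^ k0 * z1 : ℤ_[2]) : ℚ_[2]) = 2 ^ (k0 + k1) * v 1
      rw [PadicInt.coe_mul, PadicInt.coe_pow, e2, hz1]
      ring
  have hfix : ∀ σ : AbsGal F, (ρ σ).mulVec c = c := by
    intro σ
    funext j
    apply Subtype.ext
    show ((∑ k, ρ σ j k * c k : ℤ_[2]) : ℚ_[2]) = (c j : ℚ_[2])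
    have h1 := congrFun (congrFun hv σ) j
    rw [OddP.COH.cobLin_apply] at h1
    rw [OddP.COH.actLin_apply] at h1
    have h2 : (∑ k, (ρ σ j k : ℚ_[2]) * v k) = v j := by
      have h3 : (∑ k, (ρ σ j k : ℚ_[2]) * v k) - v j = 0 := h1
      linear_combination h3
    rw [PadicInt.coe_sum, hc, ← h2, Finset.mul_sum]
    refine Finset.sum_congr rfl fun k _ => ?_
    rw [PadicInt.coe_mul, hc]
    ring
  have hgal : ∀ n (σ : AbsGal F), gact W σ (ev t c n) = ev t c n := by
    intro n σ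
    rw [map_ev hr.1 (fun j => hr.2 σ j n), hfix]
  choose q hq using fun n => exists_incl (hgal n)
  have hinj : Function.Injective (incl W) :=
    Point.map_injective (W' := W) (Algebra.ofId F (AlgebraicClosure F))
  have h0 : ∀ n, q n = 0 := by
    refine system_zero hFG (fun n => ?_) (fun n => ?_)
    · apply hinj
      rw [map_nsmul, hq, map_zero, pow_ev hr.1]
    · apply hinj
      rw [map_nsmul, hq, hq, two_ev hr.1]
  have hc0 : c = 0 := by
    refine ev_inj hr.1 fun n => ?_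
    rw [← hq n, h0 n, map_zero, ev_zero hr.1]
  funext j
  have h5 := hc j
  rw [hc0] at h5
  have h6 : (2 : ℚ_[2]) ^ (k0 + k1) * v j = 0 := by
    rw [← h5]
    exact PadicInt.coe_zero
  exact (mul_eq_zero.1 h6).resolve_left (pow_ne_zero _ two_ne_zero)

open scoped Classical in
/-- the dimension of the Selmer space -/
theorem rank_kumLocSpace (hF : PropP F) (h : TwoTors W e1 e2 e3) (hr : IsTateRep W t ρ)
    (hFG : AddGroup.FG (W⁄F).Point)
    {w : HeightOneSpectrum (𝓞 F)} (hw : (2 : 𝓞 F) ∈ w.asIdeal) {m : ℕ}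
    (h0 : (dbl ((W⁄(w.adicCompletion F))⁄(w.adicCompletion F)).Point).range.index ≠ 0)
    (hm : (dbl ((W⁄(w.adicCompletion F))⁄(w.adicCompletion F)).Point).range.index ≤
      4 * 2 ^ m) :
    FiniteDimensional ℚ_[2] (kumLocSpace hr) ∧
    Module.finrank ℚ_[2] (kumLocSpace hr ⧸
      (LinearMap.range (OddP.cobLin ρ)).submoduleOf (kumLocSpace hr)) ≤ m + condExp e1 e2 e3 := by
  obtain ⟨r, hrR, g, hg, hspan⟩ := exists_span (intSpace_div hr)
    (fun r g hg hi => card_ind_le hF h hr hw h0 hm r g hg hi)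
  have hle : kumLocSpace hr ≤ Submodule.span ℚ_[2] (Set.range fun i => toQ (g i)) := by
    intro x hx
    obtain ⟨N, y, hy, -⟩ := hx.2
    have e2 : ((2 : ℤ_[2]) : ℚ_[2]) = 2 := rfl
    have h2N : (2 : ℚ_[2]) ^ N ≠ 0 := pow_ne_zero _ two_ne_zero
    have hyQ : toQ (fun p : AbsGal F × Fin 2 => y p.1 p.2) = (2 : ℚ_[2]) ^ N • x := by
      funext σ j
      exact hy σ j
    have hyI : (fun p : AbsGal F × Fin 2 => y p.1 p.2) ∈ intSpace hr := by
      rw [mem_intSpace, hyQ]
      exact Submodule.smul_mem _ _ hx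
    obtain ⟨a, ha⟩ := hspan _ hyI
    have hx' : x = ∑ i, (((2 : ℚ_[2]) ^ N)⁻¹ * (a i : ℚ_[2])) • toQ (g i) := by
      funext σ j
      rw [Finset.sum_apply, Finset.sum_apply]
      have h3 := ha (σ, j)
      have h4 := hy σ j
      have h5 : (y σ j : ℚ_[2]) = ∑ i, (a i : ℚ_[2]) * (g i (σ, j) : ℚ_[2]) := by
        have h6 : y σ j = ∑ i, a i * g i (σ, j) := h3
        rw [h6, PadicInt.coe_sum]
        exact Finset.sum_congr rfl fun i _ => PadicInt.coe_mul _ _
      have h7 : x σ j = ((2 : ℚ_[2]) ^ N)⁻¹ * (y σ j : ℚ_[2]) := by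
        rw [h4, inv_mul_cancel_left₀ h2N]
      rw [h7, h5, Finset.mul_sum]
      refine Finset.sum_congr rfl fun i _ => ?_
      show _ = (((2 : ℚ_[2]) ^ N)⁻¹ * (a i : ℚ_[2])) * (g i (σ, j) : ℚ_[2])
      ring
    rw [hx']
    exact Submodule.sum_mem _ fun i _ => Submodule.smul_mem _ _ (Submodule.subset_span ⟨i, rfl⟩)
  have hfinS : FiniteDimensional ℚ_[2]
      (Submodule.span ℚ_[2] (Set.range fun i => toQ (g i))) :=
    FiniteDimensional.span_of_finite ℚ_[2] (Set.finite_range _)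
  have hfin : FiniteDimensional ℚ_[2] (kumLocSpace hr) := Submodule.finiteDimensional_of_le hle
  refine ⟨hfin, ?_⟩
  have h8 : Module.finrank ℚ_[2] (kumLocSpace hr) ≤ r := by
    refine (Submodule.finrank_mono hle).trans ?_
    have := finrank_range_le_card (R := ℚ_[2]) (fun i => toQ (g i))
    rw [Set.finrank, Fintype.card_fin] at this
    exact this
  have h9 : Module.finrank ℚ_[2]
      ((LinearMap.range (OddP.cobLin ρ)).submoduleOf (kumLocSpace hr)) = 2 := by
    rw [(Submodule.submoduleOfEquivOfLe (cob_le hr)).finrank_eq,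
      LinearMap.finrank_range_of_inj (cobLin_injective hr hFG), Module.finrank_fin_fun]
  have h10 := Submodule.finrank_quotient_add_finrank
    ((LinearMap.range (OddP.cobLin ρ)).submoduleOf (kumLocSpace hr))
  rw [h9] at h10
  exact Nat.le_of_add_le_add_right (((le_of_eq h10).trans h8).trans hrR)

end Pool.Agent.Work.MP_787500_nt.AC
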