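import Mathlib
import Pool.Agent.Work.MP_787500_nt.RS.Bound
import Pool.Agent.Work.MP_787500_nt.AC.SelD

/-!
# The dimension of the Selmer space over the fields in the tower
-/

set_option autoImplicit false

namespace Pool.Agent.Work.MP_787500_nt.AC

open WithZero IsDedekindDomain NumberField WeierstrassCurve WeierstrassCurve.Affine
open Pool.Agent.Work.MP_787500_nt
open Pool.Agent.Work.MP_787500_nt.RS
open Pool.Agent.Work.MP_787500_nt.OddP (AbsGal)

universe u

variable {K F : Type u} [Field K] [NumberField K] [Field F] [NumberField F] [Algebra K F]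

theorem selmer_bound {q : ℕ} {s : K} (hb : IsBase K q s) (hF : InTwoTower K F) {e1 e2 e3 : F}
    (h12 : e1 ≠ e2) (h23 : e2 ≠ e3) (h31 : e3 ≠ e1)
    {t : Fin 2 → ℕ → ((legendre e1 e2 e3)⁄(AlgebraicClosure F)).Point}
    {ρ : AbsGal F →* Matrix (Fin 2) (Fin 2) ℤ_[2]} (hr : IsTateRep (legendre e1 e2 e3) t ρ) :
    FiniteDimensional ℚ_[2] (kumLocSpace hr) ∧
    Module.finrank ℚ_[2] (kumLocSpace hr ⧸
      (LinearMap.range (OddP.cobLin ρ)).submoduleOf (kumLocSpace hr)) ≤
      Module.finrank K F + condExp e1 e2 e3 := by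
  classical
  have hFG := (RS.bound hb hF h12 h23 h31).2.1
  obtain ⟨hK, hs, hq, hq16⟩ := hb
  have hP : PropP F := general_tower hK hs hq hq16 hF
  obtain ⟨w, hw, hcard⟩ := exists_dyadic_small (F := F) hK hs hq hq16
  have h := legendre_twoTors h12 h23 h31
  have := legendre_elliptic h12 h23 h31
  obtain ⟨i1, i2⟩ := index_local w hw ((h.bc (w.adicCompletion F)).bc (w.adicCompletion F))
  exact rank_kumLocSpace hP h hr hFG hw i1 (i2.trans (Nat.mul_le_mul le_rfl hcard))

end Pool.Agent.Work.MP_787500_nt.AC
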