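import Mathlib
import Pool.Agent.Work.MP_787500_nt.H10_Final
import Pool.Agent.Work.MP_787500_nt.RS.Sharp
import Pool.Agent.Work.MP_787500_nt.HC.Fin2
import Pool.Agent.Work.MP_787500_nt.AC.Defs
import Pool.Agent.Work.MP_787500_nt.AC.Gal
import Pool.Agent.Work.MP_787500_nt.AC.ECm
import Pool.Agent.Work.MP_787500_nt.AC.Inert
import Pool.Agent.Work.MP_787500_nt.AC.Van
import Pool.Agent.Work.MP_787500_nt.AC.Tw
import Pool.Agent.Work.MP_787500_nt.AC.KumG
import Pool.Agent.Work.MP_787500_nt.AC.KumC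
import Pool.Agent.Work.MP_787500_nt.AC.KumD

/-!
# Module FIN: assembly

`allCodim`: `legendre_twoTors` (H10_Final) for both curves; `exists_tateRep`, `exists_tateEigen`;
`kummer_le`, `mem_kummerSpace`, `rank_kummerSpace` (finite generation of the points: from `RS.bound`
or `rk_bound`); `noSelmer_of` with `rep_cont`, `rep_two`, `rep_eq_one` and `inertia_fix`: the
differences for `E` are `-1, 2, -1`, for `E0` they are `-1`, `w ^ 4`, `w' ^ 4` with
`w w' = 2`, `w = (1 - s) / 2`, `w' = (1 + s) / 2` integral, and `eigen_rep` for `ψ`.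
`exists_field`: `HC.exists_union` for `q = 7`.
-/

set_option autoImplicit false

namespace Pool.Agent.Work.MP_787500_nt.AC

open IsDedekindDomain NumberField
open Pool.Agent.Work.MP_787500_nt
open Pool.Agent.Work.MP_787500_nt.OddP (AbsGal)

universe u

section helpers

open WeierstrassCurve WeierstrassCurve.Affine

private theorem wdata {F : Type u} [Field F] [NumberField F] {s : F} (hs : s ^ 2 = -7) :
    ∃ w w' : F, IsIntegral ℤ w ∧ IsIntegral ℤ w' ∧ (1 - 3 * s) / 2 = w' ^ 4 ∧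
      1 - (1 - 3 * s) / 2 = w ^ 4 ∧ w * w' = 2 := by
  have h1 : ((1 - s) / 2) ^ 2 - (1 - s) / 2 + 2 = 0 := by
    linear_combination (1 / 4 : F) * hs
  have h2 : ((1 + s) / 2) ^ 2 - (1 + s) / 2 + 2 = 0 := by
    linear_combination (1 / 4 : F) * hs
  obtain ⟨P, hP⟩ := exists_int_of_eq h1
  obtain ⟨P', hP'⟩ := exists_int_of_eq h2
  refine ⟨(1 - s) / 2, (1 + s) / 2, ?_, ?_, ?_, ?_, ?_⟩
  · rw [← hP]; exact P.isIntegral_coe
  · rw [← hP']; exact P'.isIntegral_coe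
  · linear_combination (-(1 / 16 : F) * (s ^ 2 - 7) - (1 / 4 : F) * s - 3 / 8) * hs
  · linear_combination (-(1 / 16 : F) * (s ^ 2 - 7) + (1 / 4 : F) * s - 3 / 8) * hs
  · linear_combination (-(1 / 4 : F)) * hs

private theorem inert_rep {F : Type u} [Field F] [NumberField F] {W : WeierstrassCurve.Affine F}
    {e1 e2 e3 : F} (h : TwoTors W e1 e2 e3) (i1 : IsIntegral ℤ e1) (i2 : IsIntegral ℤ e2)
    (i3 : IsIntegral ℤ e3) (d1 : ∃ (b : F) (N : ℕ), IsIntegral ℤ b ∧ (e1 - e2) * b = 2 ^ N)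
    (d2 : ∃ (b : F) (N : ℕ), IsIntegral ℤ b ∧ (e2 - e3) * b = 2 ^ N)
    (d3 : ∃ (b : F) (N : ℕ), IsIntegral ℤ b ∧ (e3 - e1) * b = 2 ^ N)
    {t : Fin 2 → ℕ → (W⁄(AlgebraicClosure F)).Point}
    {ρ : AbsGal F →* Matrix (Fin 2) (Fin 2) ℤ_[2]} (hr : IsTateRep W t ρ)
    {Q : Ideal (𝓞 (AlgebraicClosure F))} (hQ : Q.IsPrime) (h2 : (2 : 𝓞 (AlgebraicClosure F)) ∉ Q)
    {σ : AbsGal F} (hσ : σ ∈ Q.inertia (AbsGal F)) : ρ σ = 1 := by
  classical
  refine rep_eq_one hr (fun j n => ?_)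
  convert inertia_fix h i1 i2 i3 d1 d2 d3 hQ h2 hσ (k := n) (P := t j n) ?_
  convert pow_smul_t hr.1 j n

private theorem twoTors_E (F : Type u) [Field F] [NumberField F] :
    TwoTors (legendre (0 : F) 1 (-1)) 0 1 (-1) :=
  legendre_twoTors (by norm_num) (by norm_num) (by norm_num)

private theorem twoTors_E0 {F : Type u} [Field F] [NumberField F] {s : F} (hs : s ^ 2 = -7) :
    TwoTors (legendre (0 : F) 1 ((1 - 3 * s) / 2)) 0 1 ((1 - 3 * s) / 2) := by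
  obtain ⟨w, w', -, -, h1, h2, h3⟩ := wdata hs
  have hw : w ≠ 0 := by
    rintro rfl
    rw [zero_mul] at h3
    exact two_ne_zero h3.symm
  have hw' : w' ≠ 0 := by
    rintro rfl
    rw [mul_zero] at h3
    exact two_ne_zero h3.symm
  refine legendre_twoTors (by norm_num) ?_ ?_
  · intro h
    have : w ^ 4 = 0 := by rw [← h2, ← h, sub_self]
    exact pow_ne_zero 4 hw this
  · rw [h1]
    exact pow_ne_zero 4 hw'

private theorem inert_E {F : Type u} [Field F] [NumberField F]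
    {t : Fin 2 → ℕ → ((legendre (0 : F) 1 (-1))⁄(AlgebraicClosure F)).Point}
    {ρ : AbsGal F →* Matrix (Fin 2) (Fin 2) ℤ_[2]}
    (hr : IsTateRep (legendre (0 : F) 1 (-1)) t ρ)
    {Q : Ideal (𝓞 (AlgebraicClosure F))} (hQ : Q.IsPrime) (h2 : (2 : 𝓞 (AlgebraicClosure F)) ∉ Q)
    {σ : AbsGal F} (hσ : σ ∈ Q.inertia (AbsGal F)) : ρ σ = 1 := by
  refine inert_rep (twoTors_E F) isIntegral_zero isIntegral_one isIntegral_one.neg
    ⟨-1, 0, isIntegral_one.neg, by norm_num⟩ ⟨1, 1, isIntegral_one, by norm_num⟩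
    ⟨-1, 0, isIntegral_one.neg, by norm_num⟩ hr hQ h2 hσ

private theorem inert_E0 {F : Type u} [Field F] [NumberField F] {s : F} (hs : s ^ 2 = -7)
    {t : Fin 2 → ℕ → ((legendre (0 : F) 1 ((1 - 3 * s) / 2))⁄(AlgebraicClosure F)).Point}
    {ρ : AbsGal F →* Matrix (Fin 2) (Fin 2) ℤ_[2]}
    (hr : IsTateRep (legendre (0 : F) 1 ((1 - 3 * s) / 2)) t ρ)
    {Q : Ideal (𝓞 (AlgebraicClosure F))} (hQ : Q.IsPrime) (h2 : (2 : 𝓞 (AlgebraicClosure F)) ∉ Q)
    {σ : AbsGal F} (hσ : σ ∈ Q.inertia (AbsGal F)) : ρ σ = 1 := by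
  obtain ⟨w, w', iw, iw', g1, g2, g3⟩ := wdata hs
  have h24 : w ^ 4 * w' ^ 4 = 2 ^ 4 := by rw [← mul_pow, g3]
  refine inert_rep (twoTors_E0 hs) isIntegral_zero isIntegral_one (by rw [g1]; exact iw'.pow 4)
    ⟨-1, 0, isIntegral_one.neg, by norm_num⟩ ⟨w' ^ 4, 4, iw'.pow 4, by rw [g2, h24]⟩
    ⟨w ^ 4, 4, iw.pow 4, by rw [g1, sub_zero, mul_comm, h24]⟩ hr hQ h2 hσ

private theorem psi_facts {F : Type u} [Field F] [NumberField F] {s : F} (hs : s ^ 2 = -7)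
    {t : Fin 2 → ℕ → ((legendre (0 : F) 1 ((1 - 3 * s) / 2))⁄(AlgebraicClosure F)).Point}
    {ψ : Fin 2 → AbsGal F →* ℤ_[2]ˣ}
    (hr : IsTateEigen (legendre (0 : F) 1 ((1 - 3 * s) / 2)) t ψ) :
    (∀ j, Continuous (ψ j)) ∧ ∀ (j : Fin 2) (Q : Ideal (𝓞 (AlgebraicClosure F))), Q.IsPrime →
      (2 : 𝓞 (AlgebraicClosure F)) ∉ Q → ∀ σ ∈ Q.inertia (AbsGal F), ψ j σ = 1 := by
  obtain ⟨ρ, hρ, hd⟩ := eigen_rep hr
  refine ⟨fun j => units_cont ?_, fun j Q hQ h2 σ hσ => ?_⟩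
  · have := (rep_cont hρ).matrix_elem j j
    simpa only [hd] using this
  · apply Units.ext
    rw [← hd σ j, inert_E0 hs hρ hQ h2 hσ, Matrix.one_apply_eq, Units.val_one]

private theorem div_zpow_eq {F : Type u} [Field F] (ψ ψ' : AbsGal F →* ℤ_[2]ˣ) (k : ℤ) :
    (ψ / ψ') ^ k = ψ ^ k * ψ' ^ (-k) := by
  refine MonoidHom.ext fun σ => ?_
  change (ψ σ / ψ' σ) ^ k = ψ σ ^ k * ψ' σ ^ (-k)
  rw [div_zpow, zpow_neg, div_eq_mul_inv]

private theorem chi_one {F : Type u} [Field F] {ψ ψ' : AbsGal F →* ℤ_[2]ˣ} {σ : AbsGal F}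
    (h : ψ σ = 1) (h' : ψ' σ = 1) (a b : ℤ) : (ψ ^ a * ψ' ^ b) σ = 1 := by
  rw [MonoidHom.mul_apply, MonoidHom.zpow_apply, MonoidHom.zpow_apply, h, h', one_zpow, one_zpow,
    one_mul]

private theorem kummer_onto {F : Type u} [Field F] [NumberField F]
    (hFG : by classical exact AddGroup.FG ((legendre (0 : F) 1 (-1))⁄F).Point)
    (hS : ShaTwoTrivial (legendre (0 : F) 1 (-1)))
    {t : Fin 2 → ℕ → ((legendre (0 : F) 1 (-1))⁄(AlgebraicClosure F)).Point}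
    {ρ : AbsGal F →* Matrix (Fin 2) (Fin 2) ℤ_[2]}
    (hr : IsTateRep (legendre (0 : F) 1 (-1)) t ρ) :
    KummerOnto (legendre (0 : F) 1 (-1)) t ρ (RS.rk F) := by
  classical
  refine ⟨fun x => ⟨fun hx => ?_, fun hx => kummer_le hr hx⟩, ?_⟩
  · exact mem_kummerSpace (twoTors_E F) hr (by convert hFG) hS hx.1 hx.2
  · refine (rank_kummerSpace (twoTors_E F) hr (by convert hFG)).trans ?_
    rw [RS.rk, RS.legendre_bc' (K := F) F]

end helpers

theorem allCodim {K F : Type u} [Field K] [NumberField K] [Field F] [NumberField F]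
    [Algebra K F] (hK : Module.finrank ℚ K = 2) {s : K} (hs : s ^ 2 = -7)
    (hF : InTwoTower K F) (hrk : RS.rk F = Module.finrank K F)
    (hS : ShaTwoTrivial (legendre (0 : F) 1 (-1))) :
    AllCodim (algebraMap K F s) (Module.finrank K F) := by
  have hs' : (algebraMap K F s) ^ 2 = -7 := by
    rw [← map_pow, hs, map_neg, map_ofNat]
  constructor
  · exact exists_tateRep (twoTors_E F)
  · exact exists_tateEigen hs'
  · intro t ρ hr
    rw [← hrk]
    exact kummer_onto (RS.rk_fg (RS.rk_le hK hs hF) F) hS hr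
  · intro t ρ t' ψ hr hψ k
    obtain ⟨hc, hi⟩ := psi_facts hs' hψ
    rw [div_zpow_eq]
    exact noSelmer_of hK hs hF _ (twist_cont (zpow_cont (hc 0) (hc 1) k (-k)) (rep_cont hr))
      (twist_two _ (rep_two (twoTors_E F) hr)) (fun Q hQ h2 σ hσ =>
        twist_eq_one (chi_one (hi 0 Q hQ h2 σ hσ) (hi 1 Q hQ h2 σ hσ) _ _)
          (inert_E hr hQ h2 hσ))
  · intro t' ψ hψ k
    obtain ⟨hc, hi⟩ := psi_facts hs' hψ
    exact noSelmer_of hK hs hF _ (twist_cont (zpow_cont (hc 0) (hc 1) (k + 1) (-k))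
      continuous_const) (twist_two _ (fun σ i j => by
        rw [MonoidHom.one_apply, sub_self]
        exact dvd_zero _)) (fun Q hQ h2 σ hσ =>
        twist_eq_one (chi_one (hi 0 Q hQ h2 σ hσ) (hi 1 Q hQ h2 σ hσ) _ _) rfl)

theorem exists_field {K : Type u} [Field K] [NumberField K] (hK : Module.finrank ℚ K = 2)
    {s : K} (hs : s ^ 2 = -7) :
    ∃ L : IntermediateField K (AlgebraicClosure K), ¬ FiniteDimensional K L ∧
      ∀ F : IntermediateField K (AlgebraicClosure K), F ≤ L → ∀ _ : NumberField F,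
        IsGalois K F ∧ (∀ σ τ : F ≃ₐ[K] F, σ * τ = τ * σ) ∧
          AllCodim (algebraMap K F s) (Module.finrank K F) := by
  obtain ⟨L, hL, h⟩ := HC.exists_union (RS.isBase_seven hK hs)
  refine ⟨L, hL, fun F hF hN => ?_⟩
  obtain ⟨h1, h2, h3, h4, h5⟩ := h F hF hN
  exact ⟨h1, h2, allCodim hK hs h3 h4 h5⟩

end Pool.Agent.Work.MP_787500_nt.AC
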