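import Mathlib
import Pool.Agent.Work.MP_787500_nt.AC.Gen
import Pool.Agent.Work.MP_787500_nt.AC.SelL
import Pool.Agent.Work.MP_787500_nt.AC.EXG

/-!
The local conditions and the Abel-Jacobi classes over the fields in the tower.
-/

set_option autoImplicit false

namespace Pool.Agent.Work.MP_787500_nt.AC

open IsDedekindDomain NumberField WeierstrassCurve WeierstrassCurve.Affine
open Pool.Agent.Work.MP_787500_nt
open Pool.Agent.Work.MP_787500_nt.OddP (AbsGal cocycles cobLin locally actLin zeroOn)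

universe u

section aj

variable {F : Type u} [Field F]
variable {i : ℕ} {ρ : AbsGal F →* Matrix (Fin 2) (Fin 2) ℤ_[2]}
  {ψ : Fin 2 → AbsGal F →* ℤ_[2]ˣ} {W : WeierstrassCurve.Affine F}
  {t : Fin 2 → ℕ → (W⁄(AlgebraicClosure F)).Point}

/-- the dimension of the space of the classes `κ ∧ ω` -/
theorem rank_ajX : Module.rank ℚ_[2] (ajX i W t ρ ψ ⧸
      (cobOn i ρ ψ (⋀[ℚ_[2]]^(2 * i + 1) (VX i)) ⊤).submoduleOf (ajX i W t ρ ψ)) =
    ((2 * i).choose i : Cardinal) ^ 2 * Module.rank ℚ_[2] (kummerSpace W t ρ ⧸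
      (LinearMap.range (cobLin ρ)).submoduleOf (kummerSpace W t ρ)) := by
  rw [ajX_eq]
  exact rank_wedge _

end aj

variable {K F : Type u} [Field K] [NumberField K] [Field F] [NumberField F] [Algebra K F] {s : K}
  {W : WeierstrassCurve.Affine F} {e1 e2 e3 : F}
  {t : Fin 2 → ℕ → (W⁄(AlgebraicClosure F)).Point}
  {ρ : AbsGal F →* Matrix (Fin 2) (Fin 2) ℤ_[2]}
  {t' : Fin 2 → ℕ → ((legendre 0 1 ((1 - 3 * algebraMap K F s) / 2))⁄(AlgebraicClosure F)).Point}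
  {ψ : Fin 2 → AbsGal F →* ℤ_[2]ˣ}

/-- the sum of the local conditions over the fields in the tower -/
theorem selX_tower (hK : Module.finrank ℚ K = 2) (hs : s ^ 2 = -7) (hF : InTwoTower K F)
    (h : TwoTors W e1 e2 e3) (hfin : (multPlaces e1 e2 e3 ∪ addPlaces e1 e2 e3).Finite)
    (hc : condExp e1 e2 e3 = 0) (hr : IsTateRep W t ρ)
    (hψ : IsTateEigen (legendre 0 1 ((1 - 3 * algebraMap K F s) / 2)) t' ψ) (i : ℕ) :
    selX i W t ρ ψ = cobOn i ρ ψ (⋀[ℚ_[2]]^(2 * i + 1) (VX i)) ⊤ ⊔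
      wedge i (kumLocSpace hr : Set (AbsGal F → Fin 2 → ℚ_[2])) :=
  selX_eq (δ := detChar ρ) detChar_apply
    (fun a b => noSelmer_char hK hs hF hψ a b 1)
    (fun a b => noSelmer_twist hK hs hF h hfin hc hr hψ a b)
    (fun a b => noSelmer_det hK hs hF h hfin hc hr hψ a b 1)

/-- the dimension of the sum of the local conditions over the fields in the tower -/
theorem rank_selX_tower (hK : Module.finrank ℚ K = 2) (hs : s ^ 2 = -7) (hF : InTwoTower K F)
    (h : TwoTors W e1 e2 e3) (hfin : (multPlaces e1 e2 e3 ∪ addPlaces e1 e2 e3).Finite)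
    (hc : condExp e1 e2 e3 = 0) (hr : IsTateRep W t ρ)
    (hψ : IsTateEigen (legendre 0 1 ((1 - 3 * algebraMap K F s) / 2)) t' ψ) (i : ℕ) :
    Module.rank ℚ_[2] (selX i W t ρ ψ ⧸
      (cobOn i ρ ψ (⋀[ℚ_[2]]^(2 * i + 1) (VX i)) ⊤).submoduleOf (selX i W t ρ ψ)) =
    ((2 * i).choose i : Cardinal) ^ 2 * Module.rank ℚ_[2] (kumLocSpace hr ⧸
      (LinearMap.range (cobLin ρ)).submoduleOf (kumLocSpace hr)) := by
  rw [selX_tower hK hs hF h hfin hc hr hψ i]
  exact rank_wedge _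

/-- the case of a surjective Kummer map -/
theorem selX_tower_onto (hK : Module.finrank ℚ K = 2) (hs : s ^ 2 = -7) (hF : InTwoTower K F)
    (h : TwoTors W e1 e2 e3) (hfin : (multPlaces e1 e2 e3 ∪ addPlaces e1 e2 e3).Finite)
    (hc : condExp e1 e2 e3 = 0) (hr : IsTateRep W t ρ)
    (hψ : IsTateEigen (legendre 0 1 ((1 - 3 * algebraMap K F s) / 2)) t' ψ) {r : ℕ}
    (hk : KummerOnto W t ρ r) (i : ℕ) :
    selX i W t ρ ψ = ajX i W t ρ ψ ∧ Module.rank ℚ_[2] (selX i W t ρ ψ ⧸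
      (cobOn i ρ ψ (⋀[ℚ_[2]]^(2 * i + 1) (VX i)) ⊤).submoduleOf (selX i W t ρ ψ)) =
        ((2 * i).choose i ^ 2 * r : ℕ) := by
  have h1 : selX i W t ρ ψ = ajX i W t ρ ψ :=
    selX_eq_ajX (δ := detChar ρ) detChar_apply
      (fun a b => noSelmer_char hK hs hF hψ a b 1)
      (fun a b => noSelmer_twist hK hs hF h hfin hc hr hψ a b)
      (fun a b => noSelmer_det hK hs hF h hfin hc hr hψ a b 1) hk.1
  refine ⟨h1, ?_⟩
  have h2 : Module.rank ℚ_[2] (kummerSpace W t ρ ⧸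
      (LinearMap.range (cobLin ρ)).submoduleOf (kummerSpace W t ρ)) = r := hk.2
  rw [h1, rank_ajX, h2]
  push_cast
  rfl

end Pool.Agent.Work.MP_787500_nt.AC
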