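import Mathlib
import Pool.Agent.Work.MP_787500_nt.RS.Sharp
import Pool.Agent.Work.MP_787500_nt.HC.Fin2
import Pool.Agent.Work.MP_787500_nt.AC.Defs
import Pool.Agent.Work.MP_787500_nt.AC.Gen

/-!
The Kummer isomorphism onto the 2-adic Selmer groups, and the vanishing of the Selmer groups of the
twisted pieces (version by pieces).
-/

set_option autoImplicit false

namespace Pool.Agent.Work.MP_787500_nt.AC

open IsDedekindDomain NumberField WeierstrassCurve WeierstrassCurve.Affine
open Pool.Agent.Work.MP_787500_nt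
open Pool.Agent.Work.MP_787500_nt.OddP (AbsGal)

universe u

open scoped Classical in
/-- For all curves with full two-torsion over `F`: the rank is at most `d` plus the exponent of the
conductor away from 2, and in the case of equality the 2-primary part of the Tate-Shafarevich group
is trivial and the Kummer map is onto. -/
def Bounded (F : Type u) [Field F] [NumberField F] (d : ℕ) : Prop :=
  ∀ e1 e2 e3 : F, e1 ≠ e2 → e2 ≠ e3 → e3 ≠ e1 →
    (multPlaces e1 e2 e3 ∪ addPlaces e1 e2 e3).Finite ∧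
      RankShaBound (legendre e1 e2 e3) (d + condExp e1 e2 e3) ∧
      (∃ t ρ, IsTateRep (legendre e1 e2 e3) t ρ) ∧
      (Module.finrank ℤ (legendre e1 e2 e3).Point = d + condExp e1 e2 e3 →
        ∀ t ρ, IsTateRep (legendre e1 e2 e3) t ρ →
          KummerOnto (legendre e1 e2 e3) t ρ (d + condExp e1 e2 e3))

/-- the twisted pieces -/
def Vanish (F : Type u) [Field F] [NumberField F] (s : F) : Prop :=
  (∃ t ψ, IsTateEigen (legendre 0 1 ((1 - 3 * s) / 2)) t ψ) ∧
    ∀ t' ψ, IsTateEigen (legendre 0 1 ((1 - 3 * s) / 2)) t' ψ → ∀ a b : ℤ,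
      (∀ n, NoSelmer (twist (ψ 0 ^ a * ψ 1 ^ b) (1 : AbsGal F →* Matrix (Fin n) (Fin n) ℤ_[2]))) ∧
        ∀ e1 e2 e3 : F, e1 ≠ e2 → e2 ≠ e3 → e3 ≠ e1 → condExp e1 e2 e3 = 0 →
          ∀ t ρ, IsTateRep (legendre e1 e2 e3) t ρ → NoSelmer (twist (ψ 0 ^ a * ψ 1 ^ b) ρ)

theorem bounded_of {K F : Type u} [Field K] [NumberField K] [Field F] [NumberField F] [Algebra K F]
    {q : ℕ} {s : K} (hb : IsBase K q s) (hF : InTwoTower K F) : Bounded F (Module.finrank K F) := by
  classical
  intro e1 e2 e3 h12 h23 h31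
  obtain ⟨h1, h2⟩ := RS.bound hb hF h12 h23 h31
  refine ⟨h1, h2, exists_tateRep (legendre_twoTors h12 h23 h31), fun hr t ρ ht => ?_⟩
  exact kummerOnto (legendre_twoTors h12 h23 h31) ht h2.1 hr (h2.2.2 hr)

theorem vanish_of {K F : Type u} [Field K] [NumberField K] [Field F] [NumberField F] [Algebra K F]
    (hK : Module.finrank ℚ K = 2) {s : K} (hs : s ^ 2 = -7) (hF : InTwoTower K F) :
    Vanish F (algebraMap K F s) := by
  refine ⟨exists_tateEigen ?_, fun t' ψ hψ a b => ⟨fun n => noSelmer_char hK hs hF hψ a b n,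
    fun e1 e2 e3 h12 h23 h31 hc t ρ hr => ?_⟩⟩
  · rw [← map_pow, hs, map_neg, map_ofNat]
  · have hb := RS.isBase_seven hK hs
    exact noSelmer_twist hK hs hF (legendre_twoTors h12 h23 h31) (RS.bound hb hF h12 h23 h31).1 hc
      hr hψ a b

end Pool.Agent.Work.MP_787500_nt.AC
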