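import Mathlib
import Pool.Agent.Work.MP_787500_nt.H9_Main
import Pool.Agent.Work.MP_787500_nt.H67_Defs
import Pool.Agent.Work.MP_787500_nt.H10_Defs
import Pool.Agent.Work.MP_787500_nt.H10_Gen
import Pool.Agent.Work.MP_787500_nt.H10_Even
import Pool.Agent.Work.MP_787500_nt.H10_Val
import Pool.Agent.Work.MP_787500_nt.GP.C6_In

/-!
Inertia groups fix the halves of the points which they fix, at the places of good reduction.
-/

set_option autoImplicit false

namespace Pool.Agent.Work.MP_787500_nt.AC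

open WithZero IsDedekindDomain NumberField WeierstrassCurve WeierstrassCurve.Affine
open Pool.Agent.Work.MP_787500_nt.OddP (AbsGal)
open Pool.Agent.Work.MP_787500_nt.GP

universe u

variable {F : Type u} [Field F] [NumberField F] {W : WeierstrassCurve.Affine F} {e1 e2 e3 : F}

/-- the differences of `e1`, `e2`, `e3` have the same valuation at `v`, which is a square -/
def GoodAt (e1 e2 e3 : F) (v : HeightOneSpectrum (𝓞 F)) : Prop :=
  ∃ g : ℤᵐ⁰, g ≠ 0 ∧ v.valuation F (e1 - e2) = g ^ 2 ∧ v.valuation F (e2 - e3) = g ^ 2 ∧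
    v.valuation F (e3 - e1) = g ^ 2

theorem GoodAt.rot {v : HeightOneSpectrum (𝓞 F)} (h : GoodAt e1 e2 e3 v) : GoodAt e2 e3 e1 v := by
  obtain ⟨g, g0, h1, h2, h3⟩ := h
  exact ⟨g, g0, h2, h3, h1⟩

/-- a square root of `X - e1` for a point `(X, Y)` fixed by the inertia group is fixed -/
theorem root_fix {Q : Ideal (𝓞 (AlgebraicClosure F))} (hQ : Q.IsPrime)
    (h2 : (2 : 𝓞 (AlgebraicClosure F)) ∉ Q)
    (hg : ∀ v : HeightOneSpectrum (𝓞 F),
      Q.comap (algebraMap (𝓞 F) (𝓞 (AlgebraicClosure F))) = v.asIdeal → GoodAt e1 e2 e3 v)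
    {X Y : AlgebraicClosure F} (hX : ∀ n ∈ Q.inertia (AbsGal F), n X = X)
    (hY : ∀ n ∈ Q.inertia (AbsGal F), n Y = Y)
    (hXY : Y ^ 2 = (X - algebraMap F _ e1) * (X - algebraMap F _ e2) * (X - algebraMap F _ e3))
    {r : AlgebraicClosure F} (hr : r ^ 2 = X - algebraMap F _ e1) :
    ∀ n ∈ Q.inertia (AbsGal F), n r = r := by
  intro n hn
  by_cases hX1 : X = algebraMap F _ e1
  · have : r = 0 := by
      rw [hX1, sub_self] at hr
      exact pow_eq_zero_iff two_ne_zero |>.1 hr
    rw [this, map_zero]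
  let M : IntermediateField F (AlgebraicClosure F) := IntermediateField.adjoin F {X, Y}
  have hfin : FiniteDimensional F M :=
    IntermediateField.finiteDimensional_adjoin fun x _ => Algebra.IsIntegral.isIntegral x
  let U : Subgroup (AbsGal F) := M.fixingSubgroup
  have hFx : Fx U = M := InfiniteGalois.fixedField_fixingSubgroup M
  have hfinU : FiniteDimensional F (Fx U) := by rw [hFx]; exact hfin
  have hNF : NumberField (Fx U) := NumberField.of_module_finite F _
  have hU : (Fx U).fixingSubgroup = U := by rw [hFx]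
  have hXM : X ∈ Fx U := by
    rw [hFx]; exact IntermediateField.subset_adjoin F _ (by simp)
  have hYM : Y ∈ Fx U := by
    rw [hFx]; exact IntermediateField.subset_adjoin F _ (by simp)
  have hle : M ≤ Fx (Q.inertia (AbsGal F)) := by
    rw [IntermediateField.adjoin_le_iff]
    rintro z (rfl | rfl)
    · exact mem_Fx.2 hX
    · exact mem_Fx.2 hY
  have hin : Q.inertia (AbsGal F) ≤ U := by
    intro m hm
    rw [IntermediateField.mem_fixingSubgroup_iff]
    intro z hz
    exact mem_Fx.1 (hle hz) m hm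
  by_cases hbot : Q.comap (algebraMap (𝓞 (Fx U)) (𝓞 (AlgebraicClosure F))) = ⊥
  · have : Algebra.IsIntegral (𝓞 (Fx U)) (𝓞 (AlgebraicClosure F)) := inferInstance
    have hQb : Q = ⊥ := Ideal.eq_bot_of_comap_eq_bot hbot
    rw [hQb] at hn
    rw [eq_one_of_inertia_bot (F := F) hn]
    rfl
  have hprime : (Q.comap (algebraMap (𝓞 (Fx U)) (𝓞 (AlgebraicClosure F)))).IsPrime :=
    Ideal.comap_isPrime _ _
  let v : HeightOneSpectrum (𝓞 (Fx U)) := ⟨_, hprime, hbot⟩
  have hv : Q.comap (algebraMap (𝓞 (Fx U)) (𝓞 (AlgebraicClosure F))) = v.asIdeal := rfl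
  have hbel : Q.comap (algebraMap (𝓞 F) (𝓞 (AlgebraicClosure F))) = (below F v).asIdeal := by
    show _ = v.asIdeal.comap (algebraMap (𝓞 F) (𝓞 (Fx U)))
    rw [← hv, Ideal.comap_comap]
    rfl
  obtain ⟨g, g0, h1, h22, h3⟩ := hg _ hbel
  obtain ⟨e, he0, he⟩ := exists_valuation_below (K := F) v
  have hge : g ^ e ≠ 0 := pow_ne_zero _ g0
  have k1 : v.valuation (Fx U) (algebraMap F (Fx U) e1 - algebraMap F (Fx U) e2) = (g ^ e) ^ 2 := by
    rw [← map_sub, ← he, h1, ← pow_mul, ← pow_mul, mul_comm]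
  have k3 : v.valuation (Fx U) (algebraMap F (Fx U) e3 - algebraMap F (Fx U) e1) = (g ^ e) ^ 2 := by
    rw [← map_sub, ← he, h3, ← pow_mul, ← pow_mul, mul_comm]
  let X' : Fx U := ⟨X, hXM⟩
  let Y' : Fx U := ⟨Y, hYM⟩
  have hc : ∀ a : F, ((algebraMap F (Fx U) a : Fx U) : AlgebraicClosure F) = algebraMap F _ a :=
    fun a => rfl
  have hXY' : Y' ^ 2 = (X' - algebraMap F (Fx U) e1) * (X' - algebraMap F (Fx U) e2) *
      (X' - algebraMap F (Fx U) e3) := by
    apply Subtype.ext
    push_cast
    exact hXY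
  have hb0 : X' - algebraMap F (Fx U) e1 ≠ 0 := by
    intro hcon
    apply hX1
    have : X - algebraMap F _ e1 = 0 := congrArg (fun z : Fx U => (z : AlgebraicClosure F)) hcon
    exact sub_eq_zero.1 this
  have hsq : IsSquare (v.valuation (Fx U) (X' - algebraMap F (Fx U) e1)) := by
    by_cases hX2 : X' - algebraMap F (Fx U) e2 = 0
    · have : X' - algebraMap F (Fx U) e1 = -(algebraMap F (Fx U) e1 - algebraMap F (Fx U) e2) := by
        linear_combination hX2
      rw [this, Valuation.map_neg, k1]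
      exact ⟨g ^ e, pow_two _⟩
    by_cases hX3 : X' - algebraMap F (Fx U) e3 = 0
    · have : X' - algebraMap F (Fx U) e1 = algebraMap F (Fx U) e3 - algebraMap F (Fx U) e1 := by
        linear_combination hX3
      rw [this, k3]
      exact ⟨g ^ e, pow_two _⟩
    exact even_of_sol (z1 := 1) (z2 := 1) (z3 := 1) (w := 1) hge k1 k3 hb0 hX2 hX3
      ⟨Y', by rw [← hXY', pow_two]⟩ (Or.inl one_ne_zero) (by ring) (by ring) (by ring)
  have hr' : r ^ 2 = ((X' - algebraMap F (Fx U) e1 : Fx U) : AlgebraicClosure F) := by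
    rw [hr]
    rfl
  exact (ram_iff hU hQ h2 hv hin hb0 hr').2 hsq n hn

open scoped Classical in
/-- the halves of a point fixed by the inertia group are fixed -/
theorem half_fix (h : TwoTors W e1 e2 e3) {Q : Ideal (𝓞 (AlgebraicClosure F))} (hQ : Q.IsPrime)
    (h2 : (2 : 𝓞 (AlgebraicClosure F)) ∉ Q)
    (hg : ∀ v : HeightOneSpectrum (𝓞 F),
      Q.comap (algebraMap (𝓞 F) (𝓞 (AlgebraicClosure F))) = v.asIdeal → GoodAt e1 e2 e3 v)
    {a b : (W⁄(AlgebraicClosure F)).Point} (hab : 2 • b = a) (ha : ∀ n ∈ Q.inertia (AbsGal F), gact W n a = a) :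
    ∀ n ∈ Q.inertia (AbsGal F), gact W n b = b := by
  intro n hn
  rw [two_smul] at hab
  by_cases ha0 : a = 0
  · exact gact_two_torsion h n (by rw [hab, ha0])
  obtain _ | ⟨X, Y, hn'⟩ := a
  · exact absurd Point.zero_def.symm ha0
  have hX : ∀ m ∈ Q.inertia (AbsGal F), m X = X := by
    intro m hm
    have := ha m hm
    rw [gact, Point.map_some] at this
    simp only [Point.some.injEq] at this
    exact this.1
  have hY : ∀ m ∈ Q.inertia (AbsGal F), m Y = Y := by
    intro m hm
    have := ha m hm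
    rw [gact, Point.map_some] at this
    simp only [Point.some.injEq] at this
    exact this.2
  have hb := h.bc (AlgebraicClosure F)
  have heq := hb.eq_of_nonsingular hn'
  set c : (W⁄(AlgebraicClosure F)).Point := gact W n b - b with hcdef
  have hnb : gact W n b = b + c := by rw [hcdef]; abel
  have hc : c + c = 0 := by
    have h1 : gact W n b + gact W n b = b + b := by
      rw [← map_add, hab, ha n hn]
    have : c + c = (gact W n b + gact W n b) - (b + b) := by rw [hcdef]; abel
    rw [this, h1, sub_self]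
  have hb2 : b + b ≠ 0 := by rw [hab]; exact ha0
  -- the roots
  have key : ∀ {f1 f2 f3 : F} (hf : TwoTors W f1 f2 f3),
      (∀ v : HeightOneSpectrum (𝓞 F),
      Q.comap (algebraMap (𝓞 F) (𝓞 (AlgebraicClosure F))) = v.asIdeal → GoodAt f1 f2 f3 v) →
      Y ^ 2 = (X - algebraMap F _ f1) * (X - algebraMap F _ f2) * (X - algebraMap F _ f3) →
      X ≠ algebraMap F _ f1 → inA (hf.bc (AlgebraicClosure F)) c := by
    intro f1 f2 f3 hf hgf hf' hne
    by_contra hcon
    have r2 := rFun_sq (hf.bc (AlgebraicClosure F)) hab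
    have h4 := root_fix hQ h2 hgf hX hY hf' r2 n hn
    have h5 := map_rFun (e1 := f1) (e2 := f2) (e3 := f3) (W := W)
      (n : AlgebraicClosure F →ₐ[F] AlgebraicClosure F) b
    have h6 := rFun_add_of_not_inA (hf.bc (AlgebraicClosure F)) hb2 hc hcon
    rw [← hnb] at h6
    have h7 : rFun (algebraMap F (AlgebraicClosure F) f1) (algebraMap F (AlgebraicClosure F) f2)
        (algebraMap F (AlgebraicClosure F) f3) (gact W n b) =
        n (rFun (algebraMap F (AlgebraicClosure F) f1) (algebraMap F (AlgebraicClosure F) f2)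
        (algebraMap F (AlgebraicClosure F) f3) b) := h5
    rw [h7, h4] at h6
    have h8 : rFun (algebraMap F (AlgebraicClosure F) f1) (algebraMap F (AlgebraicClosure F) f2)
        (algebraMap F (AlgebraicClosure F) f3) b = 0 := by
      have : (2 : AlgebraicClosure F) * rFun (algebraMap F (AlgebraicClosure F) f1)
        (algebraMap F (AlgebraicClosure F) f2) (algebraMap F (AlgebraicClosure F) f3) b = 0 := by
        linear_combination h6
      exact (mul_eq_zero.1 this).resolve_left two_ne_zero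
    rw [h8] at r2
    exact hne (by linear_combination -r2)
  have hinj := (algebraMap F (AlgebraicClosure F)).injective
  have c0 : c = 0 := by
    by_cases hX1 : X = algebraMap F _ e1
    · have n2 : X ≠ algebraMap F _ e2 := fun hh => h.h12 (hinj (hX1.symm.trans hh))
      have n3 : X ≠ algebraMap F _ e3 := fun hh => h.h31 (hinj (hh.symm.trans hX1))
      have i2 := key h.rot (fun v hv => (hg v hv).rot) (by rw [heq]; ring) n2
      have i3 := key h.rot.rot (fun v hv => (hg v hv).rot.rot) (by rw [heq]; ring) n3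
      rcases i2 with i2 | i2
      · exact i2
      · rw [i2] at i3
        exact absurd i3 (not_inA_rot2 (h.rot.rot.bc (AlgebraicClosure F)))
    · have i1 := key h hg (by rw [heq]) hX1
      by_cases hX2 : X = algebraMap F _ e2
      · have n3 : X ≠ algebraMap F _ e3 := fun hh => h.h23 (hinj (hX2.symm.trans hh))
        have i3 := key h.rot.rot (fun v hv => (hg v hv).rot.rot) (by rw [heq]; ring) n3
        rcases i1 with i1 | i1
        · exact i1
        · rw [i1] at i3
          exact absurd i3 (not_inA_rot (h.rot.rot.bc (AlgebraicClosure F)))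
      · have i2 := key h.rot (fun v hv => (hg v hv).rot) (by rw [heq]; ring) hX2
        rcases i1 with i1 | i1
        · exact i1
        · rw [i1] at i2
          exact absurd i2 (not_inA_rot2 (h.rot.bc (AlgebraicClosure F)))
  rw [hnb, c0, add_zero]

open scoped Classical in
/-- the points of order a power of two are fixed by the inertia group -/
theorem tors_fix (h : TwoTors W e1 e2 e3) {Q : Ideal (𝓞 (AlgebraicClosure F))} (hQ : Q.IsPrime)
    (h2 : (2 : 𝓞 (AlgebraicClosure F)) ∉ Q)
    (hg : ∀ v : HeightOneSpectrum (𝓞 F),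
      Q.comap (algebraMap (𝓞 F) (𝓞 (AlgebraicClosure F))) = v.asIdeal → GoodAt e1 e2 e3 v)
    (k : ℕ) : ∀ b : (W⁄(AlgebraicClosure F)).Point, 2 ^ k • b = 0 →
      ∀ n ∈ Q.inertia (AbsGal F), gact W n b = b := by
  induction k with
  | zero =>
    intro b hb n _
    rw [pow_zero, one_smul] at hb
    rw [hb, map_zero]
  | succ k ih =>
    intro b hb
    refine half_fix h hQ h2 hg rfl (ih (2 • b) ?_)
    rw [← mul_smul, ← pow_succ]
    exact hb

/-- good reduction away from two in terms of the conductor -/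
theorem goodAt_of_condExp (h : TwoTors W e1 e2 e3) (h0 : condExp e1 e2 e3 = 0)
    {v : HeightOneSpectrum (𝓞 F)} (hv : (2 : 𝓞 F) ∉ v.asIdeal) : GoodAt e1 e2 e3 v := by
  have hfin := places_finite h.h12 h.h23 h.h31
  have fS : (multPlaces e1 e2 e3).Finite := hfin.subset Set.subset_union_left
  have fT : (addPlaces e1 e2 e3).Finite := hfin.subset Set.subset_union_right
  rw [condExp] at h0
  have hS : (multPlaces e1 e2 e3) = ∅ := (Set.ncard_eq_zero fS).1 (by omega)
  have hT : (addPlaces e1 e2 e3) = ∅ := (Set.ncard_eq_zero fT).1 (by omega)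
  have h1 : IsSquare (diffVal e1 e2 e3 v) := by
    by_contra hcon
    have : v ∈ addPlaces e1 e2 e3 := ⟨hv, hcon⟩
    rw [hT] at this
    exact this
  have h2 : v.valuation F (e1 - e2) = v.valuation F (e2 - e3) ∧
      v.valuation F (e2 - e3) = v.valuation F (e3 - e1) := by
    by_contra hcon
    have : v ∈ multPlaces e1 e2 e3 := ⟨hv, h1, hcon⟩
    rw [hS] at this
    exact this
  obtain ⟨g1, g2⟩ := h2
  rw [diffVal, g1, ← g2, max_self, max_self] at h1
  obtain ⟨g, hgg⟩ := h1
  have hne : v.valuation F (e2 - e3) ≠ 0 := (v.valuation F).ne_zero_iff.2 (sub_ne_zero.2 h.h23)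
  refine ⟨g, ?_, ?_, ?_, ?_⟩
  · rintro rfl
    exact hne (by rw [hgg, mul_zero])
  · rw [g1, hgg, pow_two]
  · rw [hgg, pow_two]
  · rw [← g2, hgg, pow_two]

end Pool.Agent.Work.MP_787500_nt.AC
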